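import Pool.Agent.H382L.GapTailG

/-! Uniform upper bound for the frequency of long gaps between zeros of zeta. -/

open Complex Filter Topology Set MeasureTheory

namespace LG

open SG (phi hh nn dd dl ord NZ zmult)
open SP

/-- normalised gap `(γ' log γ' - γ log γ) / 2π` -/
noncomputable def dlt (n : ℕ) : ℝ :=
  (ord (n + 1) * Real.log (ord (n + 1)) - ord n * Real.log (ord n)) / (2 * Real.pi)

namespace GapAux

lemma exists_T (C c : ℝ) (hC : 1 ≤ C) (hc : 0 < c) : ∃ T1 : ℝ, ∀ T : ℝ, T1 ≤ T →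
    C * (C / (c * Real.log T)) ^ (c * Real.log T / C) * (T * Real.log T) < 1 := by
  have hCpos : 0 < C := by linarith
  have hlim : Tendsto (fun T : ℝ => Real.log (c / C * Real.log T)) atTop atTop := by
    apply Real.tendsto_log_atTop.comp
    exact Real.tendsto_log_atTop.const_mul_atTop (by positivity)
  obtain ⟨T1, hT1⟩ := (tendsto_atTop.mp hlim (4 * C / c)).exists_forall_of_atTop
  refine ⟨max T1 (C + 10), fun T hT => ?_⟩
  have hT2 : C + 10 ≤ T := (le_max_right _ _).trans hT
  have h1 := hT1 T ((le_max_left _ _).trans hT)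
  have hTpos : 0 < T := by linarith
  have hL : 1 ≤ Real.log T := by
    rw [Real.le_log_iff_exp_le hTpos]
    have := Real.exp_one_lt_d9
    linarith
  have hLT : Real.log T ≤ T := by
    have := Real.log_le_sub_one_of_pos hTpos
    linarith
  set L := Real.log T with hLdef
  have hx : 0 < c * L := by positivity
  have h2 : (C / (c * L)) ^ (c * L / C) ≤ Real.exp (-4 * L) := by
    rw [Real.rpow_def_of_pos (by positivity)]
    apply Real.exp_le_exp.2
    have h3 : Real.log (C / (c * L)) = -Real.log (c / C * L) := by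
      rw [← Real.log_inv]
      congr 1
      field_simp
    rw [h3]
    have h4 : 4 * C / c * (c * L / C) ≤ Real.log (c / C * L) * (c * L / C) :=
      mul_le_mul_of_nonneg_right h1 (by positivity)
    have h5 : 4 * C / c * (c * L / C) = 4 * L := by field_simp
    rw [h5] at h4
    linarith
  have h6 : Real.exp (-4 * L) = 1 / T ^ 4 := by
    have : Real.exp (4 * L) = T ^ 4 := by
      rw [show (4 : ℝ) * L = ((4 : ℕ) : ℝ) * L by norm_num, Real.exp_nat_mul, hLdef,
        Real.exp_log hTpos]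
    rw [show -4 * L = -(4 * L) by ring, Real.exp_neg, this, one_div]
  rw [h6] at h2
  have h7 : 0 ≤ T * L := by positivity
  calc C * (C / (c * L)) ^ (c * L / C) * (T * L) ≤ C * (1 / T ^ 4) * (T * T) := by
        apply mul_le_mul
        · exact mul_le_mul_of_nonneg_left h2 hCpos.le
        · exact mul_le_mul_of_nonneg_left hLT hTpos.le
        · exact h7
        · positivity
    _ = C / T ^ 2 := by field_simp
    _ < 1 := by
        rw [div_lt_one (by positivity)]
        nlinarith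

/-- block estimate for `dlt` -/
lemma dlt_block (hRH : RHs) : ∃ C T1 : ℝ, 1 ≤ C ∧ 10 ≤ T1 ∧ ∀ T : ℝ, T1 ≤ T → ∀ y : ℝ, 2 ≤ y →
    ({n : ℕ | 1 ≤ n ∧ T ≤ ord n ∧ ord n ≤ 3 / 2 * T ∧ y ≤ dlt n}.ncard : ℝ) ≤
      C * (2 * C / y) ^ (y / (2 * C)) * (T * Real.log T) := by
  obtain ⟨C, c0, T0, hC, hc0, hT0, hG⟩ := gap_tail_gen hRH
  set c : ℝ := min c0 (1 / 7) with hc
  have hcpos : 0 < c := lt_min hc0 (by norm_num)
  have hcc0 : c ≤ c0 := min_le_left _ _
  have hc7 : c ≤ 1 / 7 := min_le_right _ _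
  obtain ⟨T2, hT2⟩ := exists_T C c hC hcpos
  have hpi3 := Real.pi_gt_three
  have hpi4 := Real.pi_lt_four
  -- a priori bound for the gaps
  have hlimc : Tendsto (fun T : ℝ => c * Real.log T) atTop atTop :=
    Real.tendsto_log_atTop.const_mul_atTop hcpos
  obtain ⟨T3, hT3⟩ := (tendsto_atTop.mp hlimc 1).exists_forall_of_atTop
  have hgap : ∀ n : ℕ, 1 ≤ n → max (max T0 T2) T3 ≤ ord n → ord (n + 1) - ord n < c * (2 * Real.pi) := by
    intro n hn hTn
    have hn0 : T0 ≤ ord n := ((le_max_left _ _).trans (le_max_left _ _)).trans hTn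
    have hn2 : T2 ≤ ord n := ((le_max_right _ _).trans (le_max_left _ _)).trans hTn
    have hn3 : T3 ≤ ord n := (le_max_right _ _).trans hTn
    have h10 : 10 ≤ ord n := hT0.trans hn0
    have hL : 0 < Real.log (ord n) := Real.log_pos (by linarith)
    by_contra hcon
    push Not at hcon
    have h1 := hG (ord n) hn0 (c * Real.log (ord n)) (hT3 _ hn3)
      (mul_le_mul_of_nonneg_right hcc0 hL.le)
    have h2 := hT2 (ord n) hn2
    have e : c * Real.log (ord n) * (2 * Real.pi / Real.log (ord n)) = c * (2 * Real.pi) := by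
      field_simp
    rw [e] at h1
    set S : Set ℕ := {m : ℕ | 1 ≤ m ∧ ord n ≤ ord m ∧ ord m + c * (2 * Real.pi) ≤ 2 * ord n ∧
      c * (2 * Real.pi) ≤ ord (m + 1) - ord m} with hS
    have hfin : S.Finite := by
      apply fin_ord (2 * ord n)
      intro m hm
      refine ⟨hm.1, ?_⟩
      have : 0 < c * (2 * Real.pi) := by positivity
      linarith [hm.2.2.1]
    have hmem : n ∈ S := ⟨hn, le_rfl, by nlinarith, hcon⟩
    have h3 : 1 ≤ S.ncard := (Set.ncard_pos hfin).mpr ⟨n, hmem⟩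
    have h4 : (1 : ℝ) ≤ (S.ncard : ℝ) := by exact_mod_cast h3
    linarith
  refine ⟨C, max (max (max T0 T2) T3) 100, hC, ?_, fun T hT y hy => ?_⟩
  · exact le_trans (by norm_num) (le_max_right _ _)
  have hTM : max (max T0 T2) T3 ≤ T := (le_max_left _ _).trans hT
  have hTT0 : T0 ≤ T := ((le_max_left _ _).trans (le_max_left _ _)).trans hTM
  have hT100 : 100 ≤ T := (le_max_right _ _).trans hT
  have hTpos : 0 < T := by linarith
  have hL2 : 2 ≤ Real.log T := by
    rw [Real.le_log_iff_exp_le hTpos]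
    have h1 := Real.exp_one_lt_d9
    have h2 : Real.exp 2 = Real.exp 1 ^ 2 := by rw [← Real.exp_nat_mul]; norm_num
    rw [h2]
    have h3 : 0 < Real.exp 1 := Real.exp_pos 1
    nlinarith
  set L := Real.log T with hLdef
  set S : Set ℕ := {n : ℕ | 1 ≤ n ∧ T ≤ ord n ∧ ord n ≤ 3 / 2 * T ∧ y ≤ dlt n} with hS
  have hkey : ∀ n ∈ S, y / 2 * (2 * Real.pi / L) ≤ ord (n + 1) - ord n ∧
      ord (n + 1) - ord n < c * (2 * Real.pi) := by
    intro n hn
    obtain ⟨a1, a2, a3, a4⟩ := hn
    have hg := hgap n a1 (hTM.trans a2)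
    refine ⟨?_, hg⟩
    have hp : 0 < ord n := SG.ord_pos a1
    have hp' : 0 < ord (n + 1) := SG.ord_pos (by omega)
    have h7 : ord n ≤ ord (n + 1) := SG.ord_mono a1 (by omega)
    have h9 : ord (n + 1) * Real.log (ord (n + 1)) - ord n * Real.log (ord n) ≤
        (ord (n + 1) - ord n) * (1 + Real.log (ord (n + 1))) := by
      have h10 := Real.one_sub_inv_le_log_of_pos (div_pos hp hp')
      rw [Real.log_div hp.ne' hp'.ne', inv_div] at h10
      have h11 := mul_le_mul_of_nonneg_left h10 hp.le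
      have h12 : ord n * (1 - ord (n + 1) / ord n) = ord n - ord (n + 1) := by
        field_simp
      rw [h12] at h11
      nlinarith
    have h13 : ord (n + 1) ≤ 2 * T := by
      have h14 : c * (2 * Real.pi) ≤ 2 := by nlinarith
      linarith
    have h15 : 1 + Real.log (ord (n + 1)) ≤ 2 * L := by
      have h16 : Real.log (ord (n + 1)) ≤ Real.log (2 * T) := Real.log_le_log hp' h13
      rw [Real.log_mul (by norm_num) hTpos.ne'] at h16
      have h17 := Real.log_two_lt_d9
      linarith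
    have h18 : y * (2 * Real.pi) ≤ (ord (n + 1) - ord n) * (2 * L) := by
      have h19 : y * (2 * Real.pi) ≤
          ord (n + 1) * Real.log (ord (n + 1)) - ord n * Real.log (ord n) := by
        have h20 : y ≤ (ord (n + 1) * Real.log (ord (n + 1)) - ord n * Real.log (ord n)) /
          (2 * Real.pi) := a4
        rwa [le_div_iff₀ (by positivity)] at h20
      refine h19.trans (h9.trans ?_)
      exact mul_le_mul_of_nonneg_left h15 (by linarith)
    have h21 : y / 2 * (2 * Real.pi / L) = y * (2 * Real.pi) / (2 * L) := by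
      field_simp
    rw [h21, div_le_iff₀ (by positivity)]
    exact h18
  have hB : 0 ≤ C * (2 * C / y) ^ (y / (2 * C)) * (T * L) := by
    have : 0 ≤ (2 * C / y) ^ (y / (2 * C)) := Real.rpow_nonneg (by positivity) _
    positivity
  by_cases hyL : y / 2 ≤ c * L
  · have h1 := hG T hTT0 (y / 2) (by linarith)
      (hyL.trans (mul_le_mul_of_nonneg_right hcc0 (by linarith)))
    have e1 : C / (y / 2) = 2 * C / y := by field_simp
    have e2 : y / 2 / C = y / (2 * C) := by field_simp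
    rw [e1, e2] at h1
    refine le_trans ?_ h1
    have hsub : S ⊆ {n : ℕ | 1 ≤ n ∧ T ≤ ord n ∧ ord n + y / 2 * (2 * Real.pi / L) ≤ 2 * T ∧
        y / 2 * (2 * Real.pi / L) ≤ ord (n + 1) - ord n} := by
      intro n hn
      obtain ⟨b1, b2⟩ := hkey n hn
      refine ⟨hn.1, hn.2.1, ?_, b1⟩
      have h14 : c * (2 * Real.pi) ≤ 2 := by nlinarith
      linarith [hn.2.2.1]
    have hfin : {n : ℕ | 1 ≤ n ∧ T ≤ ord n ∧ ord n + y / 2 * (2 * Real.pi / L) ≤ 2 * T ∧
        y / 2 * (2 * Real.pi / L) ≤ ord (n + 1) - ord n}.Finite := by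
      apply fin_ord (2 * T)
      intro m hm
      refine ⟨hm.1, ?_⟩
      have : 0 ≤ y / 2 * (2 * Real.pi / L) := by positivity
      linarith [hm.2.2.1]
    exact_mod_cast Set.ncard_le_ncard hsub hfin
  · push Not at hyL
    have hemp : S = ∅ := by
      rw [Set.eq_empty_iff_forall_notMem]
      intro n hn
      obtain ⟨b1, b2⟩ := hkey n hn
      have h22 : c * L * (2 * Real.pi / L) < y / 2 * (2 * Real.pi / L) :=
        mul_lt_mul_of_pos_right hyL (by positivity)
      have h23 : c * L * (2 * Real.pi / L) = c * (2 * Real.pi) := by field_simp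
      linarith
    rw [hemp, Set.ncard_empty]
    simpa using hB

/-- summation over blocks -/
lemma dlt_sum (hRH : RHs) : ∃ C T1 : ℝ, 1 ≤ C ∧ 10 ≤ T1 ∧ ∀ y : ℝ, 2 ≤ y → ∀ T2 : ℝ, T1 ≤ T2 →
    ∀ Y : ℝ, 1 ≤ Y →
    ({n : ℕ | 1 ≤ n ∧ T2 < ord n ∧ ord n ≤ Y ∧ y ≤ dlt n}.ncard : ℝ) ≤
      3 * (C * (2 * C / y) ^ (y / (2 * C))) * (Y * Real.log Y) := by
  obtain ⟨C, T1, hC, hT1, hb⟩ := dlt_block hRH
  refine ⟨C, 2 * T1, hC, by linarith, fun y hy T2 hT2 => ?_⟩
  set B : ℝ := C * (2 * C / y) ^ (y / (2 * C)) with hB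
  have hB0 : 0 ≤ B := by
    have : 0 ≤ (2 * C / y) ^ (y / (2 * C)) := Real.rpow_nonneg (by positivity) _
    positivity
  have hT20 : 0 < T2 := by linarith
  have key : ∀ m : ℕ, ∀ Y : ℝ, 1 ≤ Y → Y ≤ (3 / 2 : ℝ) ^ m * T2 →
      ({n : ℕ | 1 ≤ n ∧ T2 < ord n ∧ ord n ≤ Y ∧ y ≤ dlt n}.ncard : ℝ) ≤
      3 * B * (Y * Real.log Y) := by
    have hsmall : ∀ Y : ℝ, 1 ≤ Y → Y ≤ T2 →
        ({n : ℕ | 1 ≤ n ∧ T2 < ord n ∧ ord n ≤ Y ∧ y ≤ dlt n}.ncard : ℝ) ≤
        3 * B * (Y * Real.log Y) := by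
      intro Y hY1 hY
      have hemp : {n : ℕ | 1 ≤ n ∧ T2 < ord n ∧ ord n ≤ Y ∧ y ≤ dlt n} = ∅ := by
        rw [Set.eq_empty_iff_forall_notMem]
        rintro n ⟨-, h1, h2, -⟩
        linarith
      rw [hemp, Set.ncard_empty]
      have := Real.log_nonneg hY1
      simp only [Nat.cast_zero]
      positivity
    intro m
    induction m with
    | zero =>
      intro Y hY1 hY
      rw [pow_zero, one_mul] at hY
      exact hsmall Y hY1 hY
    | succ m ih =>
      intro Y hY1 hY
      rcases le_or_gt Y T2 with h | h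
      · exact hsmall Y hY1 h
      · have hY20 : 20 ≤ Y := by linarith
        have h1 : (1 : ℝ) ≤ 2 / 3 * Y := by linarith
        have h2 : 2 / 3 * Y ≤ (3 / 2 : ℝ) ^ m * T2 := by
          rw [pow_succ] at hY
          linarith
        have h3 := ih (2 / 3 * Y) h1 h2
        have h4 := hb (2 / 3 * Y) (by linarith) y hy
        have hlog : Real.log (2 / 3 * Y) ≤ Real.log Y :=
          Real.log_le_log (by linarith) (by linarith)
        have hlog0 : 0 ≤ Real.log (2 / 3 * Y) := Real.log_nonneg h1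
        set A1 : Set ℕ := {n : ℕ | 1 ≤ n ∧ T2 < ord n ∧ ord n ≤ 2 / 3 * Y ∧ y ≤ dlt n} with hA1
        set A2 : Set ℕ := {n : ℕ | 1 ≤ n ∧ 2 / 3 * Y ≤ ord n ∧ ord n ≤ 3 / 2 * (2 / 3 * Y) ∧
          y ≤ dlt n} with hA2
        have hsub : {n : ℕ | 1 ≤ n ∧ T2 < ord n ∧ ord n ≤ Y ∧ y ≤ dlt n} ⊆ A1 ∪ A2 := by
          rintro n ⟨a1, a2, a3, a4⟩
          rcases le_or_gt (ord n) (2 / 3 * Y) with h5 | h5
          · exact Or.inl ⟨a1, a2, h5, a4⟩
          · exact Or.inr ⟨a1, h5.le, by linarith, a4⟩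
        have hf1 : A1.Finite := fin_ord Y A1 (fun n hn => ⟨hn.1, by linarith [hn.2.2.1]⟩)
        have hf2 : A2.Finite := fin_ord Y A2 (fun n hn => ⟨hn.1, by linarith [hn.2.2.1]⟩)
        have h6 : {n : ℕ | 1 ≤ n ∧ T2 < ord n ∧ ord n ≤ Y ∧ y ≤ dlt n}.ncard ≤
            A1.ncard + A2.ncard :=
          (Set.ncard_le_ncard hsub (hf1.union hf2)).trans (Set.ncard_union_le _ _)
        have h7 : ({n : ℕ | 1 ≤ n ∧ T2 < ord n ∧ ord n ≤ Y ∧ y ≤ dlt n}.ncard : ℝ) ≤
            A1.ncard + A2.ncard := by exact_mod_cast h6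
        refine h7.trans ((add_le_add h3 h4).trans ?_)
        have h8 : 3 * B * (2 / 3 * Y * Real.log (2 / 3 * Y)) + B * (2 / 3 * Y * Real.log (2 / 3 * Y)) =
            8 / 3 * (B * Y) * Real.log (2 / 3 * Y) := by ring
        rw [h8]
        have h9 : 0 ≤ B * Y := by positivity
        calc 8 / 3 * (B * Y) * Real.log (2 / 3 * Y) ≤ 3 * (B * Y) * Real.log Y := by
              apply mul_le_mul _ hlog hlog0 (by positivity)
              linarith
          _ = _ := by ring
  intro Y hY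
  have hlim : Tendsto (fun m : ℕ => (3 / 2 : ℝ) ^ m) atTop atTop :=
    tendsto_pow_atTop_atTop_of_one_lt (by norm_num)
  obtain ⟨m, hm⟩ := (tendsto_atTop.mp hlim (Y / T2)).exists
  rw [div_le_iff₀ hT20] at hm
  exact key m Y hY hm

/-- lower bound for the number of zeros -/
lemma NZ_low : ∃ c T1 : ℝ, 0 < c ∧ 10 ≤ T1 ∧ ∀ T : ℝ, T1 ≤ T → c * (T * Real.log T) ≤ NZ (2 * T) := by
  obtain ⟨C, T0, hC, hT0, h⟩ := H370.nn_asymp H370.good_zeta
  have hpi3 := Real.pi_gt_three
  have hpi4 := Real.pi_lt_four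
  obtain ⟨T2, hT2⟩ := (tendsto_atTop.mp Real.tendsto_log_atTop (20 * C)).exists_forall_of_atTop
  refine ⟨1 / 20, max T0 T2, by norm_num, hT0.trans (le_max_left _ _), fun T hT => ?_⟩
  have hTT0 : T0 ≤ T := (le_max_left _ _).trans hT
  have hl := hT2 T ((le_max_right _ _).trans hT)
  have hTpos : 0 < T := by linarith
  have h1 := h T hTT0 T (2 * T) le_rfl (by linarith) (by linarith) le_rfl
  have h2 := (abs_le.mp h1).1
  have hfin : (H370.zset riemannZeta T (2 * T)).Finite :=
    H370.zset_finite H370.good_zeta T (2 * T) (by linarith)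
  have h3 : H370.NN riemannZeta T (2 * T) ≤ NZ (2 * T) := by
    have h4 := SG.NZ_add_le T (2 * T) (by linarith) hfin.toFinset (by
      intro s hs
      rw [Set.Finite.mem_toFinset] at hs
      obtain ⟨s1, s2, s3, s4, s5⟩ := hs
      exact ⟨⟨s5, s1, s2, by linarith, s4⟩, s3⟩)
    have h5 : H370.NN riemannZeta T (2 * T) = ∑ s ∈ hfin.toFinset, zmult s := by
      unfold H370.NN
      rw [finsum_mem_eq_finite_toFinset_sum _ hfin]
      rfl
    rw [h5]
    omega
  have h6 : (H370.NN riemannZeta T (2 * T) : ℝ) ≤ NZ (2 * T) := by exact_mod_cast h3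
  have h7 : T * Real.log T / 8 ≤ T * Real.log T / (2 * Real.pi) := by
    have : 0 ≤ T * Real.log T := by
      have : 0 ≤ Real.log T := by nlinarith
      positivity
    apply div_le_div_of_nonneg_left this (by positivity) (by linarith)
  have h8 : C * T ≤ T * Real.log T / 20 := by nlinarith
  have h9 : 0 ≤ T * Real.log T := by
    have : 0 ≤ Real.log T := by nlinarith
    positivity
  linarith

end GapAux

open GapAux in
/-- the frequency of normalised gaps `≥ y`, uniformly in the number `N` of gaps -/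
theorem gap_uniform (hRH : RHs) : ∃ c y0 : ℝ, 0 < c ∧ 1 < y0 ∧ ∀ N : ℕ, 1 ≤ N → ∀ y : ℝ, y0 ≤ y →
    ({n : ℕ | 1 ≤ n ∧ n ≤ N ∧ y ≤ dlt n}.ncard : ℝ) ≤ N * Real.exp (-c * y * Real.log y) := by
  obtain ⟨C, T1, hC, hT1, hs⟩ := dlt_sum hRH
  obtain ⟨c1, T2, hc1, hT2, hlow⟩ := NZ_low
  have hCpos : 0 < C := by linarith
  set T3 : ℝ := max T1 (3 * T2 + 3) with hT3
  -- small indices
  set M : ℝ := ∑ n ∈ Finset.Icc 1 (NZ T3), |dlt n| with hM
  set K : ℝ := 9 * C * (2 / c1) with hK
  have hKpos : 0 < K := by positivity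
  set y0 : ℝ := max (max (M + 3) ((2 * C) ^ 2)) (max (8 * C * |Real.log K|) (Real.exp 1 + 1)) with hy0
  have hy1 : M + 3 ≤ y0 := (le_max_left _ _).trans (le_max_left _ _)
  have hy2 : (2 * C) ^ 2 ≤ y0 := (le_max_right _ _).trans (le_max_left _ _)
  have hy3 : 8 * C * |Real.log K| ≤ y0 := (le_max_left _ _).trans (le_max_right _ _)
  have hy4 : Real.exp 1 + 1 ≤ y0 := (le_max_right _ _).trans (le_max_right _ _)
  have he := Real.exp_one_gt_d9
  refine ⟨1 / (8 * C), y0, by positivity, by linarith, fun N hN y hy => ?_⟩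
  have hM0 : 0 ≤ M := Finset.sum_nonneg fun n _ => abs_nonneg _
  have hy5 : 3 ≤ y := by linarith
  have hypos : 0 < y := by linarith
  have hlogy : 1 ≤ Real.log y := by
    rw [Real.le_log_iff_exp_le hypos]
    linarith
  set Y : ℝ := ord N with hYdef
  set S : Set ℕ := {n : ℕ | 1 ≤ n ∧ n ≤ N ∧ y ≤ dlt n} with hS
  -- members of `S` have large ordinates
  have hbig : ∀ n ∈ S, T3 < ord n := by
    rintro n ⟨a1, a2, a3⟩
    by_contra hcon
    push Not at hcon
    have h1 : n ≤ NZ T3 := (SG.ord_le_iff a1 T3).mp hcon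
    have h2 : |dlt n| ≤ M :=
      Finset.single_le_sum (f := fun n => |dlt n|) (fun n _ => abs_nonneg _)
        (Finset.mem_Icc.mpr ⟨a1, h1⟩)
    have h3 := le_abs_self (dlt n)
    linarith
  have hRpos : 0 ≤ (N : ℝ) * Real.exp (-(1 / (8 * C)) * y * Real.log y) := by positivity
  by_cases hYT : Y ≤ T3
  · have hemp : S = ∅ := by
      rw [Set.eq_empty_iff_forall_notMem]
      intro n hn
      have h1 := hbig n hn
      have h2 : ord n ≤ Y := SG.ord_mono hn.1 hn.2.1
      linarith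
    rw [hemp, Set.ncard_empty]
    simpa using hRpos
  · push Not at hYT
    have hYT1 : T1 ≤ T3 := le_max_left _ _
    have hYT2 : 3 * T2 + 3 ≤ T3 := le_max_right _ _
    have hYpos : 0 < Y := by linarith
    have h1 := hs y (by linarith) T3 hYT1 Y (by linarith)
    have hsub : S ⊆ {n : ℕ | 1 ≤ n ∧ T3 < ord n ∧ ord n ≤ Y ∧ y ≤ dlt n} := by
      intro n hn
      exact ⟨hn.1, hbig n hn, SG.ord_mono hn.1 hn.2.1, hn.2.2⟩
    have hfin : {n : ℕ | 1 ≤ n ∧ T3 < ord n ∧ ord n ≤ Y ∧ y ≤ dlt n}.Finite :=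
      fin_ord Y _ (fun n hn => ⟨hn.1, hn.2.2.1⟩)
    have h2 : (S.ncard : ℝ) ≤ 3 * (C * (2 * C / y) ^ (y / (2 * C))) * (Y * Real.log Y) := by
      refine le_trans ?_ h1
      exact_mod_cast Set.ncard_le_ncard hsub hfin
    -- `N` against `Y log Y`
    have h3 := hlow (Y / 3) (by linarith)
    have h4 : NZ (2 * (Y / 3)) < N := by
      by_contra hcon
      push Not at hcon
      have h5 : ord N ≤ 2 * (Y / 3) := (SG.ord_le_iff hN _).mpr hcon
      rw [← hYdef] at h5
      linarith
    have h5 : (NZ (2 * (Y / 3)) : ℝ) ≤ N := by exact_mod_cast h4.le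
    have h6 : Real.log Y ≤ 2 * Real.log (Y / 3) := by
      have h7 : Y ≤ (Y / 3) ^ 2 := by nlinarith
      have h8 := Real.log_le_log hYpos h7
      rw [Real.log_pow] at h8
      push_cast at h8
      exact h8
    have h9 : Y * Real.log Y ≤ 3 * (2 / c1) * N := by
      have h10 : c1 * (Y / 3 * Real.log (Y / 3)) ≤ N := h3.trans h5
      have h11 : Y * Real.log Y ≤ Y * (2 * Real.log (Y / 3)) := mul_le_mul_of_nonneg_left h6 hYpos.le
      have h12 : Y * (2 * Real.log (Y / 3)) = 3 * (2 / c1) * (c1 * (Y / 3 * Real.log (Y / 3))) := by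
        field_simp
      rw [h12] at h11
      refine h11.trans (mul_le_mul_of_nonneg_left h10 (by positivity))
    -- the exponential
    have h13 : (2 * C / y) ^ (y / (2 * C)) ≤ Real.exp (-(1 / (4 * C)) * y * Real.log y) := by
      rw [Real.rpow_def_of_pos (by positivity)]
      apply Real.exp_le_exp.2
      have h14 : Real.log (2 * C / y) ≤ -(1 / 2) * Real.log y := by
        rw [Real.log_div (by positivity) hypos.ne']
        have h15 : Real.log ((2 * C) ^ 2) ≤ Real.log y := Real.log_le_log (by positivity) (by linarith)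
        rw [Real.log_pow] at h15
        push_cast at h15
        linarith
      have h16 := mul_le_mul_of_nonneg_right h14 (show 0 ≤ y / (2 * C) by positivity)
      refine h16.trans (le_of_eq ?_)
      field_simp
      ring
    have h17 : K ≤ Real.exp (1 / (8 * C) * y * Real.log y) := by
      rw [← Real.log_le_iff_le_exp hKpos]
      have h18 : Real.log K ≤ 1 / (8 * C) * y := by
        have h19 : 8 * C * |Real.log K| ≤ y := hy3.trans hy
        have h20 := le_abs_self (Real.log K)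
        rw [show 1 / (8 * C) * y = y / (8 * C) by ring, le_div_iff₀ (by positivity)]
        nlinarith
      have h21 : 0 ≤ 1 / (8 * C) * y := by positivity
      nlinarith
    have h22 : 0 ≤ (2 * C / y) ^ (y / (2 * C)) := Real.rpow_nonneg (by positivity) _
    calc (S.ncard : ℝ) ≤ 3 * (C * (2 * C / y) ^ (y / (2 * C))) * (Y * Real.log Y) := h2
      _ ≤ 3 * (C * (2 * C / y) ^ (y / (2 * C))) * (3 * (2 / c1) * N) :=
          mul_le_mul_of_nonneg_left h9 (by positivity)
      _ = N * (K * (2 * C / y) ^ (y / (2 * C))) := by rw [hK]; ring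
      _ ≤ N * (Real.exp (1 / (8 * C) * y * Real.log y) *
            Real.exp (-(1 / (4 * C)) * y * Real.log y)) := by
          apply mul_le_mul_of_nonneg_left _ (Nat.cast_nonneg _)
          exact mul_le_mul h17 h13 h22 (Real.exp_pos _).le
      _ = N * Real.exp (-(1 / (8 * C)) * y * Real.log y) := by
          rw [← Real.exp_add]
          congr 2
          field_simp
          ring

end LG
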