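import Pool.Agent.H382L.Defs
import Pool.Agent.H382P.Choose

/-! # choice of the parameters for large gaps (helper250, after helper454's Choose.lean) -/

open Complex Filter Topology Set MeasureTheory

namespace LG

open SP SP.ChooseAux

namespace Choose3Aux

theorem aux3 {l r ε m D1 D2 K S : ℝ} (hl : 0 < l) (hε : 0 < ε)
    (hlr : l + 4 * ε ≤ r) (hr : r ≤ 1) (hm : 0 < m) (hlog : Real.log (r / l) = 1 / m)
    (hD1 : 0 ≤ D1) (hD2 : 0 ≤ D2) (hK0 : 0 ≤ K)
    (φ β h : ℝ → ℝ) (hφ : Continuous φ) (hh : Continuous h)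
    (hhe : ∀ u, 0 < u → h u = φ u * β u / u) (hh0 : ∀ u, u ≤ l → h u = 0)
    (hβ0 : ∀ u, 0 ≤ β u) (hβ1 : ∀ u, β u ≤ 1) (hβr : ∀ u, r - ε ≤ u → β u = 0)
    (hβ : ∀ u, l + 2 * ε ≤ u → u ≤ r - 2 * ε → β u = 1)
    (hK : ∀ u, l ≤ u → u ≤ r → |φ u| ≤ K) (hS : |S| ≤ K)
    (hD : ∀ u, l ≤ u → u ≤ r → |φ u - S| ≤ D1 + D2 * u) :
    |(∫ u in (0 : ℝ)..1, h u) - S / m| ≤ D1 / m + D2 * (r - l) + 8 * K * ε / l := by
  have hlr' : l < r := by linarith
  have hsupp : Function.support h ⊆ Set.Ioc l r := by
    intro u hu
    rw [Function.mem_support] at hu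
    by_contra hcon
    apply hu
    rw [Set.mem_Ioc, not_and_or, not_lt, not_le] at hcon
    rcases hcon with h' | h'
    · exact hh0 u h'
    · rw [hhe u (by linarith), hβr u (by linarith)]
      simp
  have hint : ∫ u in (0 : ℝ)..1, h u = ∫ u in l..r, h u := by
    rw [intervalIntegral.integral_eq_integral_of_support_subset hsupp,
      intervalIntegral.integral_eq_integral_of_support_subset
        (hsupp.trans (Set.Ioc_subset_Ioc hl.le hr))]
  rw [hint]
  have hinv : IntervalIntegrable (fun u : ℝ => u⁻¹) volume l r := by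
    apply ContinuousOn.intervalIntegrable
    rw [Set.uIcc_of_le hlr'.le]
    intro u hu
    apply ContinuousAt.continuousWithinAt
    exact continuousAt_inv₀ (by have := hu.1; linarith)
  have hinvint : ∫ u in l..r, u⁻¹ = 1 / m := by
    rw [integral_inv_of_pos hl (by linarith), hlog]
  set g : ℝ → ℝ := fun u => S * u⁻¹ with hg
  have hgi : IntervalIntegrable g volume l r := hinv.const_mul S
  have hgint : ∫ u in l..r, g u = S / m := by
    rw [hg, intervalIntegral.integral_const_mul, hinvint]
    ring
  have hfi : IntervalIntegrable h volume l r := hh.intervalIntegrable _ _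
  have hmain : (∫ u in l..r, h u) - S / m = ∫ u in l..r, (h u - g u) := by
    rw [intervalIntegral.integral_sub hfi hgi, hgint]
  rw [hmain]
  have hpt : ∀ u, l ≤ u → h u - g u = u⁻¹ * (φ u * β u - S) := by
    intro u hu
    rw [hhe u (by linarith)]
    simp only [hg]
    ring
  have hbad : ∀ u, l ≤ u → u ≤ r → ‖h u - g u‖ ≤ 2 * K / l := by
    intro u hu hu'
    have hu0 : 0 < u := by linarith
    rw [hpt u hu, norm_mul, Real.norm_eq_abs, Real.norm_eq_abs, abs_of_pos (by positivity)]
    have h1 : |φ u * β u - S| ≤ 2 * K := by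
      refine (abs_sub _ _).trans ?_
      rw [abs_mul, abs_of_nonneg (hβ0 u)]
      have h2 : |φ u| * β u ≤ K * 1 :=
        mul_le_mul (hK u hu hu') (hβ1 u) (hβ0 u) hK0
      linarith
    calc u⁻¹ * _ ≤ l⁻¹ * (2 * K) := by
          apply mul_le_mul _ h1 (abs_nonneg _) (by positivity)
          exact inv_anti₀ hl hu
      _ = 2 * K / l := by ring
  have hgood : ∀ u, l + 2 * ε ≤ u → u ≤ r - 2 * ε →
      ‖h u - g u‖ ≤ D1 * u⁻¹ + D2 := by
    intro u hu hu'
    have hu0 : 0 < u := by linarith
    rw [hpt u (by linarith), hβ u hu hu', norm_mul, Real.norm_eq_abs, Real.norm_eq_abs,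
      abs_of_pos (by positivity), mul_one]
    calc u⁻¹ * |φ u - S| ≤ u⁻¹ * (D1 + D2 * u) := by
          apply mul_le_mul_of_nonneg_left _ (by positivity)
          exact hD u (by linarith) (by linarith)
      _ = D1 * u⁻¹ + D2 := by
          field_simp
  set F : ℝ → ℝ := fun u => h u - g u with hF
  have hFi : IntervalIntegrable F volume l r := hfi.sub hgi
  have hsub1 : Set.uIcc l (l + 2 * ε) ⊆ Set.uIcc l r := by
    rw [Set.uIcc_of_le (by linarith), Set.uIcc_of_le (by linarith)]
    exact Set.Icc_subset_Icc le_rfl (by linarith)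
  have hsub2 : Set.uIcc (l + 2 * ε) (r - 2 * ε) ⊆ Set.uIcc l r := by
    rw [Set.uIcc_of_le (by linarith), Set.uIcc_of_le (by linarith)]
    exact Set.Icc_subset_Icc (by linarith) (by linarith)
  have hsub3 : Set.uIcc (r - 2 * ε) r ⊆ Set.uIcc l r := by
    rw [Set.uIcc_of_le (by linarith), Set.uIcc_of_le (by linarith)]
    exact Set.Icc_subset_Icc (by linarith) le_rfl
  have hF1 := hFi.mono_set hsub1
  have hF2 := hFi.mono_set hsub2
  have hF3 := hFi.mono_set hsub3
  have hsplit : ∫ u in l..r, F u = (∫ u in l..(l + 2 * ε), F u) +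
      (∫ u in (l + 2 * ε)..(r - 2 * ε), F u) + ∫ u in (r - 2 * ε)..r, F u := by
    rw [intervalIntegral.integral_add_adjacent_intervals hF1 hF2,
      intervalIntegral.integral_add_adjacent_intervals (hF1.trans hF2) hF3]
  have hI1 : ‖∫ u in l..(l + 2 * ε), F u‖ ≤ 2 * K / l * (2 * ε) := by
    have := intervalIntegral.norm_integral_le_of_norm_le_const (a := l) (b := l + 2 * ε)
      (C := 2 * K / l) (f := F) (by
        intro u hu
        rw [Set.uIoc_of_le (by linarith)] at hu
        exact hbad u hu.1.le (by have := hu.2; linarith))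
    rwa [show l + 2 * ε - l = 2 * ε by ring, abs_of_pos (by linarith)] at this
  have hI3 : ‖∫ u in (r - 2 * ε)..r, F u‖ ≤ 2 * K / l * (2 * ε) := by
    have := intervalIntegral.norm_integral_le_of_norm_le_const (a := r - 2 * ε) (b := r)
      (C := 2 * K / l) (f := F) (by
        intro u hu
        rw [Set.uIoc_of_le (by linarith)] at hu
        exact hbad u (by have := hu.1; linarith) hu.2)
    rwa [show r - (r - 2 * ε) = 2 * ε by ring, abs_of_pos (by linarith)] at this
  have hdom : IntervalIntegrable (fun u : ℝ => D1 * u⁻¹ + D2)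
      volume l r := (hinv.const_mul _).add intervalIntegrable_const
  have hI2 : ‖∫ u in (l + 2 * ε)..(r - 2 * ε), F u‖ ≤ D1 * (1 / m) + D2 * (r - l) := by
    have h1 : ‖∫ u in (l + 2 * ε)..(r - 2 * ε), F u‖ ≤
        ∫ u in (l + 2 * ε)..(r - 2 * ε), (D1 * u⁻¹ + D2) := by
      apply intervalIntegral.norm_integral_le_of_norm_le (by linarith)
      · filter_upwards with u hu
        exact hgood u hu.1.le hu.2
      · exact hdom.mono_set hsub2
    refine h1.trans ?_
    have h2 : ∫ u in (l + 2 * ε)..(r - 2 * ε), (D1 * u⁻¹ + D2) ≤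
        ∫ u in l..r, (D1 * u⁻¹ + D2) := by
      apply intervalIntegral.integral_mono_interval (by linarith) (by linarith) (by linarith) _ hdom
      filter_upwards [ae_restrict_mem measurableSet_Ioc] with u hu
      have : 0 < u := by have := hu.1; linarith
      simp only [Pi.zero_apply]
      positivity
    refine h2.trans (le_of_eq ?_)
    rw [intervalIntegral.integral_add (hinv.const_mul _) intervalIntegrable_const,
      intervalIntegral.integral_const_mul, hinvint, intervalIntegral.integral_const, smul_eq_mul]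
    ring
  rw [hsplit, ← Real.norm_eq_abs]
  calc ‖(∫ u in l..(l + 2 * ε), F u) +
      (∫ u in (l + 2 * ε)..(r - 2 * ε), F u) + ∫ u in (r - 2 * ε)..r, F u‖
      ≤ (2 * K / l * (2 * ε) + (D1 * (1 / m) + D2 * (r - l)) +
          2 * K / l * (2 * ε)) := 
        norm_add₃_le.trans (add_le_add (add_le_add hI1 hI2) hI3)
    _ = D1 / m + D2 * (r - l) + 8 * K * ε / l := by
        ring

end Choose3Aux

open Choose3Aux in
theorem choose3 (c : ℝ) (hc : 0 < c) (hc1 : c ≤ 3) (B : ℕ) (η : ℝ) (hB : 2 ≤ B)
    (hη : 1 / 2 < η) (hη1 : η < 1) :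
    ∃ P : Par, P.B = B ∧ P.κ = 1 - η ∧ (∀ m : ℕ, 2 ≤ m → m ≤ B →
      |(9 * m * ∫ u in (0 : ℝ)..1, u * P.b m u ^ 2) - 9| ≤ 1 / (2 * (B : ℝ) ^ 2)) ∧
      ∀ j : ℕ, 2 ≤ j → j ≤ B →
      |(∫ u in (0 : ℝ)..1, 6 * Real.sin (Real.pi * c * u) * Real.exp (-P.a * u) * P.b j u) -
        6 / j * Real.sin (Real.pi * c * η * j / B)| ≤ 59 / (j * B) := by
  have hBr : (2 : ℝ) ≤ B := by exact_mod_cast hB
  set ε : ℝ := 1 / (800 * (B : ℝ) ^ 3) with hεd
  have hε : 0 < ε := by positivity
  set r : ℕ → ℝ := fun j => η * j / B with hr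
  set l : ℕ → ℝ := fun j => η * j / B * Real.exp (-(1 / j)) with hl
  have hlpos : ∀ j : ℕ, 2 ≤ j → 0 < l j := by
    intro j hj
    have : (2 : ℝ) ≤ j := by exact_mod_cast hj
    simp only [hl]
    positivity
  have hl1 : ∀ j : ℕ, 2 ≤ j → η * (j - 1) / B ≤ l j := by
    intro j hj
    have hj' : (2 : ℝ) ≤ j := by exact_mod_cast hj
    have h1 := Real.add_one_le_exp (-(1 / (j : ℝ)))
    have h2 : η * (j - 1) / B = η * j / B * (-(1 / (j : ℝ)) + 1) := by
      field_simp
      ring
    simp only [hl]
    rw [h2]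
    apply mul_le_mul_of_nonneg_left h1
    positivity
  -- facts about the windows
  have hfacts : ∀ m : ℕ, 2 ≤ m → m ≤ B → r m - l m ≤ 1 / B ∧ r m ≤ 1 ∧ l m + 4 * ε ≤ r m ∧
      Real.log (r m / l m) = 1 / m ∧ (m : ℝ) / l m ≤ 4 * B := by
    intro m hm hmB
    have hmr : (2 : ℝ) ≤ m := by exact_mod_cast hm
    have hmBr : (m : ℝ) ≤ B := by exact_mod_cast hmB
    have hm0 : (0 : ℝ) < m := by linarith
    have hB0 : (0 : ℝ) < B := by linarith
    have hlm := hl1 m hm
    have hlp := hlpos m hm
    have hrl : r m - l m ≤ η / B := by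
      have : r m = η * (m - 1) / B + η / B := by simp only [hr]; field_simp; ring
      linarith
    have hr1 : r m ≤ 1 := by
      simp only [hr]
      rw [div_le_one hB0]
      nlinarith
    -- lower bound for r - l
    have hrl2 : l m + 4 * ε ≤ r m := by
      have h1 : Real.exp (-(1 / (m : ℝ))) ≤ 1 - 1 / (2 * m) := by
        have h2 : Real.exp (-(1 / (m : ℝ))) ≤ 1 / (1 + 1 / m) := by
          rw [Real.exp_neg, ← one_div]
          apply one_div_le_one_div_of_le (by positivity)
          have := Real.add_one_le_exp (1 / (m : ℝ))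
          linarith
        refine h2.trans ?_
        rw [div_le_iff₀ (by positivity)]
        have h3 : (1 - 1 / (2 * (m : ℝ))) * (1 + 1 / m) = 1 + (m - 1) / (2 * m ^ 2) := by
          field_simp
          ring
        rw [h3]
        have : 0 ≤ ((m : ℝ) - 1) / (2 * m ^ 2) := by
          apply div_nonneg <;> nlinarith
        linarith
      have h4 : l m ≤ r m * (1 - 1 / (2 * m)) := by
        simp only [hl, hr]
        apply mul_le_mul_of_nonneg_left h1
        positivity
      have h5 : r m * (1 - 1 / (2 * m)) = r m - η / (2 * B) := by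
        simp only [hr]
        field_simp
      have h6 : 4 * ε ≤ η / (2 * B) := by
        rw [hεd]
        rw [show 4 * (1 / (800 * (B : ℝ) ^ 3)) = 1 / (200 * (B : ℝ) ^ 3) by field_simp; norm_num]
        rw [div_le_div_iff₀ (by positivity) (by positivity)]
        have h7 : (B : ℝ) ≤ (B : ℝ) ^ 3 := by
          nlinarith [mul_nonneg (show (0 : ℝ) ≤ (B : ℝ) - 1 by linarith)
            (show (0 : ℝ) ≤ (B : ℝ) * ((B : ℝ) + 1) by positivity)]
        have h8 : (0 : ℝ) < (B : ℝ) ^ 3 := by positivity
        nlinarith [mul_pos (show (0 : ℝ) < η - 1 / 2 by linarith) h8]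
      linarith
    have hlog : Real.log (r m / l m) = 1 / m := by
      have : r m / l m = Real.exp (1 / m) := by
        simp only [hr, hl]
        rw [Real.exp_neg]
        field_simp
      rw [this, Real.log_exp]
    have h6 : (m : ℝ) / l m ≤ 4 * B := by
      rw [div_le_iff₀ hlp]
      have h8 : 4 * (B : ℝ) * (η * (m - 1) / B) ≤ 4 * B * l m := by
        apply mul_le_mul_of_nonneg_left hlm
        positivity
      have h9 : 4 * (B : ℝ) * (η * (m - 1) / B) = 4 * (η * (m - 1)) := by field_simp
      nlinarith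
    exact ⟨hrl.trans (by gcongr), hr1, hrl2, hlog, h6⟩
  refine ⟨{ c := 3 / 4, a := 1 / (20 * B), κ := 1 - η, m := ε, B := B
            b := fun j u => if 2 ≤ j ∧ j ≤ B then bump (l j) (r j) ε u / u else 0
            hc := by norm_num, hc1 := by norm_num, ha := by positivity, ha1 := ?_,
            hκ := by linarith,
            hκ1 := by linarith, hB := hB, hm := hε, hb := ?_, hb0 := ?_, hb1 := ?_ },
            rfl, rfl, ?_, ?_⟩
  · rw [div_le_one (by positivity)]
    linarith
  · intro j
    by_cases hj : 2 ≤ j ∧ j ≤ B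
    · simp only [hj]
      simp only [and_self, if_true]
      exact div_contDiff (hlpos j hj.1) hε
    · simp only [hj, if_false]
      exact contDiff_const
  · intro j u hne
    by_cases hj : 2 ≤ j ∧ j ≤ B
    · rw [if_pos hj] at hne
      refine ⟨hj.1, hj.2, ?_, ?_⟩
      · by_contra hcon
        push Not at hcon
        apply hne
        rw [bump_zero_left hε, zero_div]
        have h1 := hl1 j hj.1
        have h2 : ((j : ℝ) - 1) * (1 - (1 - η)) / B = η * (j - 1) / B := by ring
        linarith
      · by_contra hcon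
        push Not at hcon
        apply hne
        rw [bump_zero_right hε, zero_div]
        have h2 : (j : ℝ) * (1 - (1 - η)) / B = r j := by simp only [hr]; ring
        linarith
    · rw [if_neg hj] at hne
      exact absurd rfl hne
  · intro j u
    by_cases hj : 2 ≤ j ∧ j ≤ B
    · rw [if_pos hj]
      by_cases hu : u ≤ 0
      · rw [bump_zero_left hε (by have := hlpos j hj.1; linarith)]
        simp
      · push Not at hu
        refine ⟨div_nonneg (bump_nonneg _ _ _ _) hu.le, ?_⟩
        have : u * (bump (l j) (r j) ε u / u) = bump (l j) (r j) ε u := by field_simp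
        rw [this]
        exact bump_le_one _ _ _ _
    · rw [if_neg hj]
      simp
  · intro m hm hmB
    have hmr : (2 : ℝ) ≤ m := by exact_mod_cast hm
    have hm0 : (0 : ℝ) < m := by linarith
    have hB0 : (0 : ℝ) < B := by linarith
    have hlp := hlpos m hm
    obtain ⟨hrl, hr1, hrl2, hlog, h6⟩ := hfacts m hm hmB
    simp only [hm, hmB, and_self, if_true]
    have key := aux3 (D1 := 0) (D2 := 0) (K := 1) (S := 1) hlp hε hrl2 hr1 hm0 hlog le_rfl le_rfl
      (by norm_num) (fun _ => 1) (fun u => bump (l m) (r m) ε u ^ 2)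
      (fun u => u * (bump (l m) (r m) ε u / u) ^ 2) continuous_const
      (continuous_id.mul ((div_contDiff hlp hε).continuous.pow 2))
      (fun u hu => by field_simp)
      (fun u hu => by
        rw [bump_zero_left hε (by linarith)]
        simp)
      (fun u => sq_nonneg _)
      (fun u => pow_le_one₀ (bump_nonneg _ _ _ _) (bump_le_one _ _ _ _))
      (fun u hu => by
        rw [bump_zero_right hε hu]
        simp)
      (fun u hu hu' => by
        rw [bump_one hε hu hu']
        simp)
      (fun u _ _ => by simp) (by simp) (fun u _ _ => by simp)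
    set I1 : ℝ := ∫ u in (0 : ℝ)..1, u * (bump (l m) (r m) ε u / u) ^ 2 with hI1
    have e1 : 9 * m * I1 - 9 = 9 * m * (I1 - 1 / m) := by
      field_simp
    rw [e1, abs_mul, abs_of_pos (by positivity : (0 : ℝ) < 9 * m)]
    calc 9 * (m : ℝ) * |I1 - 1 / m| ≤ 9 * m * (0 / m + 0 * (r m - l m) + 8 * 1 * ε / l m) :=
          mul_le_mul_of_nonneg_left key (by positivity)
      _ = 72 * ε * (m / l m) := by ring
      _ ≤ 72 * ε * (4 * B) := by gcongr
      _ = 0.36 / (B : ℝ) ^ 2 := by
          rw [hεd]
          field_simp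
          norm_num
      _ ≤ 1 / (2 * (B : ℝ) ^ 2) := by
          rw [div_le_div_iff₀ (by positivity) (by positivity)]
          nlinarith [sq_nonneg (B : ℝ)]
  · intro m hm hmB
    have hmr : (2 : ℝ) ≤ m := by exact_mod_cast hm
    have hmBr : (m : ℝ) ≤ B := by exact_mod_cast hmB
    have hm0 : (0 : ℝ) < m := by linarith
    have hB0 : (0 : ℝ) < B := by linarith
    have hlp := hlpos m hm
    obtain ⟨hrl, hr1, hrl2, hlog, h6⟩ := hfacts m hm hmB
    simp only [hm, hmB, and_self, if_true]
    have hpi0 := Real.pi_pos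
    have key := aux3 (D1 := 6 * (Real.pi * c * (r m - l m))) (D2 := 6 * (1 / (20 * B))) (K := 6)
      (S := 6 * Real.sin (Real.pi * c * r m)) hlp hε hrl2 hr1 hm0 hlog
      (by
        have : 0 ≤ r m - l m := by linarith
        positivity) (by positivity)
      (by norm_num) (fun u => 6 * Real.sin (Real.pi * c * u) * Real.exp (-(1 / (20 * (B : ℝ))) * u))
      (fun u => bump (l m) (r m) ε u)
      (fun u => 6 * Real.sin (Real.pi * c * u) * Real.exp (-(1 / (20 * (B : ℝ))) * u) *
        (bump (l m) (r m) ε u / u)) (by fun_prop)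
      ((by fun_prop : Continuous fun u : ℝ => 6 * Real.sin (Real.pi * c * u) *
        Real.exp (-(1 / (20 * (B : ℝ))) * u)).mul (div_contDiff hlp hε).continuous)
      (fun u hu => by ring)
      (fun u hu => by
        rw [bump_zero_left hε (by linarith)]
        simp)
      (fun u => bump_nonneg _ _ _ _)
      (fun u => bump_le_one _ _ _ _)
      (fun u hu => by
        rw [bump_zero_right hε hu])
      (fun u hu hu' => by
        rw [bump_one hε hu hu'])
      (fun u hu _ => by
        rw [abs_mul, abs_mul, abs_of_pos (by norm_num : (0 : ℝ) < 6),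
          abs_of_pos (Real.exp_pos _)]
        have h1 := Real.abs_sin_le_one (Real.pi * c * u)
        have h2 : Real.exp (-(1 / (20 * (B : ℝ))) * u) ≤ 1 := by
          rw [Real.exp_le_one_iff]
          have : 0 ≤ 1 / (20 * (B : ℝ)) * u := mul_nonneg (by positivity) (by linarith)
          linarith
        calc 6 * |Real.sin (Real.pi * c * u)| * Real.exp (-(1 / (20 * (B : ℝ))) * u) ≤
              6 * 1 * 1 := by gcongr
          _ = 6 := by norm_num)
      (by
        rw [abs_mul, abs_of_pos (by norm_num : (0 : ℝ) < 6)]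
        have h1 := Real.abs_sin_le_one (Real.pi * c * r m)
        linarith)
      (fun u hu hu' => by
        have h1 : 6 * Real.sin (Real.pi * c * u) * Real.exp (-(1 / (20 * (B : ℝ))) * u) -
            6 * Real.sin (Real.pi * c * r m) =
            6 * (Real.sin (Real.pi * c * u) - Real.sin (Real.pi * c * r m)) +
            6 * (Real.sin (Real.pi * c * u) *
              (Real.exp (-(1 / (20 * (B : ℝ))) * u) - 1)) := by ring
        rw [h1]
        refine (abs_add_le _ _).trans ?_
        apply add_le_add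
        · rw [abs_mul, abs_of_pos (by norm_num : (0 : ℝ) < 6)]
          apply mul_le_mul_of_nonneg_left _ (by norm_num)
          have h2 : |Real.sin (Real.pi * c * u) - Real.sin (Real.pi * c * r m)| ≤
              |Real.pi * c * u - Real.pi * c * r m| := by
            have h3 := Real.abs_sin_sub_sin_le (Real.pi * c * u) (Real.pi * c * r m)
            exact h3
          refine h2.trans ?_
          have h4 : Real.pi * c * u - Real.pi * c * r m = -(Real.pi * c * (r m - u)) := by ring
          rw [h4, abs_neg, abs_of_nonneg (by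
            have : 0 ≤ r m - u := by linarith
            positivity)]
          apply mul_le_mul_of_nonneg_left (by linarith) (by positivity)
        · rw [abs_mul, abs_mul, abs_of_pos (by norm_num : (0 : ℝ) < 6),
            show 6 * (1 / (20 * (B : ℝ))) * u = 6 * (1 / (20 * (B : ℝ)) * u) by ring]
          apply mul_le_mul_of_nonneg_left _ (by norm_num)
          have h3 := Real.abs_sin_le_one (Real.pi * c * u)
          have h4 : |Real.exp (-(1 / (20 * (B : ℝ))) * u) - 1| ≤ 1 / (20 * (B : ℝ)) * u := by
            have h5 : 0 ≤ 1 / (20 * (B : ℝ)) * u := mul_nonneg (by positivity) (by linarith)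
            have h6 : Real.exp (-(1 / (20 * (B : ℝ))) * u) ≤ 1 := by
              rw [Real.exp_le_one_iff]
              linarith
            have h7 := Real.add_one_le_exp (-(1 / (20 * (B : ℝ))) * u)
            rw [abs_of_nonpos (by linarith)]
            linarith
          calc |Real.sin (Real.pi * c * u)| * |Real.exp (-(1 / (20 * (B : ℝ))) * u) - 1| ≤
                1 * (1 / (20 * (B : ℝ)) * u) := mul_le_mul h3 h4 (abs_nonneg _) (by norm_num)
            _ = _ := one_mul _)
    have hG : (Real.pi * c * η * m / B : ℝ) = Real.pi * c * r m := by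
      simp only [hr]
      ring
    rw [hG]
    rw [show 6 / (m : ℝ) * Real.sin (Real.pi * c * r m) =
      6 * Real.sin (Real.pi * c * r m) / m by ring]
    refine key.trans ?_
    have hpi := Real.pi_lt_d4
    have h1 : 6 * (Real.pi * c * (r m - l m)) / m ≤ 56.5488 * (1 / (m * B)) := by
      have h2 : Real.pi * c ≤ 9.4248 := by nlinarith
      have h4 : 0 ≤ r m - l m := by linarith
      calc 6 * (Real.pi * c * (r m - l m)) / m ≤ 6 * (9.4248 * (1 / B)) / m := by gcongr
        _ = 56.5488 * (1 / (m * B)) := by field_simp; norm_num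
    have h2 : 6 * (1 / (20 * (B : ℝ))) * (r m - l m) ≤ 0.3 * (1 / (m * B)) := by
      calc 6 * (1 / (20 * (B : ℝ))) * (r m - l m) ≤ 6 * (1 / (20 * (B : ℝ))) * (1 / B) := by gcongr
        _ = 0.3 * (1 / (B * B)) := by field_simp; norm_num
        _ ≤ 0.3 * (1 / (m * B)) := by gcongr
    have h3 : 8 * 6 * ε / l m ≤ 0.24 * (1 / (m * B)) := by
      calc 8 * 6 * ε / l m = 48 * ε * (m / l m) / m := by field_simp; norm_num
        _ ≤ 48 * ε * (4 * B) / m := by gcongr
        _ = 0.24 * (1 / (m * B)) * (1 / B) := by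
            rw [hεd]
            field_simp
            norm_num
        _ ≤ 0.24 * (1 / (m * B)) * 1 := by
            apply mul_le_mul_of_nonneg_left _ (by positivity)
            rw [div_le_one hB0]
            linarith
        _ = _ := mul_one _
    have h4 : 59 / ((m : ℝ) * B) = 59 * (1 / (m * B)) := by ring
    rw [h4]
    have h5 : 0 < 1 / ((m : ℝ) * B) := by positivity
    linarith

end LG
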