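import Pool.Agent.H382L.Defs
import Pool.Agent.H382P.MkB
import Pool.Agent.H382P.MomQ
import Pool.Agent.H382P.Mom2
import Pool.Agent.H382R2.Final0

/-! L12: dense clusters of zeros are super-exponentially rare -/

open Complex Filter Topology Set MeasureTheory

namespace LG

open SG (phi hh nn dd dl ord NZ zmult)
open SP

namespace CTAux

/-- zeros between two ordinates -/
theorem zeros_between {T : ℝ} (hT : 1 ≤ T) {a b : ℕ} (ha : 1 ≤ a) (hab : a ≤ b)
    (h1 : T < ord a) (h2 : ord b ≤ 2 * T) :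
    (b : ℝ) - a + 1 ≤ ∑ s ∈ (Mom2.ZZ_finite T hT).toFinset.filter
      (fun s => ord a ≤ s.im ∧ s.im ≤ ord b), (mu s : ℝ) := by
  classical
  have hb : 1 ≤ b := ha.trans hab
  have h3 := SG.le_NZ_ord hb
  rw [SG.NZ_eq, ← Finset.sum_filter_add_sum_filter_not (SG.ZS_finite (ord b)).toFinset
    (fun s : ℂ => s.im < ord a)] at h3
  have h4 : ∑ s ∈ (SG.ZS_finite (ord b)).toFinset.filter (fun s : ℂ => s.im < ord a), zmult s ≤
      a - 1 := by
    set F := (SG.ZS_finite (ord b)).toFinset.filter (fun s : ℂ => s.im < ord a) with hF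
    by_cases hne : F.Nonempty
    · obtain ⟨s0, hs0, hmax⟩ := F.exists_max_image (fun s => s.im) hne
      have h5 : s0.im < ord a := (Finset.mem_filter.mp hs0).2
      have h6 : NZ s0.im < a := by
        by_contra hcon
        rw [not_lt] at hcon
        have := (SG.ord_le_iff ha s0.im).mpr hcon
        linarith
      have h7 : ∑ s ∈ F, zmult s ≤ NZ s0.im := by
        rw [SG.NZ_eq]
        apply Finset.sum_le_sum_of_subset
        intro s hs
        have h8 := (Finset.mem_filter.mp hs).1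
        rw [Set.Finite.mem_toFinset] at h8 ⊢
        exact ⟨h8.1, h8.2.1, h8.2.2.1, h8.2.2.2.1, hmax s hs⟩
      omega
    · rw [Finset.not_nonempty_iff_eq_empty] at hne
      rw [hne, Finset.sum_empty]
      omega
  have h5 : ∑ s ∈ (SG.ZS_finite (ord b)).toFinset.filter (fun s : ℂ => ¬ s.im < ord a), zmult s ≤
      ∑ s ∈ (Mom2.ZZ_finite T hT).toFinset.filter
        (fun s => ord a ≤ s.im ∧ s.im ≤ ord b), zmult s := by
    apply Finset.sum_le_sum_of_subset
    intro s hs
    rw [Finset.mem_filter, Set.Finite.mem_toFinset, not_lt] at hs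
    obtain ⟨⟨a1, a2, a3, a4, a5⟩, a6⟩ := hs
    rw [Finset.mem_filter, Set.Finite.mem_toFinset]
    exact ⟨⟨a2, a3, by linarith, by linarith, a1⟩, a6, a5⟩
  have h6 : b + 1 ≤ a + ∑ s ∈ (Mom2.ZZ_finite T hT).toFinset.filter
        (fun s => ord a ≤ s.im ∧ s.im ≤ ord b), zmult s := by omega
  have h7 : (b : ℝ) + 1 ≤ a + ((∑ s ∈ (Mom2.ZZ_finite T hT).toFinset.filter
        (fun s => ord a ≤ s.im ∧ s.im ≤ ord b), zmult s : ℕ) : ℝ) := by exact_mod_cast h6
  have h8 : ((∑ s ∈ (Mom2.ZZ_finite T hT).toFinset.filter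
        (fun s => ord a ≤ s.im ∧ s.im ≤ ord b), zmult s : ℕ) : ℝ) =
      ∑ s ∈ (Mom2.ZZ_finite T hT).toFinset.filter
        (fun s => ord a ≤ s.im ∧ s.im ≤ ord b), (mu s : ℝ) := by
    rw [Nat.cast_sum]
    rfl
  linarith

theorem Mk_eq (T k t : ℝ) (hT : 1 ≤ T) : Mk T k t = ∑ s ∈ (Mom2.ZZ_finite T hT).toFinset,
    (mu s : ℝ) * Real.exp (-(s.im - t) ^ 2 / 2) / (1 + (Real.log T * (s.im - t) / k) ^ 2) :=
  finsum_mem_eq_finite_toFinset_sum _ (Mom2.ZZ_finite T hT)

theorem Mk_count {T t r : ℝ} (hT : 1 ≤ T) (hL : 1 ≤ Real.log T) {a b : ℕ}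
    (ha : 1 ≤ a) (hab : a ≤ b) (h1 : T < ord a) (h2 : ord b ≤ 2 * T)
    (h3 : t - r / Real.log T ≤ ord a) (h4 : ord b ≤ t + r / Real.log T) :
    (b : ℝ) - a + 1 ≤ (1 + r ^ 2) * Real.exp (r ^ 2 / 2) * Mk T 1 t := by
  have h5 := zeros_between hT ha hab h1 h2
  have hL0 : 0 < Real.log T := by linarith
  have h6 : (∑ s ∈ (Mom2.ZZ_finite T hT).toFinset.filter
      (fun s => ord a ≤ s.im ∧ s.im ≤ ord b), (mu s : ℝ)) * (Real.exp (-(r ^ 2 / 2)) / (1 + r ^ 2)) ≤
      Mk T 1 t := by
    rw [Mk_eq T 1 t hT, Finset.sum_mul]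
    calc _ ≤ ∑ s ∈ (Mom2.ZZ_finite T hT).toFinset.filter
          (fun s => ord a ≤ s.im ∧ s.im ≤ ord b),
          (mu s : ℝ) * Real.exp (-(s.im - t) ^ 2 / 2) /
            (1 + (Real.log T * (s.im - t) / 1) ^ 2) := by
          apply Finset.sum_le_sum
          intro s hs
          rw [Finset.mem_filter] at hs
          obtain ⟨_, hs1, hs2⟩ := hs
          have hd : |s.im - t| ≤ r / Real.log T := by
            rw [abs_le]; constructor <;> linarith
          have hd2 : |Real.log T * (s.im - t) / 1| ≤ r := by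
            rw [div_one, abs_mul, abs_of_pos hL0]
            calc Real.log T * |s.im - t| ≤ Real.log T * (r / Real.log T) :=
                  mul_le_mul_of_nonneg_left hd hL0.le
              _ = r := by field_simp
          have hr0 : 0 ≤ r := (abs_nonneg _).trans hd2
          have hsq : (Real.log T * (s.im - t) / 1) ^ 2 ≤ r ^ 2 := by
            rw [← sq_abs]
            exact pow_le_pow_left₀ (abs_nonneg _) hd2 2
          have hd3 : |s.im - t| ≤ r := by
            refine hd.trans ?_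
            rw [div_le_iff₀ hL0]
            nlinarith
          have hsq2 : (s.im - t) ^ 2 ≤ r ^ 2 := by
            rw [← sq_abs]
            exact pow_le_pow_left₀ (abs_nonneg _) hd3 2
          rw [mul_div_assoc]
          apply mul_le_mul_of_nonneg_left _ (Nat.cast_nonneg _)
          apply div_le_div₀ (Real.exp_pos _).le _ (by positivity) (by linarith)
          apply Real.exp_le_exp.mpr
          linarith
      _ ≤ _ := by
          apply Finset.sum_le_sum_of_subset_of_nonneg (Finset.filter_subset _ _)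
          intro s _ _
          positivity
  have h7 : 0 < 1 + r ^ 2 := by positivity
  have h8 : 0 < Real.exp (r ^ 2 / 2) := Real.exp_pos _
  have h9 : (1 + r ^ 2) * Real.exp (r ^ 2 / 2) * (Real.exp (-(r ^ 2 / 2)) / (1 + r ^ 2)) = 1 := by
    rw [Real.exp_neg]
    field_simp
  calc (b : ℝ) - a + 1 ≤ _ := h5
    _ = (1 + r ^ 2) * Real.exp (r ^ 2 / 2) * ((∑ s ∈ (Mom2.ZZ_finite T hT).toFinset.filter
      (fun s => ord a ≤ s.im ∧ s.im ≤ ord b), (mu s : ℝ)) *
        (Real.exp (-(r ^ 2 / 2)) / (1 + r ^ 2))) := by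
        rw [mul_left_comm, h9, mul_one]
    _ ≤ _ := mul_le_mul_of_nonneg_left h6 (by positivity)

theorem Mk_mono_k (T t : ℝ) (k : ℕ) (hk : 1 ≤ k) (hT : 1 ≤ T) : Mk T 1 t ≤ Mk T k t := by
  rw [Mk_eq T 1 t hT, Mk_eq T k t hT]
  apply Finset.sum_le_sum
  intro s _
  have hk1 : (1 : ℝ) ≤ k := by exact_mod_cast hk
  apply div_le_div_of_nonneg_left (by positivity) (by positivity)
  have : (Real.log T * (s.im - t) / k) ^ 2 ≤ (Real.log T * (s.im - t) / 1) ^ 2 := by
    rw [div_pow, div_pow]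
    apply div_le_div_of_nonneg_left (by positivity) (by norm_num)
    exact pow_le_pow_left₀ (by norm_num) hk1 2
  linarith

/-- the number of indices close to `t` -/
theorem card_near {T t : ℝ} (hT : 1 ≤ T) (hL : 1 ≤ Real.log T) (N : Finset ℕ)
    (hN : ∀ n ∈ N, 1 ≤ n ∧ T < ord n ∧ ord n ≤ 2 * T ∧ |ord n - t| ≤ 1 / Real.log T) :
    (N.card : ℝ) ≤ 4 * Mk T 1 t := by
  have hM0 : 0 ≤ Mk T 1 t := DpB_Mk_nonneg _ _ _
  by_cases hne : N.Nonempty
  · have ha := N.min'_mem hne
    have hb := N.max'_mem hne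
    set a := N.min' hne
    set b := N.max' hne
    have hab : a ≤ b := N.min'_le b hb
    obtain ⟨a1, a2, a3, a4⟩ := hN a ha
    obtain ⟨b1, b2, b3, b4⟩ := hN b hb
    rw [abs_le] at a4 b4
    have h := Mk_count (t := t) (r := 1) hT hL a1 hab a2 b3 (by linarith) (by linarith)
    have h1 : N ⊆ Finset.Icc a b := fun n hn => by
      rw [Finset.mem_Icc]
      exact ⟨N.min'_le n hn, N.le_max' n hn⟩
    have h2 := Finset.card_le_card h1
    rw [Nat.card_Icc] at h2
    have h3 : (N.card : ℝ) ≤ (b : ℝ) - a + 1 := by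
      have h4 : N.card + a ≤ b + 1 := by omega
      have h5 : ((N.card + a : ℕ) : ℝ) ≤ ((b + 1 : ℕ) : ℝ) := by exact_mod_cast h4
      push_cast at h5
      linarith
    have h4 : Real.exp (1 ^ 2 / 2) ≤ 2 := by
      have e1 : Real.exp (1 ^ 2 / 2) * Real.exp (1 ^ 2 / 2) = Real.exp 1 := by
        rw [← Real.exp_add]; norm_num
      have := Real.exp_one_lt_d9
      nlinarith [Real.exp_pos ((1 : ℝ) ^ 2 / 2)]
    calc (N.card : ℝ) ≤ (1 + 1 ^ 2) * Real.exp (1 ^ 2 / 2) * Mk T 1 t := h3.trans h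
      _ ≤ (1 + 1 ^ 2) * 2 * Mk T 1 t := by
          apply mul_le_mul_of_nonneg_right _ hM0
          exact mul_le_mul_of_nonneg_left h4 (by norm_num)
      _ = 4 * Mk T 1 t := by norm_num
  · rw [Finset.not_nonempty_iff_eq_empty] at hne
    rw [hne]
    simp
    exact hM0

theorem Q1_cont (κ T : ℝ) (k : ℕ) : Continuous (fun t => Q1 κ T k t) := by
  unfold Q1 QW
  apply Continuous.mul continuous_const
  apply continuous_finsetSum
  intro p hp
  rw [Finset.mem_filter, Finset.mem_Icc] at hp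
  have hp0 : (p : ℂ) ≠ 0 := by exact_mod_cast (by omega : p ≠ 0)
  apply Continuous.mul _ continuous_const
  apply Continuous.mul continuous_const
  apply Continuous.const_cpow
  · fun_prop
  · exact Or.inl hp0

/-- moments for the Lebesgue measure -/
theorem leb_mom (κ : ℝ) (hκ : 0 < κ) (hκ1 : κ < 1 / 2) :
    ∃ C T0 : ℝ, 0 < C ∧ 10 ≤ T0 ∧ ∀ T : ℝ, T0 ≤ T → ∀ k : ℕ, 1 ≤ k → ∀ V1 V2 : ℝ, T ≤ V1 →
    V1 ≤ V2 → V2 ≤ 2 * T →
    ∫ t in V1..V2, ‖Q1 κ T k t‖ ^ (2 * k) ≤ 6 * T * (C / k) ^ k := by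
  obtain ⟨C, T0, hC, h10, h⟩ := mom_Q κ 1 hκ hκ1 one_pos
  refine ⟨C, T0, hC, h10, fun T hT k hk V1 V2 hV1 hV hV2 => ?_⟩
  have hT10 : 10 ≤ T := h10.trans hT
  have hTpos : 0 < T := by linarith
  set D := dd κ T with hDdef
  have hD : 0 < D := Mom2.dd_pos κ T hTpos
  have hDT : D ≤ T := by
    calc dd κ T ≤ T ^ (1 : ℝ) := Real.rpow_le_rpow_of_exponent_le (by linarith) (by linarith)
      _ = T := Real.rpow_one T
  set J := ⌈T / D⌉₊ with hJ
  set F : ℝ → ℝ := fun t => ‖Q1 κ T k t‖ ^ (2 * k) with hF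
  have hFc : Continuous F := (Q1_cont κ T k).norm.pow _
  have hF0 : ∀ t, 0 ≤ F t := fun t => by positivity
  have hwc : ∀ t0, Continuous (fun t => wt t0 D t) := fun t0 => Mom2.wt_continuous t0 D
  have hw0 : ∀ t0 t, 0 ≤ wt t0 D t := fun t0 t => Mom2.wt_nonneg t0 D t
  -- pointwise
  have hpt : ∀ t ∈ Set.Icc V1 V2, F t ≤
      ∑ j ∈ Finset.range (J + 1), 2 * (wt (T + j * D) D t * F t) := by
    intro t ht
    set j := ⌊(t - T) / D⌋₊ with hj
    have hx0 : 0 ≤ (t - T) / D := div_nonneg (by linarith [ht.1]) hD.le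
    have hj1 : (j : ℝ) ≤ (t - T) / D := Nat.floor_le hx0
    have hj2 : (t - T) / D < j + 1 := Nat.lt_floor_add_one _
    rw [le_div_iff₀ hD] at hj1
    rw [div_lt_iff₀ hD] at hj2
    have hjJ : j ∈ Finset.range (J + 1) := by
      rw [Finset.mem_range, Nat.lt_succ_iff]
      have h1 : (t - T) / D ≤ T / D := by
        apply div_le_div_of_nonneg_right _ hD.le
        linarith [ht.2]
      have h2 : (j : ℝ) ≤ J := (Nat.floor_le hx0).trans (h1.trans (Nat.le_ceil _))
      exact_mod_cast h2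
    have hw : 1 / 2 ≤ wt (T + j * D) D t := by
      unfold wt
      have h1 : (t - (T + j * D)) ^ 2 ≤ D ^ 2 := by
        apply pow_le_pow_left₀ <;> linarith
      have h2 : -(1 / 2 : ℝ) ≤ -(t - (T + j * D)) ^ 2 / (2 * D ^ 2) := by
        rw [le_div_iff₀ (by positivity)]
        linarith
      have h3 := Real.exp_le_exp.mpr h2
      have h4 : 1 - 1 / 2 ≤ Real.exp (-(1 / 2)) := by
        have := Real.add_one_le_exp (-(1 / 2 : ℝ))
        linarith
      linarith
    have h1 : F t ≤ 2 * (wt (T + j * D) D t * F t) := by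
      have := mul_le_mul_of_nonneg_right hw (hF0 t)
      linarith
    exact h1.trans (Finset.single_le_sum (f := fun j : ℕ => 2 * (wt (T + j * D) D t * F t))
      (fun i _ => mul_nonneg (by norm_num) (mul_nonneg (hw0 _ _) (hF0 t))) hjJ)
  have hci : ∀ j : ℕ, Continuous (fun t => 2 * (wt (T + j * D) D t * F t)) := fun j =>
    continuous_const.mul ((hwc _).mul hFc)
  have h1 : ∫ t in V1..V2, F t ≤ ∫ t in V1..V2,
      ∑ j ∈ Finset.range (J + 1), 2 * (wt (T + j * D) D t * F t) := by
    apply intervalIntegral.integral_mono_on hV (hFc.intervalIntegrable _ _)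
    · exact (continuous_finsetSum _ fun j _ => hci j).intervalIntegrable _ _
    · exact hpt
  have h2 : ∀ j : ℕ, ∫ t in V1..V2, 2 * (wt (T + j * D) D t * F t) ≤ 2 * (D * (C / k) ^ k) := by
    intro j
    obtain ⟨hi, hm⟩ := (h T hT (T + j * D) k hk).1
    rw [intervalIntegral.integral_const_mul, intervalIntegral.integral_of_le hV]
    apply mul_le_mul_of_nonneg_left _ (by norm_num)
    refine le_trans ?_ hm
    exact setIntegral_le_integral hi
      (Filter.Eventually.of_forall fun t => mul_nonneg (hw0 _ _) (hF0 t))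
  rw [intervalIntegral.integral_finsetSum
    (fun j _ => (hci j).intervalIntegrable _ _)] at h1
  have h3 : ∑ j ∈ Finset.range (J + 1), ∫ t in V1..V2, 2 * (wt (T + j * D) D t * F t) ≤
      ∑ j ∈ Finset.range (J + 1), 2 * (D * (C / k) ^ k) := Finset.sum_le_sum fun j _ => h2 j
  rw [Finset.sum_const, Finset.card_range, nsmul_eq_mul] at h3
  have hJ1 : (J : ℝ) ≤ T / D + 1 := (Nat.ceil_lt_add_one (by positivity)).le
  have hJD : ((J + 1 : ℕ) : ℝ) * D ≤ 3 * T := by
    push_cast
    have : (J : ℝ) * D ≤ (T / D + 1) * D := mul_le_mul_of_nonneg_right hJ1 hD.le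
    have e : (T / D + 1) * D = T + D := by field_simp
    rw [e] at this
    linarith
  have hCk : 0 ≤ (C / k) ^ k := by positivity
  calc ∫ t in V1..V2, F t ≤ _ := h1
    _ ≤ ((J + 1 : ℕ) : ℝ) * (2 * (D * (C / k) ^ k)) := h3
    _ = 2 * (((J + 1 : ℕ) : ℝ) * D) * (C / k) ^ k := by ring
    _ ≤ 2 * (3 * T) * (C / k) ^ k := by
        apply mul_le_mul_of_nonneg_right _ hCk
        linarith
    _ = 6 * T * (C / k) ^ k := by ring

/-- integral of the indicator of an interval -/
theorem ind_int (a b V1 V2 : ℝ) (hab : a ≤ b) (h1 : V1 ≤ a) (h2 : b ≤ V2) :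
    IntervalIntegrable ((Set.Icc a b).indicator (fun _ => (1 : ℝ))) volume V1 V2 ∧
    b - a ≤ ∫ t in V1..V2, (Set.Icc a b).indicator (fun _ => (1 : ℝ)) t := by
  have hi : Integrable ((Set.Icc a b).indicator (fun _ => (1 : ℝ))) := by
    rw [integrable_indicator_iff measurableSet_Icc]
    exact integrableOn_const (by simp) (by simp)
  refine ⟨hi.intervalIntegrable, ?_⟩
  rw [intervalIntegral.integral_of_le (by linarith)]
  have h3 : ∫ t in Set.Ioc a b, (Set.Icc a b).indicator (fun _ => (1 : ℝ)) t ≤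
      ∫ t in Set.Ioc V1 V2, (Set.Icc a b).indicator (fun _ => (1 : ℝ)) t := by
    apply setIntegral_mono_set hi.integrableOn
    · exact Filter.Eventually.of_forall fun t =>
        Set.indicator_nonneg (fun _ _ => zero_le_one) t
    · exact (Set.Ioc_subset_Ioc h1 h2).eventuallyLE
  refine le_trans ?_ h3
  have h4 : ∫ t in Set.Ioc a b, (Set.Icc a b).indicator (fun _ => (1 : ℝ)) t =
      ∫ t in Set.Ioc a b, (1 : ℝ) := by
    apply setIntegral_congr_fun measurableSet_Ioc
    intro t ht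
    exact Set.indicator_of_mem (Set.Ioc_subset_Icc_self ht) _
  rw [h4]
  simp [hab]

/-- counting from a pointwise bound -/
theorem count_int {T G : ℝ} (hL : 1 ≤ Real.log T) (N : Finset ℕ) (f : ℝ → ℝ)
    (hV : T + 2 * Real.log T ≤ 2 * T - 2 * Real.log T) (hf : Continuous f)
    (hN : ∀ n ∈ N, T + 3 * Real.log T ≤ ord n ∧ ord n ≤ 2 * T - 3 * Real.log T)
    (hp : ∀ t : ℝ, T + 2 * Real.log T ≤ t → t ≤ 2 * T - 2 * Real.log T →
      ((N.filter (fun n => |ord n - t| ≤ 1 / Real.log T)).card : ℝ) ≤ f t)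
    (hG : ∫ t in (T + 2 * Real.log T)..(2 * T - 2 * Real.log T), f t ≤ G) :
    (N.card : ℝ) * 2 ≤ G * Real.log T := by
  set L := Real.log T with hLd
  have hL0 : 0 < L := by linarith
  have hinv : 1 / L ≤ 1 := by rw [div_le_one hL0]; exact hL
  have hinv0 : 0 < 1 / L := by positivity
  have hi : ∀ n ∈ N, IntervalIntegrable ((Set.Icc (ord n - 1 / L) (ord n + 1 / L)).indicator
      (fun _ => (1 : ℝ))) volume (T + 2 * L) (2 * T - 2 * L) ∧
      2 / L ≤ ∫ t in (T + 2 * L)..(2 * T - 2 * L),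
        (Set.Icc (ord n - 1 / L) (ord n + 1 / L)).indicator (fun _ => (1 : ℝ)) t := by
    intro n hn
    obtain ⟨h1, h2⟩ := hN n hn
    obtain ⟨h3, h4⟩ := ind_int (ord n - 1 / L) (ord n + 1 / L) (T + 2 * L) (2 * T - 2 * L)
      (by linarith) (by linarith) (by linarith)
    refine ⟨h3, ?_⟩
    have : 2 / L = ord n + 1 / L - (ord n - 1 / L) := by ring
    rw [this]
    exact h4
  have h1 : (N.card : ℝ) * (2 / L) ≤ ∫ t in (T + 2 * L)..(2 * T - 2 * L),
      ∑ n ∈ N, (Set.Icc (ord n - 1 / L) (ord n + 1 / L)).indicator (fun _ => (1 : ℝ)) t := by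
    rw [intervalIntegral.integral_finsetSum (fun n hn => (hi n hn).1)]
    calc (N.card : ℝ) * (2 / L) = ∑ n ∈ N, 2 / L := by rw [Finset.sum_const, nsmul_eq_mul]
      _ ≤ _ := Finset.sum_le_sum fun n hn => (hi n hn).2
  have h2 : ∫ t in (T + 2 * L)..(2 * T - 2 * L),
      ∑ n ∈ N, (Set.Icc (ord n - 1 / L) (ord n + 1 / L)).indicator (fun _ => (1 : ℝ)) t ≤
      ∫ t in (T + 2 * L)..(2 * T - 2 * L), f t := by
    apply intervalIntegral.integral_mono_on hV
    · have h3 := IntervalIntegrable.sum N (fun n hn => (hi n hn).1)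
      have h4 : (∑ n ∈ N, (Set.Icc (ord n - 1 / L) (ord n + 1 / L)).indicator
          (fun _ => (1 : ℝ))) = fun t => ∑ n ∈ N,
          (Set.Icc (ord n - 1 / L) (ord n + 1 / L)).indicator (fun _ => (1 : ℝ)) t := by
        funext t
        rw [Finset.sum_apply]
      rw [← h4]
      exact h3
    · exact hf.intervalIntegrable _ _
    · intro t ht
      refine le_trans (le_of_eq ?_) (hp t ht.1 ht.2)
      rw [Finset.card_filter]
      push_cast
      apply Finset.sum_congr rfl
      intro n _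
      by_cases hn : |ord n - t| ≤ 1 / L
      · rw [if_pos hn]
        apply Set.indicator_of_mem
        rw [abs_le] at hn
        constructor <;> linarith
      · rw [if_neg hn]
        apply Set.indicator_of_notMem
        intro hmem
        apply hn
        rw [abs_le]
        constructor <;> linarith [hmem.1, hmem.2]
  have h3 : (N.card : ℝ) * (2 / L) ≤ G := h1.trans (h2.trans hG)
  calc (N.card : ℝ) * 2 = (N.card : ℝ) * (2 / L) * L := by field_simp
    _ ≤ G * L := mul_le_mul_of_nonneg_right h3 hL0.le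

theorem log_ev (B : ℝ) : ∃ T0 : ℝ, 100 ≤ T0 ∧ ∀ T : ℝ, T0 ≤ T → B ≤ Real.log T ∧
    100 * Real.log T ≤ T := by
  obtain ⟨T1, hT1⟩ := (Real.tendsto_log_atTop.eventually_ge_atTop B).exists_forall_of_atTop
  obtain ⟨T2, hT2⟩ := (Real.isLittleO_log_id_atTop.bound
    (by norm_num : (0 : ℝ) < 1 / 100)).exists_forall_of_atTop
  refine ⟨max 100 (max T1 T2), le_max_left _ _, fun T hT => ?_⟩
  have h100 : 100 ≤ T := (le_max_left _ _).trans hT
  have h1 := hT1 T (((le_max_left _ _).trans (le_max_right _ _)).trans hT)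
  have h2 := hT2 T (((le_max_right _ _).trans (le_max_right _ _)).trans hT)
  refine ⟨h1, ?_⟩
  simp only [id, Real.norm_eq_abs] at h2
  rw [abs_of_pos (by linarith : 0 < T)] at h2
  have := le_abs_self (Real.log T)
  linarith

/-- the bulk estimate -/
theorem bulk (hRH : RHs) (A : ℝ) (hA : 0 < A) : ∃ C0 C1 T0 : ℝ, 0 < C0 ∧ 1 ≤ C1 ∧ 100 ≤ T0 ∧
    ∀ T : ℝ, T0 ≤ T → ∀ m : ℕ, 1 ≤ m → ∀ N : Finset ℕ,
    (∀ n ∈ N, 1 ≤ n ∧ T + 3 * Real.log T ≤ ord n ∧ ord n ≤ 2 * T - 3 * Real.log T ∧
      ord (n + m) - ord n ≤ A * (2 * Real.pi / Real.log T)) →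
    (N.card : ℝ) ≤ C0 * (T * Real.log T) ∧
    (C1 ≤ m → (N.card : ℝ) ≤ C0 * (C1 / m) ^ ((m : ℝ) / C1) * (T * Real.log T)) := by
  obtain ⟨CM, TM, hCM, hTM, hM⟩ := Mk_bound hRH (1 / 4) (by norm_num) (by norm_num)
  obtain ⟨CQ, TQ, hCQ, hTQ, hQ⟩ := leb_mom (1 / 4) (by norm_num) (by norm_num)
  obtain ⟨TL, hTL, hlog⟩ := log_ev (max 1 (A * (2 * Real.pi)))
  set r : ℝ := 1 + A * (2 * Real.pi) with hr
  have hpi := Real.pi_pos
  have hr0 : 0 < r := by positivity
  set RA : ℝ := (1 + r ^ 2) * Real.exp (r ^ 2 / 2) with hRA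
  have hRA0 : 0 < RA := by positivity
  -- `D0`: `k ≥ m / D0`
  set D0 : ℝ := 4 * CM * RA with hD0
  have hD00 : 0 < D0 := by positivity
  set C1 : ℝ := max 1 (max D0 (2 * CQ * D0)) with hC1
  have hC11 : 1 ≤ C1 := le_max_left _ _
  have hC1D : D0 ≤ C1 := (le_max_left _ _).trans (le_max_right _ _)
  have hC1Q : 2 * CQ * D0 ≤ C1 := (le_max_right _ _).trans (le_max_right _ _)
  set C0 : ℝ := 4 * CM * (2 + 6 * CQ) + 24 * CM with hC0
  have hC00 : 0 < C0 := by positivity
  refine ⟨C0, C1, max TL (max TM TQ), hC00, hC11, hTL.trans (le_max_left _ _), ?_⟩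
  intro T hT m hm N hN
  have hT1 : TL ≤ T := (le_max_left _ _).trans hT
  have hT2 : TM ≤ T := ((le_max_left _ _).trans (le_max_right _ _)).trans hT
  have hT3 : TQ ≤ T := ((le_max_right _ _).trans (le_max_right _ _)).trans hT
  have hT100 : 100 ≤ T := hTL.trans hT1
  obtain ⟨hLB, hLT⟩ := hlog T hT1
  have hL1 : 1 ≤ Real.log T := (le_max_left _ _).trans hLB
  have hLA : A * (2 * Real.pi) ≤ Real.log T := (le_max_right _ _).trans hLB
  set L := Real.log T with hLd
  have hL0 : 0 < L := by linarith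
  have hTone : 1 ≤ T := by linarith
  have hV : T + 2 * L ≤ 2 * T - 2 * L := by linarith
  have hinv : 1 / L ≤ 1 := by rw [div_le_one hL0]; exact hL1
  have hinv0 : 0 < 1 / L := by positivity
  have hgapL : A * (2 * Real.pi / L) ≤ 1 := by
    rw [← mul_div_assoc, div_le_one hL0]; exact hLA
  -- the number of indices near `t`
  have hcard : ∀ t : ℝ, ((N.filter (fun n => |ord n - t| ≤ 1 / L)).card : ℝ) ≤ 4 * Mk T 1 t := by
    intro t
    apply card_near hTone hL1
    intro n hn
    rw [Finset.mem_filter] at hn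
    obtain ⟨h1, h2, h3, _⟩ := hN n hn.1
    exact ⟨h1, by linarith, by linarith, hn.2⟩
  constructor
  · -- trivial bound
    have h1 : (N.card : ℝ) * 2 ≤ (4 * CM * (2 * T + 6 * T * (CQ / (1 : ℕ)) ^ 1)) * L := by
      apply count_int hL1 N (fun t => 4 * CM * (2 + ‖Q1 (1 / 4) T 1 t‖ ^ (2 * 1))) hV
      · have := Q1_cont (1 / 4) T 1
        exact continuous_const.mul (continuous_const.add (this.norm.pow _))
      · intro n hn
        exact ⟨(hN n hn).2.1, (hN n hn).2.2.1⟩
      · intro t ht1 ht2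
        refine (hcard t).trans ?_
        have h2 := hM T hT2 t (by linarith) (by linarith) 1 le_rfl
        have h3 := Mk_mono_k T t 1 le_rfl hTone
        push_cast at h2 h3
        have h4 : 1 + ‖Q1 (1 / 4) T 1 t‖ ≤ 2 + ‖Q1 (1 / 4) T 1 t‖ ^ (2 * 1) := by
          nlinarith [sq_nonneg (‖Q1 (1 / 4) T 1 t‖ - 1), norm_nonneg (Q1 (1 / 4) T 1 t)]
        calc 4 * Mk T 1 t ≤ 4 * (CM * 1 * (1 + ‖Q1 (1 / 4) T 1 t‖)) := by linarith
          _ = 4 * CM * (1 + ‖Q1 (1 / 4) T 1 t‖) := by ring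
          _ ≤ _ := mul_le_mul_of_nonneg_left h4 (by positivity)
      · have h5 := hQ T hT3 1 le_rfl (T + 2 * L) (2 * T - 2 * L) (by linarith) hV (by linarith)
        have hc : Continuous (fun t => ‖Q1 (1 / 4) T 1 t‖ ^ (2 * 1)) :=
          (Q1_cont (1 / 4) T 1).norm.pow _
        rw [intervalIntegral.integral_const_mul, intervalIntegral.integral_add
          (continuous_const.intervalIntegrable _ _) (hc.intervalIntegrable _ _),
          intervalIntegral.integral_const]
        apply mul_le_mul_of_nonneg_left _ (by positivity)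
        apply add_le_add _ h5
        rw [smul_eq_mul]
        linarith
    have h2 : (N.card : ℝ) * 2 ≤ 4 * CM * (2 + 6 * CQ) * (T * L) := by
      calc _ ≤ _ := h1
        _ = 4 * CM * (2 + 6 * CQ) * (T * L) := by push_cast; ring
    have h3 : 0 ≤ 24 * CM * (T * L) := by positivity
    have h4 : (0 : ℝ) ≤ N.card := by positivity
    rw [hC0]
    nlinarith
  · intro hmC
    have hm0 : (0 : ℝ) < m := by exact_mod_cast hm
    set k : ℕ := ⌊(m : ℝ) / (2 * CM * RA)⌋₊ with hk
    have hk1 : (k : ℝ) ≤ m / (2 * CM * RA) := Nat.floor_le (by positivity)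
    have hk2 : (m : ℝ) / (2 * CM * RA) < k + 1 := Nat.lt_floor_add_one _
    have hkD : (m : ℝ) / D0 ≤ k := by
      have h1 : (1 : ℝ) ≤ m / D0 := by
        rw [le_div_iff₀ hD00]; linarith
      have h2 : (m : ℝ) / (2 * CM * RA) = 2 * (m / D0) := by
        rw [hD0]; field_simp; ring
      rw [h2] at hk2
      linarith
    have hk1' : 1 ≤ k := by
      have h1 : (1 : ℝ) ≤ m / D0 := by
        rw [le_div_iff₀ hD00]; linarith
      have h2 : (1 : ℝ) ≤ k := h1.trans hkD
      exact_mod_cast h2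
    have hk0 : (0 : ℝ) < k := by exact_mod_cast hk1'
    have h1 : (N.card : ℝ) * 2 ≤ (8 * CM * k * (6 * T * (CQ / k) ^ k)) * L := by
      apply count_int hL1 N (fun t => 8 * CM * k * ‖Q1 (1 / 4) T k t‖ ^ (2 * k)) hV
      · have := Q1_cont (1 / 4) T k
        exact continuous_const.mul (this.norm.pow _)
      · intro n hn
        exact ⟨(hN n hn).2.1, (hN n hn).2.2.1⟩
      · intro t ht1 ht2
        by_cases hne : (N.filter (fun n => |ord n - t| ≤ 1 / L)).Nonempty
        · obtain ⟨n, hn⟩ := hne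
          rw [Finset.mem_filter] at hn
          obtain ⟨hn1, hn2, hn3, hn4⟩ := hN n hn.1
          have hnt := abs_le.mp hn.2
          have h2 : (((n + m : ℕ) : ℝ)) - n + 1 ≤ RA * Mk T 1 t := by
            apply Mk_count hTone hL1 hn1 (by omega) (by linarith) (by linarith)
            · have : 1 / L ≤ r / L := by
                apply div_le_div_of_nonneg_right _ hL0.le
                rw [hr]
                have : 0 ≤ A * (2 * Real.pi) := by positivity
                linarith
              linarith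
            · have : r / L = 1 / L + A * (2 * Real.pi / L) := by
                rw [hr]; ring
              rw [this]
              linarith
          push_cast at h2
          have h3 := Mk_mono_k T t k hk1' hTone
          have h4 := hM T hT2 t (by linarith) (by linarith) k hk1'
          set q := ‖Q1 (1 / 4) T k t‖ with hq
          have h5 : (m : ℝ) ≤ RA * (CM * k * (1 + q)) := by
            have : RA * Mk T 1 t ≤ RA * (CM * k * (1 + q)) :=
              mul_le_mul_of_nonneg_left (h3.trans h4) hRA0.le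
            linarith
          have h6 : (k : ℝ) * (2 * CM * RA) ≤ m := (le_div_iff₀ (by positivity)).mp hk1
          have h7 : 1 ≤ q := by
            by_contra hcon
            rw [not_le] at hcon
            have h8 : RA * (CM * k * (1 + q)) < RA * (CM * k * 2) := by
              apply mul_lt_mul_of_pos_left _ hRA0
              apply mul_lt_mul_of_pos_left _ (by positivity)
              linarith
            have h9 : RA * (CM * k * 2) = k * (2 * CM * RA) := by ring
            rw [h9] at h8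
            linarith
          have h8 : q ≤ q ^ (2 * k) := le_self_pow₀ h7 (by omega)
          have h9 : 4 * Mk T 1 t ≤ 4 * (CM * k * (1 + q)) := by linarith
          calc _ ≤ 4 * (CM * k * (1 + q)) := (hcard t).trans h9
            _ ≤ 4 * (CM * k * (2 * q ^ (2 * k))) := by
                apply mul_le_mul_of_nonneg_left _ (by norm_num)
                apply mul_le_mul_of_nonneg_left _ (by positivity)
                linarith
            _ = _ := by ring
        · rw [Finset.not_nonempty_iff_eq_empty] at hne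
          rw [hne]
          simp only [Finset.card_empty, Nat.cast_zero]
          positivity
      · have h5 := hQ T hT3 k hk1' (T + 2 * L) (2 * T - 2 * L) (by linarith) hV (by linarith)
        rw [intervalIntegral.integral_const_mul]
        exact mul_le_mul_of_nonneg_left h5 (by positivity)
    -- `k (CQ/k)^k ≤ (2 CQ/k)^k`
    have h2 : (k : ℝ) * (CQ / k) ^ k ≤ (2 * CQ / k) ^ k := by
      have e1 : (2 * CQ / k) ^ k = 2 ^ k * (CQ / k) ^ k := by
        rw [← mul_pow]; congr 1; ring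
      rw [e1]
      apply mul_le_mul_of_nonneg_right _ (by positivity)
      exact_mod_cast (Nat.lt_two_pow_self (n := k)).le
    have h3 : (2 * CQ / k) ^ k ≤ (C1 / m) ^ ((m : ℝ) / C1) := by
      have b0 : 2 * CQ / k ≤ C1 / m := by
        rw [div_le_div_iff₀ hk0 hm0]
        have : (m : ℝ) ≤ k * D0 := (div_le_iff₀ hD00).mp hkD
        calc 2 * CQ * m ≤ 2 * CQ * (k * D0) := mul_le_mul_of_nonneg_left this (by positivity)
          _ = (2 * CQ * D0) * k := by ring
          _ ≤ C1 * k := mul_le_mul_of_nonneg_right hC1Q hk0.le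
      have b1 : C1 / m ≤ 1 := by rw [div_le_one hm0]; exact hmC
      have b2 : 0 < C1 / m := by positivity
      calc (2 * CQ / k) ^ k ≤ (C1 / m) ^ k := pow_le_pow_left₀ (by positivity) b0 k
        _ = (C1 / m) ^ (k : ℝ) := (Real.rpow_natCast _ _).symm
        _ ≤ (C1 / m) ^ ((m : ℝ) / C1) := by
            apply Real.rpow_le_rpow_of_exponent_ge b2 b1
            refine le_trans ?_ hkD
            apply div_le_div_of_nonneg_left hm0.le hD00 hC1D
    have h4 : (N.card : ℝ) ≤ 24 * CM * (C1 / m) ^ ((m : ℝ) / C1) * (T * L) := by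
      have h5 : (8 * CM * k * (6 * T * (CQ / k) ^ k)) * L =
          2 * (24 * CM * (k * (CQ / k) ^ k) * (T * L)) := by ring
      rw [h5] at h1
      have h6 : 24 * CM * (k * (CQ / k) ^ k) * (T * L) ≤
          24 * CM * (C1 / m) ^ ((m : ℝ) / C1) * (T * L) := by
        apply mul_le_mul_of_nonneg_right _ (by positivity)
        exact mul_le_mul_of_nonneg_left (h2.trans h3) (by positivity)
      linarith
    refine h4.trans ?_
    have h5 : 0 ≤ (C1 / m) ^ ((m : ℝ) / C1) := by positivity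
    apply mul_le_mul_of_nonneg_right _ (by positivity)
    apply mul_le_mul_of_nonneg_right _ h5
    rw [hC0]
    have : 0 ≤ 4 * CM * (2 + 6 * CQ) := by positivity
    linarith

end CTAux

open CTAux

/-- dense clusters are super-exponentially rare -/
theorem cluster_tail (hRH : RHs) (A : ℝ) (hA : 0 < A) : ∃ C T0 : ℝ, 1 ≤ C ∧ 10 ≤ T0 ∧
    ∀ T : ℝ, T0 ≤ T → ∀ m : ℕ, 1 ≤ m →
    ({n : ℕ | 1 ≤ n ∧ T ≤ ord n ∧ ord (n + m) ≤ 2 * T ∧
        ord (n + m) - ord n ≤ A * (2 * Real.pi / Real.log T)}.ncard : ℝ) ≤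
      C * (C / m) ^ ((m : ℝ) / C) * (T * Real.log T) := by
  classical
  obtain ⟨C0, C1, TB, hC0, hC1, hTB, hB⟩ := bulk hRH (2 * A) (by linarith)
  set C : ℝ := max C1 (4 * C0) with hC
  have hC1C : C1 ≤ C := le_max_left _ _
  have hC0C : 4 * C0 ≤ C := le_max_right _ _
  have hCone : 1 ≤ C := hC1.trans hC1C
  obtain ⟨TL, hTL, hlog⟩ := log_ev 4
  refine ⟨C, max TL (2 * TB), hCone, le_trans (by linarith) (le_max_left _ _), fun T hT m hm => ?_⟩
  have hTL' : TL ≤ T := (le_max_left _ _).trans hT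
  have hTB' : 2 * TB ≤ T := (le_max_right _ _).trans hT
  obtain ⟨hL4, hLT⟩ := hlog T hTL'
  have hT200 : 200 ≤ T := by linarith
  have hpi := Real.pi_pos
  set S := {n : ℕ | 1 ≤ n ∧ T ≤ ord n ∧ ord (n + m) ≤ 2 * T ∧
        ord (n + m) - ord n ≤ A * (2 * Real.pi / Real.log T)} with hS
  have hSfin : S.Finite := by
    refine (Set.finite_Iic (NZ (2 * T))).subset ?_
    rintro n ⟨h1, h2, h3, h4⟩
    have h5 := (SG.ord_le_iff (by omega : 1 ≤ n + m) (2 * T)).mp h3
    rw [Set.mem_Iic]
    omega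
  set N := hSfin.toFinset with hN
  have hcard : S.ncard = N.card := Set.ncard_eq_toFinset_card _ hSfin
  have hmem : ∀ n ∈ N, 1 ≤ n ∧ T ≤ ord n ∧ ord (n + m) ≤ 2 * T ∧
        ord (n + m) - ord n ≤ A * (2 * Real.pi / Real.log T) := by
    intro n hn
    rw [hN, Set.Finite.mem_toFinset] at hn
    exact hn
  rw [hcard]
  set T1 := 2 / 3 * T with hT1
  set T2 := 6 / 5 * T with hT2
  have hlogT : 0 < Real.log T := Real.log_pos (by linarith)
  have hT0 : 0 < T := by linarith
  have hl1 : Real.log T1 ≤ Real.log T := Real.log_le_log (by positivity) (by rw [hT1]; linarith)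
  have hl1' : 0 < Real.log T1 := Real.log_pos (by rw [hT1]; linarith)
  have hl2 : Real.log T2 ≤ Real.log T + 1 := by
    rw [hT2, Real.log_mul (by norm_num) (by linarith)]
    have : Real.log (6 / 5) ≤ 6 / 5 - 1 := Real.log_le_sub_one_of_pos (by norm_num)
    linarith
  have hl2' : 0 < Real.log T2 := Real.log_pos (by rw [hT2]; linarith)
  -- split
  set N1 := N.filter (fun n => ord n ≤ 13 / 10 * T) with hN1
  set N2 := N.filter (fun n => ¬ ord n ≤ 13 / 10 * T) with hN2
  have hsplit : (N.card : ℝ) = N1.card + N2.card := by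
    rw [hN1, hN2, ← Nat.cast_add, Finset.card_filter_add_card_filter_not]
  have hgap0 : ∀ x y : ℝ, 0 < x → x ≤ 2 * y →
      A * (2 * Real.pi / y) ≤ 2 * A * (2 * Real.pi / x) := by
    intro x y hx hxy
    have hy : 0 < y := by linarith
    rw [← mul_div_assoc, ← mul_div_assoc, div_le_div_iff₀ hy hx]
    have : 0 < A * (2 * Real.pi) := by positivity
    nlinarith
  have hb1 := hB T1 (by rw [hT1]; linarith) m hm N1 (by
    intro n hn
    rw [hN1, Finset.mem_filter] at hn
    obtain ⟨h1, h2, h3, h4⟩ := hmem n hn.1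
    refine ⟨h1, by rw [hT1] at hl1 ⊢; linarith, by rw [hT1] at hl1 ⊢; linarith [hn.2], ?_⟩
    exact h4.trans (hgap0 _ _ hl1' (by linarith)))
  have hb2 := hB T2 (by rw [hT2]; linarith) m hm N2 (by
    intro n hn
    rw [hN2, Finset.mem_filter, not_le] at hn
    obtain ⟨h1, h2, h3, h4⟩ := hmem n hn.1
    have h5 := SG.ord_mono h1 (by omega : n ≤ n + m)
    refine ⟨h1, by rw [hT2] at hl2 ⊢; linarith [hn.2], by rw [hT2] at hl2 ⊢; linarith, ?_⟩
    exact h4.trans (hgap0 _ _ hl2' (by linarith)))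
  have hTL1 : T1 * Real.log T1 ≤ T * Real.log T :=
    mul_le_mul (by rw [hT1]; linarith) hl1 hl1'.le hT0.le
  have hTL2 : T2 * Real.log T2 ≤ 3 * (T * Real.log T) := by
    calc T2 * Real.log T2 ≤ (6 / 5 * T) * (2 * Real.log T) :=
          mul_le_mul (by rw [hT2]) (by linarith) hl2'.le (by positivity)
      _ = 12 / 5 * (T * Real.log T) := by ring
      _ ≤ 3 * (T * Real.log T) := by
          have : 0 < T * Real.log T := by positivity
          linarith
  have hTLpos : 0 < T * Real.log T := by positivity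
  have hm0 : (0 : ℝ) < m := by exact_mod_cast hm
  rw [hsplit]
  by_cases hmC : C ≤ m
  · have h1 := hb1.2 (hC1C.trans hmC)
    have h2 := hb2.2 (hC1C.trans hmC)
    set X := (C1 / m) ^ ((m : ℝ) / C1) with hX
    have hX0 : 0 ≤ X := by positivity
    have hXle : X ≤ (C / m) ^ ((m : ℝ) / C) := by
      have b1 : C / m ≤ 1 := by rw [div_le_one hm0]; exact hmC
      have b2 : 0 < C / m := by positivity
      calc X ≤ (C / m) ^ ((m : ℝ) / C1) := by
            apply Real.rpow_le_rpow (by positivity) _ (by positivity)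
            exact div_le_div_of_nonneg_right hC1C hm0.le
        _ ≤ (C / m) ^ ((m : ℝ) / C) := by
            apply Real.rpow_le_rpow_of_exponent_ge b2 b1
            exact div_le_div_of_nonneg_left hm0.le (by linarith) hC1C
    have h3 : C0 * X * (T1 * Real.log T1) ≤ C0 * X * (T * Real.log T) :=
      mul_le_mul_of_nonneg_left hTL1 (by positivity)
    have h4 : C0 * X * (T2 * Real.log T2) ≤ C0 * X * (3 * (T * Real.log T)) :=
      mul_le_mul_of_nonneg_left hTL2 (by positivity)
    calc (N1.card : ℝ) + N2.card ≤ 4 * C0 * X * (T * Real.log T) := by linarith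
      _ ≤ C * (C / m) ^ ((m : ℝ) / C) * (T * Real.log T) := by
          apply mul_le_mul_of_nonneg_right _ hTLpos.le
          exact mul_le_mul hC0C hXle hX0 (by linarith)
  · rw [not_le] at hmC
    have h1 := hb1.1
    have h2 := hb2.1
    have h3 : C0 * (T1 * Real.log T1) ≤ C0 * (T * Real.log T) :=
      mul_le_mul_of_nonneg_left hTL1 hC0.le
    have h4 : C0 * (T2 * Real.log T2) ≤ C0 * (3 * (T * Real.log T)) :=
      mul_le_mul_of_nonneg_left hTL2 hC0.le
    have h5 : 1 ≤ (C / m) ^ ((m : ℝ) / C) := by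
      apply Real.one_le_rpow _ (by positivity)
      rw [one_le_div hm0]
      exact hmC.le
    calc (N1.card : ℝ) + N2.card ≤ 4 * C0 * (T * Real.log T) := by linarith
      _ ≤ C * (T * Real.log T) := mul_le_mul_of_nonneg_right hC0C hTLpos.le
      _ ≤ C * (C / m) ^ ((m : ℝ) / C) * (T * Real.log T) := by
          apply mul_le_mul_of_nonneg_right _ hTLpos.le
          exact le_mul_of_one_le_right (by linarith) h5

end LG
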