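import Pool.Agent.H382L.Defs
import Pool.Agent.H382P.DpId

open Complex Filter Topology Set MeasureTheory

namespace LG

open SG (phi hh nn dd dl)
open SP SP.DpAux

namespace D3Aux

lemma dc3_prod (P : Par) (T : ℝ) (A : Finset ℕ) (hA : A ⊆ PS P T)
    (hE : ∑ p ∈ A, Eb P T p ≤ P.B) :
    dc3 P T (∏ p ∈ A, p) = (pr P.B (∑ p ∈ A, Eb P T p) : ℂ) * ∏ p ∈ A, ((3 * chi P T p : ℝ) : ℂ) := by
  have hpr : ∀ p ∈ A, p.Prime := fun p hp => prime_of_PS (hA hp)
  unfold dc3
  rw [Nat.primeFactors_prod hpr, if_pos ⟨sqf_prod A hpr, hA, hE⟩]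
  push_cast
  rfl

lemma dc3_zero (P : Par) (T : ℝ) (n : ℕ)
    (h : ¬ (Squarefree n ∧ n.primeFactors ⊆ PS P T ∧ ∑ p ∈ n.primeFactors, Eb P T p ≤ P.B)) :
    dc3 P T n = 0 := by
  unfold dc3
  rw [if_neg h]

end D3Aux

open D3Aux

theorem D3_eq (P : Par) (T : ℝ) (hT : 10 ≤ T) (s : ℂ) :
    DP (nn P.κ T) (dc3 P T) s = ∑ n ∈ Finset.range (P.B + 1), (pr P.B n : ℂ) *
      qq (PS P T) (Eb P T) (fun p => ((3 * chi P T p : ℝ) : ℂ) * (p : ℂ) ^ (-s)) n := by
  unfold DP
  rw [sum_supp P T hT (fun n => dc3 P T n * (n : ℂ) ^ (-s))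
    (fun n hn => by rw [dc3_zero P T n hn, zero_mul])]
  unfold qq
  apply Finset.sum_congr rfl
  intro n hn
  rw [Finset.mul_sum]
  apply Finset.sum_congr rfl
  intro A hA
  simp only [Finset.mem_filter, Finset.mem_powerset, Finset.mem_range] at hA hn
  rw [dc3_prod P T A hA.1 (by omega), prod_cpow, Finset.prod_mul_distrib, hA.2]
  ring

theorem ND3_eq (P : Par) (T : ℝ) (hT : 10 ≤ T) :
    ND (nn P.κ T) (dc3 P T) = ∑ n ∈ Finset.range (P.B + 1), pr P.B n ^ 2 *
      (qq (PS P T) (Eb P T) (yy3 P T) n).re := by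
  have h1 : ((ND (nn P.κ T) (dc3 P T) : ℝ) : ℂ) =
      ∑ n ∈ Finset.Icc 1 (nn P.κ T), ((‖dc3 P T n‖ ^ 2 / n : ℝ) : ℂ) := by
    unfold ND
    push_cast
    rfl
  have h2 : ((ND (nn P.κ T) (dc3 P T) : ℝ) : ℂ) =
      ∑ n ∈ Finset.range (P.B + 1), ((pr P.B n ^ 2 : ℝ) : ℂ) *
        qq (PS P T) (Eb P T) (yy3 P T) n := by
    rw [h1, sum_supp P T hT (fun n => ((‖dc3 P T n‖ ^ 2 / n : ℝ) : ℂ))
      (fun n hn => by rw [dc3_zero P T n hn]; simp)]
    unfold qq
    apply Finset.sum_congr rfl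
    intro n hn
    rw [Finset.mul_sum]
    apply Finset.sum_congr rfl
    intro A hA
    simp only [Finset.mem_filter, Finset.mem_powerset, Finset.mem_range] at hA hn
    rw [dc3_prod P T A hA.1 (by omega), hA.2, norm_mul, norm_prod, mul_pow, ← Finset.prod_pow]
    have e1 : ‖(pr P.B n : ℂ)‖ ^ 2 = pr P.B n ^ 2 := by
      rw [Complex.norm_real, Real.norm_eq_abs, sq_abs]
    have e2 : ∀ p ∈ A, ‖((3 * chi P T p : ℝ) : ℂ)‖ ^ 2 = 9 * chi P T p ^ 2 := by
      intro p _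
      rw [Complex.norm_real, Real.norm_eq_abs, sq_abs]
      ring
    rw [e1, Finset.prod_congr rfl e2, mul_div_assoc, Complex.ofReal_mul]
    congr 1
    have e3 : (∏ p ∈ A, 9 * chi P T p ^ 2) / ((∏ p ∈ A, p : ℕ) : ℝ) =
        ∏ p ∈ A, (9 * chi P T p ^ 2 / p) := by
      rw [Finset.prod_div_distrib]
      push_cast
      rfl
    rw [e3]
    push_cast
    apply Finset.prod_congr rfl
    intro p _
    simp [yy3]
  have h3 := congrArg Complex.re h2
  rw [Complex.ofReal_re, Complex.re_sum] at h3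
  rw [h3]
  apply Finset.sum_congr rfl
  intro n _
  rw [Complex.re_ofReal_mul]

theorem dc3_bound (P : Par) : ∃ T0 : ℝ, 10 ≤ T0 ∧ ∀ T : ℝ, T0 ≤ T → ∀ n, ‖dc3 P T n‖ ≤ T := by
  obtain ⟨C, T1, hC, hT1, hchi⟩ := chi_approx P
  refine ⟨max T1 (max 10 (6 ^ P.B)), (le_max_left _ _).trans (le_max_right _ _), ?_⟩
  intro T hT n
  have hTT : T1 ≤ T := (le_max_left _ _).trans hT
  have hT10 : (10 : ℝ) ≤ T := ((le_max_left _ _).trans (le_max_right _ _)).trans hT
  have hTB : (6 : ℝ) ^ P.B ≤ T := ((le_max_right _ _).trans (le_max_right _ _)).trans hT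
  obtain ⟨hc, -⟩ := hchi T hTT
  have hBpos : (0 : ℝ) < P.B := by have := P.hB; positivity
  by_cases h : Squarefree n ∧ n.primeFactors ⊆ PS P T ∧ ∑ p ∈ n.primeFactors, Eb P T p ≤ P.B
  · unfold dc3
    rw [if_pos h, Complex.norm_real, Real.norm_eq_abs, abs_mul, Finset.abs_prod]
    have h1 : ∀ p ∈ n.primeFactors, |3 * chi P T p| ≤ 6 := by
      intro p hp
      have hps := h.2.1 hp
      rw [abs_mul, abs_of_pos (by norm_num : (0 : ℝ) < 3)]
      have := (hc p hps).2.2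
      linarith
    have h2 : |pr P.B (∑ p ∈ n.primeFactors, Eb P T p)| ≤ 1 := by
      unfold pr
      have hle : ((∑ p ∈ n.primeFactors, Eb P T p : ℕ) : ℝ) / P.B ≤ 1 := by
        rw [div_le_one hBpos]
        exact_mod_cast h.2.2
      have hge : 0 ≤ ((∑ p ∈ n.primeFactors, Eb P T p : ℕ) : ℝ) / P.B := by positivity
      rw [abs_le]
      constructor <;> linarith
    calc |pr P.B (∑ p ∈ n.primeFactors, Eb P T p)| * ∏ p ∈ n.primeFactors, |3 * chi P T p| ≤
          1 * ∏ p ∈ n.primeFactors, (6 : ℝ) := by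
          apply mul_le_mul h2 (Finset.prod_le_prod (fun _ _ => abs_nonneg _) h1)
            (Finset.prod_nonneg fun _ _ => abs_nonneg _) (by norm_num)
      _ = 6 ^ n.primeFactors.card := by rw [Finset.prod_const, one_mul]
      _ ≤ 6 ^ P.B := by
          apply pow_le_pow_right₀ (by norm_num)
          calc n.primeFactors.card = ∑ p ∈ n.primeFactors, 1 := by simp
            _ ≤ ∑ p ∈ n.primeFactors, Eb P T p := by
                apply Finset.sum_le_sum
                intro p hp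
                have := h.2.1 hp
                rw [PS, Finset.mem_filter] at this
                omega
            _ ≤ P.B := h.2.2
      _ ≤ T := hTB
  · rw [dc3_zero P T n h, norm_zero]
    linarith

end LG
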