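import Pool.Agent.H382L.Defs
import Pool.Agent.H382L.D3
import Pool.Agent.H382P.Mom2

/-! L6: fourth moment of the detector of large gaps -/

open Complex Filter Topology Set MeasureTheory

namespace LG

open SG (phi hh nn dd dl)
open SP

namespace D3MomAux

/-- norm of `y_p` -/
theorem norm_y (P : Par) (T t : ℝ) (p : ℕ) (hp : 1 ≤ p) :
    ‖((3 * chi P T p : ℝ) : ℂ) * (p : ℂ) ^ (-(⟨1 / 2, t⟩ : ℂ))‖ =
      3 * |chi P T p| * (p : ℝ) ^ (-(1 / 2) : ℝ) := by
  rw [norm_mul, Complex.norm_real, Real.norm_eq_abs, abs_mul, abs_of_pos (by norm_num : (0:ℝ) < 3)]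
  congr 1
  rw [← Complex.ofReal_natCast, Complex.norm_cpow_eq_rpow_re_of_pos (by exact_mod_cast hp)]
  congr 1

theorem shift_eq (δ t : ℝ) : hh δ - (⟨1 / 2, t + δ / 2⟩ : ℂ) = -(⟨1 / 2, t⟩ : ℂ) := by
  apply Complex.ext
  · simp [hh]
  · simp [hh]

theorem pr_abs (B n : ℕ) (hB : 2 ≤ B) (hn : n ≤ B) : ‖(pr B n : ℂ)‖ ≤ 1 := by
  have hB0 : (0 : ℝ) < B := by exact_mod_cast (by omega : 0 < B)
  have h1 : (n : ℝ) / B ≤ 1 := by
    rw [div_le_one hB0]
    exact_mod_cast hn
  have h0 : 0 ≤ (n : ℝ) / B := by positivity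
  rw [Complex.norm_real, Real.norm_eq_abs, abs_le]
  unfold pr
  constructor <;> linarith

end D3MomAux

open D3MomAux

theorem D3_bound (hRH : RHs) (P : Par) : ∃ C T0 : ℝ, 0 < C ∧ 100 ≤ T0 ∧ ∀ T : ℝ, T0 ≤ T →
    ∀ t : ℝ, T + Real.log T + 1 ≤ t → t ≤ 2 * T - Real.log T - 2 →
    ‖DP (nn P.κ T) (dc3 P T) (⟨1 / 2, t⟩ : ℂ)‖ ≤ C * (1 + Mk T 1 t) ^ P.B := by
  obtain ⟨C1, T1, hC1, hT1, h1⟩ := Pj_bound hRH P
  obtain ⟨C2, T2, hC2, hT2, h2⟩ := chi_approx P
  set K : ℝ := 1 + P.B * (3 * C1) + P.B * 6 ^ P.B * C2 with hK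
  have hK1 : 1 ≤ K := by
    rw [hK]; have : (0:ℝ) ≤ P.B * (3 * C1) := by positivity
    have : (0:ℝ) ≤ P.B * 6 ^ P.B * C2 := by positivity
    linarith
  refine ⟨(P.B + 1) * K ^ P.B, max 100 (max T1 T2), by positivity, le_max_left _ _, ?_⟩
  intro T hT t ht ht'
  have hT100 : 100 ≤ T := le_trans (le_max_left _ _) hT
  have hTT1 : T1 ≤ T := le_trans (le_trans (le_max_left _ _) (le_max_right _ _)) hT
  have hTT2 : T2 ≤ T := le_trans (le_trans (le_max_right _ _) (le_max_right _ _)) hT
  obtain ⟨hL4, hLT⟩ := Mom2.log_bounds T hT100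
  have hLpos : 0 < Real.log T := by linarith
  set d : ℝ := dl P.c T / 2 with hd
  have hd0 : 0 ≤ d := by
    rw [hd]; unfold dl
    have := P.hc
    have : 0 ≤ 2 * Real.pi * P.c / Real.log T := by
      apply div_nonneg _ hLpos.le
      have := Real.pi_pos
      nlinarith
    linarith
  have hd1 : d ≤ 1 := by
    rw [hd]; unfold dl
    have hc1 := P.hc1
    have hc := P.hc
    have hpi := Real.pi_lt_four
    have hpi0 := Real.pi_pos
    rw [div_div, div_le_one (by positivity)]
    nlinarith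
  have hP : ∀ j : ℕ, ‖∑ p ∈ (PS P T).filter (fun p => Eb P T p = j),
      (chi P T p : ℂ) * (p : ℂ) ^ (-(⟨1 / 2, t⟩ : ℂ))‖ ≤ C1 * (1 + Mk T 1 t) := by
    intro j
    have h := h1 T hTT1 (t + d) (by linarith) (by linarith) j
    rw [hd, shift_eq, add_sub_cancel_right] at h
    exact h
  obtain ⟨hchi, hsum⟩ := h2 T hTT2
  set M := Mk T 1 t with hM
  have hM0 : 0 ≤ M := DpB_Mk_nonneg _ _ _
  set y : ℕ → ℂ := fun p => ((3 * chi P T p : ℝ) : ℂ) * (p : ℂ) ^ (-(⟨1 / 2, t⟩ : ℂ)) with hy
  have hmem : ∀ p ∈ PS P T, 1 ≤ p ∧ p.Prime ∧ 2 ≤ Eb P T p := by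
    intro p hp
    unfold PS at hp
    rw [Finset.mem_filter, Finset.mem_Icc] at hp
    exact ⟨hp.1.1, hp.2.1, hp.2.2⟩
  have hE : ∀ p ∈ PS P T, 1 ≤ Eb P T p := fun p hp => by have := (hmem p hp).2.2; omega
  obtain ⟨hq0, hq⟩ := newton (PS P T) (Eb P T) hE y
  -- bound for tt
  have htt : ∀ m, 1 ≤ m → m ≤ P.B → ‖tt (PS P T) (Eb P T) y m‖ ≤ K * (1 + M) := by
    intro m hm hmB
    have hsplit : tt (PS P T) (Eb P T) y m =
        (∑ p ∈ (PS P T).filter (fun p => Eb P T p = m), (m : ℂ) * y p) +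
        ∑ p ∈ (PS P T).filter (fun p => ¬ Eb P T p = m),
          if Eb P T p ∣ m then (-1 : ℂ) ^ (m / Eb P T p - 1) * (Eb P T p : ℂ) *
            y p ^ (m / Eb P T p) else 0 := by
      unfold tt
      rw [← Finset.sum_filter_add_sum_filter_not (PS P T) (fun p => Eb P T p = m)]
      congr 1
      apply Finset.sum_congr rfl
      intro p hp
      rw [Finset.mem_filter] at hp
      rw [hp.2]
      simp [Nat.div_self hm]
    rw [hsplit]
    have hA : ‖∑ p ∈ (PS P T).filter (fun p => Eb P T p = m), (m : ℂ) * y p‖ ≤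
        P.B * (3 * (C1 * (1 + M))) := by
      have : ∑ p ∈ (PS P T).filter (fun p => Eb P T p = m), (m : ℂ) * y p =
          (m : ℂ) * (3 * ∑ p ∈ (PS P T).filter (fun p => Eb P T p = m),
            (chi P T p : ℂ) * (p : ℂ) ^ (-(⟨1 / 2, t⟩ : ℂ))) := by
        rw [Finset.mul_sum, Finset.mul_sum]
        apply Finset.sum_congr rfl
        intro p _
        simp only [hy]; push_cast; ring
      rw [this, norm_mul, norm_mul, Complex.norm_natCast]
      apply mul_le_mul (by exact_mod_cast hmB) _ (by positivity) (by positivity)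
      have h3 : ‖(3 : ℂ)‖ = 3 := by norm_num
      rw [h3]
      exact mul_le_mul_of_nonneg_left (hP m) (by norm_num)
    have hB : ‖∑ p ∈ (PS P T).filter (fun p => ¬ Eb P T p = m),
          if Eb P T p ∣ m then (-1 : ℂ) ^ (m / Eb P T p - 1) * (Eb P T p : ℂ) *
            y p ^ (m / Eb P T p) else 0‖ ≤ P.B * 6 ^ P.B * C2 := by
      calc _ ≤ ∑ p ∈ (PS P T).filter (fun p => ¬ Eb P T p = m),
            ‖if Eb P T p ∣ m then (-1 : ℂ) ^ (m / Eb P T p - 1) * (Eb P T p : ℂ) *
              y p ^ (m / Eb P T p) else 0‖ := norm_sum_le _ _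
        _ ≤ ∑ p ∈ (PS P T).filter (fun p => ¬ Eb P T p = m), P.B * 6 ^ P.B * (1 / p : ℝ) := by
          apply Finset.sum_le_sum
          intro p hp
          rw [Finset.mem_filter] at hp
          obtain ⟨hp1, hpp, hE2⟩ := hmem p hp.1
          have hpB : (0:ℝ) ≤ P.B * 6 ^ P.B * (1 / p : ℝ) := by positivity
          split_ifs with hd
          · obtain ⟨r, hr⟩ := hd
            have hEpos : 0 < Eb P T p := by omega
            have hdiv : m / Eb P T p = r := by rw [hr]; exact Nat.mul_div_cancel_left r hEpos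
            have hr2 : 2 ≤ r := by
              by_contra hlt
              have : r = 0 ∨ r = 1 := by omega
              rcases this with h | h
              · rw [h] at hr; omega
              · rw [h, mul_one] at hr; exact hp.2 hr.symm
            have hrB : r ≤ P.B := by
              calc r ≤ Eb P T p * r := Nat.le_mul_of_pos_left r hEpos
                _ = m := hr.symm
                _ ≤ P.B := hmB
            rw [hdiv, norm_mul, norm_mul, norm_pow, norm_neg, norm_one, one_pow, one_mul,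
              Complex.norm_natCast, norm_pow]
            have hyp : ‖y p‖ ≤ 6 * (p : ℝ) ^ (-(1 / 2) : ℝ) := by
              have := norm_y P T t p hp1
              simp only [hy]
              rw [this]
              apply mul_le_mul_of_nonneg_right _ (by positivity)
              have := (hchi p hp.1).2.2
              linarith
            have hpR : (1:ℝ) ≤ p := by exact_mod_cast hp1
            have hyr : ‖y p‖ ^ r ≤ 6 ^ P.B * (1 / p : ℝ) := by
              calc ‖y p‖ ^ r ≤ (6 * (p : ℝ) ^ (-(1 / 2) : ℝ)) ^ r :=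
                    pow_le_pow_left₀ (norm_nonneg _) hyp r
                _ = 6 ^ r * ((p : ℝ) ^ (-(1 / 2) : ℝ)) ^ r := mul_pow _ _ _
                _ ≤ 6 ^ P.B * ((p : ℝ) ^ (-(1 / 2) : ℝ)) ^ 2 := by
                    apply mul_le_mul
                    · exact pow_le_pow_right₀ (by norm_num) hrB
                    · apply pow_le_pow_of_le_one (by positivity) _ hr2
                      exact Real.rpow_le_one_of_one_le_of_nonpos hpR (by norm_num)
                    · positivity
                    · positivity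
                _ = 6 ^ P.B * (1 / p : ℝ) := by
                    congr 1
                    rw [← Real.rpow_natCast, ← Real.rpow_mul (by positivity)]
                    norm_num
                    rw [Real.rpow_neg_one]
            calc (Eb P T p : ℝ) * ‖y p‖ ^ r ≤ P.B * (6 ^ P.B * (1 / p : ℝ)) := by
                  apply mul_le_mul _ hyr (by positivity) (by positivity)
                  exact_mod_cast (hchi p hp.1).1
              _ = P.B * 6 ^ P.B * (1 / p : ℝ) := by ring
          · rw [norm_zero]; exact hpB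
        _ ≤ ∑ p ∈ PS P T, P.B * 6 ^ P.B * (1 / p : ℝ) := by
          apply Finset.sum_le_sum_of_subset_of_nonneg (Finset.filter_subset _ _)
          intro p _ _
          positivity
        _ = P.B * 6 ^ P.B * ∑ p ∈ PS P T, (1 / p : ℝ) := by rw [Finset.mul_sum]
        _ ≤ P.B * 6 ^ P.B * C2 := by
          apply mul_le_mul_of_nonneg_left hsum (by positivity)
    calc _ ≤ P.B * (3 * (C1 * (1 + M))) + P.B * 6 ^ P.B * C2 :=
          le_trans (norm_add_le _ _) (add_le_add hA hB)
      _ ≤ K * (1 + M) := by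
        rw [hK]
        have e1 : 0 ≤ (P.B : ℝ) * 6 ^ P.B * C2 := by positivity
        have e2 := mul_nonneg e1 hM0
        nlinarith
  have hKM : 1 ≤ K * (1 + M) := by nlinarith
  have hqn := DpB.newton_growth (qq (PS P T) (Eb P T) y) (tt (PS P T) (Eb P T) y) (K * (1 + M))
    hKM P.B hq0 htt hq
  rw [D3_eq P T (by linarith)]
  calc _ ≤ ∑ n ∈ Finset.range (P.B + 1), ‖(pr P.B n : ℂ) * qq (PS P T) (Eb P T) y n‖ :=
        norm_sum_le _ _
    _ ≤ ∑ n ∈ Finset.range (P.B + 1), (K * (1 + M)) ^ P.B := by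
      apply Finset.sum_le_sum
      intro n hn
      rw [Finset.mem_range] at hn
      rw [norm_mul]
      calc ‖(pr P.B n : ℂ)‖ * ‖qq (PS P T) (Eb P T) y n‖ ≤ 1 * (K * (1 + M)) ^ P.B :=
            mul_le_mul (pr_abs P.B n P.hB (by omega))
              (le_trans (hqn n (by omega)) (pow_le_pow_right₀ hKM (by omega)))
              (norm_nonneg _) (by norm_num)
        _ = _ := one_mul _
    _ = (P.B + 1) * K ^ P.B * (1 + M) ^ P.B := by
      rw [Finset.sum_const, Finset.card_range, nsmul_eq_mul, mul_pow]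
      push_cast
      ring

theorem D3_mom (hRH : RHs) (P : Par) : ∃ C T0 : ℝ, 0 < C ∧ 10 ≤ T0 ∧ ∀ T : ℝ, T0 ≤ T → ∀ t0 : ℝ,
    ∫ t in (T + 2 * Real.log T)..(2 * T - 2 * Real.log T),
      wt t0 (dd P.κ T) t * ‖DP (nn P.κ T) (dc3 P T) (⟨1 / 2, t⟩ : ℂ)‖ ^ 4 ≤ C * dd P.κ T := by
  obtain ⟨C1, T1, hC1, hT1, h1⟩ := D3_bound hRH P
  obtain ⟨C2, T2, hC2, hT2, h2⟩ := exp_main hRH P.κ P.a 1 P.hκ P.hκ1 P.ha one_pos
  set n : ℕ := P.B * 4 with hn
  set K : ℝ := C1 ^ 4 * ((n.factorial : ℝ) * Real.exp 1) with hK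
  have hK0 : 0 < K := by positivity
  refine ⟨K * C2, max T1 T2, by positivity, hT2.trans (le_max_right _ _), ?_⟩
  intro T hT t0
  have hTT1 : T1 ≤ T := le_trans (le_max_left _ _) hT
  have hTT2 : T2 ≤ T := le_trans (le_max_right _ _) hT
  have hT100 : 100 ≤ T := hT1.trans hTT1
  obtain ⟨hL4, hLT⟩ := Mom2.log_bounds T hT100
  set A := T + 2 * Real.log T with hA
  set B := 2 * T - 2 * Real.log T with hB
  have hAB : A ≤ B := by rw [hA, hB]; linarith
  have hmain := h2 T hTT2 t0 A B hAB (by rw [hA]; linarith) (by rw [hB]; linarith)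
  have hcont := Mom2.main_cont T P.κ P.a 1 (by linarith) P.ha t0
  calc _ ≤ ∫ t in A..B, K * (wt t0 (dd P.κ T) t * Real.exp (1 * (‖Ya T P.a t‖ + Mk T 1 t))) := by
        apply Mom2.int_mono _ _ _ _ hAB
        · intro t _
          exact mul_nonneg (Mom2.wt_nonneg _ _ _) (by positivity)
        · intro t ht
          have hb := h1 T hTT1 t (by rw [hA] at ht; linarith [ht.1])
            (by rw [hB] at ht; linarith [ht.2])
          set M := Mk T 1 t with hM
          have hM0 : 0 ≤ M := DpB_Mk_nonneg _ _ _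
          have hpow : (1 + M) ^ n ≤ (n.factorial : ℝ) * Real.exp 1 * Real.exp M := by
            have := Real.pow_div_factorial_le_exp (1 + M) (by linarith) n
            rw [div_le_iff₀ (by positivity)] at this
            calc (1 + M) ^ n ≤ Real.exp (1 + M) * (n.factorial : ℝ) := this
              _ = _ := by rw [Real.exp_add]; ring
          have h4 : ‖DP (nn P.κ T) (dc3 P T) (⟨1 / 2, t⟩ : ℂ)‖ ^ 4 ≤
              K * Real.exp (1 * (‖Ya T P.a t‖ + M)) := by
            calc _ ≤ (C1 * (1 + M) ^ P.B) ^ 4 := pow_le_pow_left₀ (norm_nonneg _) hb 4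
              _ = C1 ^ 4 * (1 + M) ^ n := by rw [mul_pow, ← pow_mul]
              _ ≤ C1 ^ 4 * ((n.factorial : ℝ) * Real.exp 1 * Real.exp M) :=
                  mul_le_mul_of_nonneg_left hpow (by positivity)
              _ = K * Real.exp M := by rw [hK]; ring
              _ ≤ K * Real.exp (1 * (‖Ya T P.a t‖ + M)) := by
                  apply mul_le_mul_of_nonneg_left _ hK0.le
                  apply Real.exp_le_exp.mpr
                  have := norm_nonneg (Ya T P.a t)
                  linarith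
          calc _ ≤ wt t0 (dd P.κ T) t * (K * Real.exp (1 * (‖Ya T P.a t‖ + M))) :=
                mul_le_mul_of_nonneg_left h4 (Mom2.wt_nonneg _ _ _)
            _ = _ := by ring
        · exact continuous_const.mul hcont
    _ = K * ∫ t in A..B, wt t0 (dd P.κ T) t * Real.exp (1 * (‖Ya T P.a t‖ + Mk T 1 t)) := by
        rw [intervalIntegral.integral_const_mul]
    _ ≤ K * (C2 * dd P.κ T) := mul_le_mul_of_nonneg_left hmain hK0.le
    _ = K * C2 * dd P.κ T := by ring

end LG
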