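import Pool.Agent.H382P.Defs

open Complex Filter Topology Set MeasureTheory

namespace LG

open SG (phi hh nn dd dl)
open SP

/-- `Θ(t)`: integral of `Re Λ'/Λ(1/2 + a/log T + iv)` over `|v - t| ≤ δ/2`, `δ = 2πc/log T` -/
noncomputable def Th (c a T t : ℝ) : ℝ :=
  ∫ v in (t - dl c T / 2)..(t + dl c T / 2),
    (logDeriv completedRiemannZeta (⟨1 / 2 + a / Real.log T, v⟩ : ℂ)).re

/-- diagonal of `|D|²` -/
noncomputable def ND (N : ℕ) (d : ℕ → ℂ) : ℝ := ∑ k ∈ Finset.Icc 1 N, ‖d k‖ ^ 2 / k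

/-- diagonal of `|D|² ζ'/ζ`, integrated over the shift -/
noncomputable def XD (c a T : ℝ) (N : ℕ) (d : ℕ → ℂ) : ℝ :=
  (∑ k ∈ Finset.Icc 1 N, (starRingEnd ℂ) (d k) * (k : ℂ) ^ (-(1 : ℂ) - (a / Real.log T : ℝ)) *
    ∑ m ∈ k.divisors, d (k / m) * ((k / m : ℕ) : ℂ) ^ ((a / Real.log T : ℝ) : ℂ) *
      ((ArithmeticFunction.vonMangoldt m * (2 * Real.sin (Real.pi * c * Real.log m / Real.log T)) /
        Real.log m : ℝ) : ℂ)).re

/-- Selberg type weight -/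
noncomputable def W3 (l : ℝ) (u : ℝ) : ℂ :=
  ((if |u| ≤ l then (1 - |u| / l) + Real.sin (2 * Real.pi * |u| / l) / (2 * Real.pi) else 0 : ℝ) : ℂ)

noncomputable def Q3 (κ T : ℝ) (k : ℕ) (t : ℝ) : ℂ := QW T t (ell κ T k) (W3 (ell κ T k))

/-- profile -/
noncomputable def pr (B n : ℕ) : ℝ := 1 - (n : ℝ) / B

/-- coefficients of the detector of large gaps -/
noncomputable def dc3 (P : Par) (T : ℝ) (n : ℕ) : ℂ :=
  if Squarefree n ∧ n.primeFactors ⊆ PS P T ∧ ∑ p ∈ n.primeFactors, Eb P T p ≤ P.B then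
    ((pr P.B (∑ p ∈ n.primeFactors, Eb P T p) * ∏ p ∈ n.primeFactors, (3 * chi P T p) : ℝ) : ℂ)
  else 0

noncomputable def yy3 (P : Par) (T : ℝ) (p : ℕ) : ℂ := ((9 * chi P T p ^ 2 / p : ℝ) : ℂ)

noncomputable def zz3 (c : ℝ) (P : Par) (T : ℝ) (p : ℕ) : ℝ :=
  6 * Real.sin (Real.pi * c * Real.log p / Real.log T) *
    Real.exp (-P.a * Real.log p / Real.log T) * chi P T p / p

end LG
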