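import Pool.Agent.H382P.EFW
import Pool.Agent.H382L.Defs

open Complex Filter Topology Set MeasureTheory

namespace LG

open SG (phi hh nn dd dl)
open SP

theorem EFWm (hRH : RHs) : ∃ C T0 : ℝ, 0 < C ∧ 10 ≤ T0 ∧ ∀ T : ℝ, T0 ≤ T → ∀ t : ℝ,
    T + Real.log T ≤ t → t ≤ 2 * T - Real.log T → ∀ (W : ℝ → ℂ) (K : ℝ), Continuous W →
    (∀ u ∈ Set.Icc 0 (Real.log T), ‖W u‖ ≤ K) →
    ‖zs T t W + ps T t W - (Real.log T / Real.sqrt (2 * Real.pi) : ℝ) *
      ∫ u in (0 : ℝ)..Real.log T, W u * (Real.exp (-u ^ 2 / 2) : ℂ)‖ ≤ C * K := by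
  classical
  obtain ⟨C, T0, hC, hT0, hEF⟩ := EF hRH
  refine ⟨C, T0, by positivity, hT0, ?_⟩
  intro T hT t ht1 ht2 W K hWc hW
  have hT10 : 10 ≤ T := hT0.trans hT
  have hL1 : 1 ≤ Real.log T := by
    rw [Real.le_log_iff_exp_le (by linarith)]
    have := Real.exp_one_lt_d9
    linarith
  set L : ℝ := Real.log T with hLdef
  have hL : 0 ≤ L := by linarith
  have hK : 0 ≤ K := (norm_nonneg _).trans (hW 0 ⟨le_rfl, hL⟩)
  -- zero side
  have hfin : (ZZ T).Finite := H370.zset_finite H370.good_zeta T (2 * T) (by linarith)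
  set Z : ℝ → ℂ := fun u => ∑ᶠ s ∈ ZZ T, (mu s : ℂ) * (Real.exp (-(s.im - t) ^ 2 / 2) : ℂ) *
        cexp (I * ((u * (s.im - t) : ℝ) : ℂ)) with hZ
  have hZsum : ∀ u, Z u = ∑ s ∈ hfin.toFinset, (mu s : ℂ) *
      (Real.exp (-(s.im - t) ^ 2 / 2) : ℂ) * cexp (I * ((u * (s.im - t) : ℝ) : ℂ)) := by
    intro u
    exact finsum_mem_eq_finite_toFinset_sum _ hfin
  have hZc : Continuous Z := by
    have : Z = fun u => ∑ s ∈ hfin.toFinset, (mu s : ℂ) *
      (Real.exp (-(s.im - t) ^ 2 / 2) : ℂ) * cexp (I * ((u * (s.im - t) : ℝ) : ℂ)) := by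
      ext u
      exact hZsum u
    rw [this]
    fun_prop
  have hzs : zs T t W = ∫ u in (0 : ℝ)..L, W u * Z u := by
    unfold zs
    rw [finsum_mem_eq_finite_toFinset_sum _ hfin]
    have h1 : ∀ u, W u * Z u = ∑ s ∈ hfin.toFinset, ((mu s : ℂ) *
      (Real.exp (-(s.im - t) ^ 2 / 2) : ℂ)) * (W u * cexp (I * ((u * (s.im - t) : ℝ) : ℂ))) := by
      intro u
      rw [hZsum, Finset.mul_sum]
      apply Finset.sum_congr rfl
      intro s _
      ring
    simp_rw [h1]
    rw [intervalIntegral.integral_finsetSum]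
    · apply Finset.sum_congr rfl
      intro s _
      rw [intervalIntegral.integral_const_mul]
    · intro s _
      apply Continuous.intervalIntegrable
      fun_prop
  -- prime side
  set P : ℝ → ℂ := fun u => ∑' n : ℕ, efa t n * (Real.exp (-(u - Real.log n) ^ 2 / 2) : ℂ) with hP
  have hBs : Summable (fun n => Real.exp (L ^ 2 / 2) * ppG (1 / 4) n) :=
    (ppG_summable _ (by norm_num)).mul_left _
  have hPsum : ∀ u ∈ Set.Icc 0 L, Summable (fun n : ℕ => efa t n *
      (Real.exp (-(u - Real.log n) ^ 2 / 2) : ℂ)) := fun u hu =>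
    Summable.of_norm_bounded hBs (fun n => efa_bound t L u hu n)
  have hPc : ContinuousOn P (Set.Icc 0 L) := by
    apply continuousOn_tsum (u := fun n => Real.exp (L ^ 2 / 2) * ppG (1 / 4) n)
    · intro n
      apply Continuous.continuousOn
      fun_prop
    · exact hBs
    · intro n u hu
      exact efa_bound t L u hu n
  have hps : ps T t W = ∫ u in (0 : ℝ)..L, (1 / Real.sqrt (2 * Real.pi) : ℝ) * (W u * P u) := by
    rw [intervalIntegral.integral_const_mul]
    have h1 : HasSum (fun n : ℕ => ∫ u in (0 : ℝ)..L, W u *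
        (efa t n * (Real.exp (-(u - Real.log n) ^ 2 / 2) : ℂ))) (∫ u in (0 : ℝ)..L, W u * P u) := by
      apply intervalIntegral.hasSum_integral_of_dominated_convergence
        (bound := fun n _ => K * (Real.exp (L ^ 2 / 2) * ppG (1 / 4) n))
      · intro n
        apply Continuous.aestronglyMeasurable
        fun_prop
      · intro n
        refine Eventually.of_forall fun u hu => ?_
        rw [Set.uIoc_of_le hL] at hu
        rw [norm_mul]
        exact mul_le_mul (hW u ⟨hu.1.le, hu.2⟩) (efa_bound t L u ⟨hu.1.le, hu.2⟩ n)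
          (norm_nonneg _) hK
      · exact Eventually.of_forall fun u _ => hBs.mul_left K
      · exact intervalIntegrable_const
      · refine Eventually.of_forall fun u hu => ?_
        rw [Set.uIoc_of_le hL] at hu
        exact (hPsum u ⟨hu.1.le, hu.2⟩).hasSum.mul_left _
    have h2 := h1.mul_left (((1 / Real.sqrt (2 * Real.pi) : ℝ) : ℂ))
    rw [← h2.tsum_eq]
    unfold ps bt
    apply tsum_congr
    intro n
    have h3 : ∀ u : ℝ, W u * (efa t n * (Real.exp (-(u - Real.log n) ^ 2 / 2) : ℂ)) =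
        efa t n * (W u * (Real.exp (-(u - Real.log n) ^ 2 / 2) : ℂ)) := by
      intro u
      ring
    simp_rw [h3]
    rw [intervalIntegral.integral_const_mul]
    unfold efa
    ring
  have hmain : ((L / Real.sqrt (2 * Real.pi) : ℝ) : ℂ) *
      ∫ u in (0 : ℝ)..L, W u * (Real.exp (-u ^ 2 / 2) : ℂ) =
      ∫ u in (0 : ℝ)..L, ((L / Real.sqrt (2 * Real.pi) : ℝ) : ℂ) *
        (W u * (Real.exp (-u ^ 2 / 2) : ℂ)) := by
    rw [intervalIntegral.integral_const_mul]
  have hI1 : IntervalIntegrable (fun u => W u * Z u) volume 0 L :=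
    (hWc.mul hZc).intervalIntegrable _ _
  have hI2 : IntervalIntegrable (fun u => (1 / Real.sqrt (2 * Real.pi) : ℝ) * (W u * P u))
      volume 0 L := by
    apply ContinuousOn.intervalIntegrable
    rw [Set.uIcc_of_le hL]
    exact continuousOn_const.mul (hWc.continuousOn.mul hPc)
  have hI3 : IntervalIntegrable (fun u => ((L / Real.sqrt (2 * Real.pi) : ℝ) : ℂ) *
        (W u * (Real.exp (-u ^ 2 / 2) : ℂ))) volume 0 L := by
    apply Continuous.intervalIntegrable
    fun_prop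
  rw [hzs, hps, hmain, ← intervalIntegral.integral_add hI1 hI2,
    ← intervalIntegral.integral_sub (hI1.add hI2) hI3]
  have hpt : ∀ u ∈ Set.Icc 0 L, ‖W u * Z u + (1 / Real.sqrt (2 * Real.pi) : ℝ) * (W u * P u) -
      ((L / Real.sqrt (2 * Real.pi) : ℝ) : ℂ) * (W u * (Real.exp (-u ^ 2 / 2) : ℂ))‖ ≤
      K * C * Real.exp (-u) := by
    intro u hu
    have h1 := hEF T hT u t hu.1 hu.2 ht1 ht2
    have h2 : W u * Z u + (1 / Real.sqrt (2 * Real.pi) : ℝ) * (W u * P u) -
      ((L / Real.sqrt (2 * Real.pi) : ℝ) : ℂ) * (W u * (Real.exp (-u ^ 2 / 2) : ℂ)) =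
        W u * (Z u - (1 / Real.sqrt (2 * Real.pi) : ℝ) * ((L * Real.exp (-u ^ 2 / 2) : ℝ) -
          P u)) := by
      push_cast
      ring
    rw [h2, norm_mul]
    calc ‖W u‖ * ‖(Z u - (1 / Real.sqrt (2 * Real.pi) : ℝ) * ((L * Real.exp (-u ^ 2 / 2) : ℝ) -
          P u))‖
        ≤ K * (C * Real.exp (-u)) := by
          apply mul_le_mul (hW u hu) _ (norm_nonneg _) hK
          exact h1
      _ = _ := by ring
  have hIb : IntervalIntegrable (fun u => K * C * Real.exp (-u)) volume 0 L := by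
    apply Continuous.intervalIntegrable
    fun_prop
  have hb : ‖∫ u in (0 : ℝ)..L, (W u * Z u + (1 / Real.sqrt (2 * Real.pi) : ℝ) * (W u * P u) -
      ((L / Real.sqrt (2 * Real.pi) : ℝ) : ℂ) * (W u * (Real.exp (-u ^ 2 / 2) : ℂ)))‖ ≤
      ∫ u in (0 : ℝ)..L, K * C * Real.exp (-u) := by
    apply intervalIntegral.norm_integral_le_of_norm_le hL _ hIb
    exact Eventually.of_forall fun u hu => hpt u ⟨hu.1.le, hu.2⟩
  refine hb.trans ?_
  rw [intervalIntegral.integral_const_mul]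
  have hg : ∫ u in (0 : ℝ)..L, Real.exp (-u) = 1 - Real.exp (-L) := by
    have h := intervalIntegral.integral_comp_neg (fun u => Real.exp u) (a := 0) (b := L)
    rw [h, integral_exp]
    simp
  rw [hg]
  have h5 : 0 < Real.exp (-L) := Real.exp_pos _
  have h6 : 0 ≤ K * C := by positivity
  nlinarith

lemma bt_congr (T T' : ℝ) (W : ℝ → ℂ) (l : ℝ) (_hl0 : 0 ≤ l) (hT : l ≤ Real.log T)
    (hT' : l ≤ Real.log T') (hW : Continuous W) (hl : ∀ u : ℝ, l ≤ u → W u = 0) (x : ℝ) :
    bt T W x = bt T' W x := by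
  have key : ∀ b : ℝ, l ≤ b → ∫ u in (0 : ℝ)..b, W u * (Real.exp (-(u - Real.log x) ^ 2 / 2) : ℂ) =
      ∫ u in (0 : ℝ)..l, W u * (Real.exp (-(u - Real.log x) ^ 2 / 2) : ℂ) := by
    intro b hb
    have hI : ∀ a c : ℝ, IntervalIntegrable
        (fun u => W u * (Real.exp (-(u - Real.log x) ^ 2 / 2) : ℂ)) volume a c := by
      intro a c
      apply Continuous.intervalIntegrable
      fun_prop
    rw [← intervalIntegral.integral_add_adjacent_intervals (hI 0 l) (hI l b)]
    have h0 : ∫ u in l..b, W u * (Real.exp (-(u - Real.log x) ^ 2 / 2) : ℂ) = 0 := by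
      rw [intervalIntegral.integral_congr (g := fun _ => (0 : ℂ))]
      · simp
      · intro u hu
        rw [Set.uIcc_of_le hb] at hu
        simp only
        rw [hl u hu.1, zero_mul]
    rw [h0, add_zero]
  unfold bt
  rw [key _ hT, key _ hT']

theorem prime_part2 : ∃ C : ℝ, 0 < C ∧ ∀ T : ℝ, 10 ≤ T → ∀ t l : ℝ, 0 < l → l ≤ Real.log T →
    ∀ W : ℝ → ℂ, Continuous W → (∀ u ∈ Set.Icc 0 (Real.log T), ‖W u‖ ≤ 2) →
    (∀ u : ℝ, l ≤ u → W u = 0) →
    ‖ps T t W - (Real.log T : ℂ) * QW T t l W‖ ≤ C * (1 + l) := by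
  obtain ⟨C, hC, h⟩ := prime_part_K
  refine ⟨6 * C, by positivity, fun T hT t l hl0 hlT W hWc hW hl => ?_⟩
  set T' : ℝ := max 10 (Real.exp l) with hT'
  have hT'10 : 10 ≤ T' := le_max_left _ _
  have hT'0 : 0 < T' := by linarith
  have hlT' : l ≤ Real.log T' := by
    rw [Real.le_log_iff_exp_le hT'0]
    exact le_max_right _ _
  have hL0 : 0 < Real.log T := Real.log_pos (by linarith)
  have hL0' : 0 < Real.log T' := Real.log_pos (by linarith)
  have hW' : ∀ u ∈ Set.Icc 0 (Real.log T'), ‖W u‖ ≤ 2 := by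
    intro u hu
    by_cases hul : l ≤ u
    · rw [hl u hul, norm_zero]
      norm_num
    · push Not at hul
      exact hW u ⟨hu.1, by linarith⟩
  have h1 := h T' hT'10 t l hl0 hlT' W 2 hW' hl
  have hbt : ∀ x : ℝ, bt T W x = bt T' W x :=
    bt_congr T T' W l hl0.le hlT hlT' hWc hl
  have hps : ps T t W = ps T' t W := by
    unfold ps
    simp_rw [hbt]
  have hQ : (Real.log T : ℂ) * QW T t l W = (Real.log T' : ℂ) * QW T' t l W := by
    unfold QW
    rw [← mul_assoc, ← mul_assoc, ← Complex.ofReal_mul, ← Complex.ofReal_mul,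
      mul_one_div_cancel hL0.ne', mul_one_div_cancel hL0'.ne']
    simp_rw [hbt]
  rw [hps, hQ]
  refine h1.trans ?_
  have h2 : Real.log T' ≤ 3 * (1 + l) := by
    rw [Real.log_le_iff_le_exp hT'0]
    apply max_le
    · have h3 : (10 : ℝ) ≤ Real.exp 3 := by
        have := Real.exp_one_gt_d9
        have h4 : Real.exp 3 = Real.exp 1 ^ 3 := by rw [← Real.exp_nat_mul]; norm_num
        rw [h4]
        have h5 : (2.7 : ℝ) ^ 3 ≤ Real.exp 1 ^ 3 := by gcongr; linarith
        norm_num at h5 ⊢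
        linarith
      refine h3.trans (Real.exp_le_exp.2 ?_)
      linarith
    · apply Real.exp_le_exp.2
      linarith
  nlinarith

end LG
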