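import Pool.Agent.H382L.EvalTh3

open Complex Filter Topology Set MeasureTheory

namespace LG

open SG (phi hh nn dd dl)
open SP

namespace EvT

lemma logDeriv_split {s : ℂ} (hs : s.im ≠ 0) (h0 : riemannZeta s ≠ 0) :
    logDeriv completedRiemannZeta s = logDeriv Gammaℝ s + deriv riemannZeta s / riemannZeta s := by
  have h1 : completedRiemannZeta =ᶠ[𝓝 s] fun w => Gammaℝ w * riemannZeta w := by
    filter_upwards [H370.DL.eventually_im_ne hs] with w hw
    exact SG.AlgAux.Lam_eq hw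
  rw [logDeriv_apply, h1.deriv_eq, h1.self_of_nhds, ← logDeriv_apply]
  rw [logDeriv_mul s (SG.GamAux.GR_ne hs) h0
    (SG.GamAux.GR_analytic hs).differentiableAt
    (differentiableAt_riemannZeta (SG.AlgAux.ne_one_of_im hs))]
  rw [logDeriv_apply riemannZeta]

/-- the integral of `m^{-iw}` over the shift -/
lemma int_zL (δ : ℝ) (m : ℕ) : ∫ w in (-(δ / 2))..(δ / 2), zL w m =
    ((ArithmeticFunction.vonMangoldt m * (2 * Real.sin (δ * Real.log m / 2)) / Real.log m : ℝ) : ℂ) := by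
  unfold zL
  rcases le_or_gt m 1 with hm | hm
  · have h0 : ArithmeticFunction.vonMangoldt m = 0 := by
      interval_cases m
      · simp
      · simp
    simp [h0]
  · have hm0 : (m : ℂ) ≠ 0 := by
      have : m ≠ 0 := by omega
      exact_mod_cast this
    have hlog : 0 < Real.log m := Real.log_pos (by exact_mod_cast hm)
    have hlogc : ((Real.log m : ℝ) : ℂ) ≠ 0 := by exact_mod_cast hlog.ne'
    rw [intervalIntegral.integral_const_mul]
    have e : ∀ w : ℝ, (m : ℂ) ^ (-(I * (w : ℂ))) = cexp ((-(I * (Real.log m : ℝ))) * w) := by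
      intro w
      rw [Complex.cpow_def_of_ne_zero hm0, ← Complex.natCast_log]
      congr 1
      ring
    simp_rw [e]
    rw [integral_exp_mul_complex (by
      simp only [ne_eq, neg_eq_zero, mul_eq_zero, I_ne_zero, false_or]
      exact hlogc)]
    have h2 : cexp (-(I * (Real.log m : ℝ)) * ((δ / 2 : ℝ) : ℂ)) -
        cexp (-(I * (Real.log m : ℝ)) * ((-(δ / 2) : ℝ) : ℂ)) =
        -(2 * I * ((Real.sin (δ * Real.log m / 2) : ℝ) : ℂ)) := by
      rw [Complex.ofReal_sin, Complex.sin]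
      have e1 : -(I * (Real.log m : ℝ)) * ((δ / 2 : ℝ) : ℂ) =
          -((δ * Real.log m / 2 : ℝ) : ℂ) * I := by push_cast; ring
      have e2 : -(I * (Real.log m : ℝ)) * ((-(δ / 2) : ℝ) : ℂ) =
          ((δ * Real.log m / 2 : ℝ) : ℂ) * I := by push_cast; ring
      rw [e1, e2]
      have hI : I * I = -1 := I_mul_I
      linear_combination (cexp (-((δ * Real.log m / 2 : ℝ) : ℂ) * I) -
        cexp (((δ * Real.log m / 2 : ℝ) : ℂ) * I)) * hI
    rw [h2]
    push_cast
    field_simp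

lemma zL_cont (m : ℕ) : Continuous (fun w : ℝ => zL w m) := by
  unfold zL
  rcases Nat.eq_zero_or_pos m with h | h
  · subst h
    simp only [ArithmeticFunction.map_zero, Complex.ofReal_zero, zero_mul]
    exact continuous_const
  · have hm0 : (m : ℂ) ≠ 0 := by
      have : m ≠ 0 := by omega
      exact_mod_cast this
    apply Continuous.mul continuous_const
    apply Continuous.const_cpow (by fun_prop) (Or.inl hm0)

/-- integral of the diagonal sums -/
lemma int_SS0 (δ x : ℝ) (N : ℕ) (d : ℕ → ℂ) :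
    IntervalIntegrable (fun w : ℝ => SS0 (zL w) x N d) volume (-(δ / 2)) (δ / 2) ∧
    ∫ w in (-(δ / 2))..(δ / 2), SS0 (zL w) x N d =
      ∑ k ∈ Finset.Icc 1 N, (starRingEnd ℂ) (d k) * (k : ℂ) ^ (-(1 : ℂ) - x) *
        ∑ m ∈ k.divisors, d (k / m) * ((k / m : ℕ) : ℂ) ^ (x : ℂ) *
          ((ArithmeticFunction.vonMangoldt m * (2 * Real.sin (δ * Real.log m / 2)) /
            Real.log m : ℝ) : ℂ) := by
  have hee : ∀ k : ℕ, Continuous (fun w : ℝ => ee (zL w) x N d k) := by
    intro k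
    unfold ee
    apply continuous_finset_sum
    intro y _
    exact continuous_const.mul (zL_cont _)
  have hc : Continuous (fun w : ℝ => SS0 (zL w) x N d) := by
    unfold SS0
    apply continuous_finset_sum
    intro k _
    exact continuous_const.mul (hee k)
  refine ⟨hc.intervalIntegrable _ _, ?_⟩
  unfold SS0
  have hint : ∀ k ∈ Finset.Icc 1 N, IntervalIntegrable (fun w : ℝ => (starRingEnd ℂ) (d k) *
      (k : ℂ) ^ (-(1 : ℂ) - x) * ee (zL w) x N d k) volume (-(δ / 2)) (δ / 2) := fun k _ =>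
    (continuous_const.mul (hee k)).intervalIntegrable _ _
  rw [intervalIntegral.integral_finset_sum hint]
  apply Finset.sum_congr rfl
  intro k hk
  obtain ⟨k1, k2⟩ := Finset.mem_Icc.mp hk
  rw [intervalIntegral.integral_const_mul]
  congr 1
  unfold ee
  have hint2 : ∀ y ∈ k.divisors, IntervalIntegrable (fun w : ℝ => (if y ≤ N then d y else 0) *
      (y : ℂ) ^ (x : ℂ) * zL w (k / y)) volume (-(δ / 2)) (δ / 2) := fun y _ =>
    (continuous_const.mul (zL_cont _)).intervalIntegrable _ _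
  rw [intervalIntegral.integral_finset_sum hint2]
  simp_rw [intervalIntegral.integral_const_mul, int_zL]
  rw [← Nat.sum_div_divisors k (fun y => (if y ≤ N then d y else 0) * (y : ℂ) ^ (x : ℂ) *
    ((ArithmeticFunction.vonMangoldt (k / y) * (2 * Real.sin (δ * Real.log ((k / y : ℕ) : ℝ) / 2)) /
      Real.log ((k / y : ℕ) : ℝ) : ℝ) : ℂ))]
  apply Finset.sum_congr rfl
  intro m hm
  have hle : k / m ≤ N := (Nat.div_le_self k m).trans k2
  have hdd : k / (k / m) = m := Nat.div_div_self (Nat.dvd_of_mem_divisors hm) (by omega)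
  rw [if_pos hle, hdd]

end EvT

open EvT

theorem eval_theta (hRH : RHs) (c a κ : ℝ) (hc : 0 < c) (hc1 : c ≤ 3) (ha : 0 < a) (ha1 : a ≤ 1)
    (hκ : 0 < κ) (hκ1 : κ < 1 / 2) :
    ∃ C T0 : ℝ, 0 < C ∧ 10 ≤ T0 ∧ ∀ T : ℝ, T0 ≤ T → ∀ t0 : ℝ, 11 / 10 * T ≤ t0 →
    t0 ≤ 19 / 10 * T → ∀ d : ℕ → ℂ, (∀ n, ‖d n‖ ≤ T) →
    |(∫ t in (T + 2 * Real.log T)..(2 * T - 2 * Real.log T),
      wt t0 (dd κ T) t * ‖DP (nn κ T) d (⟨1 / 2, t⟩ : ℂ)‖ ^ 2 * Th c a T t) -
      Real.sqrt (2 * Real.pi) * dd κ T *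
        (Real.pi * c * ND (nn κ T) d - XD c a T (nn κ T) d)| ≤
      C * dd κ T / Real.log T * (1 + ND (nn κ T) d) := by
  obtain ⟨T1, hT1, hmz⟩ := mean_zeta hRH a κ ha hκ hκ1
  obtain ⟨T2, hT2, hms⟩ := mean_sq' a κ ha hκ hκ1
  obtain ⟨C3, T3, hC3, hT3, hld⟩ := ld_hor hRH a ha
  obtain ⟨C4, hC4, hgam⟩ := H370.DL.logDeriv_Gammaℝ_bound
  obtain ⟨T5, hT5, hside⟩ := shift_tiny a κ 1 ha hκ hκ1 one_pos
  refine ⟨200 * (C4 + 1) + 200, max (max T1 T2) (max T3 (max T5 (Real.exp 20))), by positivity,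
    hT1.trans ((le_max_left _ _).trans (le_max_left _ _)), ?_⟩
  intro T hT t0 ht1 ht2 d hd
  have hTT1 : T1 ≤ T := ((le_max_left _ _).trans (le_max_left _ _)).trans hT
  have hTT2 : T2 ≤ T := ((le_max_right _ _).trans (le_max_left _ _)).trans hT
  have hTT3 : T3 ≤ T := ((le_max_left _ _).trans (le_max_right _ _)).trans hT
  have hTT5 : T5 ≤ T :=
    ((le_max_left _ _).trans ((le_max_right _ _).trans (le_max_right _ _))).trans hT
  have hTe : Real.exp 20 ≤ T :=
    ((le_max_right _ _).trans ((le_max_right _ _).trans (le_max_right _ _))).trans hT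
  obtain ⟨hD12, hD8, hN1, hT64, hx1, hL7, hLD, hL40⟩ := (hside T hTT5).1
  have hTpos : 0 < T := by linarith
  have hL20 : 20 ≤ Real.log T := (Real.le_log_iff_exp_le hTpos).2 hTe
  have hMS := hms T hTT2 t0 ht1 ht2 d hd
  have hMZ := hmz T hTT1 t0 ht1 ht2 d hd
  set L := Real.log T with hL
  have hLpos : 0 < L := by linarith
  set x := a / L with hx
  have hx0 : 0 < x := by positivity
  set N := nn κ T with hN
  set D := dd κ T with hD
  have hDpos : 0 < D := by linarith
  set δ := dl c T with hδ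
  have hδe : δ = 2 * Real.pi * c / L := by rw [hδ, hL]; rfl
  have hδ0 : 0 < δ := by rw [hδe]; positivity
  have hδ20 : δ ≤ 20 / L := by
    rw [hδe]
    apply div_le_div_of_nonneg_right _ hLpos.le
    nlinarith [Real.pi_lt_d2, Real.pi_pos]
  have hδ1 : δ ≤ 1 := hδ20.trans (by rw [div_le_one hLpos]; linarith)
  have hδL : δ * (L / 2) = Real.pi * c := by
    rw [hδe]; field_simp
  set V1 := T + 2 * L with hV1
  set V2 := 2 * T - 2 * L with hV2
  have hV12 : V1 ≤ V2 := by rw [hV1, hV2]; linarith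
  set P : ℝ → ℝ := fun t => wt t0 D t * ‖DP N d (⟨1 / 2, t⟩ : ℂ)‖ ^ 2 with hP
  have hP0 : ∀ t, 0 ≤ P t := fun t => by
    simp only [hP]; unfold wt; positivity
  have hPc : Continuous P := by
    have h1 : Continuous (fun t : ℝ => wt t0 D t) := by unfold wt; fun_prop
    have h2 : Continuous (fun t : ℝ => DP N d (⟨1 / 2, t⟩ : ℂ)) := by
      have h3 := (DP_differentiable N d 0).continuous
      simp only [Complex.ofReal_zero, sub_zero] at h3
      exact h3.comp (line_cont _)
    exact h1.mul (h2.norm.pow 2)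
  -- the domain
  have hdom : ∀ t w : ℝ, t ∈ Icc V1 V2 → w ∈ Icc (-(δ / 2)) (δ / 2) →
      riemannZeta (⟨1 / 2 + x, t + w⟩ : ℂ) ≠ 0 ∧ T + 1 ≤ t + w ∧ t + w ≤ 2 * T - 1 := by
    intro t w ht hw
    have h1 : T + 1 ≤ t + w := by
      have := ht.1; have := hw.1; linarith
    have h2 : t + w ≤ 2 * T - 1 := by
      have := ht.2; have := hw.2; linarith
    exact ⟨(hld T hTT3 (⟨1 / 2 + x, t + w⟩ : ℂ) le_rfl h1 h2).1, h1, h2⟩
  have hshiftc : ∀ t w : ℝ, (⟨1 / 2 + x, t⟩ : ℂ) + I * w = ⟨1 / 2 + x, t + w⟩ := by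
    intro t w
    apply Complex.ext <;> simp
  -- continuity
  have hcontline : Continuous (fun p : ℝ × ℝ => (⟨1 / 2 + x, p.1 + p.2⟩ : ℂ)) := by
    have : (fun p : ℝ × ℝ => (⟨1 / 2 + x, p.1 + p.2⟩ : ℂ)) =
      (fun t : ℝ => (⟨1 / 2 + x, t⟩ : ℂ)) ∘ (fun p : ℝ × ℝ => p.1 + p.2) := rfl
    rw [this]
    exact (line_cont _).comp (by fun_prop)
  set h : ℝ → ℝ := fun v => (logDeriv completedRiemannZeta (⟨1 / 2 + x, v⟩ : ℂ)).re with hh
  have hcont1 : ContinuousOn (Function.uncurry fun t w : ℝ => P t * h (t + w))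
      (Icc V1 V2 ×ˢ Icc (-(δ / 2)) (δ / 2)) := by
    rintro ⟨t, w⟩ ⟨ht, hw⟩
    obtain ⟨g1, g2, g3⟩ := hdom t w ht hw
    apply ContinuousAt.continuousWithinAt
    have him : (⟨1 / 2 + x, t + w⟩ : ℂ).im ≠ 0 := by simp only; linarith
    have c1 : ContinuousAt (logDeriv completedRiemannZeta) (⟨1 / 2 + x, t + w⟩ : ℂ) := by
      have an := analyticAt_completedZeta (⟨1 / 2 + x, t + w⟩ : ℂ) (by simp only; linarith)
      have ne : completedRiemannZeta (⟨1 / 2 + x, t + w⟩ : ℂ) ≠ 0 := by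
        rw [SG.AlgAux.Lam_eq him]
        exact mul_ne_zero (SG.GamAux.GR_ne him) g1
      exact (an.deriv.div an ne).continuousAt
    have c2 : ContinuousAt (fun p : ℝ × ℝ => logDeriv completedRiemannZeta
        (⟨1 / 2 + x, p.1 + p.2⟩ : ℂ)) (t, w) :=
      ContinuousAt.comp (f := fun p : ℝ × ℝ => (⟨1 / 2 + x, p.1 + p.2⟩ : ℂ)) c1
        hcontline.continuousAt
    have c3 : ContinuousAt (fun p : ℝ × ℝ => (logDeriv completedRiemannZeta
        (⟨1 / 2 + x, p.1 + p.2⟩ : ℂ)).re) (t, w) :=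
      Complex.continuous_re.continuousAt.comp c2
    have c4 : ContinuousAt (fun p : ℝ × ℝ => P p.1) (t, w) :=
      (hPc.comp continuous_fst).continuousAt
    exact c4.mul c3
  have hcontZ : ContinuousOn (Function.uncurry fun t w : ℝ => ZL w (⟨1 / 2 + x, t⟩ : ℂ))
      (Icc V1 V2 ×ˢ Icc (-(δ / 2)) (δ / 2)) := by
    rintro ⟨t, w⟩ ⟨ht, hw⟩
    obtain ⟨g1, g2, g3⟩ := hdom t w ht hw
    apply ContinuousAt.continuousWithinAt
    have him : (⟨1 / 2 + x, t + w⟩ : ℂ).im ≠ 0 := by simp only; linarith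
    have e : (Function.uncurry fun t w : ℝ => ZL w (⟨1 / 2 + x, t⟩ : ℂ)) =
        fun p : ℝ × ℝ => -(deriv riemannZeta (⟨1 / 2 + x, p.1 + p.2⟩ : ℂ) /
          riemannZeta (⟨1 / 2 + x, p.1 + p.2⟩ : ℂ)) := by
      funext p
      simp only [Function.uncurry, ZL]
      rw [hshiftc]
    rw [e]
    have an := zeta_analytic (SG.AlgAux.ne_one_of_im him)
    have c1 : ContinuousAt (fun p : ℝ × ℝ => deriv riemannZeta
        (⟨1 / 2 + x, p.1 + p.2⟩ : ℂ)) (t, w) :=
      ContinuousAt.comp (f := fun p : ℝ × ℝ => (⟨1 / 2 + x, p.1 + p.2⟩ : ℂ))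
        (g := deriv riemannZeta) an.deriv.continuousAt hcontline.continuousAt
    have c2 : ContinuousAt (fun p : ℝ × ℝ => riemannZeta
        (⟨1 / 2 + x, p.1 + p.2⟩ : ℂ)) (t, w) :=
      ContinuousAt.comp (f := fun p : ℝ × ℝ => (⟨1 / 2 + x, p.1 + p.2⟩ : ℂ))
        (g := riemannZeta) an.continuousAt hcontline.continuousAt
    exact (c1.div c2 g1).neg
  have hcont2 : ContinuousOn (Function.uncurry fun t w : ℝ => ((P t : ℝ) : ℂ) *
      ZL w (⟨1 / 2 + x, t⟩ : ℂ)) (Icc V1 V2 ×ˢ Icc (-(δ / 2)) (δ / 2)) := by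
    have c4 : ContinuousOn (fun p : ℝ × ℝ => ((P p.1 : ℝ) : ℂ))
        (Icc V1 V2 ×ˢ Icc (-(δ / 2)) (δ / 2)) :=
      (Complex.continuous_ofReal.comp (hPc.comp continuous_fst)).continuousOn
    exact c4.mul hcontZ
  have hδle : -(δ / 2) ≤ δ / 2 := by linarith
  obtain ⟨i1, -, -⟩ := fub (fun t w : ℝ => P t * h (t + w)) V1 V2 (-(δ / 2)) (δ / 2) hV12 hδle hcont1
  obtain ⟨i2, i3, s2⟩ := fub (fun t w : ℝ => ((P t : ℝ) : ℂ) * ZL w (⟨1 / 2 + x, t⟩ : ℂ)) V1 V2
    (-(δ / 2)) (δ / 2) hV12 hδle hcont2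
  -- Th as an integral over the shift
  have hTh : ∀ t, Th c a T t = ∫ w in (-(δ / 2))..(δ / 2), h (t + w) := by
    intro t
    have e := intervalIntegral.integral_comp_add_left (a := -(δ / 2)) (b := δ / 2) h t
    rw [e]
    unfold Th
    rw [← hδ, ← hL]
    rfl
  -- pointwise remainder
  set H : ℝ → ℂ := fun t => ∫ w in (-(δ / 2))..(δ / 2), ZL w (⟨1 / 2 + x, t⟩ : ℂ) with hH
  have hr : ∀ t ∈ Icc V1 V2, |Th c a T t - Real.pi * c + (H t).re| ≤ (C4 + 1) * δ := by
    intro t ht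
    have hwmem : ∀ w ∈ uIcc (-(δ / 2)) (δ / 2), w ∈ Icc (-(δ / 2)) (δ / 2) := by
      intro w hw; rwa [uIcc_of_le hδle] at hw
    have j1 : ContinuousOn (fun w : ℝ => ZL w (⟨1 / 2 + x, t⟩ : ℂ)) (uIcc (-(δ / 2)) (δ / 2)) := by
      have : ContinuousOn (fun w : ℝ => (t, w)) (uIcc (-(δ / 2)) (δ / 2)) := by fun_prop
      exact hcontZ.comp (f := fun w : ℝ => (t, w)) this (fun w hw => ⟨ht, hwmem w hw⟩)
    have j1' : ContinuousOn (fun w : ℝ => (ZL w (⟨1 / 2 + x, t⟩ : ℂ)).re)
        (uIcc (-(δ / 2)) (δ / 2)) := Complex.continuous_re.comp_continuousOn j1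
    have hHre : (H t).re = ∫ w in (-(δ / 2))..(δ / 2), (ZL w (⟨1 / 2 + x, t⟩ : ℂ)).re := by
      simp only [hH]
      have j2 : IntervalIntegrable (fun w : ℝ => ZL w (⟨1 / 2 + x, t⟩ : ℂ)) volume
        (-(δ / 2)) (δ / 2) := j1.intervalIntegrable
      have := Complex.reCLM.intervalIntegral_comp_comm j2
      simp only [Complex.reCLM_apply] at this
      exact this.symm
    have hsum : ∀ w ∈ Icc (-(δ / 2)) (δ / 2), h (t + w) + (ZL w (⟨1 / 2 + x, t⟩ : ℂ)).re =
        (logDeriv Gammaℝ (⟨1 / 2 + x, t + w⟩ : ℂ)).re := by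
      intro w hw
      obtain ⟨g1, g2, g3⟩ := hdom t w ht hw
      simp only [hh]
      rw [logDeriv_split (by simp only; linarith) g1]
      unfold ZL
      rw [hshiftc]
      simp
    have hgb : ∀ w ∈ Icc (-(δ / 2)) (δ / 2), |h (t + w) + (ZL w (⟨1 / 2 + x, t⟩ : ℂ)).re - L / 2| ≤
        C4 + 1 := by
      intro w hw
      rw [hsum w hw]
      obtain ⟨g1, g2, g3⟩ := hdom t w ht hw
      have b1 := hgam (⟨1 / 2 + x, t + w⟩ : ℂ) (by simp only; linarith) (by simp only; linarith)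
        (by simp only; rw [abs_of_pos (by linarith)]; linarith)
      simp only at b1
      rw [abs_of_pos (by linarith : (0 : ℝ) < t + w)] at b1
      have b2 := (Complex.abs_re_le_norm _).trans b1
      have e : (logDeriv Gammaℝ (⟨1 / 2 + x, t + w⟩ : ℂ) - 1 / 2 * ((Real.log (t + w) : ℝ) : ℂ)).re =
          (logDeriv Gammaℝ (⟨1 / 2 + x, t + w⟩ : ℂ)).re - 1 / 2 * Real.log (t + w) := by
        have : (1 / 2 * ((Real.log (t + w) : ℝ) : ℂ)) = ((1 / 2 * Real.log (t + w) : ℝ) : ℂ) := by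
          push_cast; ring
        rw [this, Complex.sub_re, Complex.ofReal_re]
      rw [e] at b2
      have b3 : L ≤ Real.log (t + w) := Real.log_le_log hTpos (by linarith)
      have b4 : Real.log (t + w) ≤ L + Real.log 2 := by
        rw [hL, ← Real.log_mul hTpos.ne' two_ne_zero]
        exact Real.log_le_log (by linarith) (by linarith)
      have b5 : Real.log 2 ≤ 1 := by linarith [Real.log_two_lt_d9]
      rw [abs_le] at b2 ⊢
      constructor <;> linarith [b2.1, b2.2]
    have hcw : ContinuousOn (fun w : ℝ => h (t + w)) (uIcc (-(δ / 2)) (δ / 2)) := by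
      intro w hw
      obtain ⟨g1, g2, g3⟩ := hdom t w ht (hwmem w hw)
      apply ContinuousAt.continuousWithinAt
      have him : (⟨1 / 2 + x, t + w⟩ : ℂ).im ≠ 0 := by simp only; linarith
      have c1 : ContinuousAt (logDeriv completedRiemannZeta) (⟨1 / 2 + x, t + w⟩ : ℂ) := by
        have an := analyticAt_completedZeta (⟨1 / 2 + x, t + w⟩ : ℂ) (by simp only; linarith)
        have ne : completedRiemannZeta (⟨1 / 2 + x, t + w⟩ : ℂ) ≠ 0 := by
          rw [SG.AlgAux.Lam_eq him]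
          exact mul_ne_zero (SG.GamAux.GR_ne him) g1
        exact (an.deriv.div an ne).continuousAt
      have c0 : ContinuousAt (fun w : ℝ => (⟨1 / 2 + x, t + w⟩ : ℂ)) w :=
        ((line_cont _).comp (by fun_prop : Continuous fun w : ℝ => t + w)).continuousAt
      exact Complex.continuous_re.continuousAt.comp
        (ContinuousAt.comp (f := fun w : ℝ => (⟨1 / 2 + x, t + w⟩ : ℂ)) c1 c0)
    have e : Th c a T t - Real.pi * c + (H t).re =
        ∫ w in (-(δ / 2))..(δ / 2), (h (t + w) + (ZL w (⟨1 / 2 + x, t⟩ : ℂ)).re - L / 2) := by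
      have n1 : IntervalIntegrable (fun w : ℝ => h (t + w)) volume (-(δ / 2)) (δ / 2) :=
        hcw.intervalIntegrable
      have n2 : IntervalIntegrable (fun w : ℝ => (ZL w (⟨1 / 2 + x, t⟩ : ℂ)).re) volume
        (-(δ / 2)) (δ / 2) := j1'.intervalIntegrable
      have n3 : IntervalIntegrable (fun w : ℝ => h (t + w) + (ZL w (⟨1 / 2 + x, t⟩ : ℂ)).re) volume
        (-(δ / 2)) (δ / 2) := n1.add n2
      rw [intervalIntegral.integral_sub n3 intervalIntegrable_const,
        intervalIntegral.integral_add n1 n2, ← hTh, ← hHre, intervalIntegral.integral_const, ← hδL]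
      simp only [smul_eq_mul]
      ring
    rw [e]
    have hb : ∀ w ∈ uIoc (-(δ / 2)) (δ / 2),
        ‖h (t + w) + (ZL w (⟨1 / 2 + x, t⟩ : ℂ)).re - L / 2‖ ≤ C4 + 1 := by
      intro w hw
      rw [uIoc_of_le hδle] at hw
      exact hgb w ⟨hw.1.le, hw.2⟩
    have := intervalIntegral.norm_integral_le_of_norm_le_const hb
    rw [Real.norm_eq_abs] at this
    refine this.trans (le_of_eq ?_)
    rw [show δ / 2 - -(δ / 2) = δ by ring, abs_of_pos hδ0]
  -- integrals in t
  have k1 : IntervalIntegrable (fun t => P t * Th c a T t) volume V1 V2 := by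
    have e : (fun t => P t * Th c a T t) = fun t => ∫ w in (-(δ / 2))..(δ / 2), P t * h (t + w) := by
      funext t
      rw [intervalIntegral.integral_const_mul, hTh]
    rw [e]; exact i1
  have k2 : IntervalIntegrable (fun t => ((P t : ℝ) : ℂ) * H t) volume V1 V2 := by
    have e : (fun t => ((P t : ℝ) : ℂ) * H t) = fun t => ∫ w in (-(δ / 2))..(δ / 2),
        ((P t : ℝ) : ℂ) * ZL w (⟨1 / 2 + x, t⟩ : ℂ) := by
      funext t
      rw [intervalIntegral.integral_const_mul]
    rw [e]; exact i2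
  have k2' : IntervalIntegrable (fun t => P t * (H t).re) volume V1 V2 := by
    have e : (fun t => P t * (H t).re) = fun t => Complex.reCLM (((P t : ℝ) : ℂ) * H t) := by
      funext t
      simp only [Complex.reCLM_apply, Complex.re_ofReal_mul]
    rw [e]
    exact ⟨Complex.reCLM.integrable_comp k2.1, Complex.reCLM.integrable_comp k2.2⟩
  have k3 : IntervalIntegrable P volume V1 V2 := hPc.intervalIntegrable _ _
  have hPI0 : 0 ≤ ∫ t in V1..V2, P t := intervalIntegral.integral_nonneg hV12 (fun t _ => hP0 t)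
  -- remainder
  have hR : |(∫ t in V1..V2, P t * Th c a T t) - Real.pi * c * (∫ t in V1..V2, P t) +
      ∫ t in V1..V2, P t * (H t).re| ≤ (C4 + 1) * δ * ∫ t in V1..V2, P t := by
    have e : (∫ t in V1..V2, P t * Th c a T t) - Real.pi * c * (∫ t in V1..V2, P t) +
      (∫ t in V1..V2, P t * (H t).re) =
      ∫ t in V1..V2, P t * (Th c a T t - Real.pi * c + (H t).re) := by
      rw [← intervalIntegral.integral_const_mul, ← intervalIntegral.integral_sub k1
        (k3.const_mul _), ← intervalIntegral.integral_add (k1.sub (k3.const_mul _)) k2']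
      apply intervalIntegral.integral_congr
      intro t _
      simp only
      ring
    rw [e, ← intervalIntegral.integral_const_mul, ← Real.norm_eq_abs]
    apply intervalIntegral.norm_integral_le_of_norm_le hV12 _ (k3.const_mul _)
    apply ae_of_all
    intro t ht
    rw [norm_mul, Real.norm_of_nonneg (hP0 t), Real.norm_eq_abs, mul_comm]
    exact mul_le_mul_of_nonneg_right (hr t ⟨ht.1.le, ht.2⟩) (hP0 t)
  -- the main term
  obtain ⟨m1, m2⟩ := int_SS0 δ x N d
  have hXD : (∫ w in (-(δ / 2))..(δ / 2), SS0 (zL w) x N d).re = XD c a T N d := by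
    rw [m2]
    unfold XD
    rw [← hL, ← hx]
    congr 1
    apply Finset.sum_congr rfl
    intro k _
    congr 1
    apply Finset.sum_congr rfl
    intro m _
    congr 4
    rw [hδe]
    ring_nf
  set E := Real.sqrt (2 * Real.pi) * D with hE
  have hZZ : ‖(∫ t in V1..V2, ((P t : ℝ) : ℂ) * H t) -
      (E : ℂ) * ∫ w in (-(δ / 2))..(δ / 2), SS0 (zL w) x N d‖ ≤ δ := by
    have e1 : (∫ t in V1..V2, ((P t : ℝ) : ℂ) * H t) =
        ∫ w in (-(δ / 2))..(δ / 2), ∫ t in V1..V2, ((P t : ℝ) : ℂ) * ZL w (⟨1 / 2 + x, t⟩ : ℂ) := by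
      rw [← s2]
      apply intervalIntegral.integral_congr
      intro t _
      simp only [hH]
      rw [intervalIntegral.integral_const_mul]
    rw [e1, ← intervalIntegral.integral_const_mul,
      ← intervalIntegral.integral_sub i3 (m1.const_mul _)]
    have hb : ∀ w ∈ uIoc (-(δ / 2)) (δ / 2),
        ‖(∫ t in V1..V2, ((P t : ℝ) : ℂ) * ZL w (⟨1 / 2 + x, t⟩ : ℂ)) -
          (E : ℂ) * SS0 (zL w) x N d‖ ≤ 1 := by
      intro w hw
      rw [uIoc_of_le hδle] at hw
      exact hMZ w (by rw [abs_le]; constructor <;> linarith [hw.1, hw.2])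
    have := intervalIntegral.norm_integral_le_of_norm_le_const hb
    refine this.trans (le_of_eq ?_)
    rw [show δ / 2 - -(δ / 2) = δ by ring, abs_of_pos hδ0, one_mul]
  have hZr : |(∫ t in V1..V2, P t * (H t).re) - E * XD c a T N d| ≤ δ := by
    have e1 : (∫ t in V1..V2, P t * (H t).re) = (∫ t in V1..V2, ((P t : ℝ) : ℂ) * H t).re := by
      have := Complex.reCLM.intervalIntegral_comp_comm k2
      simp only [Complex.reCLM_apply, Complex.re_ofReal_mul] at this
      exact this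
    have e2 : E * XD c a T N d = ((E : ℂ) * ∫ w in (-(δ / 2))..(δ / 2), SS0 (zL w) x N d).re := by
      rw [Complex.re_ofReal_mul, hXD]
    rw [e1, e2, ← Complex.sub_re]
    exact (Complex.abs_re_le_norm _).trans hZZ
  -- assemble
  have hND0 : 0 ≤ ND N d := by
    unfold ND
    exact Finset.sum_nonneg fun k _ => by positivity
  have hPIle : ∫ t in V1..V2, P t ≤ E * ND N d + 1 := by
    have := (abs_le.mp hMS).2
    simp only [hP]
    linarith
  have hfin : |(∫ t in V1..V2, P t * Th c a T t) - E * (Real.pi * c * ND N d - XD c a T N d)| ≤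
      (C4 + 1) * δ * (E * ND N d + 1) + Real.pi * c + δ := by
    have e : (∫ t in V1..V2, P t * Th c a T t) - E * (Real.pi * c * ND N d - XD c a T N d) =
        ((∫ t in V1..V2, P t * Th c a T t) - Real.pi * c * (∫ t in V1..V2, P t) +
          ∫ t in V1..V2, P t * (H t).re) +
        Real.pi * c * ((∫ t in V1..V2, P t) - E * ND N d) -
        ((∫ t in V1..V2, P t * (H t).re) - E * XD c a T N d) := by ring
    rw [e]
    have hpc : 0 < Real.pi * c := by positivity
    have h1 : |Real.pi * c * ((∫ t in V1..V2, P t) - E * ND N d)| ≤ Real.pi * c := by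
      rw [abs_mul, abs_of_pos hpc]
      exact mul_le_of_le_one_right hpc.le hMS
    refine (abs_sub _ _).trans (add_le_add ((abs_add_le _ _).trans (add_le_add ?_ h1)) hZr)
    refine hR.trans ?_
    exact mul_le_mul_of_nonneg_left hPIle (by positivity)
  refine hfin.trans ?_
  have hE3 : E ≤ 3 * D := by
    have h5' : Real.sqrt (2 * Real.pi) ≤ 3 := by
      rw [Real.sqrt_le_left (by norm_num)]
      have := Real.pi_lt_d2
      norm_num at this ⊢
      linarith
    exact mul_le_mul_of_nonneg_right h5' hDpos.le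
  have hDL : 1 ≤ D / L := by rw [le_div_iff₀ hLpos]; linarith
  have hpc10 : Real.pi * c ≤ 10 := by nlinarith [Real.pi_lt_d2, Real.pi_pos]
  have hE0 : 0 ≤ E := by positivity
  calc (C4 + 1) * δ * (E * ND N d + 1) + Real.pi * c + δ
      ≤ (C4 + 1) * (20 / L) * (3 * D * ND N d + D) + 10 + 1 := by
        have h1 : (C4 + 1) * δ * (E * ND N d + 1) ≤ (C4 + 1) * (20 / L) * (3 * D * ND N d + D) := by
          apply mul_le_mul _ _ (by positivity) (by positivity)
          · exact mul_le_mul_of_nonneg_left hδ20 (by linarith)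
          · have := mul_le_mul_of_nonneg_right hE3 hND0
            linarith
        linarith
    _ = (C4 + 1) * 20 * (D / L) * (3 * ND N d + 1) + 11 := by ring
    _ ≤ (C4 + 1) * 20 * (D / L) * (3 * ND N d + 1) + 11 * (D / L) := by linarith
    _ ≤ (200 * (C4 + 1) + 200) * (D / L) * (1 + ND N d) := by
        have q1 : 0 ≤ (C4 + 1) * (D / L) := by positivity
        have q2 : 0 ≤ (C4 + 1) * (D / L) * ND N d := by positivity
        have q3 : 0 ≤ (D / L) * ND N d := by positivity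
        have q4 : 0 < D / L := by positivity
        nlinarith
    _ = _ := by ring

end LG
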