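import Pool.Agent.H382L.Defs

open Complex Filter Topology Set MeasureTheory

namespace LG

open SG (phi hh nn dd dl)
open SP

namespace EvT

/-- coefficients of `DP(s-x) Z(s)`, `Z(s) = ∑ z(m) m^{-s}` -/
noncomputable def ee (z : ℕ → ℂ) (x : ℝ) (N : ℕ) (d : ℕ → ℂ) (j : ℕ) : ℂ :=
  ∑ y ∈ j.divisors, (if y ≤ N then d y else 0) * (y : ℂ) ^ (x : ℂ) * z (j / y)

lemma DP_hasSum (N : ℕ) (d : ℕ → ℂ) (x : ℝ) (s : ℂ) :
    LSeriesHasSum (fun n : ℕ => (if n ≤ N then d n else 0) * (n : ℂ) ^ (x : ℂ)) s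
      (DP N d (s - x)) := by
  rw [LSeriesHasSum]
  have h : ∀ n ∉ Finset.Icc 1 N,
      LSeries.term (fun n : ℕ => (if n ≤ N then d n else 0) * (n : ℂ) ^ (x : ℂ)) s n = 0 := by
    intro n hn
    rcases Nat.eq_zero_or_pos n with h0 | hpos
    · simp [h0]
    · have : ¬ n ≤ N := by
        intro hle; exact hn (Finset.mem_Icc.mpr ⟨hpos, hle⟩)
      rw [LSeries.term_of_ne_zero (by omega), if_neg this, zero_mul, zero_div]
  have h2 : HasSum (LSeries.term (fun n : ℕ => (if n ≤ N then d n else 0) * (n : ℂ) ^ (x : ℂ)) s)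
      (∑ n ∈ Finset.Icc 1 N, LSeries.term (fun n : ℕ => (if n ≤ N then d n else 0) *
        (n : ℂ) ^ (x : ℂ)) s n) := hasSum_sum_of_ne_finset_zero h
  convert h2 using 1
  unfold DP
  apply Finset.sum_congr rfl
  intro n hn
  obtain ⟨h1, h2⟩ := Finset.mem_Icc.mp hn
  have hn0 : (n : ℂ) ≠ 0 := by
    have : n ≠ 0 := by omega
    exact_mod_cast this
  rw [LSeries.term_of_ne_zero (by omega), if_pos h2, neg_sub, Complex.cpow_sub _ _ hn0]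
  ring

lemma ee_hasSum (z : ℕ → ℂ) (Zs : ℂ) (x : ℝ) (N : ℕ) (d : ℕ → ℂ) (s : ℂ)
    (hz : LSeriesHasSum z s Zs) :
    HasSum (fun j : ℕ => ee z x N d j * (j : ℂ) ^ (-s)) (DP N d (s - x) * Zs) := by
  have h := (DP_hasSum N d x s).convolution hz
  unfold LSeriesHasSum at h
  convert h using 1
  funext n
  rcases Nat.eq_zero_or_pos n with rfl | hn
  · simp [ee]
  · rw [LSeries.term_of_ne_zero hn.ne', Complex.cpow_neg, ← div_eq_mul_inv]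
    congr 1
    rw [LSeries.convolution_def]
    simp only
    have h := Nat.sum_divisorsAntidiagonal (fun a b : ℕ => (if a ≤ N then d a else 0) *
      (a : ℂ) ^ (x : ℂ) * z b) (n := n)
    rw [h]
    rfl

lemma ee_bound (z : ℕ → ℂ) (hzb : ∀ m, ‖z m‖ ≤ m) (x K : ℝ) (hx0 : 0 ≤ x) (hx : x ≤ 1) (N : ℕ) (d : ℕ → ℂ) (hK : 0 ≤ K)
    (hd : ∀ n, ‖d n‖ ≤ K) (j : ℕ) : ‖ee z x N d j‖ ≤ K * (j : ℝ) ^ 2 := by
  unfold ee
  calc _ ≤ ∑ y ∈ j.divisors, K * (j : ℝ) := by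
        apply norm_sum_le_of_le
        intro y hy
        have hy0 : 0 < y := Nat.pos_of_mem_divisors hy
        have hj0 : j ≠ 0 := by
          intro h; rw [h] at hy; simp at hy
        rw [norm_mul, norm_mul, Complex.norm_natCast_cpow_of_pos hy0, Complex.ofReal_re]
        have h1 : ‖(if y ≤ N then d y else 0)‖ ≤ K := by
          split_ifs
          · exact hd y
          · simpa using hK
        have h2 : (y : ℝ) ^ x ≤ y := by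
          calc (y : ℝ) ^ x ≤ (y : ℝ) ^ (1 : ℝ) :=
                Real.rpow_le_rpow_of_exponent_le (by exact_mod_cast hy0) hx
            _ = y := Real.rpow_one _
        have h3 : ‖z (j / y)‖ ≤ ((j / y : ℕ) : ℝ) := hzb _
        have h4 : (y : ℝ) * ((j / y : ℕ) : ℝ) = j := by
          have := Nat.mul_div_cancel' (Nat.dvd_of_mem_divisors hy)
          exact_mod_cast this
        calc _ ≤ K * (y : ℝ) * ((j / y : ℕ) : ℝ) := by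
              apply mul_le_mul (mul_le_mul h1 h2 (by positivity) hK) h3 (by positivity) (by positivity)
          _ = K * ((y : ℝ) * ((j / y : ℕ) : ℝ)) := by ring
          _ = _ := by rw [h4]
    _ = (j.divisors.card : ℝ) * (K * j) := by simp
    _ ≤ (j : ℝ) * (K * j) := by
        apply mul_le_mul_of_nonneg_right _ (by positivity)
        exact_mod_cast Nat.card_divisors_le_self j
    _ = _ := by ring

/-- the constant `∑ j^{-4}` -/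
noncomputable def S4 : ℝ := ∑' j : ℕ, (j : ℝ) ^ (-(4 : ℝ))

lemma S4_summable : Summable (fun j : ℕ => (j : ℝ) ^ (-(4 : ℝ))) :=
  Real.summable_nat_rpow.mpr (by norm_num)

lemma S4_nonneg : 0 ≤ S4 := tsum_nonneg fun j => by positivity

/-- the conjugate Dirichlet polynomial `∑ conj(d k) k^{s-x-1}` -/
noncomputable def DPs (N : ℕ) (d : ℕ → ℂ) (x : ℝ) (s : ℂ) : ℂ :=
  ∑ k ∈ Finset.Icc 1 N, (starRingEnd ℂ) (d k) * (k : ℂ) ^ (s - x - 1)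

/-- the full Dirichlet series -/
noncomputable def EE (Z : ℂ → ℂ) (x : ℝ) (N : ℕ) (d : ℕ → ℂ) (s : ℂ) : ℂ :=
  DP N d (s - x) * Z s

noncomputable def FR (z : ℕ → ℂ) (Z : ℂ → ℂ) (x : ℝ) (N : ℕ) (d : ℕ → ℂ) (s : ℂ) : ℂ :=
  ∑ k ∈ Finset.Icc 1 N, (starRingEnd ℂ) (d k) * (k : ℂ) ^ (s - x - 1) *
    (EE Z x N d s - ∑ j ∈ Finset.range (k + 1), ee z x N d j * (j : ℂ) ^ (-s))

noncomputable def FL (z : ℕ → ℂ) (x : ℝ) (N : ℕ) (d : ℕ → ℂ) (s : ℂ) : ℂ :=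
  ∑ k ∈ Finset.Icc 1 N, (starRingEnd ℂ) (d k) * (k : ℂ) ^ (s - x - 1) *
    (∑ j ∈ Finset.range k, ee z x N d j * (j : ℂ) ^ (-s))

noncomputable def SS0 (z : ℕ → ℂ) (x : ℝ) (N : ℕ) (d : ℕ → ℂ) : ℂ :=
  ∑ k ∈ Finset.Icc 1 N, (starRingEnd ℂ) (d k) * (k : ℂ) ^ (-(1 : ℂ) - x) * ee z x N d k

lemma split (z : ℕ → ℂ) (Z : ℂ → ℂ) (x : ℝ) (N : ℕ) (d : ℕ → ℂ) (s : ℂ) :
    DPs N d x s * EE Z x N d s = FR z Z x N d s + FL z x N d s + SS0 z x N d := by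
  unfold DPs FR FL SS0
  rw [Finset.sum_mul, ← Finset.sum_add_distrib, ← Finset.sum_add_distrib]
  apply Finset.sum_congr rfl
  intro k hk
  obtain ⟨h1, h2⟩ := Finset.mem_Icc.mp hk
  have hk0 : (k : ℂ) ≠ 0 := by
    have : k ≠ 0 := by omega
    exact_mod_cast this
  rw [Finset.sum_range_succ]
  have e : (k : ℂ) ^ (-(1 : ℂ) - x) = (k : ℂ) ^ (s - x - 1) * (k : ℂ) ^ (-s) := by
    rw [← Complex.cpow_add _ _ hk0]
    congr 1
    ring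
  rw [e]
  ring

/-- comparison of powers for `j > k` -/
lemma pow_cmp (N k j : ℕ) (hk : 1 ≤ k) (hkN : k ≤ N) (hj : k + 1 ≤ j) (σ x : ℝ) (hx : 0 ≤ x)
    (hσ : 6 ≤ σ) :
    (k : ℝ) ^ (σ - x - 1) * ((j : ℝ) ^ 2 * (j : ℝ) ^ (-σ)) ≤
      (k : ℝ) ^ 5 * ((N : ℝ) / ((N : ℝ) + 1)) ^ (σ - 6) * (j : ℝ) ^ (-(4 : ℝ)) := by
  have hk' : (1 : ℝ) ≤ k := by exact_mod_cast hk
  have hk0 : (0 : ℝ) < k := by linarith
  have hj' : (k : ℝ) + 1 ≤ j := by exact_mod_cast hj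
  have hj0 : (0 : ℝ) < j := by linarith
  have hN' : (k : ℝ) ≤ N := by exact_mod_cast hkN
  have hN0 : (0 : ℝ) < N := by linarith
  have e1 : (k : ℝ) ^ (σ - x - 1) ≤ (k : ℝ) ^ 5 * (k : ℝ) ^ (σ - 6) := by
    rw [← Real.rpow_natCast, ← Real.rpow_add hk0]
    apply Real.rpow_le_rpow_of_exponent_le hk'
    push_cast
    linarith
  have e2 : (j : ℝ) ^ 2 * (j : ℝ) ^ (-σ) = (j : ℝ) ^ (-(4 : ℝ)) * ((j : ℝ) ^ (σ - 6))⁻¹ := by
    rw [← Real.rpow_neg hj0.le, ← Real.rpow_natCast, ← Real.rpow_add hj0, ← Real.rpow_add hj0]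
    congr 1
    push_cast
    ring
  have e3 : (k : ℝ) ^ (σ - 6) * ((j : ℝ) ^ (σ - 6))⁻¹ ≤ ((N : ℝ) / ((N : ℝ) + 1)) ^ (σ - 6) := by
    rw [← div_eq_mul_inv, ← Real.div_rpow hk0.le hj0.le]
    apply Real.rpow_le_rpow (by positivity) _ (by linarith)
    rw [div_le_div_iff₀ hj0 (by positivity)]
    nlinarith
  rw [e2]
  have h4 : 0 < (j : ℝ) ^ (-(4 : ℝ)) := Real.rpow_pos_of_pos hj0 _
  calc (k : ℝ) ^ (σ - x - 1) * ((j : ℝ) ^ (-(4 : ℝ)) * ((j : ℝ) ^ (σ - 6))⁻¹)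
      ≤ ((k : ℝ) ^ 5 * (k : ℝ) ^ (σ - 6)) * ((j : ℝ) ^ (-(4 : ℝ)) * ((j : ℝ) ^ (σ - 6))⁻¹) :=
        mul_le_mul_of_nonneg_right e1 (by positivity)
    _ = (k : ℝ) ^ 5 * (j : ℝ) ^ (-(4 : ℝ)) * ((k : ℝ) ^ (σ - 6) * ((j : ℝ) ^ (σ - 6))⁻¹) := by ring
    _ ≤ (k : ℝ) ^ 5 * (j : ℝ) ^ (-(4 : ℝ)) * ((N : ℝ) / ((N : ℝ) + 1)) ^ (σ - 6) :=
        mul_le_mul_of_nonneg_left e3 (by positivity)
    _ = _ := by ring

/-- comparison of powers for `j < k` -/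
lemma pow_cmp' (N k j : ℕ) (hj : 1 ≤ j) (hkN : k ≤ N) (hjk : j < k) (σ x : ℝ) (hx : 0 ≤ x)
    (hσ : σ ≤ 6) :
    (k : ℝ) ^ (σ - x - 1) * ((j : ℝ) ^ 2 * (j : ℝ) ^ (-σ)) ≤
      (k : ℝ) ^ 5 * (((N : ℝ) + 1) / (N : ℝ)) ^ (σ - 6) * (j : ℝ) ^ (-(4 : ℝ)) := by
  have hj' : (1 : ℝ) ≤ j := by exact_mod_cast hj
  have hj0 : (0 : ℝ) < j := by linarith
  have hk' : (j : ℝ) + 1 ≤ k := by exact_mod_cast hjk
  have hk0 : (0 : ℝ) < k := by linarith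
  have hN' : (k : ℝ) ≤ N := by exact_mod_cast hkN
  have hN0 : (0 : ℝ) < N := by linarith
  have e1 : (k : ℝ) ^ (σ - x - 1) ≤ (k : ℝ) ^ 5 * (k : ℝ) ^ (σ - 6) := by
    rw [← Real.rpow_natCast, ← Real.rpow_add hk0]
    apply Real.rpow_le_rpow_of_exponent_le (by linarith)
    push_cast
    linarith
  have e2 : (j : ℝ) ^ 2 * (j : ℝ) ^ (-σ) = (j : ℝ) ^ (-(4 : ℝ)) * ((j : ℝ) ^ (σ - 6))⁻¹ := by
    rw [← Real.rpow_neg hj0.le, ← Real.rpow_natCast, ← Real.rpow_add hj0, ← Real.rpow_add hj0]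
    congr 1
    push_cast
    ring
  have e3 : (k : ℝ) ^ (σ - 6) * ((j : ℝ) ^ (σ - 6))⁻¹ ≤ (((N : ℝ) + 1) / (N : ℝ)) ^ (σ - 6) := by
    rw [← div_eq_mul_inv, ← Real.div_rpow hk0.le hj0.le]
    apply Real.rpow_le_rpow_of_nonpos (by positivity) _ (by linarith)
    rw [div_le_div_iff₀ hN0 hj0]
    nlinarith
  rw [e2]
  have h4 : 0 < (j : ℝ) ^ (-(4 : ℝ)) := Real.rpow_pos_of_pos hj0 _
  calc (k : ℝ) ^ (σ - x - 1) * ((j : ℝ) ^ (-(4 : ℝ)) * ((j : ℝ) ^ (σ - 6))⁻¹)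
      ≤ ((k : ℝ) ^ 5 * (k : ℝ) ^ (σ - 6)) * ((j : ℝ) ^ (-(4 : ℝ)) * ((j : ℝ) ^ (σ - 6))⁻¹) :=
        mul_le_mul_of_nonneg_right e1 (by positivity)
    _ = (k : ℝ) ^ 5 * (j : ℝ) ^ (-(4 : ℝ)) * ((k : ℝ) ^ (σ - 6) * ((j : ℝ) ^ (σ - 6))⁻¹) := by ring
    _ ≤ (k : ℝ) ^ 5 * (j : ℝ) ^ (-(4 : ℝ)) * (((N : ℝ) + 1) / (N : ℝ)) ^ (σ - 6) :=
        mul_le_mul_of_nonneg_left e3 (by positivity)
    _ = _ := by ring

lemma norm_term (K : ℝ) (z : ℕ → ℂ) (hzb : ∀ m, ‖z m‖ ≤ m) (x : ℝ) (hx0 : 0 ≤ x) (hx : x ≤ 1) (N : ℕ) (d : ℕ → ℂ) (hK : 0 ≤ K)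
    (hd : ∀ n, ‖d n‖ ≤ K) (j : ℕ) (hj : 1 ≤ j) (s : ℂ) :
    ‖ee z x N d j * (j : ℂ) ^ (-s)‖ ≤ K * ((j : ℝ) ^ 2 * (j : ℝ) ^ (-s.re)) := by
  rw [norm_mul, Complex.norm_natCast_cpow_of_pos hj, Complex.neg_re, ← mul_assoc]
  exact mul_le_mul_of_nonneg_right (ee_bound z hzb x K hx0 hx N d hK hd j) (by positivity)

lemma FR_bound (K : ℝ) (z : ℕ → ℂ) (Z : ℂ → ℂ) (hzb : ∀ m, ‖z m‖ ≤ m)
    (x : ℝ) (hx0 : 0 ≤ x) (hx : x ≤ 1) (N : ℕ) (d : ℕ → ℂ) (hK : 0 ≤ K)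
    (hd : ∀ n, ‖d n‖ ≤ K) (hN : 1 ≤ N) (s : ℂ) (hs : 6 ≤ s.re)
    (hz : LSeriesHasSum z s (Z s)) :
    ‖FR z Z x N d s‖ ≤ 64 * K ^ 2 * S4 * (N : ℝ) ^ 6 * ((N : ℝ) / ((N : ℝ) + 1)) ^ s.re := by
  have hN' : (1 : ℝ) ≤ N := by exact_mod_cast hN
  set q := (N : ℝ) / ((N : ℝ) + 1) with hq
  have hq0 : 0 < q := by positivity
  unfold FR
  have key : ∀ k ∈ Finset.Icc 1 N, ‖(starRingEnd ℂ) (d k) * (k : ℂ) ^ (s - x - 1) *
      (EE Z x N d s - ∑ j ∈ Finset.range (k + 1), ee z x N d j * (j : ℂ) ^ (-s))‖ ≤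
      K ^ 2 * S4 * (N : ℝ) ^ 5 * q ^ (s.re - 6) := by
    intro k hk
    obtain ⟨h1, h2⟩ := Finset.mem_Icc.mp hk
    have hk' : (1 : ℝ) ≤ k := by exact_mod_cast h1
    have hkN : (k : ℝ) ≤ N := by exact_mod_cast h2
    have hsum := ee_hasSum z (Z s) x N d s hz
    have htail := (hasSum_nat_add_iff' (k + 1)).mpr hsum
    have hnk : ‖(k : ℂ) ^ (s - x - 1)‖ = (k : ℝ) ^ (s.re - x - 1) := by
      rw [Complex.norm_natCast_cpow_of_pos h1]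
      simp
    have hEE : EE Z x N d s - ∑ j ∈ Finset.range (k + 1), ee z x N d j * (j : ℂ) ^ (-s) =
        ∑' j : ℕ, ee z x N d (j + (k + 1)) * ((j + (k + 1) : ℕ) : ℂ) ^ (-s) := htail.tsum_eq.symm
    rw [norm_mul, norm_mul, RCLike.norm_conj, hnk, hEE]
    have hS : Summable (fun j : ℕ => ((j + (k + 1) : ℕ) : ℝ) ^ (-(4 : ℝ))) :=
      (summable_nat_add_iff (k + 1)).mpr S4_summable
    have hSle : ∑' j : ℕ, ((j + (k + 1) : ℕ) : ℝ) ^ (-(4 : ℝ)) ≤ S4 := by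
      have := S4_summable.sum_add_tsum_nat_add (k + 1)
      unfold S4
      have h0 : 0 ≤ ∑ i ∈ Finset.range (k + 1), (i : ℝ) ^ (-(4 : ℝ)) :=
        Finset.sum_nonneg fun i _ => by positivity
      linarith
    have hb : ∀ j : ℕ, (k : ℝ) ^ (s.re - x - 1) *
        ‖ee z x N d (j + (k + 1)) * ((j + (k + 1) : ℕ) : ℂ) ^ (-s)‖ ≤
        K * (k : ℝ) ^ 5 * q ^ (s.re - 6) * ((j + (k + 1) : ℕ) : ℝ) ^ (-(4 : ℝ)) := by
      intro j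
      have h3 := norm_term K z hzb x hx0 hx N d hK hd (j + (k + 1)) (by omega) s
      have h4 := pow_cmp N k (j + (k + 1)) h1 h2 (by omega) s.re x hx0 hs
      calc _ ≤ (k : ℝ) ^ (s.re - x - 1) * (K * (((j + (k + 1) : ℕ) : ℝ) ^ 2 *
            ((j + (k + 1) : ℕ) : ℝ) ^ (-s.re))) := mul_le_mul_of_nonneg_left h3 (by positivity)
        _ = K * ((k : ℝ) ^ (s.re - x - 1) * (((j + (k + 1) : ℕ) : ℝ) ^ 2 *
            ((j + (k + 1) : ℕ) : ℝ) ^ (-s.re))) := by ring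
        _ ≤ K * ((k : ℝ) ^ 5 * q ^ (s.re - 6) * ((j + (k + 1) : ℕ) : ℝ) ^ (-(4 : ℝ))) :=
            mul_le_mul_of_nonneg_left h4 hK
        _ = _ := by ring
    have hnt : (k : ℝ) ^ (s.re - x - 1) *
        ‖∑' j : ℕ, ee z x N d (j + (k + 1)) * ((j + (k + 1) : ℕ) : ℂ) ^ (-s)‖ ≤
        K * (k : ℝ) ^ 5 * q ^ (s.re - 6) * S4 := by
      have hkp : 0 < (k : ℝ) ^ (s.re - x - 1) := Real.rpow_pos_of_pos (by linarith) _
      have e5 : (k : ℝ) ^ (s.re - x - 1) *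
          ‖∑' j : ℕ, ee z x N d (j + (k + 1)) * ((j + (k + 1) : ℕ) : ℂ) ^ (-s)‖ =
          ‖∑' j : ℕ, (((k : ℝ) ^ (s.re - x - 1) : ℝ) : ℂ) * (ee z x N d (j + (k + 1)) *
            ((j + (k + 1) : ℕ) : ℂ) ^ (-s))‖ := by
        rw [tsum_mul_left, norm_mul, Complex.norm_real, Real.norm_of_nonneg hkp.le]
      rw [e5]
      calc _ ≤ ∑' j : ℕ, K * (k : ℝ) ^ 5 * q ^ (s.re - 6) *
            ((j + (k + 1) : ℕ) : ℝ) ^ (-(4 : ℝ)) := by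
            apply tsum_of_norm_bounded (hS.mul_left _).hasSum
            intro j
            rw [norm_mul, Complex.norm_real, Real.norm_of_nonneg hkp.le]
            exact hb j
        _ = K * (k : ℝ) ^ 5 * q ^ (s.re - 6) *
            ∑' j : ℕ, ((j + (k + 1) : ℕ) : ℝ) ^ (-(4 : ℝ)) := tsum_mul_left
        _ ≤ _ := mul_le_mul_of_nonneg_left hSle (by positivity)
    calc _ = ‖d k‖ * ((k : ℝ) ^ (s.re - x - 1) *
        ‖∑' j : ℕ, ee z x N d (j + (k + 1)) * ((j + (k + 1) : ℕ) : ℂ) ^ (-s)‖) := by ring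
      _ ≤ K * (K * (k : ℝ) ^ 5 * q ^ (s.re - 6) * S4) :=
          mul_le_mul (hd k) hnt (by positivity) hK
      _ ≤ K * (K * (N : ℝ) ^ 5 * q ^ (s.re - 6) * S4) := by
          have := S4_nonneg
          gcongr
      _ = _ := by ring
  calc _ ≤ ∑ k ∈ Finset.Icc 1 N, K ^ 2 * S4 * (N : ℝ) ^ 5 * q ^ (s.re - 6) :=
        norm_sum_le_of_le _ key
    _ = (N : ℝ) * (K ^ 2 * S4 * (N : ℝ) ^ 5 * q ^ (s.re - 6)) := by simp
    _ = K ^ 2 * S4 * (N : ℝ) ^ 6 * (q ^ s.re * (q⁻¹) ^ 6) := by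
        rw [Real.rpow_sub hq0, div_eq_mul_inv]
        have : q ^ (6 : ℝ) = q ^ 6 := by
          rw [← Real.rpow_natCast]; norm_num
        rw [this, inv_pow]
        ring
    _ ≤ K ^ 2 * S4 * (N : ℝ) ^ 6 * (q ^ s.re * 2 ^ 6) := by
        have := S4_nonneg
        have h2 : q⁻¹ ≤ 2 := by
          rw [hq, inv_div, div_le_iff₀ (by positivity)]
          linarith
        gcongr
    _ = _ := by ring

lemma FL_bound (K : ℝ) (z : ℕ → ℂ) (hzb : ∀ m, ‖z m‖ ≤ m) (x : ℝ) (hx0 : 0 ≤ x) (hx : x ≤ 1) (N : ℕ) (d : ℕ → ℂ) (hK : 0 ≤ K)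
    (hd : ∀ n, ‖d n‖ ≤ K) (hN : 1 ≤ N) (s : ℂ) (hs : s.re ≤ 6) :
    ‖FL z x N d s‖ ≤ 64 * K ^ 2 * S4 * (N : ℝ) ^ 6 * (((N : ℝ) + 1) / (N : ℝ)) ^ s.re := by
  have hN' : (1 : ℝ) ≤ N := by exact_mod_cast hN
  set q := ((N : ℝ) + 1) / (N : ℝ) with hq
  have hq1 : 1 ≤ q := by
    rw [hq, le_div_iff₀ (by positivity)]
    linarith
  have hq0 : 0 < q := by linarith
  unfold FL
  have key : ∀ k ∈ Finset.Icc 1 N, ‖(starRingEnd ℂ) (d k) * (k : ℂ) ^ (s - x - 1) *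
      (∑ j ∈ Finset.range k, ee z x N d j * (j : ℂ) ^ (-s))‖ ≤
      K ^ 2 * S4 * (N : ℝ) ^ 5 * q ^ (s.re - 6) := by
    intro k hk
    obtain ⟨h1, h2⟩ := Finset.mem_Icc.mp hk
    have hk' : (1 : ℝ) ≤ k := by exact_mod_cast h1
    have hkN : (k : ℝ) ≤ N := by exact_mod_cast h2
    have hnk : ‖(k : ℂ) ^ (s - x - 1)‖ = (k : ℝ) ^ (s.re - x - 1) := by
      rw [Complex.norm_natCast_cpow_of_pos h1]
      simp
    rw [norm_mul, norm_mul, RCLike.norm_conj, hnk]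
    have hSle : ∑ j ∈ Finset.range k, (j : ℝ) ^ (-(4 : ℝ)) ≤ S4 :=
      S4_summable.sum_le_tsum _ (fun i _ => by positivity)
    have hb : ∀ j ∈ Finset.range k, (k : ℝ) ^ (s.re - x - 1) *
        ‖ee z x N d j * (j : ℂ) ^ (-s)‖ ≤
        K * (k : ℝ) ^ 5 * q ^ (s.re - 6) * (j : ℝ) ^ (-(4 : ℝ)) := by
      intro j hj
      have hjk := Finset.mem_range.mp hj
      rcases Nat.eq_zero_or_pos j with h0 | hpos
      · subst h0
        have : ee z x N d 0 = 0 := by simp [ee]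
        rw [this, zero_mul, norm_zero, mul_zero]
        positivity
      have h3 := norm_term K z hzb x hx0 hx N d hK hd j hpos s
      have h4 := pow_cmp' N k j hpos h2 hjk s.re x hx0 hs
      calc _ ≤ (k : ℝ) ^ (s.re - x - 1) * (K * ((j : ℝ) ^ 2 * (j : ℝ) ^ (-s.re))) :=
            mul_le_mul_of_nonneg_left h3 (by positivity)
        _ = K * ((k : ℝ) ^ (s.re - x - 1) * ((j : ℝ) ^ 2 * (j : ℝ) ^ (-s.re))) := by ring
        _ ≤ K * ((k : ℝ) ^ 5 * q ^ (s.re - 6) * (j : ℝ) ^ (-(4 : ℝ))) :=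
            mul_le_mul_of_nonneg_left h4 hK
        _ = _ := by ring
    have hnt : (k : ℝ) ^ (s.re - x - 1) *
        ‖∑ j ∈ Finset.range k, ee z x N d j * (j : ℂ) ^ (-s)‖ ≤
        K * (k : ℝ) ^ 5 * q ^ (s.re - 6) * S4 := by
      calc _ ≤ (k : ℝ) ^ (s.re - x - 1) *
            ∑ j ∈ Finset.range k, ‖ee z x N d j * (j : ℂ) ^ (-s)‖ :=
            mul_le_mul_of_nonneg_left (norm_sum_le _ _) (by positivity)
        _ = ∑ j ∈ Finset.range k, (k : ℝ) ^ (s.re - x - 1) * ‖ee z x N d j * (j : ℂ) ^ (-s)‖ :=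
            Finset.mul_sum _ _ _
        _ ≤ ∑ j ∈ Finset.range k, K * (k : ℝ) ^ 5 * q ^ (s.re - 6) * (j : ℝ) ^ (-(4 : ℝ)) :=
            Finset.sum_le_sum hb
        _ = K * (k : ℝ) ^ 5 * q ^ (s.re - 6) * ∑ j ∈ Finset.range k, (j : ℝ) ^ (-(4 : ℝ)) :=
            (Finset.mul_sum _ _ _).symm
        _ ≤ _ := mul_le_mul_of_nonneg_left hSle (by positivity)
    calc _ = ‖d k‖ * ((k : ℝ) ^ (s.re - x - 1) *
        ‖∑ j ∈ Finset.range k, ee z x N d j * (j : ℂ) ^ (-s)‖) := by ring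
      _ ≤ K * (K * (k : ℝ) ^ 5 * q ^ (s.re - 6) * S4) :=
          mul_le_mul (hd k) hnt (by positivity) hK
      _ ≤ K * (K * (N : ℝ) ^ 5 * q ^ (s.re - 6) * S4) := by
          have := S4_nonneg
          gcongr
      _ = _ := by ring
  calc _ ≤ ∑ k ∈ Finset.Icc 1 N, K ^ 2 * S4 * (N : ℝ) ^ 5 * q ^ (s.re - 6) :=
        norm_sum_le_of_le _ key
    _ = (N : ℝ) * (K ^ 2 * S4 * (N : ℝ) ^ 5 * q ^ (s.re - 6)) := by simp
    _ = K ^ 2 * S4 * (N : ℝ) ^ 6 * (q ^ s.re * (q⁻¹) ^ 6) := by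
        rw [Real.rpow_sub hq0, div_eq_mul_inv]
        have : q ^ (6 : ℝ) = q ^ 6 := by
          rw [← Real.rpow_natCast]; norm_num
        rw [this, inv_pow]
        ring
    _ ≤ K ^ 2 * S4 * (N : ℝ) ^ 6 * (q ^ s.re * 2 ^ 6) := by
        have := S4_nonneg
        have h2 : q⁻¹ ≤ 2 := by
          have : q⁻¹ ≤ 1 := inv_le_one_of_one_le₀ hq1
          linarith
        gcongr
    _ = _ := by ring

end EvT

end LG
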