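import Pool.Agent.H382L.EvalTh0
import Pool.Agent.H382P.DeepP

open Complex Filter Topology Set MeasureTheory

namespace LG

open SG (phi hh nn dd dl)
open SP

namespace EvT

open SG.Deep DeepAux

/-- contour shifts with tiny errors -/
lemma shift_tiny (a κ C : ℝ) (ha : 0 < a) (hκ : 0 < κ) (hκ1 : κ < 1 / 2) (hC : 0 < C) :
    ∃ T0 : ℝ, 10 ≤ T0 ∧ ∀ T : ℝ, T0 ≤ T → (12 ≤ dd κ T ∧ dd κ T ≤ T / 8 ∧ 1 ≤ nn κ T ∧
    64 ≤ T ∧ a / Real.log T ≤ 1 ∧ 7 ≤ Real.log T ∧ Real.log T ≤ dd κ T ∧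
    Real.log T ≤ T / 40) ∧
    ∀ t0 : ℝ, 11 / 10 * T ≤ t0 → t0 ≤ 19 / 10 * T →
    (∀ p q : ℝ, 6 - dd κ T ≤ p → p < q → q ≤ 6 + dd κ T → ∀ F : ℂ → ℂ,
      (∀ s : ℂ, p ≤ s.re → s.re ≤ q → T + 2 ≤ s.im → s.im ≤ 2 * T - 2 →
        AnalyticAt ℂ F s ∧ ‖F s‖ ≤ Real.exp (C * Real.log T ^ 2)) →
      ‖(∫ t in (T + 2 * Real.log T)..(2 * T - 2 * Real.log T),
        phi t0 (dd κ T) (⟨p - a / Real.log T, t⟩ : ℂ) * F (⟨p, t⟩ : ℂ)) -
       ∫ t in (T + 2 * Real.log T)..(2 * T - 2 * Real.log T),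
        phi t0 (dd κ T) (⟨q - a / Real.log T, t⟩ : ℂ) * F (⟨q, t⟩ : ℂ)‖
        ≤ 1 / T ^ 30) ∧
    (∀ x : ℝ, 6 - dd κ T ≤ x → x ≤ 6 + dd κ T → ∀ F : ℂ → ℂ,
      (∀ y : ℝ, T ≤ y → ‖F (⟨x, y⟩ : ℂ)‖ ≤ T ^ 21 * Real.exp (-(1 / 4) * T ^ (κ / 2))) →
      ‖∫ t in (T + 2 * Real.log T)..(2 * T - 2 * Real.log T),
        phi t0 (dd κ T) (⟨x - a / Real.log T, t⟩ : ℂ) * F (⟨x, t⟩ : ℂ)‖
        ≤ 1 / T ^ 30) ∧
    |(∫ t in (T + 2 * Real.log T)..(2 * T - 2 * Real.log T), wt t0 (dd κ T) t) -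
      Real.sqrt (2 * Real.pi) * dd κ T| ≤ 1 / T ^ 30 := by
  have ev1 : ∀ᶠ T : ℝ in atTop, T ^ (31 : ℝ) * Real.exp (-(1 / 1600) * T ^ κ) <
      1 / (4 * Real.exp 2) :=
    (tendsto_pow_exp' 31 (1 / 1600) κ (by norm_num) hκ).eventually_lt_const (by positivity)
  have ev1' : ∀ᶠ T : ℝ in atTop, C * Real.log T ^ 2 ≤ 1 / 1600 * T ^ κ := by
    have h := isLittleO_log_rpow_rpow_atTop 2 hκ
    rw [Asymptotics.isLittleO_iff] at h
    filter_upwards [h (show (0 : ℝ) < 1 / 1600 / C by positivity), eventually_ge_atTop 1]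
      with T hT h1
    have hl := Real.log_nonneg h1
    rw [Real.norm_of_nonneg (by positivity), Real.norm_of_nonneg (by positivity)] at hT
    have e : Real.log T ^ (2 : ℝ) = Real.log T ^ 2 := by
      rw [← Real.rpow_natCast]; norm_num
    rw [e] at hT
    calc C * Real.log T ^ 2 ≤ C * (1 / 1600 / C * T ^ κ) :=
          mul_le_mul_of_nonneg_left hT hC.le
      _ = _ := by field_simp
  have ev2 : ∀ᶠ T : ℝ in atTop, T ^ (52 : ℝ) * Real.exp (-(1 / 4) * T ^ (κ / 2)) <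
      1 / (2 * Real.exp 2) :=
    (tendsto_pow_exp 52 (1 / 4) κ (by norm_num) hκ).eventually_lt_const (by positivity)
  have ev3 : ∀ᶠ T : ℝ in atTop, 12 < dd κ T := by
    have : Tendsto (fun T : ℝ => dd κ T) atTop atTop :=
      tendsto_rpow_atTop (show 0 < 1 - κ / 2 by linarith)
    exact this.eventually_gt_atTop 12
  have ev4 : ∀ᶠ T : ℝ in atTop, 8 ≤ T ^ (κ / 2) :=
    (tendsto_rpow_atTop (show 0 < κ / 2 by positivity)).eventually_ge_atTop 8
  have ev5 : ∀ᶠ T : ℝ in atTop, max 7 a ≤ Real.log T :=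
    Real.tendsto_log_atTop.eventually_ge_atTop _
  have ev6 : ∀ᶠ T : ℝ in atTop, Real.log T ≤ T / 40 := by
    have h := Real.isLittleO_log_id_atTop
    rw [Asymptotics.isLittleO_iff] at h
    filter_upwards [h (show (0 : ℝ) < 1 / 40 by norm_num), eventually_ge_atTop 1] with T hT h1
    simp only [id] at hT
    rw [Real.norm_of_nonneg (Real.log_nonneg h1), Real.norm_of_nonneg (by linarith)] at hT
    linarith
  have ev7 : ∀ᶠ T : ℝ in atTop, Real.log T ≤ dd κ T := by
    have h := isLittleO_log_rpow_atTop (show 0 < 1 - κ / 2 by linarith)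
    rw [Asymptotics.isLittleO_iff] at h
    filter_upwards [h (show (0 : ℝ) < 1 by norm_num), eventually_ge_atTop 1] with T hT h1
    rw [Real.norm_of_nonneg (Real.log_nonneg h1),
      Real.norm_of_nonneg (Real.rpow_nonneg (by linarith) _), one_mul] at hT
    exact hT
  obtain ⟨T0, hT0⟩ := eventually_atTop.mp (ev1.and (ev1'.and (ev2.and (ev3.and (ev4.and (ev5.and
    (ev6.and (ev7.and (eventually_ge_atTop 100)))))))))
  refine ⟨max T0 10, le_max_right _ _, ?_⟩
  intro T hT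
  obtain ⟨h1, h1', h2, h3, h4, h5, h6, h7, h8⟩ := hT0 T ((le_max_left _ _).trans hT)
  have hTpos : 0 < T := by linarith
  have hlog7 : 7 ≤ Real.log T := (le_max_left _ _).trans h5
  have hlog : 0 < Real.log T := by linarith
  have haL1 : a / Real.log T ≤ 1 := by
    rw [div_le_one hlog]
    exact (le_max_right _ _).trans h5
  have haL0 : 0 < a / Real.log T := by positivity
  have hDpos : 0 < dd κ T := dd_pos κ T hTpos
  have hD8 : dd κ T ≤ T / 8 := by
    have e : dd κ T * T ^ (κ / 2) = T := by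
      unfold dd
      rw [← Real.rpow_add hTpos]
      have : 1 - κ / 2 + κ / 2 = 1 := by ring
      rw [this, Real.rpow_one]
    rw [le_div_iff₀ (by norm_num)]
    calc dd κ T * 8 ≤ dd κ T * T ^ (κ / 2) := mul_le_mul_of_nonneg_left h4 hDpos.le
      _ = T := e
  have hN1 : 1 ≤ nn κ T := by
    unfold nn
    rw [Nat.one_le_floor_iff]
    exact Real.one_le_rpow (by linarith) (by linarith)
  refine ⟨⟨h3.le, hD8, hN1, by linarith, haL1, hlog7, h7, h6⟩, ?_⟩
  intro t0 ht1 ht2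
  set U1 := T + 2 * Real.log T with hU1
  set U2 := 2 * T - 2 * Real.log T with hU2
  have hDK := D2 κ T hTpos
  have hU12 : U1 < U2 := by rw [hU1, hU2]; linarith
  -- exponent bound for phi
  have hre2 : ∀ x : ℝ, 6 - dd κ T ≤ x → x ≤ 6 + dd κ T →
      (x - a / Real.log T - 1 / 2) ^ 2 ≤ 4 * dd κ T ^ 2 := by
    intro x hx1 hx2
    have : |x - a / Real.log T - 1 / 2| ≤ 2 * dd κ T := by
      rw [abs_le]
      constructor <;> linarith
    calc (x - a / Real.log T - 1 / 2) ^ 2 = |x - a / Real.log T - 1 / 2| ^ 2 := (sq_abs _).symm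
      _ ≤ (2 * dd κ T) ^ 2 := pow_le_pow_left₀ (abs_nonneg _) this 2
      _ = _ := by ring
  have hphi1 : ∀ x : ℝ, 6 - dd κ T ≤ x → x ≤ 6 + dd κ T → ∀ y : ℝ,
      ‖phi t0 (dd κ T) (⟨x - a / Real.log T, y⟩ : ℂ)‖ ≤ Real.exp 2 := by
    intro x hx1 hx2 y
    rw [SG.phi_norm _ _ hDpos]
    apply Real.exp_le_exp.mpr
    simp only
    rw [div_le_iff₀ (by positivity)]
    nlinarith [hre2 x hx1 hx2, sq_nonneg (y - t0)]
  have hphi2 : ∀ x : ℝ, 6 - dd κ T ≤ x → x ≤ 6 + dd κ T → ∀ U : ℝ, (U = U1 ∨ U = U2) →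
      ‖phi t0 (dd κ T) (⟨x - a / Real.log T, U⟩ : ℂ)‖ ≤
        Real.exp 2 * Real.exp (-(1 / 800) * T ^ κ) := by
    intro x hx1 hx2 U hU
    rw [SG.phi_norm _ _ hDpos, ← Real.exp_add]
    apply Real.exp_le_exp.mpr
    simp only
    rw [div_le_iff₀ (by positivity)]
    have hUt : (T / 20) ^ 2 ≤ (U - t0) ^ 2 := by
      rcases hU with h | h
      · have : T / 20 ≤ t0 - U := by rw [h, hU1]; linarith
        nlinarith
      · have : T / 20 ≤ U - t0 := by rw [h, hU2]; linarith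
        nlinarith
    have := hre2 x hx1 hx2
    have e : (2 + -(1 / 800) * T ^ κ) * (2 * dd κ T ^ 2) = 4 * dd κ T ^ 2 - (T / 20) ^ 2 := by
      have : (T / 20) ^ 2 = T ^ 2 / 400 := by ring
      rw [this, ← hDK]
      ring
    rw [e]
    linarith
  have e31 : T ^ (31 : ℝ) = T ^ 30 * T := by
    rw [show (31 : ℝ) = ((30 : ℕ) : ℝ) + 1 by norm_num, Real.rpow_add hTpos, Real.rpow_one,
      Real.rpow_natCast]
  have e52 : T ^ (52 : ℝ) = T ^ 30 * (T ^ 21 * T) := by
    rw [show (52 : ℝ) = ((52 : ℕ) : ℝ) by norm_num, Real.rpow_natCast]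
    ring
  have hp30 : (0 : ℝ) < T ^ 30 := by positivity
  refine ⟨?_, ?_, ?_⟩
  · intro p q hp hpq hq F hF
    set H : ℂ → ℂ := fun s => phi t0 (dd κ T) (s - (a / Real.log T : ℝ)) * F s with hH
    have hHe : ∀ x y : ℝ, H (⟨x, y⟩ : ℂ) = phi t0 (dd κ T) (⟨x - a / Real.log T, y⟩ : ℂ) *
        F (⟨x, y⟩ : ℂ) := by
      intro x y
      simp only [hH]
      congr 2
      apply Complex.ext <;> simp
    have hrect := SG.rect_zero H p q U1 U2 hpq (by linarith) (by
      intro s hs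
      rw [mem_reProdIm] at hs
      obtain ⟨⟨hs1, hs2⟩, hs3, hs4⟩ := hs
      have a1 : AnalyticAt ℂ (fun s : ℂ => s - ((a / Real.log T : ℝ) : ℂ)) s := by fun_prop
      have a2 : AnalyticAt ℂ (fun s : ℂ => phi t0 (dd κ T) (s - ((a / Real.log T : ℝ) : ℂ))) s :=
        AnalyticAt.fun_comp (phi_analytic _ _ _) a1
      exact a2.mul (hF s hs1 hs2 (by linarith) (by linarith)).1)
    have hhor : ∀ U : ℝ, (U = U1 ∨ U = U2) → ‖∫ x in p..q, H (⟨x, U⟩ : ℂ)‖ ≤ 1 / (4 * T ^ 30) := by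
      intro U hU
      have hUa : T + 2 ≤ U := by rcases hU with h | h <;> rw [h] <;> linarith
      have hUb : U ≤ 2 * T - 2 := by rcases hU with h | h <;> rw [h] <;> linarith
      have hb : ∀ x ∈ Set.uIoc p q, ‖H (⟨x, U⟩ : ℂ)‖ ≤
          (Real.exp 2 * Real.exp (-(1 / 800) * T ^ κ)) * Real.exp (1 / 1600 * T ^ κ) := by
        intro x hx
        rw [uIoc_of_le hpq.le] at hx
        obtain ⟨hx1, hx2⟩ := hx
        rw [hHe, norm_mul]
        have b1 := hphi2 x (by linarith) (by linarith) U hU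
        have b3 := (hF (⟨x, U⟩ : ℂ) hx1.le hx2 (by simp only; linarith) (by simp only; linarith)).2
        have b4 : Real.exp (C * Real.log T ^ 2) ≤ Real.exp (1 / 1600 * T ^ κ) :=
          Real.exp_le_exp.mpr h1'
        exact mul_le_mul b1 (b3.trans b4) (norm_nonneg _) (by positivity)
      refine (intervalIntegral.norm_integral_le_of_norm_le_const hb).trans ?_
      have hlen : |q - p| ≤ T := by
        rw [abs_of_nonneg (by linarith)]
        linarith
      have e3 : Real.exp 2 * Real.exp (-(1 / 800) * T ^ κ) * Real.exp (1 / 1600 * T ^ κ) =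
          Real.exp 2 * Real.exp (-(1 / 1600) * T ^ κ) := by
        rw [mul_assoc, ← Real.exp_add]
        congr 2
        ring
      rw [e3]
      calc Real.exp 2 * Real.exp (-(1 / 1600) * T ^ κ) * |q - p|
          ≤ Real.exp 2 * Real.exp (-(1 / 1600) * T ^ κ) * T :=
            mul_le_mul_of_nonneg_left hlen (by positivity)
        _ = Real.exp 2 / T ^ 30 * (T ^ (31 : ℝ) * Real.exp (-(1 / 1600) * T ^ κ)) := by
            rw [e31]; field_simp
        _ ≤ Real.exp 2 / T ^ 30 * (1 / (4 * Real.exp 2)) :=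
            mul_le_mul_of_nonneg_left h1.le (by positivity)
        _ = 1 / (4 * T ^ 30) := by field_simp
    have hb1 := hhor U1 (Or.inl rfl)
    have hb2 := hhor U2 (Or.inr rfl)
    unfold SG.rectI at hrect
    simp_rw [← hHe]
    have hdiff : I * ((∫ t in U1..U2, H (⟨p, t⟩ : ℂ)) - ∫ t in U1..U2, H (⟨q, t⟩ : ℂ)) =
        (∫ x in p..q, H (⟨x, U1⟩ : ℂ)) - (∫ x in p..q, H (⟨x, U2⟩ : ℂ)) := by
      linear_combination -hrect
    have hn : ‖I * ((∫ t in U1..U2, H (⟨p, t⟩ : ℂ)) - ∫ t in U1..U2, H (⟨q, t⟩ : ℂ))‖ =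
        ‖(∫ t in U1..U2, H (⟨p, t⟩ : ℂ)) - ∫ t in U1..U2, H (⟨q, t⟩ : ℂ)‖ := by
      rw [norm_mul, norm_I, one_mul]
    rw [← hn, hdiff]
    have h9 := norm_sub_le (∫ x in p..q, H (⟨x, U1⟩ : ℂ)) (∫ x in p..q, H (⟨x, U2⟩ : ℂ))
    have h10 : 1 / (4 * T ^ 30) = 1 / 4 * (1 / T ^ 30) := by field_simp
    have h11 : 0 < 1 / T ^ 30 := by positivity
    rw [h10] at hb1 hb2
    linarith
  · intro x hx1 hx2 F hF
    have hb : ∀ y ∈ Set.uIoc U1 U2,
        ‖phi t0 (dd κ T) (⟨x - a / Real.log T, y⟩ : ℂ) * F (⟨x, y⟩ : ℂ)‖ ≤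
        Real.exp 2 * (T ^ 21 * Real.exp (-(1 / 4) * T ^ (κ / 2))) := by
      intro y hy
      rw [uIoc_of_le (by linarith)] at hy
      obtain ⟨hy1, hy2⟩ := hy
      rw [norm_mul]
      have b1 := hphi1 x hx1 hx2 y
      have b3 := hF y (by linarith)
      exact mul_le_mul b1 b3 (norm_nonneg _) (by positivity)
    refine (intervalIntegral.norm_integral_le_of_norm_le_const hb).trans ?_
    have hlen : |U2 - U1| ≤ T := by
      rw [abs_of_nonneg (by linarith)]
      linarith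
    calc Real.exp 2 * (T ^ 21 * Real.exp (-(1 / 4) * T ^ (κ / 2))) * |U2 - U1|
        ≤ Real.exp 2 * (T ^ 21 * Real.exp (-(1 / 4) * T ^ (κ / 2))) * T :=
          mul_le_mul_of_nonneg_left hlen (by positivity)
      _ = Real.exp 2 / T ^ 30 * (T ^ (52 : ℝ) * Real.exp (-(1 / 4) * T ^ (κ / 2))) := by
          rw [e52]
          field_simp
      _ ≤ Real.exp 2 / T ^ 30 * (1 / (2 * Real.exp 2)) :=
          mul_le_mul_of_nonneg_left h2.le (by positivity)
      _ = 1 / 2 * (1 / T ^ 30) := by field_simp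
      _ ≤ 1 / T ^ 30 := by
          have : 0 < 1 / T ^ 30 := by positivity
          linarith
  · set D := dd κ T with hDdef
    have hgi := gauss_integrable D t0 hDpos
    have hgI := gauss_integral D t0 hDpos
    have s2 : |(∫ t in U1..U2, Real.exp (-(t - t0) ^ 2 / (2 * D ^ 2))) -
        D * Real.sqrt (2 * Real.pi)| ≤ Real.exp (-(1 / 1600) * T ^ κ) *
          (Real.sqrt 2 * D * Real.sqrt (2 * Real.pi)) := by
      have hgi2 := gauss_integrable (Real.sqrt 2 * D) t0 (by positivity)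
      have hgI2 := gauss_integral (Real.sqrt 2 * D) t0 (by positivity)
      have hs2 : (Real.sqrt 2 * D) ^ 2 = 2 * D ^ 2 := by
        rw [mul_pow, Real.sq_sqrt (by norm_num)]
      rw [hs2] at hgi2 hgI2
      rw [← hgI, intervalIntegral.integral_of_le hU12.le,
        ← integral_add_compl (measurableSet_Ioc (a := U1) (b := U2)) hgi]
      have e : (∫ x in Ioc U1 U2, Real.exp (-(x - t0) ^ 2 / (2 * D ^ 2))) -
          ((∫ x in Ioc U1 U2, Real.exp (-(x - t0) ^ 2 / (2 * D ^ 2))) +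
            ∫ x in (Ioc U1 U2)ᶜ, Real.exp (-(x - t0) ^ 2 / (2 * D ^ 2))) =
          -∫ x in (Ioc U1 U2)ᶜ, Real.exp (-(x - t0) ^ 2 / (2 * D ^ 2)) := by ring
      rw [e, abs_neg, abs_of_nonneg (integral_nonneg fun t => (Real.exp_pos _).le)]
      calc ∫ x in (Ioc U1 U2)ᶜ, Real.exp (-(x - t0) ^ 2 / (2 * D ^ 2))
          ≤ ∫ x in (Ioc U1 U2)ᶜ, Real.exp (-(1 / 1600) * T ^ κ) *
            Real.exp (-(x - t0) ^ 2 / (2 * (2 * D ^ 2))) := by
            apply setIntegral_mono_on hgi.integrableOn (hgi2.const_mul _).integrableOn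
              measurableSet_Ioc.compl
            intro x hx
            rw [← Real.exp_add]
            apply Real.exp_le_exp.mpr
            have hx2 : (T / 20) ^ 2 ≤ (x - t0) ^ 2 := by
              rw [mem_compl_iff, mem_Ioc, not_and_or, not_lt, not_le] at hx
              rcases hx with h | h
              · have : T / 20 ≤ t0 - x := by linarith
                nlinarith
              · have : T / 20 ≤ x - t0 := by linarith
                nlinarith
            have e1 : -(1 / 1600) * T ^ κ = -((T / 20) ^ 2 / (4 * D ^ 2)) := by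
              have : (T / 20) ^ 2 = T ^ 2 / 400 := by ring
              rw [this, ← hDK]
              field_simp
              norm_num
            rw [e1]
            have e2 : -(x - t0) ^ 2 / (2 * D ^ 2) =
              -((x - t0) ^ 2 / (4 * D ^ 2)) + -(x - t0) ^ 2 / (2 * (2 * D ^ 2)) := by
              field_simp
              ring
            rw [e2]
            have : (T / 20) ^ 2 / (4 * D ^ 2) ≤ (x - t0) ^ 2 / (4 * D ^ 2) :=
              div_le_div_of_nonneg_right hx2 (by positivity)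
            linarith
        _ = Real.exp (-(1 / 1600) * T ^ κ) * ∫ x in (Ioc U1 U2)ᶜ,
            Real.exp (-(x - t0) ^ 2 / (2 * (2 * D ^ 2))) := integral_const_mul _ _
        _ ≤ _ := by
            apply mul_le_mul_of_nonneg_left _ (Real.exp_pos _).le
            rw [← hgI2]
            exact setIntegral_le_integral hgi2 (ae_of_all _ fun t => (Real.exp_pos _).le)
    have h5' : Real.sqrt (2 * Real.pi) ≤ 2.51 := by
      rw [Real.sqrt_le_left (by norm_num)]
      have := Real.pi_lt_d2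
      norm_num at this ⊢
      linarith
    have h6' : 0 ≤ Real.sqrt (2 * Real.pi) := Real.sqrt_nonneg _
    have h7' : Real.sqrt 2 ≤ 1.5 := by
      rw [Real.sqrt_le_left (by norm_num)]
      norm_num
    have h8' : Real.sqrt 2 * D * Real.sqrt (2 * Real.pi) ≤ T := by
      have : Real.sqrt 2 * D * Real.sqrt (2 * Real.pi) =
        D * (Real.sqrt 2 * Real.sqrt (2 * Real.pi)) := by ring
      rw [this]
      have : Real.sqrt 2 * Real.sqrt (2 * Real.pi) ≤ 1.5 * 2.51 :=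
        mul_le_mul h7' h5' h6' (by norm_num)
      nlinarith
    have e4 : ∫ t in U1..U2, wt t0 D t =
        ∫ t in U1..U2, Real.exp (-(t - t0) ^ 2 / (2 * D ^ 2)) := rfl
    rw [e4, mul_comm (Real.sqrt (2 * Real.pi)) D]
    refine s2.trans ?_
    have he2 : 1 ≤ Real.exp 2 := Real.one_le_exp (by norm_num)
    calc Real.exp (-(1 / 1600) * T ^ κ) * (Real.sqrt 2 * D * Real.sqrt (2 * Real.pi))
        ≤ Real.exp (-(1 / 1600) * T ^ κ) * T :=
          mul_le_mul_of_nonneg_left h8' (Real.exp_pos _).le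
      _ = 1 / T ^ 30 * (T ^ (31 : ℝ) * Real.exp (-(1 / 1600) * T ^ κ)) := by
          rw [e31]; field_simp
      _ ≤ 1 / T ^ 30 * (1 / (4 * Real.exp 2)) :=
          mul_le_mul_of_nonneg_left h1.le (by positivity)
      _ ≤ 1 / T ^ 30 * 1 := by
          apply mul_le_mul_of_nonneg_left _ (by positivity)
          rw [div_le_one (by positivity)]
          linarith
      _ = _ := mul_one _

end EvT

end LG
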