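import Pool.Agent.H382L.EvalTh1

open Complex Filter Topology Set MeasureTheory

namespace LG

open SG (phi hh nn dd dl)
open SP

namespace EvT

open SG.Deep DeepAux

lemma DP_differentiable (N : ℕ) (d : ℕ → ℂ) (x : ℝ) :
    Differentiable ℂ (fun s : ℂ => DP N d (s - x)) := by
  unfold DP
  apply Differentiable.fun_sum
  intro k hk
  have hk0 : (k : ℂ) ≠ 0 := by
    have : k ≠ 0 := by have := (Finset.mem_Icc.mp hk).1; omega
    exact_mod_cast this
  intro s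
  apply DifferentiableAt.const_mul
  apply DifferentiableAt.const_cpow (by fun_prop) (Or.inl hk0)

lemma term_differentiable (k : ℕ) (hk : 1 ≤ k) (x : ℝ) (z : ℂ) :
    Differentiable ℂ (fun s : ℂ => z * (k : ℂ) ^ (s - x - 1)) := by
  have hk0 : (k : ℂ) ≠ 0 := by
    have : k ≠ 0 := by omega
    exact_mod_cast this
  intro s
  apply DifferentiableAt.const_mul
  apply DifferentiableAt.const_cpow (by fun_prop) (Or.inl hk0)

lemma ser_differentiable (e : ℕ → ℂ) (he : e 0 = 0) (n : ℕ) :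
    Differentiable ℂ (fun s : ℂ => ∑ j ∈ Finset.range n, e j * (j : ℂ) ^ (-s)) := by
  apply Differentiable.fun_sum
  intro j _
  rcases Nat.eq_zero_or_pos j with h0 | hpos
  · subst h0
    simp only [he, zero_mul]
    exact differentiable_const _
  · have hj0 : (j : ℂ) ≠ 0 := by
      have : j ≠ 0 := by omega
      exact_mod_cast this
    intro s
    apply DifferentiableAt.const_mul
    apply DifferentiableAt.const_cpow (by fun_prop) (Or.inl hj0)

lemma DPs_differentiable (N : ℕ) (d : ℕ → ℂ) (x : ℝ) :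
    Differentiable ℂ (DPs N d x) := by
  have : DPs N d x = fun s : ℂ => ∑ k ∈ Finset.Icc 1 N,
      (starRingEnd ℂ) (d k) * (k : ℂ) ^ (s - x - 1) := rfl
  rw [this]
  apply Differentiable.fun_sum
  intro k hk
  exact term_differentiable k (Finset.mem_Icc.mp hk).1 x _

lemma FL_analytic (z : ℕ → ℂ) (x : ℝ) (N : ℕ) (d : ℕ → ℂ) (s : ℂ) :
    AnalyticAt ℂ (FL z x N d) s := by
  have h : Differentiable ℂ (FL z x N d) := by
    have : FL z x N d = fun s : ℂ => ∑ k ∈ Finset.Icc 1 N,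
        (starRingEnd ℂ) (d k) * (k : ℂ) ^ (s - x - 1) *
        (∑ j ∈ Finset.range k, ee z x N d j * (j : ℂ) ^ (-s)) := rfl
    rw [this]
    apply Differentiable.fun_sum
    intro k hk
    exact (term_differentiable k (Finset.mem_Icc.mp hk).1 x _).mul
      (ser_differentiable _ (by simp [ee]) _)
  exact h.analyticAt s

lemma FR_analytic (z : ℕ → ℂ) (Z : ℂ → ℂ) (x : ℝ) (N : ℕ) (d : ℕ → ℂ) (s : ℂ)
    (hZ : AnalyticAt ℂ Z s) : AnalyticAt ℂ (FR z Z x N d) s := by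
  have : FR z Z x N d = fun s : ℂ => ∑ k ∈ Finset.Icc 1 N,
      (starRingEnd ℂ) (d k) * (k : ℂ) ^ (s - x - 1) *
      (EE Z x N d s - ∑ j ∈ Finset.range (k + 1), ee z x N d j * (j : ℂ) ^ (-s)) := rfl
  rw [this]
  apply Finset.analyticAt_fun_sum
  intro k hk
  have e : EE Z x N d = fun s => DP N d (s - x) * Z s := rfl
  have h1 : AnalyticAt ℂ (EE Z x N d) s := by
    rw [e]
    exact ((DP_differentiable N d x).analyticAt s).mul hZ
  exact ((term_differentiable k (Finset.mem_Icc.mp hk).1 x _).analyticAt s).mul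
    (h1.sub ((ser_differentiable _ (by simp [ee]) _).analyticAt s))

lemma DP_norm (K : ℝ) (N : ℕ) (d : ℕ → ℂ) (hd : ∀ n, ‖d n‖ ≤ K) (s : ℂ)
    (hs : 0 ≤ s.re) : ‖DP N d s‖ ≤ K * N := by
  unfold DP
  calc _ ≤ ∑ n ∈ Finset.Icc 1 N, K := by
        apply norm_sum_le_of_le
        intro n hn
        have h1 := (Finset.mem_Icc.mp hn).1
        rw [norm_mul, Complex.norm_natCast_cpow_of_pos h1, Complex.neg_re]
        have h2 : (n : ℝ) ^ (-s.re) ≤ 1 :=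
          Real.rpow_le_one_of_one_le_of_nonpos (by exact_mod_cast h1) (by linarith)
        have h3 : (0 : ℝ) ≤ (n : ℝ) ^ (-s.re) := by positivity
        nlinarith [hd n, norm_nonneg (d n)]
    _ = K * N := by simp; ring

lemma DPs_norm (K : ℝ) (hK : 0 ≤ K) (N : ℕ) (d : ℕ → ℂ) (hd : ∀ n, ‖d n‖ ≤ K) (x : ℝ)
    (hx : 0 ≤ x) (s : ℂ) (hs : s.re ≤ 6) : ‖DPs N d x s‖ ≤ K * (N : ℝ) ^ 6 := by
  unfold DPs
  calc _ ≤ ∑ n ∈ Finset.Icc 1 N, K * (N : ℝ) ^ 5 := by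
        apply norm_sum_le_of_le
        intro n hn
        obtain ⟨h1, h1'⟩ := Finset.mem_Icc.mp hn
        rw [norm_mul, RCLike.norm_conj, Complex.norm_natCast_cpow_of_pos h1]
        have hre : (s - x - 1).re = s.re - x - 1 := by simp
        rw [hre]
        have h2 : (n : ℝ) ^ (s.re - x - 1) ≤ (N : ℝ) ^ 5 := by
          calc (n : ℝ) ^ (s.re - x - 1) ≤ (n : ℝ) ^ (5 : ℝ) :=
                Real.rpow_le_rpow_of_exponent_le (by exact_mod_cast h1) (by linarith)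
            _ = (n : ℝ) ^ 5 := by rw [← Real.rpow_natCast]; norm_num
            _ ≤ (N : ℝ) ^ 5 := by
                apply pow_le_pow_left₀ (by positivity)
                exact_mod_cast h1'
        exact mul_le_mul (hd n) h2 (by positivity) hK
    _ = K * (N : ℝ) ^ 6 := by simp; ring

lemma DPs_conj (N : ℕ) (d : ℕ → ℂ) (x t : ℝ) :
    DPs N d x (⟨1 / 2 + x, t⟩ : ℂ) = (starRingEnd ℂ) (DP N d (⟨1 / 2, t⟩ : ℂ)) := by
  unfold DPs DP
  rw [map_sum]
  apply Finset.sum_congr rfl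
  intro n _
  rw [map_mul]
  congr 1
  have h : (n : ℂ).arg ≠ Real.pi := by
    rw [Complex.natCast_arg]
    exact Real.pi_pos.ne
  have h2 := Complex.cpow_conj (n : ℂ) (-(⟨1 / 2, t⟩ : ℂ)) h
  rw [Complex.conj_natCast] at h2
  rw [← h2]
  congr 1
  apply Complex.ext <;> simp
  ring

lemma DP_prod_eq (N : ℕ) (d : ℕ → ℂ) (x t : ℝ) :
    DP N d ((⟨1 / 2 + x, t⟩ : ℂ) - x) * DPs N d x (⟨1 / 2 + x, t⟩ : ℂ) =
      ((‖DP N d (⟨1 / 2, t⟩ : ℂ)‖ ^ 2 : ℝ) : ℂ) := by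
  have e : (⟨1 / 2 + x, t⟩ : ℂ) - x = ⟨1 / 2, t⟩ := by
    apply Complex.ext <;> simp
  rw [e, DPs_conj, Complex.mul_conj]
  rw [Complex.normSq_eq_norm_sq]

lemma phi_half (t0 D x t : ℝ) :
    phi t0 D (⟨1 / 2 + x - x, t⟩ : ℂ) = ((wt t0 D t : ℝ) : ℂ) := by
  have e : (⟨1 / 2 + x - x, t⟩ : ℂ) = ⟨1 / 2, t⟩ := by
    apply Complex.ext <;> simp
  rw [e]
  unfold phi wt
  rw [Complex.ofReal_exp]
  congr 1
  have : (⟨1 / 2, t⟩ : ℂ) - 1 / 2 - I * t0 = I * ((t - t0 : ℝ) : ℂ) := by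
    apply Complex.ext
    · simp
    · simp
  rw [this]
  push_cast
  rw [mul_pow, I_sq]
  ring

lemma SS0_norm (z : ℕ → ℂ) (hzb : ∀ m, ‖z m‖ ≤ m) (x K : ℝ) (hx0 : 0 ≤ x) (hx : x ≤ 1)
    (N : ℕ) (d : ℕ → ℂ) (hK : 0 ≤ K) (hd : ∀ n, ‖d n‖ ≤ K) :
    ‖SS0 z x N d‖ ≤ K ^ 2 * (N : ℝ) ^ 3 := by
  unfold SS0
  calc _ ≤ ∑ k ∈ Finset.Icc 1 N, K ^ 2 * (N : ℝ) ^ 2 := by
        apply norm_sum_le_of_le
        intro k hk
        obtain ⟨h1, h1'⟩ := Finset.mem_Icc.mp hk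
        rw [norm_mul, norm_mul, RCLike.norm_conj, Complex.norm_natCast_cpow_of_pos h1]
        have h2 : (k : ℝ) ^ ((-(1 : ℂ) - x).re) ≤ 1 := by
          apply Real.rpow_le_one_of_one_le_of_nonpos (by exact_mod_cast h1)
          simp
          linarith
        have h3 := ee_bound z hzb x K hx0 hx N d hK hd k
        have h4 : K * (k : ℝ) ^ 2 ≤ K * (N : ℝ) ^ 2 := by
          apply mul_le_mul_of_nonneg_left _ hK
          apply pow_le_pow_left₀ (by positivity)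
          exact_mod_cast h1'
        calc _ ≤ (K * 1) * (K * (N : ℝ) ^ 2) := by
              apply mul_le_mul _ (h3.trans h4) (norm_nonneg _) (by positivity)
              exact mul_le_mul (hd k) h2 (by positivity) hK
          _ = _ := by ring
    _ = _ := by simp; ring

lemma line_cont (σ : ℝ) : Continuous (fun t : ℝ => (⟨σ, t⟩ : ℂ)) := by
  have e : (fun t : ℝ => (⟨σ, t⟩ : ℂ)) = fun t : ℝ => (σ : ℂ) + I * (t : ℂ) := by
    funext t
    apply Complex.ext <;> simp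
  rw [e]
  fun_prop

/-- general twisted mean value with a Dirichlet series `Z` -/
theorem mean_gen (a κ C : ℝ) (ha : 0 < a) (hκ : 0 < κ) (hκ1 : κ < 1 / 2) (hC : 0 < C) :
    ∃ T0 : ℝ, 10 ≤ T0 ∧ ∀ T : ℝ, T0 ≤ T → ∀ t0 : ℝ, 11 / 10 * T ≤ t0 → t0 ≤ 19 / 10 * T →
    ∀ d : ℕ → ℂ, (∀ n, ‖d n‖ ≤ T) → ∀ (z : ℕ → ℂ) (Z : ℂ → ℂ), (∀ m, ‖z m‖ ≤ m) →
    (∀ s : ℂ, 6 ≤ s.re → LSeriesHasSum z s (Z s)) →
    (∀ s : ℂ, 6 ≤ s.re → AnalyticAt ℂ Z s) →
    (∀ s : ℂ, 1 / 2 + a / Real.log T ≤ s.re → s.re ≤ 6 → T + 2 ≤ s.im → s.im ≤ 2 * T - 2 →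
      AnalyticAt ℂ Z s ∧ ‖Z s‖ ≤ Real.exp (C * Real.log T ^ 2)) →
    ‖(∫ t in (T + 2 * Real.log T)..(2 * T - 2 * Real.log T),
      ((wt t0 (dd κ T) t * ‖DP (nn κ T) d (⟨1 / 2, t⟩ : ℂ)‖ ^ 2 : ℝ) : ℂ) *
        Z (⟨1 / 2 + a / Real.log T, t⟩ : ℂ)) -
      (Real.sqrt (2 * Real.pi) * dd κ T : ℝ) * SS0 z (a / Real.log T) (nn κ T) d‖ ≤ 1 := by
  obtain ⟨T1, hT1, h1⟩ := shift_tiny a κ (C + 20) ha hκ hκ1 (by linarith)
  refine ⟨max T1 (64 * S4), hT1.trans (le_max_left _ _), ?_⟩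
  intro T hT t0 ht1 ht2 d hd z Z hzb hser hZan hZb
  have hTT1 : T1 ≤ T := (le_max_left _ _).trans hT
  have hTT6 : 64 * S4 ≤ T := (le_max_right _ _).trans hT
  obtain ⟨⟨hD12, hD8, hN1, hT64, hx1, hL7, hLD, hL40⟩, h2⟩ := h1 T hTT1
  obtain ⟨hshift, hfar, hwt⟩ := h2 t0 ht1 ht2
  have hTpos : 0 < T := by linarith
  set L := Real.log T with hL
  have hLpos : 0 < L := by linarith
  set x := a / L with hx
  have hx0 : 0 < x := by positivity
  set N := nn κ T with hN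
  set D := dd κ T with hD
  have hDpos : 0 < D := by linarith
  have hNT : (N : ℝ) ≤ T := by
    calc (N : ℝ) ≤ T ^ (1 - κ) := Nat.floor_le (by positivity)
      _ ≤ T ^ (1 : ℝ) := Real.rpow_le_rpow_of_exponent_le (by linarith) (by linarith)
      _ = T := Real.rpow_one T
  have hN' : (1 : ℝ) ≤ N := by exact_mod_cast hN1
  have hTexp : T = Real.exp L := (Real.exp_log hTpos).symm
  have hpowexp : T ^ 20 ≤ Real.exp (20 * L ^ 2) := by
    rw [hTexp, ← Real.exp_nat_mul]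
    apply Real.exp_le_exp.mpr
    push_cast
    nlinarith
  have hpow9 : T ^ 9 ≤ Real.exp (20 * L ^ 2) := by
    refine (pow_le_pow_right₀ (by linarith) (by norm_num)).trans hpowexp
  have hexpC : Real.exp (20 * L ^ 2) ≤ Real.exp ((C + 20) * L ^ 2) := by
    apply Real.exp_le_exp.mpr
    have : 0 ≤ C * L ^ 2 := by positivity
    linarith
  have hpowT : 64 * T ^ 2 * S4 * (N : ℝ) ^ 6 ≤ T ^ 20 := by
    have hS := S4_nonneg
    calc 64 * T ^ 2 * S4 * (N : ℝ) ^ 6 ≤ 64 * T ^ 2 * S4 * T ^ 6 := by gcongr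
      _ = (64 * S4) * T ^ 8 := by ring
      _ ≤ T * T ^ 8 := by gcongr
      _ = T ^ 9 := by ring
      _ ≤ T ^ 20 := pow_le_pow_right₀ (by linarith) (by norm_num)
  have hpp : 0 ≤ 64 * T ^ 2 * S4 * (N : ℝ) ^ 6 := by
    have := S4_nonneg
    positivity
  -- first shift : from 1/2 + x to 6
  set F : ℂ → ℂ := fun s => DPs N d x s * EE Z x N d s with hF
  have hs1 := hshift (1 / 2 + x) 6 (by linarith) (by linarith) (by linarith) F (by
    intro s s1 s2 s3 s4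
    obtain ⟨a1, a2⟩ := hZb s s1 s2 s3 s4
    refine ⟨?_, ?_⟩
    · have e : F = fun s => DPs N d x s * (DP N d (s - x) * Z s) := rfl
      rw [e]
      exact ((DPs_differentiable N d x).analyticAt s).mul
        (((DP_differentiable N d x).analyticAt s).mul a1)
    · have f2 := DP_norm T N d hd (s - x) (by simp; linarith)
      have f3 := DPs_norm T hTpos.le N d hd x hx0.le s s2
      have e : F s = DPs N d x s * (DP N d (s - x) * Z s) := rfl
      rw [e, norm_mul, norm_mul]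
      calc _ ≤ (T * (N : ℝ) ^ 6) * ((T * N) * Real.exp (C * L ^ 2)) := by gcongr
        _ ≤ (T * T ^ 6) * ((T * T) * Real.exp (C * L ^ 2)) := by gcongr
        _ = T ^ 9 * Real.exp (C * L ^ 2) := by ring
        _ ≤ Real.exp (20 * L ^ 2) * Real.exp (C * L ^ 2) := by gcongr
        _ = _ := by rw [← Real.exp_add]; ring_nf)
  -- FR : shift to 6 + D
  have hq : 0 < (N : ℝ) / ((N : ℝ) + 1) := by positivity
  have hq1 : (N : ℝ) / ((N : ℝ) + 1) ≤ 1 := by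
    rw [div_le_one (by positivity)]; linarith
  have hfarN := DeepAux.far κ hκ hκ1 T hT64 hD12
  rw [← hN, ← hD] at hfarN
  have hs2 := hshift 6 (6 + D) (by linarith) (by linarith) le_rfl (FR z Z x N d) (by
    intro s s1 _ _ _
    refine ⟨FR_analytic z Z x N d s (hZan s s1), ?_⟩
    refine (FR_bound T z Z hzb x hx0.le hx1 N d hTpos.le hd hN1 s s1 (hser s s1)).trans ?_
    have : ((N : ℝ) / ((N : ℝ) + 1)) ^ s.re ≤ 1 := Real.rpow_le_one hq.le hq1 (by linarith)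
    calc _ ≤ 64 * T ^ 2 * S4 * (N : ℝ) ^ 6 * 1 := mul_le_mul_of_nonneg_left this hpp
      _ ≤ _ := by linarith)
  have hs3 := hfar (6 + D) (by linarith) le_rfl (FR z Z x N d) (by
    intro y _
    refine (FR_bound T z Z hzb x hx0.le hx1 N d hTpos.le hd hN1 _ (by simp only; linarith)
      (hser _ (by simp only; linarith))).trans ?_
    have h3 : ((N : ℝ) / ((N : ℝ) + 1)) ^ (6 + D) ≤ Real.exp (-(1 / 4) * T ^ (κ / 2)) := by
      refine le_trans ?_ hfarN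
      exact Real.rpow_le_rpow_of_exponent_ge hq hq1 (by linarith)
    have h4 : 64 * T ^ 2 * S4 * (N : ℝ) ^ 6 ≤ T ^ 21 :=
      hpowT.trans (pow_le_pow_right₀ (by linarith) (by norm_num))
    exact mul_le_mul h4 h3 (by positivity) (by positivity))
  -- FL : shift to 6 - D
  have hq' : 1 ≤ ((N : ℝ) + 1) / (N : ℝ) := by
    rw [le_div_iff₀ (by positivity)]; linarith
  have hq2 : ((N : ℝ) + 1) / (N : ℝ) ≤ 2 := by
    rw [div_le_iff₀ (by positivity)]; linarith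
  have hs4 := hshift (6 - D) 6 le_rfl (by linarith) (by linarith) (FL z x N d) (by
    intro s _ s1 _ _
    refine ⟨FL_analytic z x N d s, ?_⟩
    refine (FL_bound T z hzb x hx0.le hx1 N d hTpos.le hd hN1 s s1).trans ?_
    have h3 : (((N : ℝ) + 1) / (N : ℝ)) ^ s.re ≤ 64 := by
      calc (((N : ℝ) + 1) / (N : ℝ)) ^ s.re ≤ (((N : ℝ) + 1) / (N : ℝ)) ^ (6 : ℝ) :=
            Real.rpow_le_rpow_of_exponent_le hq' s1
        _ = (((N : ℝ) + 1) / (N : ℝ)) ^ 6 := by rw [← Real.rpow_natCast]; norm_num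
        _ ≤ 2 ^ 6 := pow_le_pow_left₀ (by positivity) hq2 6
        _ = 64 := by norm_num
    calc _ ≤ 64 * T ^ 2 * S4 * (N : ℝ) ^ 6 * 64 := mul_le_mul_of_nonneg_left h3 hpp
      _ ≤ (T * T ^ 8) * T := by
          have hS := S4_nonneg
          have : 64 * T ^ 2 * S4 * (N : ℝ) ^ 6 ≤ T * T ^ 8 := by
            calc 64 * T ^ 2 * S4 * (N : ℝ) ^ 6 ≤ 64 * T ^ 2 * S4 * T ^ 6 := by gcongr
              _ = (64 * S4) * T ^ 8 := by ring
              _ ≤ T * T ^ 8 := by gcongr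
          exact mul_le_mul this hT64 (by norm_num) (by positivity)
      _ = T ^ 10 := by ring
      _ ≤ T ^ 20 := pow_le_pow_right₀ (by linarith) (by norm_num)
      _ ≤ _ := hpowexp.trans hexpC)
  have hs5 := hfar (6 - D) le_rfl (by linarith) (FL z x N d) (by
    intro y _
    refine (FL_bound T z hzb x hx0.le hx1 N d hTpos.le hd hN1 _ (by simp only; linarith)).trans ?_
    have h3 : (((N : ℝ) + 1) / (N : ℝ)) ^ (6 - D) ≤ Real.exp (-(1 / 4) * T ^ (κ / 2)) := by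
      refine le_trans (le_of_eq ?_) hfarN
      have e : (((N : ℝ) + 1) / (N : ℝ)) = ((N : ℝ) / ((N : ℝ) + 1))⁻¹ := by rw [inv_div]
      rw [e, Real.inv_rpow hq.le, ← Real.rpow_neg hq.le]
      congr 1
      ring
    have h4 : 64 * T ^ 2 * S4 * (N : ℝ) ^ 6 ≤ T ^ 21 :=
      hpowT.trans (pow_le_pow_right₀ (by linarith) (by norm_num))
    exact mul_le_mul h4 h3 (by positivity) (by positivity))
  -- constant function
  have hs6 := hshift (1 / 2 + x) 6 (by linarith) (by linarith) (by linarith) (fun _ => 1) (by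
    intro s _ _ _ _
    refine ⟨analyticAt_const, ?_⟩
    rw [norm_one]
    exact Real.one_le_exp (by positivity))
  set V1 := T + 2 * L with hV1
  set V2 := 2 * T - 2 * L with hV2
  have hV12 : V1 < V2 := by rw [hV1, hV2]; linarith
  -- left side
  have hleft : (∫ t in V1..V2, phi t0 D (⟨1 / 2 + x - x, t⟩ : ℂ) * F (⟨1 / 2 + x, t⟩ : ℂ)) =
      ∫ t in V1..V2, ((wt t0 D t * ‖DP N d (⟨1 / 2, t⟩ : ℂ)‖ ^ 2 : ℝ) : ℂ) *
        Z (⟨1 / 2 + x, t⟩ : ℂ) := by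
    apply intervalIntegral.integral_congr
    intro t _
    have e : F (⟨1 / 2 + x, t⟩ : ℂ) = (DP N d ((⟨1 / 2 + x, t⟩ : ℂ) - x) *
      DPs N d x (⟨1 / 2 + x, t⟩ : ℂ)) * Z (⟨1 / 2 + x, t⟩ : ℂ) := by
      simp only [hF, EE]
      ring
    simp only
    rw [e, DP_prod_eq, phi_half]
    push_cast
    ring
  have hone : (∫ t in V1..V2, phi t0 D (⟨1 / 2 + x - x, t⟩ : ℂ) * 1) =
      ((∫ t in V1..V2, wt t0 D t : ℝ) : ℂ) := by
    rw [← intervalIntegral.integral_ofReal]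
    apply intervalIntegral.integral_congr
    intro t _
    simp only
    rw [phi_half, mul_one]
  -- right side
  have cint : ∀ G : ℂ → ℂ, (∀ s : ℂ, s.re = 6 → AnalyticAt ℂ G s) →
      IntervalIntegrable (fun t : ℝ => phi t0 D (⟨6 - x, t⟩ : ℂ) * G (⟨6, t⟩ : ℂ)) volume V1 V2 := by
    intro G hG
    apply Continuous.intervalIntegrable
    rw [continuous_iff_continuousAt]
    intro t
    have h1 : ContinuousAt (fun t : ℝ => phi t0 D (⟨6 - x, t⟩ : ℂ)) t :=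
      ContinuousAt.comp (f := fun t : ℝ => (⟨6 - x, t⟩ : ℂ))
        (phi_analytic t0 D _).continuousAt (line_cont _).continuousAt
    have h3 : ContinuousAt (fun t : ℝ => G (⟨6, t⟩ : ℂ)) t :=
      ContinuousAt.comp (f := fun t : ℝ => (⟨6, t⟩ : ℂ))
        (hG _ rfl).continuousAt (line_cont _).continuousAt
    exact h1.mul h3
  have i1 := cint (FR z Z x N d) (fun s hs => FR_analytic z Z x N d s (hZan s (by rw [hs])))
  have i2 := cint (FL z x N d) (fun s _ => FL_analytic z x N d s)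
  have i3 := cint (fun _ => 1) (fun s _ => analyticAt_const)
  have hright : (∫ t in V1..V2, phi t0 D (⟨6 - x, t⟩ : ℂ) * F (⟨6, t⟩ : ℂ)) =
      (∫ t in V1..V2, phi t0 D (⟨6 - x, t⟩ : ℂ) * FR z Z x N d (⟨6, t⟩ : ℂ)) +
      (∫ t in V1..V2, phi t0 D (⟨6 - x, t⟩ : ℂ) * FL z x N d (⟨6, t⟩ : ℂ)) +
      (∫ t in V1..V2, phi t0 D (⟨6 - x, t⟩ : ℂ) * 1) * SS0 z x N d := by
    rw [← intervalIntegral.integral_mul_const, ← intervalIntegral.integral_add i1 i2,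
      ← intervalIntegral.integral_add (i1.add i2) (i3.mul_const _)]
    apply intervalIntegral.integral_congr
    intro t _
    simp only [hF]
    rw [split z Z x N d (⟨6, t⟩ : ℂ)]
    ring
  rw [hleft] at hs1
  rw [hright] at hs1
  rw [hone] at hs6
  have hSS := SS0_norm z hzb x T hx0.le hx1 N d hTpos.le hd
  have hSS' : ‖SS0 z x N d‖ ≤ T ^ 5 := by
    calc _ ≤ T ^ 2 * (N : ℝ) ^ 3 := hSS
      _ ≤ T ^ 2 * T ^ 3 := by gcongr
      _ = T ^ 5 := by ring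
  set A := ∫ t in V1..V2, ((wt t0 D t * ‖DP N d (⟨1 / 2, t⟩ : ℂ)‖ ^ 2 : ℝ) : ℂ) *
        Z (⟨1 / 2 + x, t⟩ : ℂ) with hA
  set B := ∫ t in V1..V2, phi t0 D (⟨6 - x, t⟩ : ℂ) * FR z Z x N d (⟨6, t⟩ : ℂ) with hB
  set B' := ∫ t in V1..V2, phi t0 D (⟨6 + D - x, t⟩ : ℂ) * FR z Z x N d (⟨6 + D, t⟩ : ℂ) with hB'
  set G := ∫ t in V1..V2, phi t0 D (⟨6 - x, t⟩ : ℂ) * FL z x N d (⟨6, t⟩ : ℂ) with hG
  set G' := ∫ t in V1..V2, phi t0 D (⟨6 - D - x, t⟩ : ℂ) * FL z x N d (⟨6 - D, t⟩ : ℂ) with hG'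
  set P := ∫ t in V1..V2, phi t0 D (⟨6 - x, t⟩ : ℂ) * 1 with hP
  set W := ∫ t in V1..V2, wt t0 D t with hW
  set S := SS0 z x N d with hS
  set E := Real.sqrt (2 * Real.pi) * D with hE
  have hdec : A - ((E : ℝ) : ℂ) * S = (A - (B + G + P * S)) + (B - B') + B' - (G' - G) + G'
      - ((W : ℂ) - P) * S + ((W : ℂ) - (E : ℂ)) * S := by ring
  rw [hdec]
  have hWE : ‖(W : ℂ) - (E : ℂ)‖ ≤ 1 / T ^ 30 := by
    rw [← Complex.ofReal_sub, Complex.norm_real, Real.norm_eq_abs]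
    exact hwt
  have htri : ‖(A - (B + G + P * S)) + (B - B') + B' - (G' - G) + G'
      - ((W : ℂ) - P) * S + ((W : ℂ) - (E : ℂ)) * S‖ ≤
      ‖A - (B + G + P * S)‖ + ‖B - B'‖ + ‖B'‖ + ‖G' - G‖ + ‖G'‖ + ‖(W : ℂ) - P‖ * ‖S‖ +
        ‖(W : ℂ) - (E : ℂ)‖ * ‖S‖ := by
    refine (norm_add_le _ _).trans (add_le_add ?_ (norm_mul_le _ _))
    refine (norm_sub_le _ _).trans (add_le_add ?_ (norm_mul_le _ _))
    refine (norm_add_le _ _).trans (add_le_add ?_ le_rfl)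
    refine (norm_sub_le _ _).trans (add_le_add ?_ le_rfl)
    refine (norm_add_le _ _).trans (add_le_add ?_ le_rfl)
    exact norm_add_le _ _
  refine htri.trans ?_
  have hp30 : (0 : ℝ) < T ^ 30 := by positivity
  calc _ ≤ 1 / T ^ 30 + 1 / T ^ 30 + 1 / T ^ 30 + 1 / T ^ 30 + 1 / T ^ 30 + 1 / T ^ 30 * T ^ 5 +
        1 / T ^ 30 * T ^ 5 := by gcongr
    _ = (5 + 2 * T ^ 5) / T ^ 30 := by ring
    _ ≤ 1 := by
        rw [div_le_one hp30]
        have h1 : (1 : ℝ) ≤ T ^ 5 := one_le_pow₀ (by linarith)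
        calc 5 + 2 * T ^ 5 ≤ 7 * T ^ 5 := by linarith
          _ ≤ T * T ^ 5 := by gcongr; linarith
          _ = T ^ 6 := by ring
          _ ≤ T ^ 30 := pow_le_pow_right₀ (by linarith) (by norm_num)

end EvT

end LG
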