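import Pool.Agent.H382L.EvalTh2
import Pool.Agent.H382P.FFhor
import Pool.Agent.H382R2.Alg
import Pool.Agent.H370R2.DirGood

open Complex Filter Topology Set MeasureTheory

namespace LG

open SG (phi hh nn dd dl)
open SP

namespace EvT

/-- twisted von Mangoldt coefficients -/
noncomputable def zL (w : ℝ) (m : ℕ) : ℂ :=
  ((ArithmeticFunction.vonMangoldt m : ℝ) : ℂ) * (m : ℂ) ^ (-(I * w))

/-- shifted `-ζ'/ζ` -/
noncomputable def ZL (w : ℝ) (s : ℂ) : ℂ :=
  -(deriv riemannZeta (s + I * w) / riemannZeta (s + I * w))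

lemma zL_bound (w : ℝ) (m : ℕ) : ‖zL w m‖ ≤ m := by
  unfold zL
  rcases Nat.eq_zero_or_pos m with h | h
  · subst h; simp
  · rw [norm_mul, Complex.norm_natCast_cpow_of_pos h, Complex.norm_real, Real.norm_of_nonneg
      ArithmeticFunction.vonMangoldt_nonneg]
    have e : (-(I * (w : ℂ))).re = 0 := by simp
    rw [e, Real.rpow_zero, mul_one]
    refine ArithmeticFunction.vonMangoldt_le_log.trans ?_
    exact Real.log_le_self (by positivity)

lemma ZL_hasSum (w : ℝ) (s : ℂ) (hs : 6 ≤ s.re) : LSeriesHasSum (zL w) s (ZL w s) := by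
  have hre : (s + I * w).re = s.re := by simp
  have hs1 : 1 < (s + I * w).re := by rw [hre]; linarith
  have h1 : LSeriesHasSum (fun n : ℕ => ((ArithmeticFunction.vonMangoldt n : ℝ) : ℂ)) (s + I * w)
      (ZL w s) := by
    have h2 := (ArithmeticFunction.LSeriesSummable_vonMangoldt hs1).LSeriesHasSum
    rw [ArithmeticFunction.LSeries_vonMangoldt_eq_deriv_riemannZeta_div hs1] at h2
    unfold ZL
    rw [← neg_div]
    exact h2
  unfold LSeriesHasSum at h1 ⊢
  convert h1 using 1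
  funext n
  rcases Nat.eq_zero_or_pos n with h | h
  · subst h; simp
  · have hn0 : (n : ℂ) ≠ 0 := by
      have : n ≠ 0 := by omega
      exact_mod_cast this
    rw [LSeries.term_of_ne_zero (by omega), LSeries.term_of_ne_zero (by omega)]
    unfold zL
    rw [Complex.cpow_add _ _ hn0, Complex.cpow_neg]
    have h1 : (n : ℂ) ^ (I * (w : ℂ)) ≠ 0 := by
      rw [Ne, Complex.cpow_eq_zero_iff]
      tauto
    have h2 : (n : ℂ) ^ s ≠ 0 := by
      rw [Ne, Complex.cpow_eq_zero_iff]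
      tauto
    field_simp

lemma zeta_analytic {s : ℂ} (hs : s ≠ 1) : AnalyticAt ℂ riemannZeta s := by
  have ho : IsOpen {z : ℂ | z ≠ 1} := isOpen_ne
  have hd : DifferentiableOn ℂ riemannZeta {z : ℂ | z ≠ 1} := fun w hw =>
    (differentiableAt_riemannZeta hw).differentiableWithinAt
  exact hd.analyticAt (ho.mem_nhds hs)

lemma ZL_analytic (w : ℝ) (s : ℂ) (h1 : s + I * w ≠ 1) (h0 : riemannZeta (s + I * w) ≠ 0) :
    AnalyticAt ℂ (ZL w) s := by
  have e : ZL w = fun s : ℂ => -(deriv riemannZeta (s + I * w) / riemannZeta (s + I * w)) := rfl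
  rw [e]
  have a0 : AnalyticAt ℂ (fun s : ℂ => s + I * w) s := by fun_prop
  have a1 : AnalyticAt ℂ (fun s : ℂ => deriv riemannZeta (s + I * w)) s :=
    AnalyticAt.fun_comp (g := deriv riemannZeta) (f := fun s : ℂ => s + I * w)
      (zeta_analytic h1).deriv a0
  have a2 : AnalyticAt ℂ (fun s : ℂ => riemannZeta (s + I * w)) s :=
    AnalyticAt.fun_comp (g := riemannZeta) (f := fun s : ℂ => s + I * w)
      (zeta_analytic h1) a0
  exact (a1.div a2 h0).neg

/-- `ζ'/ζ` is bounded for `Re s ≥ 2` -/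
lemma ld_two : ∃ K : ℝ, 0 ≤ K ∧ ∀ s : ℂ, 2 ≤ s.re →
    ‖deriv riemannZeta s / riemannZeta s‖ ≤ K := by
  have h2 : LSeriesSummable (fun n : ℕ => ((ArithmeticFunction.vonMangoldt n : ℝ) : ℂ)) (2 : ℂ) :=
    ArithmeticFunction.LSeriesSummable_vonMangoldt (by norm_num)
  refine ⟨∑' n, ‖LSeries.term (fun n : ℕ => ((ArithmeticFunction.vonMangoldt n : ℝ) : ℂ)) 2 n‖,
    tsum_nonneg fun n => norm_nonneg _, fun s hs => ?_⟩
  have h3 := ArithmeticFunction.LSeries_vonMangoldt_eq_deriv_riemannZeta_div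
    (show 1 < s.re by linarith)
  have h4 : deriv riemannZeta s / riemannZeta s =
      -LSeries (fun n : ℕ => ((ArithmeticFunction.vonMangoldt n : ℝ) : ℂ)) s := by
    rw [h3]; ring
  rw [h4, norm_neg]
  unfold LSeries
  apply tsum_of_norm_bounded h2.norm.hasSum
  intro n
  exact LSeries.norm_term_le_of_re_le_re _ (by simpa using hs) n

/-- growth of `ζ'/ζ` to the right of the critical line under RH -/
theorem ld_hor (hRH : RHs) (a : ℝ) (ha : 0 < a) :
    ∃ C T0 : ℝ, 0 < C ∧ 10 ≤ T0 ∧ ∀ T : ℝ, T0 ≤ T → ∀ s : ℂ,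
    1 / 2 + a / Real.log T ≤ s.re → T + 1 ≤ s.im → s.im ≤ 2 * T - 1 →
    riemannZeta s ≠ 0 ∧ ‖deriv riemannZeta s / riemannZeta s‖ ≤ Real.exp (C * Real.log T ^ 2) := by
  obtain ⟨Cz, A, hCz, hA, hgr⟩ := SG.zeta_growth
  obtain ⟨Cl, Tl, hCl, hTl, hlow⟩ := zeta_lower_RH hRH a ha
  obtain ⟨K, hK, hK2⟩ := ld_two
  refine ⟨(4 * Cz + 2 * A) + Cl + K, max Tl (Real.exp 80), by positivity,
    hTl.trans (le_max_left _ _), fun T hT s hs1 hs3 hs4 => ?_⟩
  have hTTl : Tl ≤ T := (le_max_left _ _).trans hT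
  have hT10 : 10 ≤ T := hTl.trans hTTl
  have hTe : Real.exp 80 ≤ T := (le_max_right _ _).trans hT
  have hLb : 80 ≤ Real.log T := (Real.le_log_iff_exp_le (by linarith)).2 hTe
  set L : ℝ := Real.log T with hL
  have hL0 : 0 < L := by linarith
  have hx0 : 0 < a / L := by positivity
  have hz0 : riemannZeta s ≠ 0 := zeta_ne_of_RH hRH _ (by linarith) (lt_or_ge _ _)
  refine ⟨hz0, ?_⟩
  rcases le_or_gt 2 s.re with h2 | h2
  · refine (hK2 s h2).trans ?_
    have h3 : K ≤ Real.exp K := by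
      have := Real.add_one_le_exp K
      linarith
    refine h3.trans (Real.exp_le_exp.2 ?_)
    have h4 : 1 ≤ L ^ 2 := by nlinarith
    have h5 : 0 ≤ (4 * Cz + 2 * A + Cl) * L ^ 2 := by positivity
    nlinarith
  · have hd : ‖deriv riemannZeta s‖ ≤ (Cz * (T ^ 2) ^ A) / (1 / 4) := by
      apply Complex.norm_deriv_le_of_forall_mem_sphere_norm_le (by norm_num)
      · apply DifferentiableOn.diffContOnCl
        intro z hz
        rw [closure_ball _ (by norm_num), Metric.mem_closedBall, dist_eq_norm] at hz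
        apply DifferentiableAt.differentiableWithinAt
        apply differentiableAt_riemannZeta
        intro h
        rw [h] at hz
        have := (Complex.abs_im_le_norm (1 - s)).trans hz
        simp at this
        rw [abs_of_pos (by linarith)] at this
        norm_num at this
        linarith
      · intro z hz
        rw [mem_sphere_iff_norm] at hz
        have h1 := (Complex.abs_re_le_norm (z - s)).trans hz.le
        have h2 := (Complex.abs_im_le_norm (z - s)).trans hz.le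
        simp only [sub_re, sub_im] at h1 h2
        rw [abs_le] at h1 h2
        have h5 := hgr z (by linarith [h1.1]) (by linarith [h1.2])
          (by rw [abs_of_pos (by linarith [h2.1])]; linarith [h2.1])
        refine h5.trans ?_
        rw [abs_of_pos (by linarith [h2.1])]
        have h6 : z.im ≤ T ^ 2 := by nlinarith [h2.2]
        have : z.im ^ A ≤ (T ^ 2) ^ A := Real.rpow_le_rpow (by linarith [h2.1]) h6 (by linarith)
        exact mul_le_mul_of_nonneg_left this (by linarith)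
    have h7 : (T ^ 2) ^ A = Real.exp (2 * A * L) := by
      rw [← Real.exp_log (by positivity : (0:ℝ) < (T ^ 2) ^ A), Real.log_rpow (by positivity),
        Real.log_pow]
      congr 1
      push_cast
      ring
    have h10 := hlow T hTTl s hs1 (by linarith) (by linarith)
    have h11 : ‖(riemannZeta s)⁻¹‖ ≤ Real.exp (Cl * L ^ 2) := by
      rw [norm_inv]
      have := inv_anti₀ (Real.exp_pos _) h10
      rwa [← Real.exp_neg, neg_neg] at this
    have h12 : 4 * Cz ≤ Real.exp (4 * Cz) := by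
      have := Real.add_one_le_exp (4 * Cz)
      linarith
    rw [div_eq_mul_inv, norm_mul]
    calc ‖deriv riemannZeta s‖ * ‖(riemannZeta s)⁻¹‖
        ≤ ((Cz * (T ^ 2) ^ A) / (1 / 4)) * Real.exp (Cl * L ^ 2) := by gcongr
      _ = 4 * Cz * Real.exp (2 * A * L) * Real.exp (Cl * L ^ 2) := by rw [h7]; ring
      _ ≤ Real.exp (4 * Cz) * Real.exp (2 * A * L) * Real.exp (Cl * L ^ 2) := by gcongr
      _ = Real.exp (4 * Cz + 2 * A * L + Cl * L ^ 2) := by rw [Real.exp_add, Real.exp_add]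
      _ ≤ _ := by
          apply Real.exp_le_exp.2
          have e1 : L ≤ L ^ 2 := by nlinarith
          have e2 : 4 * Cz ≤ 4 * Cz * L ^ 2 := by nlinarith
          have e3 : 2 * A * L ≤ 2 * A * L ^ 2 := by nlinarith
          have e4 : 0 ≤ K * L ^ 2 := by positivity
          nlinarith

/-- twisted mean value of `-ζ'/ζ` -/
theorem mean_zeta (hRH : RHs) (a κ : ℝ) (ha : 0 < a) (hκ : 0 < κ) (hκ1 : κ < 1 / 2) :
    ∃ T0 : ℝ, 10 ≤ T0 ∧ ∀ T : ℝ, T0 ≤ T → ∀ t0 : ℝ, 11 / 10 * T ≤ t0 → t0 ≤ 19 / 10 * T →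
    ∀ d : ℕ → ℂ, (∀ n, ‖d n‖ ≤ T) → ∀ w : ℝ, |w| ≤ 1 →
    ‖(∫ t in (T + 2 * Real.log T)..(2 * T - 2 * Real.log T),
      ((wt t0 (dd κ T) t * ‖DP (nn κ T) d (⟨1 / 2, t⟩ : ℂ)‖ ^ 2 : ℝ) : ℂ) *
        ZL w (⟨1 / 2 + a / Real.log T, t⟩ : ℂ)) -
      (Real.sqrt (2 * Real.pi) * dd κ T : ℝ) * SS0 (zL w) (a / Real.log T) (nn κ T) d‖ ≤ 1 := by
  obtain ⟨C, T1, hC, hT1, h1⟩ := ld_hor hRH a ha
  obtain ⟨T2, hT2, h2⟩ := mean_gen a κ C ha hκ hκ1 hC
  refine ⟨max T1 T2, hT1.trans (le_max_left _ _), ?_⟩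
  intro T hT t0 ht1 ht2 d hd w hw
  have hTT1 : T1 ≤ T := (le_max_left _ _).trans hT
  have hTT2 : T2 ≤ T := (le_max_right _ _).trans hT
  have hre : ∀ s : ℂ, (s + I * w).re = s.re := fun s => by simp
  have him : ∀ s : ℂ, (s + I * w).im = s.im + w := fun s => by simp
  obtain ⟨hw1, hw2⟩ := abs_le.mp hw
  apply h2 T hTT2 t0 ht1 ht2 d hd (zL w) (ZL w) (zL_bound w) (ZL_hasSum w)
  · intro s hs
    apply ZL_analytic
    · intro h
      have := hre s
      rw [h] at this
      simp at this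
      linarith
    · apply riemannZeta_ne_zero_of_one_lt_re
      rw [hre]; linarith
  · intro s s1 s2 s3 s4
    obtain ⟨g1, g2⟩ := h1 T hTT1 (s + I * w) (by rw [hre]; exact s1) (by rw [him]; linarith)
      (by rw [him]; linarith)
    refine ⟨ZL_analytic w s ?_ g1, ?_⟩
    · intro h
      have := him s
      rw [h] at this
      simp at this
      linarith [hT1]
    · unfold ZL
      rw [norm_neg]
      exact g2

/-- mean square -/
theorem mean_sq' (a κ : ℝ) (ha : 0 < a) (hκ : 0 < κ) (hκ1 : κ < 1 / 2) :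
    ∃ T0 : ℝ, 10 ≤ T0 ∧ ∀ T : ℝ, T0 ≤ T → ∀ t0 : ℝ, 11 / 10 * T ≤ t0 → t0 ≤ 19 / 10 * T →
    ∀ d : ℕ → ℂ, (∀ n, ‖d n‖ ≤ T) →
    |(∫ t in (T + 2 * Real.log T)..(2 * T - 2 * Real.log T),
      wt t0 (dd κ T) t * ‖DP (nn κ T) d (⟨1 / 2, t⟩ : ℂ)‖ ^ 2) -
      Real.sqrt (2 * Real.pi) * dd κ T * ND (nn κ T) d| ≤ 1 := by
  obtain ⟨T2, hT2, h2⟩ := mean_gen a κ 1 ha hκ hκ1 one_pos
  refine ⟨T2, hT2, ?_⟩
  intro T hT t0 ht1 ht2 d hd
  have h3 := h2 T hT t0 ht1 ht2 d hd (fun m => if m = 1 then 1 else 0) (fun _ => 1) (by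
    intro m
    split_ifs with h
    · rw [h]; simp
    · simp) (by
    intro s _
    unfold LSeriesHasSum
    have h := hasSum_ite_eq (1 : ℕ) (1 : ℂ)
    convert h using 1
    funext n
    rcases Nat.eq_zero_or_pos n with h | h
    · subst h; simp
    · rw [LSeries.term_of_ne_zero (by omega)]
      split_ifs with h1
      · rw [h1]; simp
      · simp) (fun s _ => analyticAt_const) (fun s _ _ _ _ => ⟨analyticAt_const, by
      rw [norm_one]
      exact Real.one_le_exp (by positivity)⟩)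
  have hSS : SS0 (fun m => if m = 1 then 1 else 0) (a / Real.log T) (nn κ T) d =
      ((ND (nn κ T) d : ℝ) : ℂ) := by
    unfold SS0 ND
    rw [Complex.ofReal_sum]
    apply Finset.sum_congr rfl
    intro k hk
    obtain ⟨k1, k2⟩ := Finset.mem_Icc.mp hk
    have hk0 : (k : ℂ) ≠ 0 := by
      have : k ≠ 0 := by omega
      exact_mod_cast this
    have e : ee (fun m => if m = 1 then 1 else 0) (a / Real.log T) (nn κ T) d k =
        d k * (k : ℂ) ^ ((a / Real.log T : ℝ) : ℂ) := by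
      unfold ee
      rw [Finset.sum_eq_single_of_mem k (Nat.mem_divisors_self k (by omega))]
      · simp only []
        rw [if_pos k2, Nat.div_self (by omega), if_pos rfl, mul_one]
      · intro y hy hyk
        have h1 : k / y ≠ 1 := by
          intro h
          have h2 := Nat.div_mul_cancel (Nat.dvd_of_mem_divisors hy)
          rw [h, one_mul] at h2
          exact hyk h2
        simp only []
        rw [if_neg h1, mul_zero]
    rw [e]
    have e2 : (k : ℂ) ^ (-(1 : ℂ) - ((a / Real.log T : ℝ) : ℂ)) *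
        (k : ℂ) ^ ((a / Real.log T : ℝ) : ℂ) = (k : ℂ)⁻¹ := by
      rw [← Complex.cpow_add _ _ hk0]
      have : (-(1 : ℂ) - ((a / Real.log T : ℝ) : ℂ)) + ((a / Real.log T : ℝ) : ℂ) = -1 := by ring
      rw [this, Complex.cpow_neg_one]
    have e3 : (starRingEnd ℂ) (d k) * d k = ((‖d k‖ ^ 2 : ℝ) : ℂ) := by
      rw [mul_comm, Complex.mul_conj, Complex.normSq_eq_norm_sq]
    calc _ = ((starRingEnd ℂ) (d k) * d k) * ((k : ℂ) ^ (-(1 : ℂ) - ((a / Real.log T : ℝ) : ℂ)) *
        (k : ℂ) ^ ((a / Real.log T : ℝ) : ℂ)) := by ring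
      _ = _ := by rw [e2, e3]; push_cast; ring
  rw [hSS] at h3
  have h4 : (∫ t in (T + 2 * Real.log T)..(2 * T - 2 * Real.log T),
      ((wt t0 (dd κ T) t * ‖DP (nn κ T) d (⟨1 / 2, t⟩ : ℂ)‖ ^ 2 : ℝ) : ℂ) * 1) =
      ((∫ t in (T + 2 * Real.log T)..(2 * T - 2 * Real.log T),
      wt t0 (dd κ T) t * ‖DP (nn κ T) d (⟨1 / 2, t⟩ : ℂ)‖ ^ 2 : ℝ) : ℂ) := by
    rw [← intervalIntegral.integral_ofReal]
    simp only [mul_one]
  rw [h4, ← Complex.ofReal_mul, ← Complex.ofReal_sub, Complex.norm_real, Real.norm_eq_abs] at h3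
  exact h3

/-- Fubini on a rectangle -/
lemma fub {E : Type*} [NormedAddCommGroup E] [NormedSpace ℝ E] [CompleteSpace E]
    (F : ℝ → ℝ → E) (a b c d : ℝ) (hab : a ≤ b) (hcd : c ≤ d)
    (hF : ContinuousOn (Function.uncurry F) (Icc a b ×ˢ Icc c d)) :
    IntervalIntegrable (fun x => ∫ y in c..d, F x y) volume a b ∧
    IntervalIntegrable (fun y => ∫ x in a..b, F x y) volume c d ∧
    ∫ x in a..b, ∫ y in c..d, F x y = ∫ y in c..d, ∫ x in a..b, F x y := by
  have h1 : IntegrableOn (Function.uncurry F) (Icc a b ×ˢ Icc c d) :=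
    hF.integrableOn_compact (isCompact_Icc.prod isCompact_Icc)
  have h2 : IntegrableOn (Function.uncurry F) (Ioc a b ×ˢ Ioc c d) :=
    h1.mono_set (Set.prod_mono Ioc_subset_Icc_self Ioc_subset_Icc_self)
  have h3 : Integrable (Function.uncurry F) ((volume.restrict (Ioc a b)).prod
      (volume.restrict (Ioc c d))) := by
    rw [Measure.prod_restrict, ← Measure.volume_eq_prod]
    exact h2
  refine ⟨?_, ?_, ?_⟩
  · rw [intervalIntegrable_iff, uIoc_of_le hab]
    have := h3.integral_prod_left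
    simp_rw [intervalIntegral.integral_of_le hcd]
    exact this
  · rw [intervalIntegrable_iff, uIoc_of_le hcd]
    have := h3.integral_prod_right
    simp_rw [intervalIntegral.integral_of_le hab]
    exact this
  · apply intervalIntegral_intervalIntegral_swap
    rw [uIoc_of_le hab, uIoc_of_le hcd]
    exact h2

end EvT

end LG
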