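import Pool.Agent.H382L.MomQW
import Pool.Agent.H382R2.Final0

open Complex Filter Topology Set MeasureTheory

namespace LG

open SG (phi hh nn dd dl ord NZ zmult)
open SP

namespace GapAux

/-- no zeros strictly between consecutive ordinates -/
lemma no_between {n : ℕ} (hn : 1 ≤ n) {s : ℂ} (h0 : riemannZeta s = 0) (h1 : 0 < s.re)
    (h2 : s.re < 1) (h3 : 0 < s.im) : s.im ≤ ord n ∨ ord (n + 1) ≤ s.im := by
  by_contra hcon
  push Not at hcon
  obtain ⟨ha, hb⟩ := hcon
  have h4 := SG.jump_one h0 h1 h2 h3 (ord n) ha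
  have h5 := SG.le_NZ_ord hn
  have h6 := SG.zmult_pos h3 h0
  have h7 : ord (n + 1) ≤ s.im := (SG.ord_le_iff (by omega) _).mpr (by omega)
  linarith

lemma fin_ord (T : ℝ) (S : Set ℕ) (hS : ∀ n ∈ S, 1 ≤ n ∧ ord n ≤ T) : S.Finite := by
  refine (Set.finite_Iic (NZ T)).subset ?_
  intro n hn
  obtain ⟨h1, h2⟩ := hS n hn
  exact (SG.ord_le_iff h1 T).mp h2

/-- from Gaussian averages to Lebesgue measure -/
lemma gauss_to_leb (f : ℝ → ℝ) (hf : Continuous f) (hf0 : ∀ t, 0 ≤ f t) (D M T : ℝ) (hD : 0 < D)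
    (hT : 0 < T)
    (h : ∀ t0 : ℝ, Integrable (fun t => wt t0 D t * f t) ∧ ∫ t, wt t0 D t * f t ≤ M) :
    ∫ t in T..(2 * T), f t ≤ 2 * (T / D + 1) * M := by
  have hM : 0 ≤ M := (integral_nonneg fun t => mul_nonneg (Real.exp_pos _).le (hf0 t)).trans (h 0).2
  set m : ℕ := ⌈T / D⌉₊ with hm
  have hTD : 0 < T / D := by positivity
  have hm0 : 0 < m := Nat.ceil_pos.mpr hTD
  have hm0' : (0 : ℝ) < m := by exact_mod_cast hm0
  have hm1 : T / D ≤ m := Nat.le_ceil _
  have hm2 : (m : ℝ) ≤ T / D + 1 := (Nat.ceil_lt_add_one hTD.le).le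
  set h' : ℝ := T / m with hh'
  have hh0 : 0 < h' := by positivity
  have hhD : h' ≤ D := by
    rw [hh', div_le_iff₀ hm0']
    rw [div_le_iff₀ hD] at hm1
    linarith
  set a : ℕ → ℝ := fun i => T + i * h' with ha
  have hsum := intervalIntegral.sum_integral_adjacent_intervals (f := f) (μ := volume) (a := a)
    (n := m) (fun k _ => hf.intervalIntegrable _ _)
  have ha0 : a 0 = T := by simp [ha]
  have ham : a m = 2 * T := by
    simp only [ha, hh']
    field_simp
    ring
  rw [ha0, ham] at hsum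
  rw [← hsum]
  have hstep : ∀ i ∈ Finset.range m, ∫ t in (a i)..(a (i + 1)), f t ≤ 2 * M := by
    intro i _
    have hai : a (i + 1) = a i + h' := by
      simp only [ha]
      push_cast
      ring
    have hle : a i ≤ a (i + 1) := by rw [hai]; linarith
    set t0 : ℝ := a i + h' / 2 with ht0
    obtain ⟨h1, h2⟩ := h t0
    have hw : ∀ t ∈ Set.Icc (a i) (a (i + 1)), f t ≤ 2 * (wt t0 D t * f t) := by
      intro t ht
      rw [hai] at ht
      have h3 : (t - t0) ^ 2 ≤ D ^ 2 / 4 := by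
        have h4 : |t - t0| ≤ D / 2 := by
          rw [abs_le]
          constructor <;> [linarith [ht.1]; linarith [ht.2]]
        have h5 := sq_le_sq' (by linarith [(abs_le.mp h4).1]) (abs_le.mp h4).2
        nlinarith
      have h6 : (1 / 2 : ℝ) ≤ wt t0 D t := by
        unfold wt
        have h7 : -(1 / 8 : ℝ) ≤ -(t - t0) ^ 2 / (2 * D ^ 2) := by
          rw [le_div_iff₀ (by positivity)]
          nlinarith
        have h8 := Real.exp_le_exp.2 h7
        have h9 := Real.add_one_le_exp (-(1 / 8 : ℝ))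
        linarith
      have := hf0 t
      nlinarith
    calc ∫ t in (a i)..(a (i + 1)), f t ≤ ∫ t in (a i)..(a (i + 1)), 2 * (wt t0 D t * f t) := by
          apply intervalIntegral.integral_mono_on hle (hf.intervalIntegrable _ _)
            (h1.const_mul 2).intervalIntegrable
          exact hw
      _ ≤ ∫ t, 2 * (wt t0 D t * f t) := by
          rw [intervalIntegral.integral_of_le hle]
          apply setIntegral_le_integral (h1.const_mul 2)
          exact Eventually.of_forall fun t => by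
            have : 0 ≤ wt t0 D t := (Real.exp_pos _).le
            have := hf0 t
            simp only [Pi.zero_apply]
            positivity
      _ ≤ 2 * M := by
          rw [integral_const_mul]
          linarith
  calc ∑ i ∈ Finset.range m, ∫ t in (a i)..(a (i + 1)), f t ≤ ∑ _i ∈ Finset.range m, 2 * M :=
        Finset.sum_le_sum hstep
    _ = m * (2 * M) := by rw [Finset.sum_const, Finset.card_range, nsmul_eq_mul]
    _ ≤ (T / D + 1) * (2 * M) := mul_le_mul_of_nonneg_right hm2 (by positivity)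
    _ = 2 * (T / D + 1) * M := by ring

lemma QW_cont (T l : ℝ) (W : ℝ → ℂ) : Continuous fun t : ℝ => QW T t l W := by
  unfold QW
  apply Continuous.mul continuous_const
  apply continuous_finsetSum
  intro p hp
  have hp0 : (p : ℂ) ≠ 0 := by exact_mod_cast (Finset.mem_filter.mp hp).2.ne_zero
  apply Continuous.mul _ continuous_const
  apply Continuous.mul continuous_const
  have : (fun t : ℝ => (p : ℂ) ^ (-(1 / 2 : ℂ) - I * t)) =
      fun t : ℝ => cexp (Complex.log p * (-(1 / 2 : ℂ) - I * t)) := by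
    ext t
    rw [Complex.cpow_def_of_ne_zero hp0]
  rw [this]
  fun_prop

/-- disjoint intervals inside `[T, 2T]` on which `f ≥ 1` -/
lemma count_intervals (f : ℝ → ℝ) (hf : Continuous f) (hf0 : ∀ t, 0 ≤ f t) (T h : ℝ) (hT : 0 < T)
    (hh : 0 < h) (S : Finset ℕ) (b : ℕ → ℝ) (hb : ∀ n ∈ S, T ≤ b n ∧ b n + h ≤ 2 * T)
    (hd : ∀ n ∈ S, ∀ m ∈ S, n < m → b n + h < b m)
    (h1 : ∀ n ∈ S, ∀ t ∈ Set.Icc (b n) (b n + h), 1 ≤ f t) :
    (S.card : ℝ) * h ≤ ∫ t in T..(2 * T), f t := by
  have hdisj : (S : Set ℕ).Pairwise (Function.onFun Disjoint fun n => Set.Icc (b n) (b n + h)) := by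
    intro n hn m hm hnm
    show Disjoint _ _
    rw [Set.disjoint_left]
    intro t ht ht'
    rcases Nat.lt_or_gt_of_ne hnm with hlt | hlt
    · have := hd n hn m hm hlt
      linarith [ht.2, ht'.1]
    · have := hd m hm n hn hlt
      linarith [ht.1, ht'.2]
  have hint : ∀ n ∈ S, IntegrableOn f (Set.Icc (b n) (b n + h)) := fun n _ =>
    hf.continuousOn.integrableOn_Icc
  have h2 : ∫ t in ⋃ n ∈ S, Set.Icc (b n) (b n + h), f t =
      ∑ n ∈ S, ∫ t in Set.Icc (b n) (b n + h), f t :=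
    integral_biUnion_finset S (fun n _ => measurableSet_Icc) hdisj hint
  have h3 : ∫ t in ⋃ n ∈ S, Set.Icc (b n) (b n + h), f t ≤ ∫ t in Set.Icc T (2 * T), f t := by
    apply setIntegral_mono_set hf.continuousOn.integrableOn_Icc
    · exact Eventually.of_forall fun t => hf0 t
    · apply LE.le.eventuallyLE
      intro t ht
      rw [Set.mem_iUnion₂] at ht
      obtain ⟨n, hn, ht⟩ := ht
      obtain ⟨b1, b2⟩ := hb n hn
      exact ⟨b1.trans ht.1, ht.2.trans b2⟩
  have h4 : ∀ n ∈ S, h ≤ ∫ t in Set.Icc (b n) (b n + h), f t := by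
    intro n hn
    calc h = ∫ _t in Set.Icc (b n) (b n + h), (1 : ℝ) := by
          rw [setIntegral_const, smul_eq_mul, mul_one, Measure.real, Real.volume_Icc]
          rw [ENNReal.toReal_ofReal (by linarith)]
          ring
      _ ≤ _ := by
          apply setIntegral_mono_on _ (hint n hn) measurableSet_Icc (h1 n hn)
          exact continuousOn_const.integrableOn_Icc
  rw [intervalIntegral.integral_of_le (by linarith), ← integral_Icc_eq_integral_Ioc]
  calc (S.card : ℝ) * h = ∑ _n ∈ S, h := by rw [Finset.sum_const, nsmul_eq_mul]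
    _ ≤ ∑ n ∈ S, ∫ t in Set.Icc (b n) (b n + h), f t := Finset.sum_le_sum h4
    _ = _ := h2.symm
    _ ≤ _ := h3

/-- the hypothesis provided by `no_zero` -/
def NoZ (κ : ℝ) (k0 : ℕ) (c0 T0 : ℝ) : Prop := ∀ T : ℝ, T0 ≤ T → ∀ t : ℝ,
    T + Real.log T ≤ t → t ≤ 2 * T - Real.log T → ∀ k : ℕ, k0 ≤ k → (k : ℝ) ≤ c0 * Real.log T →
    (∀ s ∈ ZZ T, 4 * Real.pi * k / ((1 - κ) * Real.log T) ≤ |s.im - t|) →
    1 / 4 ≤ ‖Q3 κ T k t‖

/-- one block -/
lemma block (κ : ℝ) (hκ : 0 < κ) (hκ1 : κ < 1 / 2)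
    (hW : ∀ l : ℝ, 0 < l → Continuous (W3 l) ∧ ∀ u, ‖W3 l u‖ ≤ 2) (k0 : ℕ) (c0 T0 : ℝ)
    (hk0 : 1 ≤ k0) (hNoZ : NoZ κ k0 c0 T0) :
    ∃ C T1 : ℝ, 0 < C ∧ 10 ≤ T1 ∧ ∀ T : ℝ, T1 ≤ T → ∀ (k : ℕ) (H : ℝ), k0 ≤ k →
      (k : ℝ) ≤ c0 * Real.log T → 0 < H →
      16 * Real.pi * k / ((1 - κ) * Real.log T) ≤ H → ∀ S : Finset ℕ,
      (∀ n ∈ S, 1 ≤ n ∧ T + Real.log T ≤ ord n ∧ ord n + H ≤ 2 * T - Real.log T ∧
        H ≤ ord (n + 1) - ord n) →
      (S.card : ℝ) * H ≤ 8 * T * (C / k) ^ k := by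
  obtain ⟨C, T1, hC, hT1, hmom⟩ := mom_QW κ hκ hκ1
  refine ⟨16 * C, max T1 T0, by positivity, hT1.trans (le_max_left _ _), ?_⟩
  intro T hT k H hkk hkc hH hH16 S hS
  have hTT1 : T1 ≤ T := (le_max_left _ _).trans hT
  have hTT0 : T0 ≤ T := (le_max_right _ _).trans hT
  have hT10 : 10 ≤ T := hT1.trans hTT1
  have hTpos : 0 < T := by linarith
  have hL : 0 < Real.log T := Real.log_pos (by linarith)
  have hk1 : 1 ≤ k := hk0.trans hkk
  have hk0' : (0 : ℝ) < k := by exact_mod_cast hk1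
  have hell : 0 < ell κ T k := by
    unfold ell
    have : 0 < 1 - κ := by linarith
    positivity
  obtain ⟨hW1, hW2⟩ := hW _ hell
  set f : ℝ → ℝ := fun t => 16 ^ k * ‖Q3 κ T k t‖ ^ (2 * k) with hf
  have hfc : Continuous f := by
    rw [hf]
    unfold Q3
    exact continuous_const.mul ((QW_cont T _ _).norm.pow _)
  have hf0 : ∀ t, 0 ≤ f t := fun t => by simp only [hf]; positivity
  have hD : 0 < dd κ T := by
    unfold dd
    positivity
  have hDT : dd κ T ≤ T := by
    unfold dd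
    calc T ^ (1 - κ / 2) ≤ T ^ (1 : ℝ) :=
          Real.rpow_le_rpow_of_exponent_le (by linarith) (by linarith)
      _ = T := Real.rpow_one T
  have hI : ∀ t0 : ℝ, Integrable (fun t => wt t0 (dd κ T) t * f t) ∧
      ∫ t, wt t0 (dd κ T) t * f t ≤ 16 ^ k * (dd κ T * (C / k) ^ k) := by
    intro t0
    obtain ⟨h1, h2⟩ := hmom T hTT1 t0 k (W3 (ell κ T k)) hk1 hW1 hW2
    have e : (fun t => wt t0 (dd κ T) t * f t) = fun t => 16 ^ k *
        (wt t0 (dd κ T) t * ‖QW T t (ell κ T k) (W3 (ell κ T k))‖ ^ (2 * k)) := by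
      ext t
      simp only [hf, Q3]
      ring
    rw [e]
    refine ⟨h1.const_mul _, ?_⟩
    rw [integral_const_mul]
    exact mul_le_mul_of_nonneg_left h2 (by positivity)
  have hleb := gauss_to_leb f hfc hf0 (dd κ T) _ T hD hTpos hI
  have hcount := count_intervals f hfc hf0 T (H / 2) hTpos (by linarith) S
    (fun n => ord n + H / 4) ?_ ?_ ?_
  · have h5 : (S.card : ℝ) * (H / 2) ≤
        2 * (T / dd κ T + 1) * (16 ^ k * (dd κ T * (C / k) ^ k)) := hcount.trans hleb
    have h6 : 2 * (T / dd κ T + 1) * (16 ^ k * (dd κ T * (C / k) ^ k)) =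
        2 * (T + dd κ T) * (16 * C / k) ^ k := by
      rw [show 16 * C / (k : ℝ) = 16 * (C / k) by ring, mul_pow]
      field_simp
    rw [h6] at h5
    have h7 : 0 ≤ (16 * C / k : ℝ) ^ k := by positivity
    have h8 : 2 * (T + dd κ T) * (16 * C / k) ^ k ≤ 4 * T * (16 * C / k) ^ k := by
      apply mul_le_mul_of_nonneg_right _ h7
      linarith
    linarith
  · intro n hn
    obtain ⟨a1, a2, a3, a4⟩ := hS n hn
    constructor
    · linarith
    · linarith
  · intro n hn m hm hnm
    obtain ⟨a1, a2, a3, a4⟩ := hS n hn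
    have h5 : ord (n + 1) ≤ ord m := SG.ord_mono (by omega) (by omega)
    linarith
  · intro n hn t ht
    obtain ⟨a1, a2, a3, a4⟩ := hS n hn
    have ht1 := ht.1
    have ht2 := ht.2
    have h5 : 1 / 4 ≤ ‖Q3 κ T k t‖ := by
      apply hNoZ T hTT0 t (by linarith) (by linarith) k hkk hkc
      intro s hs
      have hs' : 0 < s.re ∧ s.re < 1 ∧ T < s.im ∧ s.im ≤ 2 * T ∧ riemannZeta s = 0 := hs
      obtain ⟨s1, s2, s3, s4, s5⟩ := hs'
      have h6 : 4 * Real.pi * k / ((1 - κ) * Real.log T) ≤ H / 4 := by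
        have : 16 * Real.pi * k / ((1 - κ) * Real.log T) =
            4 * (4 * Real.pi * k / ((1 - κ) * Real.log T)) := by ring
        linarith
      refine h6.trans ?_
      rcases no_between a1 s5 s1 s2 (by linarith) with h7 | h7
      · rw [abs_sub_comm, le_abs]
        left
        linarith
      · rw [le_abs]
        left
        linarith
    simp only [hf]
    calc (1 : ℝ) = 16 ^ k * (1 / 4) ^ (2 * k) := by
          rw [pow_mul, ← mul_pow]
          norm_num
      _ ≤ 16 ^ k * ‖Q3 κ T k t‖ ^ (2 * k) := by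
          apply mul_le_mul_of_nonneg_left _ (by positivity)
          exact pow_le_pow_left₀ (by norm_num) h5 _

lemma NZ_up : ∃ C T1 : ℝ, 0 < C ∧ 3 ≤ T1 ∧ ∀ T : ℝ, T1 ≤ T →
    (NZ (2 * T) : ℝ) ≤ C * (T * Real.log T) := by
  obtain ⟨C, hC, hb⟩ := SG.NZ_nat_bound
  refine ⟨NZ 3 + 6 * C, 3, by positivity, le_refl _, fun T hT => ?_⟩
  set m : ℕ := ⌈2 * T⌉₊ with hm
  have hm1 : 2 * T ≤ m := Nat.le_ceil _
  have hm2 : (m : ℝ) ≤ 3 * T := by
    have := (Nat.ceil_lt_add_one (by linarith : 0 ≤ 2 * T)).le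
    linarith
  have hm3 : 3 ≤ m := by
    have : (3 : ℝ) ≤ m := by linarith
    exact_mod_cast this
  have h2 := hb m hm3
  have h3 : (NZ (2 * T) : ℝ) ≤ NZ (m : ℝ) := by exact_mod_cast SG.NZ_mono hm1
  have hm0 : (0 : ℝ) < m := by linarith
  have hlogT : 1 ≤ Real.log T := by
    rw [Real.le_log_iff_exp_le (by linarith)]
    have := Real.exp_one_lt_d9
    linarith
  have h4 : Real.log m ≤ 2 * Real.log T := by
    have h5 : Real.log m ≤ Real.log (T ^ 2) := by
      apply Real.log_le_log hm0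
      nlinarith
    rw [Real.log_pow] at h5
    push_cast at h5
    exact h5
  have h6 : C * m * Real.log m ≤ C * (3 * T) * (2 * Real.log T) := by
    apply mul_le_mul
    · exact mul_le_mul_of_nonneg_left hm2 hC.le
    · exact h4
    · exact Real.log_nonneg (by linarith)
    · positivity
  have h7 : (NZ 3 : ℝ) ≤ NZ 3 * (T * Real.log T) := by
    apply le_mul_of_one_le_right (by positivity)
    nlinarith
  linarith

end GapAux

open GapAux in
theorem gap_tail_of (hW : ∀ l : ℝ, 0 < l → Continuous (W3 l) ∧ ∀ u, ‖W3 l u‖ ≤ 2)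
    (hNo : ∃ (k0 : ℕ) (c0 T0 : ℝ), 1 ≤ k0 ∧ 0 < c0 ∧ 10 ≤ T0 ∧ NoZ (1 / 4) k0 c0 T0) :
    ∃ C c0 T0 : ℝ, 1 ≤ C ∧ 0 < c0 ∧ 10 ≤ T0 ∧ ∀ T : ℝ, T0 ≤ T → ∀ x : ℝ,
    1 ≤ x → x ≤ c0 * Real.log T →
    ({n : ℕ | 1 ≤ n ∧ T ≤ ord n ∧ ord (n + 1) ≤ 2 * T ∧
        x * (2 * Real.pi / Real.log T) ≤ ord (n + 1) - ord n}.ncard : ℝ) ≤
      C * (C / x) ^ (x / C) * (T * Real.log T) := by
  classical
  obtain ⟨k0, c0, T0, hk0, hc0, hT0, hNoZ⟩ := hNo
  obtain ⟨C, T1, hC, hT1, hblock⟩ := block (1 / 4) (by norm_num) (by norm_num) hW k0 c0 T0 hk0 hNoZ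
  obtain ⟨C2, T2, hC2, hT2, hNZ⟩ := NZ_up
  -- constants
  set Cf : ℝ := max (max (max (64 * k0) (64 * C)) C2) 64 with hCf
  have hCf1 : 64 * (k0 : ℝ) ≤ Cf := ((le_max_left _ _).trans (le_max_left _ _)).trans (le_max_left _ _)
  have hCf2 : 64 * C ≤ Cf := ((le_max_right _ _).trans (le_max_left _ _)).trans (le_max_left _ _)
  have hCf3 : C2 ≤ Cf := (le_max_right _ _).trans (le_max_left _ _)
  have hCf4 : 64 ≤ Cf := le_max_right _ _
  have hCf0 : 0 < Cf := by linarith
  obtain ⟨T4, hT4⟩ := (Real.isLittleO_log_id_atTop.tendsto_div_nhds_zero.eventually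
    (gt_mem_nhds (show (0 : ℝ) < 1 / 100 by norm_num))).exists_forall_of_atTop
  set TT : ℝ := max (max (2 * T1) T2) (max (2 * |T4|) 1000) with hTT
  refine ⟨Cf, min (16 * c0) (1 / 7), TT, by linarith, lt_min (by positivity) (by norm_num), ?_, ?_⟩
  · exact le_trans (by norm_num) ((le_max_right _ _).trans (le_max_right _ _))
  intro T hT x hx1 hxc
  have hTa : 2 * T1 ≤ T := ((le_max_left _ _).trans (le_max_left _ _)).trans hT
  have hTb : T2 ≤ T := ((le_max_right _ _).trans (le_max_left _ _)).trans hT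
  have hTc : 2 * |T4| ≤ T := ((le_max_left _ _).trans (le_max_right _ _)).trans hT
  have hTd : 1000 ≤ T := ((le_max_right _ _).trans (le_max_right _ _)).trans hT
  have hTpos : 0 < T := by linarith
  set L : ℝ := Real.log T with hLdef
  have hL1 : 1 ≤ L := by
    rw [hLdef, Real.le_log_iff_exp_le hTpos]
    have := Real.exp_one_lt_d9
    linarith
  have hx0 : 0 < x := by linarith
  have hxc1 : x ≤ 16 * c0 * L := hxc.trans (mul_le_mul_of_nonneg_right (min_le_left _ _) (by linarith))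
  have hxc2 : x ≤ 1 / 7 * L := hxc.trans (mul_le_mul_of_nonneg_right (min_le_right _ _) (by linarith))
  set S : Set ℕ := {n : ℕ | 1 ≤ n ∧ T ≤ ord n ∧ ord (n + 1) ≤ 2 * T ∧
        x * (2 * Real.pi / L) ≤ ord (n + 1) - ord n} with hS
  have hSfin : S.Finite := by
    apply fin_ord (2 * T)
    intro n hn
    exact ⟨hn.1, (SG.ord_mono hn.1 (Nat.le_succ n)).trans hn.2.2.1⟩
  have hpi3 := Real.pi_gt_three
  have hpi4 := Real.pi_lt_four
  by_cases hxC : x ≤ Cf
  · -- trivial bound
    have h1 : S.ncard ≤ NZ (2 * T) := by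
      have h2 : S ⊆ Set.Icc 1 (NZ (2 * T)) := by
        intro n hn
        refine ⟨hn.1, ?_⟩
        apply (SG.ord_le_iff hn.1 _).mp
        exact (SG.ord_mono hn.1 (Nat.le_succ n)).trans hn.2.2.1
      calc S.ncard ≤ (Set.Icc 1 (NZ (2 * T))).ncard := Set.ncard_le_ncard h2 (Set.finite_Icc _ _)
        _ = NZ (2 * T) := by
          rw [← Finset.coe_Icc, Set.ncard_coe_finset, Nat.card_Icc]
          omega
    have h3 : (S.ncard : ℝ) ≤ C2 * (T * L) := by
      have := hNZ T hTb
      have h4 : (S.ncard : ℝ) ≤ NZ (2 * T) := by exact_mod_cast h1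
      linarith
    refine h3.trans ?_
    have h5 : 1 ≤ (Cf / x) ^ (x / Cf) := by
      apply Real.one_le_rpow
      · rw [le_div_iff₀ hx0]; linarith
      · positivity
    have h6 : 0 ≤ T * L := by positivity
    apply mul_le_mul_of_nonneg_right _ h6
    nlinarith
  · push Not at hxC
    set k : ℕ := ⌊x / 32⌋₊ with hk
    have hk1 : (k : ℝ) ≤ x / 32 := Nat.floor_le (by positivity)
    have hk2 : x / 32 < k + 1 := Nat.lt_floor_add_one _
    have hk3 : x / 64 ≤ k := by linarith
    have hkk : k0 ≤ k := by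
      apply Nat.le_floor
      rw [le_div_iff₀ (by norm_num)]
      have : (0 : ℝ) ≤ k0 := Nat.cast_nonneg _
      linarith
    have hkpos : (0 : ℝ) < k := by linarith
    set H : ℝ := x * (2 * Real.pi / L) with hH
    have hH0 : 0 < H := by positivity
    have hH1 : H ≤ 8 / 7 := by
      rw [hH]
      have : x * (2 * Real.pi / L) = (x / L) * (2 * Real.pi) := by ring
      rw [this]
      have h1 : x / L ≤ 1 / 7 := by
        rw [div_le_iff₀ (by linarith)]
        exact hxc2
      have h2 : 0 ≤ x / L := by positivity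
      nlinarith
    -- block bound
    have key : ∀ r : ℝ, 7 / 10 ≤ r → r ≤ 13 / 10 → ∀ F : Finset ℕ,
        (∀ n ∈ F, 1 ≤ n ∧ r * T + Real.log (r * T) ≤ ord n ∧
          ord n + H ≤ 2 * (r * T) - Real.log (r * T) ∧ H ≤ ord (n + 1) - ord n) →
        (F.card : ℝ) ≤ 2 * (T * L) * (C / k) ^ k := by
      intro r hr1 hr2 F hF
      have hrT : T1 ≤ r * T := by nlinarith
      have hrT0 : 0 < r * T := by positivity
      have hlog2 : Real.log T ≤ 2 * Real.log (r * T) := by
        have h1 : T ≤ (r * T) ^ 2 := by nlinarith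
        have h2 := Real.log_le_log hTpos h1
        rw [Real.log_pow] at h2
        push_cast at h2
        exact h2
      have hlogpos : 0 < Real.log (r * T) := by linarith
      have h3 := hblock (r * T) hrT k H hkk ?_ hH0 ?_ F hF
      · have h4 : 0 ≤ (C / k : ℝ) ^ k := by positivity
        have h5 : (F.card : ℝ) * H ≤ 8 * (13 / 10 * T) * (C / k) ^ k := by
          refine h3.trans (mul_le_mul_of_nonneg_right ?_ h4)
          nlinarith
        have h6 : 384 / L ≤ H := by
          rw [hH, div_le_iff₀ (by linarith)]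
          have : x * (2 * Real.pi / L) * L = x * (2 * Real.pi) := by field_simp
          rw [this]
          nlinarith
        have h7 : (F.card : ℝ) * (384 / L) ≤ (F.card : ℝ) * H :=
          mul_le_mul_of_nonneg_left h6 (Nat.cast_nonneg _)
        have h8 : (F.card : ℝ) * (384 / L) ≤ 8 * (13 / 10 * T) * (C / k) ^ k := h7.trans h5
        have h9 : (F.card : ℝ) * (384 / L) * L = (F.card : ℝ) * 384 := by field_simp
        have h10 := mul_le_mul_of_nonneg_right h8 (show 0 ≤ L by linarith)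
        rw [h9] at h10
        have h11 : 0 ≤ T * L * (C / k) ^ k := by positivity
        nlinarith
      · calc (k : ℝ) ≤ x / 32 := hk1
          _ ≤ c0 * L / 2 := by linarith
          _ ≤ c0 * Real.log (r * T) := by nlinarith
      · rw [div_le_iff₀ (by nlinarith)]
        rw [hH]
        have h12 : 16 * Real.pi * k ≤ Real.pi * x / 2 := by nlinarith
        have h13 : Real.pi * x / 2 ≤ x * (2 * Real.pi / L) * ((1 - 1 / 4) * Real.log (r * T)) := by
          have h14 : x * (2 * Real.pi / L) * ((1 - 1 / 4) * Real.log (r * T)) =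
              (3 / 2 * Real.pi * x) * (Real.log (r * T) / L) := by ring
          rw [h14]
          have h15 : 1 / 2 ≤ Real.log (r * T) / L := by
            rw [le_div_iff₀ (by linarith)]
            linarith
          have h16 : 0 ≤ 3 / 2 * Real.pi * x := by positivity
          nlinarith
        linarith
    -- split
    set F1 : Finset ℕ := hSfin.toFinset.filter
      (fun n => ord n + H ≤ 2 * (7 / 10 * T) - Real.log (7 / 10 * T)) with hF1
    set F2 : Finset ℕ := hSfin.toFinset.filter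
      (fun n => ¬ (ord n + H ≤ 2 * (7 / 10 * T) - Real.log (7 / 10 * T))) with hF2
    have hcard : S.ncard = F1.card + F2.card := by
      rw [Set.ncard_eq_toFinset_card S hSfin, hF1, hF2, Finset.card_filter_add_card_filter_not]
    have hlogT : L ≤ T / 100 := by
      have h1 := hT4 T (by
        have := le_abs_self T4
        have := abs_nonneg T4
        linarith)
      simp only [id] at h1
      rw [div_lt_iff₀ hTpos] at h1
      linarith
    have hlog7 : Real.log (7 / 10 * T) ≤ L := Real.log_le_log (by positivity) (by linarith)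
    have hlog13 : Real.log (13 / 10 * T) ≤ L + 1 := by
      rw [Real.log_mul (by norm_num) hTpos.ne']
      have := Real.log_le_sub_one_of_pos (show (0 : ℝ) < 13 / 10 by norm_num)
      linarith
    have hb1 : (F1.card : ℝ) ≤ 2 * (T * L) * (C / k) ^ k := by
      apply key (7 / 10) le_rfl (by norm_num)
      intro n hn
      rw [hF1, Finset.mem_filter, Set.Finite.mem_toFinset] at hn
      obtain ⟨⟨a1, a2, a3, a4⟩, a5⟩ := hn
      exact ⟨a1, by linarith, a5, a4⟩
    have hb2 : (F2.card : ℝ) ≤ 2 * (T * L) * (C / k) ^ k := by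
      apply key (13 / 10) (by norm_num) le_rfl
      intro n hn
      rw [hF2, Finset.mem_filter, Set.Finite.mem_toFinset] at hn
      obtain ⟨⟨a1, a2, a3, a4⟩, a5⟩ := hn
      push Not at a5
      exact ⟨a1, by linarith, by linarith, a4⟩
    have htot : (S.ncard : ℝ) ≤ 4 * (T * L) * (C / k) ^ k := by
      rw [hcard]
      push_cast
      linarith
    refine htot.trans ?_
    -- final comparison
    have hbase0 : 0 < C / k := by positivity
    have hbase1 : C / k ≤ Cf / x := by
      rw [div_le_div_iff₀ hkpos hx0]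
      nlinarith
    have hbase2 : Cf / x ≤ 1 := by
      rw [div_le_iff₀ hx0]
      linarith
    have hq0 : 0 < Cf / x := by positivity
    have hp1 : (C / k : ℝ) ^ k ≤ (Cf / x) ^ k := pow_le_pow_left₀ hbase0.le hbase1 k
    have hp2 : (Cf / x : ℝ) ^ k ≤ (Cf / x) ^ (x / Cf) := by
      rw [← Real.rpow_natCast]
      apply Real.rpow_le_rpow_of_exponent_ge hq0 hbase2
      refine le_trans ?_ hk3
      apply div_le_div_of_nonneg_left hx0.le (by norm_num) hCf4
    have h20 : 0 ≤ T * L := by positivity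
    calc 4 * (T * L) * (C / k) ^ k ≤ 4 * (T * L) * (Cf / x) ^ (x / Cf) := by
          apply mul_le_mul_of_nonneg_left (hp1.trans hp2) (by positivity)
      _ ≤ Cf * (T * L) * (Cf / x) ^ (x / Cf) := by
          apply mul_le_mul_of_nonneg_right _ (Real.rpow_nonneg hq0.le _)
          apply mul_le_mul_of_nonneg_right _ h20
          linarith
      _ = _ := by ring

end LG
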