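import Pool.Agent.H382L.NoZero
import Pool.Agent.H382L.GapTail0

open Complex Filter Topology Set MeasureTheory

namespace LG

open SG (phi hh nn dd dl ord NZ zmult)
open SP

/-- long gaps are super-exponentially rare -/
theorem gap_tail (hRH : RHs) : ∃ C c0 T0 : ℝ, 1 ≤ C ∧ 0 < c0 ∧ 10 ≤ T0 ∧ ∀ T : ℝ, T0 ≤ T → ∀ x : ℝ,
    1 ≤ x → x ≤ c0 * Real.log T →
    ({n : ℕ | 1 ≤ n ∧ T ≤ ord n ∧ ord (n + 1) ≤ 2 * T ∧
        x * (2 * Real.pi / Real.log T) ≤ ord (n + 1) - ord n}.ncard : ℝ) ≤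
      C * (C / x) ^ (x / C) * (T * Real.log T) :=
  gap_tail_of W3_cont (no_zero hRH (1 / 4) (by norm_num) (by norm_num))

end LG
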