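import Pool.Agent.H382L.EFWm

open Complex Filter Topology Set MeasureTheory

namespace LG

open SG (phi hh nn dd dl)
open SP

namespace NoZero

/-- the real profile -/
noncomputable def w3 (l u : ℝ) : ℝ :=
  if |u| ≤ l then (1 - |u| / l) + Real.sin (2 * Real.pi * |u| / l) / (2 * Real.pi) else 0

theorem W3_eq (l u : ℝ) : W3 l u = ((w3 l u : ℝ) : ℂ) := rfl

theorem w3_cont {l : ℝ} (hl : 0 < l) : Continuous (w3 l) := by
  unfold w3
  refine Continuous.if_le ?_ continuous_const continuous_abs continuous_const ?_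
  · fun_prop
  · intro x hx
    rw [hx]
    have h1 : (2 * Real.pi * l / l) = 2 * Real.pi := by field_simp
    rw [h1, Real.sin_two_pi, div_self hl.ne']
    simp

theorem w3_val {l u : ℝ} (h0 : 0 ≤ u) (hu : u ≤ l) :
    w3 l u = (1 - u / l) + Real.sin (2 * Real.pi * u / l) / (2 * Real.pi) := by
  unfold w3
  rw [abs_of_nonneg h0, if_pos hu]

theorem w3_zero {l u : ℝ} (hl : 0 < l) (hu : l ≤ u) : w3 l u = 0 := by
  rcases eq_or_lt_of_le hu with h | h
  · rw [← h, w3_val hl.le le_rfl]
    have h1 : (2 * Real.pi * l / l) = 2 * Real.pi := by field_simp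
    rw [h1, Real.sin_two_pi, div_self hl.ne']
    simp
  · unfold w3
    rw [abs_of_pos (hl.trans h), if_neg (by linarith)]

theorem w3_abs {l : ℝ} (hl : 0 < l) (u : ℝ) : |w3 l u| ≤ 2 := by
  unfold w3
  split_ifs with h
  · have h1 : 0 ≤ |u| / l := by positivity
    have h2 : |u| / l ≤ 1 := (div_le_one hl).2 h
    have h3 : |1 - |u| / l| ≤ 1 := by
      rw [abs_of_nonneg (by linarith)]
      linarith
    have h4 : |Real.sin (2 * Real.pi * |u| / l) / (2 * Real.pi)| ≤ 1 := by
      rw [abs_div, abs_of_pos (by positivity : (0:ℝ) < 2 * Real.pi), div_le_one (by positivity)]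
      exact (Real.abs_sin_le_one _).trans (by linarith [Real.pi_gt_three])
    calc |1 - |u| / l + Real.sin (2 * Real.pi * |u| / l) / (2 * Real.pi)|
        ≤ |1 - |u| / l| + |Real.sin (2 * Real.pi * |u| / l) / (2 * Real.pi)| := abs_add_le _ _
      _ ≤ 2 := by linarith
  · simp

/-- the real part of the transform as a cosine transform -/
theorem re_int {l L x : ℝ} (hl : 0 < l) (hL : l ≤ L) :
    (∫ u in (0 : ℝ)..L, W3 l u * cexp (I * ((u * x : ℝ) : ℂ))).re =
      ∫ u in (0 : ℝ)..l, ((1 - u / l) + Real.sin (2 * Real.pi * u / l) / (2 * Real.pi)) *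
        Real.cos (u * x) := by
  have hint : ∀ a b : ℝ, IntervalIntegrable (fun u => W3 l u * cexp (I * ((u * x : ℝ) : ℂ)))
      volume a b := by
    intro a b
    apply Continuous.intervalIntegrable
    refine Continuous.mul (Complex.continuous_ofReal.comp (w3_cont hl)) ?_
    fun_prop
  have h1 := Complex.reCLM.intervalIntegral_comp_comm (hint 0 L)
  have h2 : ∀ u, Complex.reCLM (W3 l u * cexp (I * ((u * x : ℝ) : ℂ))) =
      w3 l u * Real.cos (u * x) := by
    intro u
    rw [Complex.reCLM_apply, W3_eq, Complex.re_ofReal_mul, mul_comm I,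
      Complex.exp_ofReal_mul_I_re]
  rw [Complex.reCLM_apply] at h1
  rw [← h1, intervalIntegral.integral_congr (fun u _ => h2 u)]
  have hint2 : ∀ a b : ℝ, IntervalIntegrable (fun u => w3 l u * Real.cos (u * x))
      volume a b := by
    intro a b
    apply Continuous.intervalIntegrable
    exact (w3_cont hl).mul (by fun_prop)
  rw [← intervalIntegral.integral_add_adjacent_intervals (hint2 0 l) (hint2 l L)]
  have h3 : ∫ u in l..L, w3 l u * Real.cos (u * x) = 0 := by
    apply intervalIntegral.integral_zero_ae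
    refine Filter.Eventually.of_forall fun u hu => ?_
    rw [uIoc_of_le hL] at hu
    rw [w3_zero hl hu.1.le]
    simp
  rw [h3, add_zero]
  refine intervalIntegral.integral_congr fun u hu => ?_
  rw [uIcc_of_le hl.le] at hu
  show w3 l u * Real.cos (u * x) = _
  rw [w3_val hu.1 hu.2]

/-- the triangle part -/
theorem int_tri {l x : ℝ} (hl : 0 < l) (hx : x ≠ 0) :
    ∫ u in (0 : ℝ)..l, (1 - u / l) * Real.cos (u * x) = (1 - Real.cos (l * x)) / (l * x ^ 2) := by
  have hd : ∀ u ∈ uIcc 0 l, HasDerivAt (fun u => (1 - u / l) * Real.sin (u * x) / x -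
      Real.cos (u * x) / (l * x ^ 2)) ((1 - u / l) * Real.cos (u * x)) u := by
    intro u _
    have h1 : HasDerivAt (fun u => 1 - u / l) (-(1 / l)) u := by
      simpa using ((hasDerivAt_id u).div_const l).const_sub 1
    have h2 : HasDerivAt (fun u => u * x) x u := by
      simpa using (hasDerivAt_id u).mul_const x
    have h3 : HasDerivAt (fun u => Real.sin (u * x)) (Real.cos (u * x) * x) u := h2.sin
    have h4 : HasDerivAt (fun u => Real.cos (u * x)) (-Real.sin (u * x) * x) u := h2.cos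
    have h5 := ((h1.mul h3).div_const x).sub (h4.div_const (l * x ^ 2))
    refine h5.congr_deriv ?_
    have hl0 := hl.ne'
    field_simp
    ring
  rw [intervalIntegral.integral_eq_sub_of_hasDerivAt hd
    (by apply Continuous.intervalIntegrable; fun_prop)]
  simp only [zero_mul, Real.sin_zero, Real.cos_zero, zero_div, sub_zero, mul_zero]
  rw [div_self hl.ne']
  have hl0 := hl.ne'
  field_simp
  ring

/-- the sine part, nonresonant case -/
theorem int_sin {l x a : ℝ} (hxa : a ^ 2 - x ^ 2 ≠ 0) :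
    ∫ u in (0 : ℝ)..l, Real.sin (a * u) * Real.cos (u * x) =
      (a - (a * Real.cos (a * l) * Real.cos (l * x) + x * Real.sin (a * l) * Real.sin (l * x))) /
        (a ^ 2 - x ^ 2) := by
  have hd : ∀ u ∈ uIcc 0 l, HasDerivAt (fun u => -(a * Real.cos (a * u) * Real.cos (u * x) +
      x * Real.sin (a * u) * Real.sin (u * x)) / (a ^ 2 - x ^ 2))
      (Real.sin (a * u) * Real.cos (u * x)) u := by
    intro u _
    have h2 : HasDerivAt (fun u => u * x) x u := by
      simpa using (hasDerivAt_id u).mul_const x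
    have h2' : HasDerivAt (fun u => a * u) a u := by
      simpa using (hasDerivAt_id u).const_mul a
    have h3 : HasDerivAt (fun u => Real.sin (u * x)) (Real.cos (u * x) * x) u := h2.sin
    have h4 : HasDerivAt (fun u => Real.cos (u * x)) (-Real.sin (u * x) * x) u := h2.cos
    have h3' : HasDerivAt (fun u => Real.sin (a * u)) (Real.cos (a * u) * a) u := h2'.sin
    have h4' : HasDerivAt (fun u => Real.cos (a * u)) (-Real.sin (a * u) * a) u := h2'.cos
    have h5 := (((h4'.const_mul a).mul h4).add ((h3'.const_mul x).mul h3)).neg.div_const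
      (a ^ 2 - x ^ 2)
    refine h5.congr_deriv ?_
    field_simp
    ring
  rw [intervalIntegral.integral_eq_sub_of_hasDerivAt hd
    (by apply Continuous.intervalIntegrable; fun_prop)]
  simp only [mul_zero, zero_mul, Real.sin_zero, Real.cos_zero, mul_one, add_zero]
  field_simp
  ring

/-- the sine part, resonant case -/
theorem int_sin' {l a : ℝ} (ha : a ≠ 0) :
    ∫ u in (0 : ℝ)..l, Real.sin (a * u) * Real.cos (u * a) = Real.sin (a * l) ^ 2 / (2 * a) := by
  have hd : ∀ u ∈ uIcc 0 l, HasDerivAt (fun u => Real.sin (a * u) ^ 2 / (2 * a))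
      (Real.sin (a * u) * Real.cos (u * a)) u := by
    intro u _
    have h2' : HasDerivAt (fun u => a * u) a u := by
      simpa using (hasDerivAt_id u).const_mul a
    have h3' : HasDerivAt (fun u => Real.sin (a * u)) (Real.cos (a * u) * a) u := h2'.sin
    have h5 := (h3'.pow 2).div_const (2 * a)
    refine h5.congr_deriv ?_
    norm_num
    field_simp
  rw [intervalIntegral.integral_eq_sub_of_hasDerivAt hd
    (by apply Continuous.intervalIntegrable; fun_prop)]
  simp

theorem cos_neg' {l x : ℝ} (hl : 0 < l) (hx : 2 * Real.pi / l ≤ |x|) :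
    ∫ u in (0 : ℝ)..l, ((1 - u / l) + Real.sin (2 * Real.pi * u / l) / (2 * Real.pi)) *
        Real.cos (u * x) ≤ 0 := by
  have hpi := Real.pi_pos
  set a : ℝ := 2 * Real.pi / l with ha
  have ha0 : 0 < a := by positivity
  have hal : a * l = 2 * Real.pi := by rw [ha]; field_simp
  have hx0 : x ≠ 0 := by
    intro h
    rw [h, abs_zero] at hx
    linarith
  have e1 : ∫ u in (0 : ℝ)..l, ((1 - u / l) + Real.sin (2 * Real.pi * u / l) / (2 * Real.pi)) *
        Real.cos (u * x) = (∫ u in (0 : ℝ)..l, (1 - u / l) * Real.cos (u * x)) +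
        (1 / (2 * Real.pi)) * ∫ u in (0 : ℝ)..l, Real.sin (a * u) * Real.cos (u * x) := by
    rw [← intervalIntegral.integral_const_mul, ← intervalIntegral.integral_add]
    · refine intervalIntegral.integral_congr fun u _ => ?_
      show _ = (1 - u / l) * Real.cos (u * x) + 1 / (2 * Real.pi) *
        (Real.sin (a * u) * Real.cos (u * x))
      have : 2 * Real.pi * u / l = a * u := by rw [ha]; ring
      rw [this]
      ring
    · apply Continuous.intervalIntegrable; fun_prop
    · apply Continuous.intervalIntegrable; fun_prop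
  rw [e1, int_tri hl hx0]
  rcases eq_or_lt_of_le hx with h | h
  · -- resonance
    have hc : Real.cos (l * x) = 1 := by
      rw [← Real.cos_abs, abs_mul, abs_of_pos hl, ← h, mul_comm, hal, Real.cos_two_pi]
    rw [hc]
    have h2 : ∫ u in (0 : ℝ)..l, Real.sin (a * u) * Real.cos (u * x) =
        ∫ u in (0 : ℝ)..l, Real.sin (a * u) * Real.cos (u * a) := by
      refine intervalIntegral.integral_congr fun u _ => ?_
      show Real.sin (a * u) * Real.cos (u * x) = Real.sin (a * u) * Real.cos (u * a)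
      rcases abs_choice x with h3 | h3
      · rw [h, h3]
      · rw [h, h3, mul_neg, Real.cos_neg]
    rw [h2, int_sin' ha0.ne', hal, Real.sin_two_pi]
    simp
  · have h2 : a ^ 2 - x ^ 2 < 0 := by
      have := pow_lt_pow_left₀ h ha0.le (n := 2) (by norm_num)
      rw [sq_abs] at this
      linarith
    rw [int_sin h2.ne, hal, Real.cos_two_pi, Real.sin_two_pi]
    have h3 : (1 - Real.cos (l * x)) / (l * x ^ 2) + 1 / (2 * Real.pi) *
        ((a - (a * 1 * Real.cos (l * x) + x * 0 * Real.sin (l * x))) / (a ^ 2 - x ^ 2)) =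
        (1 - Real.cos (l * x)) / l * (a ^ 2 / (x ^ 2 * (a ^ 2 - x ^ 2))) := by
      have h4 : (2 * Real.pi) = a * l := hal.symm
      rw [h4]
      have h5 := h2.ne
      have hl0 := hl.ne'
      have ha1 := ha0.ne'
      field_simp
      ring
    rw [h3]
    have h4 : 0 ≤ (1 - Real.cos (l * x)) / l := by
      have := Real.cos_le_one (l * x)
      apply div_nonneg <;> linarith
    have h5 : a ^ 2 / (x ^ 2 * (a ^ 2 - x ^ 2)) ≤ 0 := by
      apply div_nonpos_of_nonneg_of_nonpos (by positivity)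
      exact mul_nonpos_of_nonneg_of_nonpos (by positivity) h2.le
    exact mul_nonpos_of_nonneg_of_nonpos h4 h5

end NoZero

theorem W3_cont (l : ℝ) (hl : 0 < l) : Continuous (W3 l) ∧ ∀ u, ‖W3 l u‖ ≤ 2 := by
  refine ⟨Complex.continuous_ofReal.comp (NoZero.w3_cont hl), fun u => ?_⟩
  rw [NoZero.W3_eq, Complex.norm_real, Real.norm_eq_abs]
  exact NoZero.w3_abs hl u

/-- the transform of `W3` is `(ℓ/2) (sin πv/πv)²/(1-v²)`, `v = ℓx/2π`, hence `≤ 0` for `|v| ≥ 1` -/
theorem W3_neg (l x : ℝ) (hl : 0 < l) (hx : 2 * Real.pi / l ≤ |x|) :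
    (∫ u in (0 : ℝ)..l, W3 l u * cexp (I * ((u * x : ℝ) : ℂ))).re ≤ 0 := by
  rw [NoZero.re_int hl le_rfl]
  exact NoZero.cos_neg' hl hx

namespace NoZero

theorem ZZ_finite {T : ℝ} (hT : 1 ≤ T) : (ZZ T).Finite :=
  H370.zset_finite H370.good_zeta T (2 * T) hT

theorem zs_eq {T : ℝ} (hT : 1 ≤ T) (t : ℝ) (W : ℝ → ℂ) : zs T t W =
    ∑ s ∈ (ZZ_finite hT).toFinset, (mu s : ℂ) * (Real.exp (-(s.im - t) ^ 2 / 2) : ℂ) *
    ∫ u in (0 : ℝ)..Real.log T, W u * cexp (I * ((u * (s.im - t) : ℝ) : ℂ)) :=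
  finsum_mem_eq_finite_toFinset_sum _ (ZZ_finite hT)

/-- Gaussian mass of the profile -/
noncomputable def GG3 (l : ℝ) : ℝ := ∫ u in Set.Ioi (0 : ℝ), w3 l u * Real.exp (-u ^ 2 / 2)

theorem gauss_int {l L : ℝ} (hl : 0 < l) (hL : l ≤ L) :
    ∫ u in (0 : ℝ)..L, W3 l u * (Real.exp (-u ^ 2 / 2) : ℂ) = ((GG3 l : ℝ) : ℂ) := by
  have h1 : ∀ u : ℝ, W3 l u * (Real.exp (-u ^ 2 / 2) : ℂ) =
      ((w3 l u * Real.exp (-u ^ 2 / 2) : ℝ) : ℂ) := by
    intro u
    rw [W3_eq]
    push_cast
    rfl
  rw [intervalIntegral.integral_congr (fun u _ => h1 u), intervalIntegral.integral_ofReal]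
  congr 1
  rw [intervalIntegral.integral_of_le (hl.le.trans hL)]
  unfold GG3
  refine (setIntegral_eq_of_subset_of_forall_diff_eq_zero measurableSet_Ioi
    (fun x hx => hx.1) ?_).symm
  intro x hx
  have hx1 : L < x := by
    by_contra h
    exact hx.2 ⟨hx.1, not_lt.1 h⟩
  rw [w3_zero hl (hL.trans hx1.le), zero_mul]

theorem GG3_tendsto : Tendsto GG3 atTop (𝓝 (Real.sqrt (2 * Real.pi) / 2)) := by
  have h0 : ∫ u in Set.Ioi (0 : ℝ), Real.exp (-u ^ 2 / 2) = Real.sqrt (2 * Real.pi) / 2 := by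
    have := integral_gaussian_Ioi (1 / 2)
    rw [show Real.pi / (1 / 2) = 2 * Real.pi by ring] at this
    rw [← this]
    refine setIntegral_congr_fun measurableSet_Ioi fun u _ => ?_
    show Real.exp _ = Real.exp _
    congr 1
    ring
  rw [← h0]
  unfold GG3
  refine tendsto_integral_filter_of_dominated_convergence
    (fun u => 2 * Real.exp (-u ^ 2 / 2)) ?_ ?_ ?_ ?_
  · filter_upwards [eventually_gt_atTop 0] with l hl
    exact ((w3_cont hl).mul (by fun_prop)).aestronglyMeasurable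
  · filter_upwards [eventually_gt_atTop 0] with l hl
    refine Filter.Eventually.of_forall fun u => ?_
    rw [Real.norm_eq_abs, abs_mul, abs_of_pos (Real.exp_pos _)]
    exact mul_le_mul_of_nonneg_right (w3_abs hl u) (Real.exp_pos _).le
  · refine Integrable.const_mul ?_ 2
    have h1 : Integrable (fun u : ℝ => Real.exp (-(1 / 2) * u ^ 2)) :=
      integrable_exp_neg_mul_sq (by norm_num)
    refine Integrable.congr h1.restrict (Filter.Eventually.of_forall fun u => ?_)
    show Real.exp _ = Real.exp _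
    congr 1
    ring
  · refine (ae_restrict_iff' measurableSet_Ioi).2 (Filter.Eventually.of_forall fun u hu => ?_)
    have h1 : Tendsto (fun l : ℝ => ((1 - u / l) + Real.sin (2 * Real.pi * u / l) / (2 * Real.pi)) *
        Real.exp (-u ^ 2 / 2)) atTop (𝓝 (((1 - 0) + Real.sin 0 / (2 * Real.pi)) *
        Real.exp (-u ^ 2 / 2))) := by
      have h2 : Tendsto (fun l : ℝ => u / l) atTop (𝓝 0) := tendsto_const_nhds.div_atTop tendsto_id
      have h3 : Tendsto (fun l : ℝ => 2 * Real.pi * u / l) atTop (𝓝 0) :=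
        tendsto_const_nhds.div_atTop tendsto_id
      exact ((tendsto_const_nhds.sub h2).add (((Real.continuous_sin.tendsto 0).comp h3).div_const
        _)).mul_const _
    rw [Real.sin_zero] at h1
    simp only [sub_zero, zero_div, add_zero, one_mul] at h1
    refine h1.congr' ?_
    filter_upwards [eventually_ge_atTop u] with l hl
    have hu' : (0 : ℝ) < u := hu
    rw [w3_val hu'.le hl]

theorem GG3_low : ∃ l0 : ℝ, 0 < l0 ∧ ∀ l : ℝ, l0 ≤ l →
    9 / 20 * Real.sqrt (2 * Real.pi) ≤ GG3 l := by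
  have h1 : 9 / 20 * Real.sqrt (2 * Real.pi) < Real.sqrt (2 * Real.pi) / 2 := by
    have : 0 < Real.sqrt (2 * Real.pi) := Real.sqrt_pos.2 (by positivity)
    linarith
  obtain ⟨l0, h⟩ := Filter.eventually_atTop.1 (GG3_tendsto.eventually (lt_mem_nhds h1))
  exact ⟨max l0 1, by positivity, fun l hl => (h l ((le_max_left _ _).trans hl)).le⟩

end NoZero

theorem no_zero (hRH : RHs) (κ : ℝ) (hκ : 0 < κ) (hκ1 : κ < 1 / 2) :
    ∃ (k0 : ℕ) (c0 T0 : ℝ), 1 ≤ k0 ∧ 0 < c0 ∧ 10 ≤ T0 ∧ ∀ T : ℝ, T0 ≤ T → ∀ t : ℝ,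
    T + Real.log T ≤ t → t ≤ 2 * T - Real.log T → ∀ k : ℕ, k0 ≤ k → (k : ℝ) ≤ c0 * Real.log T →
    (∀ s ∈ ZZ T, 4 * Real.pi * k / ((1 - κ) * Real.log T) ≤ |s.im - t|) →
    1 / 4 ≤ ‖Q3 κ T k t‖ := by
  obtain ⟨C1, T1, hC1, hT1, h1⟩ := EFWm hRH
  obtain ⟨C2, hC2, h2⟩ := prime_part2
  obtain ⟨l0, hl0, hl0'⟩ := NoZero.GG3_low
  refine ⟨⌈10 * C2⌉₊ + 1, (1 - κ) / (2 * l0), max T1 (Real.exp (10 * (2 * C1 + C2))),
    by omega, by have : 0 < 1 - κ := by linarith
                 positivity, hT1.trans (le_max_left _ _), ?_⟩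
  intro T hT t ht1 ht2 k hk hkc hz
  have hTT1 : T1 ≤ T := (le_max_left _ _).trans hT
  have hT10 : 10 ≤ T := hT1.trans hTT1
  have hL : 0 < Real.log T := Real.log_pos (by linarith)
  have hk1 : 1 ≤ k := by omega
  have hk0 : (0 : ℝ) < k := by exact_mod_cast hk1
  have hkC : 10 * C2 ≤ k := by
    have h3 := Nat.le_ceil (10 * C2)
    have h4 : ((⌈10 * C2⌉₊ + 1 : ℕ) : ℝ) ≤ k := by exact_mod_cast hk
    push_cast at h4
    linarith
  have hκ' : 0 < 1 - κ := by linarith
  have hLC : 10 * (2 * C1 + C2) ≤ Real.log T := by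
    rw [Real.le_log_iff_exp_le (by linarith)]
    exact (le_max_right _ _).trans hT
  have hl : 0 < ell κ T k := by
    unfold ell
    positivity
  have hlk : ell κ T k ≤ Real.log T / k := by
    unfold ell
    rw [div_le_div_iff₀ (by positivity) hk0]
    nlinarith [mul_pos hL hk0]
  have hlL : ell κ T k ≤ Real.log T := by
    refine hlk.trans ?_
    rw [div_le_iff₀ hk0]
    have : (1 : ℝ) ≤ k := by exact_mod_cast hk1
    nlinarith
  have hl0l : l0 ≤ ell κ T k := by
    unfold ell
    rw [le_div_iff₀ (by positivity)]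
    rw [div_mul_eq_mul_div, le_div_iff₀ (by positivity)] at hkc
    linarith
  have hGl := hl0' _ hl0l
  have hw := W3_cont (ell κ T k) hl
  have e1 := h1 T hTT1 t ht1 ht2 (W3 (ell κ T k)) 2 hw.1 (fun u _ => hw.2 u)
  have e2 := h2 T hT10 t (ell κ T k) hl hlL (W3 (ell κ T k)) hw.1 (fun u _ => hw.2 u)
    (fun u hu => by rw [NoZero.W3_eq, NoZero.w3_zero hl hu, Complex.ofReal_zero])
  rw [NoZero.gauss_int hl hlL] at e1
  -- the zero side
  have e3 : (zs T t (W3 (ell κ T k))).re ≤ 0 := by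
    rw [NoZero.zs_eq (by linarith), Complex.re_sum]
    refine Finset.sum_nonpos fun s hs => ?_
    rw [Set.Finite.mem_toFinset] at hs
    have e3 : (mu s : ℂ) * (Real.exp (-(s.im - t) ^ 2 / 2) : ℂ) =
        (((mu s : ℝ) * Real.exp (-(s.im - t) ^ 2 / 2) : ℝ) : ℂ) := by push_cast; rfl
    rw [e3, Complex.re_ofReal_mul, NoZero.re_int hl hlL]
    refine mul_nonpos_of_nonneg_of_nonpos (by positivity) (NoZero.cos_neg' hl ?_)
    refine le_trans (le_of_eq ?_) (hz s hs)
    unfold ell
    field_simp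
    ring
  -- main term
  have e4 : 9 / 20 * Real.log T ≤ (((Real.log T / Real.sqrt (2 * Real.pi) : ℝ) : ℂ) *
      ((NoZero.GG3 (ell κ T k) : ℝ) : ℂ)).re := by
    rw [← Complex.ofReal_mul, Complex.ofReal_re]
    have h3 : 0 < Real.sqrt (2 * Real.pi) := Real.sqrt_pos.2 (by positivity)
    calc 9 / 20 * Real.log T = Real.log T / Real.sqrt (2 * Real.pi) *
          (9 / 20 * Real.sqrt (2 * Real.pi)) := by field_simp
      _ ≤ _ := mul_le_mul_of_nonneg_left hGl (by positivity)
  have e5 := (abs_le.1 ((Complex.abs_re_le_norm _).trans e1)).1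
  have e6 := (abs_le.1 ((Complex.abs_re_le_norm _).trans e2)).2
  rw [Complex.sub_re, Complex.add_re] at e5
  rw [Complex.sub_re] at e6
  have e7 : ((Real.log T : ℂ) * QW T t (ell κ T k) (W3 (ell κ T k))).re ≤
      Real.log T * ‖QW T t (ell κ T k) (W3 (ell κ T k))‖ := by
    refine (Complex.re_le_norm _).trans ?_
    rw [norm_mul, Complex.norm_real, Real.norm_eq_abs, abs_of_pos hL]
  have e8 : C2 * ell κ T k ≤ Real.log T / 10 := by
    calc C2 * ell κ T k ≤ C2 * (Real.log T / k) := mul_le_mul_of_nonneg_left hlk hC2.le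
      _ ≤ Real.log T / 10 := by
        rw [mul_div_assoc', div_le_div_iff₀ hk0 (by norm_num)]
        nlinarith
  have e9 : Real.log T * (1 / 4) ≤ Real.log T * ‖QW T t (ell κ T k) (W3 (ell κ T k))‖ := by
    nlinarith
  exact le_of_mul_le_mul_left e9 hL

end LG
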