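import Pool.Agent.H382L.GapTail0
import Pool.Agent.H382L.NoZero

/-! Long gaps are rare: the version without condition on the right end point. -/

open Complex Filter Topology Set MeasureTheory

namespace LG

open SG (phi hh nn dd dl ord NZ zmult)
open SP

open GapAux in
theorem gap_tail_gen0 (hW : ∀ l : ℝ, 0 < l → Continuous (W3 l) ∧ ∀ u, ‖W3 l u‖ ≤ 2)
    (hNo : ∃ (k0 : ℕ) (c0 T0 : ℝ), 1 ≤ k0 ∧ 0 < c0 ∧ 10 ≤ T0 ∧ NoZ (1 / 4) k0 c0 T0) :
    ∃ C c0 T0 : ℝ, 1 ≤ C ∧ 0 < c0 ∧ 10 ≤ T0 ∧ ∀ T : ℝ, T0 ≤ T → ∀ x : ℝ,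
    1 ≤ x → x ≤ c0 * Real.log T →
    ({n : ℕ | 1 ≤ n ∧ T ≤ ord n ∧ ord n + x * (2 * Real.pi / Real.log T) ≤ 2 * T ∧
        x * (2 * Real.pi / Real.log T) ≤ ord (n + 1) - ord n}.ncard : ℝ) ≤
      C * (C / x) ^ (x / C) * (T * Real.log T) := by
  classical
  obtain ⟨k0, c0, T0, hk0, hc0, hT0, hNoZ⟩ := hNo
  obtain ⟨C, T1, hC, hT1, hblock⟩ := block (1 / 4) (by norm_num) (by norm_num) hW k0 c0 T0 hk0 hNoZ
  obtain ⟨C2, T2, hC2, hT2, hNZ⟩ := NZ_up
  -- constants
  set Cf : ℝ := max (max (max (64 * k0) (64 * C)) C2) 64 with hCf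
  have hCf1 : 64 * (k0 : ℝ) ≤ Cf := ((le_max_left _ _).trans (le_max_left _ _)).trans (le_max_left _ _)
  have hCf2 : 64 * C ≤ Cf := ((le_max_right _ _).trans (le_max_left _ _)).trans (le_max_left _ _)
  have hCf3 : C2 ≤ Cf := (le_max_right _ _).trans (le_max_left _ _)
  have hCf4 : 64 ≤ Cf := le_max_right _ _
  have hCf0 : 0 < Cf := by linarith
  obtain ⟨T4, hT4⟩ := (Real.isLittleO_log_id_atTop.tendsto_div_nhds_zero.eventually
    (gt_mem_nhds (show (0 : ℝ) < 1 / 100 by norm_num))).exists_forall_of_atTop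
  set TT : ℝ := max (max (2 * T1) T2) (max (2 * |T4|) 1000) with hTT
  refine ⟨Cf, min (16 * c0) (1 / 7), TT, by linarith, lt_min (by positivity) (by norm_num), ?_, ?_⟩
  · exact le_trans (by norm_num) ((le_max_right _ _).trans (le_max_right _ _))
  intro T hT x hx1 hxc
  have hTa : 2 * T1 ≤ T := ((le_max_left _ _).trans (le_max_left _ _)).trans hT
  have hTb : T2 ≤ T := ((le_max_right _ _).trans (le_max_left _ _)).trans hT
  have hTc : 2 * |T4| ≤ T := ((le_max_left _ _).trans (le_max_right _ _)).trans hT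
  have hTd : 1000 ≤ T := ((le_max_right _ _).trans (le_max_right _ _)).trans hT
  have hTpos : 0 < T := by linarith
  set L : ℝ := Real.log T with hLdef
  have hL1 : 1 ≤ L := by
    rw [hLdef, Real.le_log_iff_exp_le hTpos]
    have := Real.exp_one_lt_d9
    linarith
  have hx0 : 0 < x := by linarith
  have hxc1 : x ≤ 16 * c0 * L := hxc.trans (mul_le_mul_of_nonneg_right (min_le_left _ _) (by linarith))
  have hxc2 : x ≤ 1 / 7 * L := hxc.trans (mul_le_mul_of_nonneg_right (min_le_right _ _) (by linarith))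
  set S : Set ℕ := {n : ℕ | 1 ≤ n ∧ T ≤ ord n ∧ ord n + x * (2 * Real.pi / L) ≤ 2 * T ∧
        x * (2 * Real.pi / L) ≤ ord (n + 1) - ord n} with hS
  have hxpos : 0 ≤ x * (2 * Real.pi / L) := by
    have := Real.pi_pos
    positivity
  have hSfin : S.Finite := by
    apply fin_ord (2 * T)
    intro n hn
    exact ⟨hn.1, by linarith [hn.2.2.1]⟩
  have hpi3 := Real.pi_gt_three
  have hpi4 := Real.pi_lt_four
  by_cases hxC : x ≤ Cf
  · -- trivial bound
    have h1 : S.ncard ≤ NZ (2 * T) := by
      have h2 : S ⊆ Set.Icc 1 (NZ (2 * T)) := by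
        intro n hn
        refine ⟨hn.1, ?_⟩
        apply (SG.ord_le_iff hn.1 _).mp
        linarith [hn.2.2.1]
      calc S.ncard ≤ (Set.Icc 1 (NZ (2 * T))).ncard := Set.ncard_le_ncard h2 (Set.finite_Icc _ _)
        _ = NZ (2 * T) := by
          rw [← Finset.coe_Icc, Set.ncard_coe_finset, Nat.card_Icc]
          omega
    have h3 : (S.ncard : ℝ) ≤ C2 * (T * L) := by
      have := hNZ T hTb
      have h4 : (S.ncard : ℝ) ≤ NZ (2 * T) := by exact_mod_cast h1
      linarith
    refine h3.trans ?_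
    have h5 : 1 ≤ (Cf / x) ^ (x / Cf) := by
      apply Real.one_le_rpow
      · rw [le_div_iff₀ hx0]; linarith
      · positivity
    have h6 : 0 ≤ T * L := by positivity
    apply mul_le_mul_of_nonneg_right _ h6
    nlinarith
  · push Not at hxC
    set k : ℕ := ⌊x / 32⌋₊ with hk
    have hk1 : (k : ℝ) ≤ x / 32 := Nat.floor_le (by positivity)
    have hk2 : x / 32 < k + 1 := Nat.lt_floor_add_one _
    have hk3 : x / 64 ≤ k := by linarith
    have hkk : k0 ≤ k := by
      apply Nat.le_floor
      rw [le_div_iff₀ (by norm_num)]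
      have : (0 : ℝ) ≤ k0 := Nat.cast_nonneg _
      linarith
    have hkpos : (0 : ℝ) < k := by linarith
    set H : ℝ := x * (2 * Real.pi / L) with hH
    have hH0 : 0 < H := by positivity
    have hH1 : H ≤ 8 / 7 := by
      rw [hH]
      have : x * (2 * Real.pi / L) = (x / L) * (2 * Real.pi) := by ring
      rw [this]
      have h1 : x / L ≤ 1 / 7 := by
        rw [div_le_iff₀ (by linarith)]
        exact hxc2
      have h2 : 0 ≤ x / L := by positivity
      nlinarith
    -- block bound
    have key : ∀ r : ℝ, 7 / 10 ≤ r → r ≤ 13 / 10 → ∀ F : Finset ℕ,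
        (∀ n ∈ F, 1 ≤ n ∧ r * T + Real.log (r * T) ≤ ord n ∧
          ord n + H ≤ 2 * (r * T) - Real.log (r * T) ∧ H ≤ ord (n + 1) - ord n) →
        (F.card : ℝ) ≤ 2 * (T * L) * (C / k) ^ k := by
      intro r hr1 hr2 F hF
      have hrT : T1 ≤ r * T := by nlinarith
      have hrT0 : 0 < r * T := by positivity
      have hlog2 : Real.log T ≤ 2 * Real.log (r * T) := by
        have h1 : T ≤ (r * T) ^ 2 := by nlinarith
        have h2 := Real.log_le_log hTpos h1
        rw [Real.log_pow] at h2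
        push_cast at h2
        exact h2
      have hlogpos : 0 < Real.log (r * T) := by linarith
      have h3 := hblock (r * T) hrT k H hkk ?_ hH0 ?_ F hF
      · have h4 : 0 ≤ (C / k : ℝ) ^ k := by positivity
        have h5 : (F.card : ℝ) * H ≤ 8 * (13 / 10 * T) * (C / k) ^ k := by
          refine h3.trans (mul_le_mul_of_nonneg_right ?_ h4)
          nlinarith
        have h6 : 384 / L ≤ H := by
          rw [hH, div_le_iff₀ (by linarith)]
          have : x * (2 * Real.pi / L) * L = x * (2 * Real.pi) := by field_simp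
          rw [this]
          nlinarith
        have h7 : (F.card : ℝ) * (384 / L) ≤ (F.card : ℝ) * H :=
          mul_le_mul_of_nonneg_left h6 (Nat.cast_nonneg _)
        have h8 : (F.card : ℝ) * (384 / L) ≤ 8 * (13 / 10 * T) * (C / k) ^ k := h7.trans h5
        have h9 : (F.card : ℝ) * (384 / L) * L = (F.card : ℝ) * 384 := by field_simp
        have h10 := mul_le_mul_of_nonneg_right h8 (show 0 ≤ L by linarith)
        rw [h9] at h10
        have h11 : 0 ≤ T * L * (C / k) ^ k := by positivity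
        nlinarith
      · calc (k : ℝ) ≤ x / 32 := hk1
          _ ≤ c0 * L / 2 := by linarith
          _ ≤ c0 * Real.log (r * T) := by nlinarith
      · rw [div_le_iff₀ (by nlinarith)]
        rw [hH]
        have h12 : 16 * Real.pi * k ≤ Real.pi * x / 2 := by nlinarith
        have h13 : Real.pi * x / 2 ≤ x * (2 * Real.pi / L) * ((1 - 1 / 4) * Real.log (r * T)) := by
          have h14 : x * (2 * Real.pi / L) * ((1 - 1 / 4) * Real.log (r * T)) =
              (3 / 2 * Real.pi * x) * (Real.log (r * T) / L) := by ring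
          rw [h14]
          have h15 : 1 / 2 ≤ Real.log (r * T) / L := by
            rw [le_div_iff₀ (by linarith)]
            linarith
          have h16 : 0 ≤ 3 / 2 * Real.pi * x := by positivity
          nlinarith
        linarith
    -- split
    set F1 : Finset ℕ := hSfin.toFinset.filter
      (fun n => ord n + H ≤ 2 * (7 / 10 * T) - Real.log (7 / 10 * T)) with hF1
    set F2 : Finset ℕ := hSfin.toFinset.filter
      (fun n => ¬ (ord n + H ≤ 2 * (7 / 10 * T) - Real.log (7 / 10 * T))) with hF2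
    have hcard : S.ncard = F1.card + F2.card := by
      rw [Set.ncard_eq_toFinset_card S hSfin, hF1, hF2, Finset.card_filter_add_card_filter_not]
    have hlogT : L ≤ T / 100 := by
      have h1 := hT4 T (by
        have := le_abs_self T4
        have := abs_nonneg T4
        linarith)
      simp only [id] at h1
      rw [div_lt_iff₀ hTpos] at h1
      linarith
    have hlog7 : Real.log (7 / 10 * T) ≤ L := Real.log_le_log (by positivity) (by linarith)
    have hlog13 : Real.log (13 / 10 * T) ≤ L + 1 := by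
      rw [Real.log_mul (by norm_num) hTpos.ne']
      have := Real.log_le_sub_one_of_pos (show (0 : ℝ) < 13 / 10 by norm_num)
      linarith
    have hb1 : (F1.card : ℝ) ≤ 2 * (T * L) * (C / k) ^ k := by
      apply key (7 / 10) le_rfl (by norm_num)
      intro n hn
      rw [hF1, Finset.mem_filter, Set.Finite.mem_toFinset] at hn
      obtain ⟨⟨a1, a2, a3, a4⟩, a5⟩ := hn
      exact ⟨a1, by linarith, a5, a4⟩
    have hb2 : (F2.card : ℝ) ≤ 2 * (T * L) * (C / k) ^ k := by
      apply key (13 / 10) (by norm_num) le_rfl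
      intro n hn
      rw [hF2, Finset.mem_filter, Set.Finite.mem_toFinset] at hn
      obtain ⟨⟨a1, a2, a3, a4⟩, a5⟩ := hn
      push Not at a5
      exact ⟨a1, by linarith, by linarith, a4⟩
    have htot : (S.ncard : ℝ) ≤ 4 * (T * L) * (C / k) ^ k := by
      rw [hcard]
      push_cast
      linarith
    refine htot.trans ?_
    -- final comparison
    have hbase0 : 0 < C / k := by positivity
    have hbase1 : C / k ≤ Cf / x := by
      rw [div_le_div_iff₀ hkpos hx0]
      nlinarith
    have hbase2 : Cf / x ≤ 1 := by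
      rw [div_le_iff₀ hx0]
      linarith
    have hq0 : 0 < Cf / x := by positivity
    have hp1 : (C / k : ℝ) ^ k ≤ (Cf / x) ^ k := pow_le_pow_left₀ hbase0.le hbase1 k
    have hp2 : (Cf / x : ℝ) ^ k ≤ (Cf / x) ^ (x / Cf) := by
      rw [← Real.rpow_natCast]
      apply Real.rpow_le_rpow_of_exponent_ge hq0 hbase2
      refine le_trans ?_ hk3
      apply div_le_div_of_nonneg_left hx0.le (by norm_num) hCf4
    have h20 : 0 ≤ T * L := by positivity
    calc 4 * (T * L) * (C / k) ^ k ≤ 4 * (T * L) * (Cf / x) ^ (x / Cf) := by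
          apply mul_le_mul_of_nonneg_left (hp1.trans hp2) (by positivity)
      _ ≤ Cf * (T * L) * (Cf / x) ^ (x / Cf) := by
          apply mul_le_mul_of_nonneg_right _ (Real.rpow_nonneg hq0.le _)
          apply mul_le_mul_of_nonneg_right _ h20
          linarith
      _ = _ := by ring


/-- long gaps are super-exponentially rare (no condition on the right end point of the gap) -/
theorem gap_tail_gen (hRH : RHs) : ∃ C c0 T0 : ℝ, 1 ≤ C ∧ 0 < c0 ∧ 10 ≤ T0 ∧ ∀ T : ℝ, T0 ≤ T →
    ∀ x : ℝ, 1 ≤ x → x ≤ c0 * Real.log T →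
    ({n : ℕ | 1 ≤ n ∧ T ≤ ord n ∧ ord n + x * (2 * Real.pi / Real.log T) ≤ 2 * T ∧
        x * (2 * Real.pi / Real.log T) ≤ ord (n + 1) - ord n}.ncard : ℝ) ≤
      C * (C / x) ^ (x / C) * (T * Real.log T) :=
  gap_tail_gen0 W3_cont (no_zero hRH (1 / 4) (by norm_num) (by norm_num))

end LG
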