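import Pool.Agent.H382L.Defs

set_option autoImplicit false

open Filter Topology

namespace LG
namespace Ideal

/-! ### power sums -/

lemma pow_diff {a b : ℝ} (ha : 0 ≤ a) (hab : a ≤ b) (k : ℕ) :
    ((k : ℝ) + 1) * a ^ k * (b - a) ≤ b ^ (k + 1) - a ^ (k + 1) ∧
      b ^ (k + 1) - a ^ (k + 1) ≤ ((k : ℝ) + 1) * b ^ k * (b - a) := by
  have hb : 0 ≤ b := ha.trans hab
  have hd : 0 ≤ b - a := sub_nonneg.2 hab
  induction k with
  | zero => simp
  | succ k ih =>
    obtain ⟨h1, h2⟩ := ih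
    have e : b ^ (k + 1 + 1) - a ^ (k + 1 + 1) =
        b * (b ^ (k + 1) - a ^ (k + 1)) + a ^ (k + 1) * (b - a) := by ring
    have hak : 0 ≤ a ^ k := by positivity
    have hbk : 0 ≤ b ^ k := by positivity
    have hpow : a ^ (k + 1) ≤ b ^ (k + 1) := by gcongr
    rw [e]
    push_cast
    constructor
    · have h3 : b * (((k : ℝ) + 1) * a ^ k * (b - a)) ≤ b * (b ^ (k + 1) - a ^ (k + 1)) :=
        mul_le_mul_of_nonneg_left h1 hb
      have h4 : a * (((k : ℝ) + 1) * a ^ k * (b - a)) ≤ b * (((k : ℝ) + 1) * a ^ k * (b - a)) :=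
        mul_le_mul_of_nonneg_right hab (by positivity)
      calc ((k : ℝ) + 1 + 1) * a ^ (k + 1) * (b - a)
          = a * (((k : ℝ) + 1) * a ^ k * (b - a)) + a ^ (k + 1) * (b - a) := by ring
        _ ≤ _ := by linarith
    · have h3 : b * (b ^ (k + 1) - a ^ (k + 1)) ≤ b * (((k : ℝ) + 1) * b ^ k * (b - a)) :=
        mul_le_mul_of_nonneg_left h2 hb
      have h4 : a ^ (k + 1) * (b - a) ≤ b ^ (k + 1) * (b - a) :=
        mul_le_mul_of_nonneg_right hpow hd
      calc b * (b ^ (k + 1) - a ^ (k + 1)) + a ^ (k + 1) * (b - a)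
          ≤ b * (((k : ℝ) + 1) * b ^ k * (b - a)) + b ^ (k + 1) * (b - a) := by linarith
        _ = _ := by ring

/-- power sums -/
noncomputable def ps (k M : ℕ) : ℝ := ∑ j ∈ Finset.Icc 1 M, (j : ℝ) ^ k

lemma ps_succ (k M : ℕ) : ps k (M + 1) = ps k M + ((M : ℝ) + 1) ^ k := by
  unfold ps
  rw [Finset.sum_Icc_succ_top (by omega)]
  push_cast
  ring

lemma ps_bounds (k M : ℕ) :
    (M : ℝ) ^ (k + 1) / ((k : ℝ) + 1) ≤ ps k M ∧
      ps k M ≤ (M : ℝ) ^ (k + 1) / ((k : ℝ) + 1) + (M : ℝ) ^ k := by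
  have hk : (0 : ℝ) < (k : ℝ) + 1 := by positivity
  induction M with
  | zero =>
    simp [ps]
  | succ M ih =>
    obtain ⟨h1, h2⟩ := ih
    obtain ⟨h3, h4⟩ := pow_diff (a := (M : ℝ)) (b := (M : ℝ) + 1) (by positivity) (by linarith) k
    rw [add_sub_cancel_left, mul_one] at h3 h4
    rw [ps_succ]
    push_cast
    rw [div_le_iff₀ hk] at h1
    have h2' : ps k M * ((k : ℝ) + 1) ≤ (M : ℝ) ^ (k + 1) + (M : ℝ) ^ k * ((k : ℝ) + 1) := by
      have := mul_le_mul_of_nonneg_right h2 hk.le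
      rw [add_mul, div_mul_cancel₀ _ hk.ne'] at this
      exact this
    constructor
    · rw [div_le_iff₀ hk]
      nlinarith
    · rw [← sub_le_iff_le_add, le_div_iff₀ hk]
      nlinarith

lemma tendsto_pow_sum (k : ℕ) (hk : 1 ≤ k) :
    Tendsto (fun B : ℕ => (∑ n ∈ Finset.range (B + 1), (n : ℝ) ^ k) / (B : ℝ) ^ (k + 1)) atTop
      (𝓝 (1 / ((k : ℝ) + 1))) := by
  have e : ∀ B : ℕ, ∑ n ∈ Finset.range (B + 1), (n : ℝ) ^ k = ps k B := by
    intro B
    unfold ps
    rw [Finset.range_eq_Ico, Finset.sum_eq_sum_Ico_succ_bot (by omega)]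
    have : ((0 : ℕ) : ℝ) ^ k = 0 := by
      rw [Nat.cast_zero, zero_pow (by omega)]
    rw [this, zero_add]
    rfl
  simp only [e]
  have hk0 : (0 : ℝ) < (k : ℝ) + 1 := by positivity
  have hinv : Tendsto (fun B : ℕ => 1 / ((k : ℝ) + 1) + 1 / (B : ℝ)) atTop
      (𝓝 (1 / ((k : ℝ) + 1) + 0)) :=
    tendsto_const_nhds.add tendsto_one_div_atTop_nhds_zero_nat
  rw [add_zero] at hinv
  refine tendsto_of_tendsto_of_tendsto_of_le_of_le' tendsto_const_nhds hinv ?_ ?_
  · filter_upwards [eventually_ge_atTop 1] with B hB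
    have hB0 : (0 : ℝ) < B := by exact_mod_cast hB
    rw [le_div_iff₀ (by positivity)]
    have := (ps_bounds k B).1
    rw [div_eq_mul_one_div] at this
    linarith
  · filter_upwards [eventually_ge_atTop 1] with B hB
    have hB0 : (0 : ℝ) < B := by exact_mod_cast hB
    rw [div_le_iff₀ (by positivity)]
    have := (ps_bounds k B).2
    have e2 : (1 / ((k : ℝ) + 1) + 1 / (B : ℝ)) * (B : ℝ) ^ (k + 1) =
        (B : ℝ) ^ (k + 1) / ((k : ℝ) + 1) + (B : ℝ) ^ k := by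
      rw [pow_succ]
      field_simp
    rw [e2]
    exact this

/-- the Beta value `∫_0^1 (1-x)^r x^8 dx` -/
noncomputable def LL (r : ℕ) : ℝ :=
  ∑ k ∈ Finset.range (r + 1), (r.choose k : ℝ) * (-1) ^ k * (1 / (((8 + k : ℕ) : ℝ) + 1))

lemma tendsto_beta (r : ℕ) :
    Tendsto (fun B : ℕ => (∑ n ∈ Finset.range (B + 1), pr B n ^ r * (n : ℝ) ^ 8) / (B : ℝ) ^ 9)
      atTop (𝓝 (LL r)) := by
  have h1 : Tendsto (fun B : ℕ => ∑ k ∈ Finset.range (r + 1), (r.choose k : ℝ) * (-1) ^ k *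
      ((∑ n ∈ Finset.range (B + 1), (n : ℝ) ^ (8 + k)) / (B : ℝ) ^ (8 + k + 1))) atTop
      (𝓝 (LL r)) := by
    unfold LL
    apply tendsto_finsetSum
    intro k _
    exact (tendsto_pow_sum (8 + k) (by omega)).const_mul _
  refine h1.congr' ?_
  filter_upwards [eventually_ge_atTop 1] with B hB
  have hB0 : (0 : ℝ) < B := by exact_mod_cast hB
  have e : ∀ n : ℕ, pr B n ^ r * (n : ℝ) ^ 8 = ∑ k ∈ Finset.range (r + 1),
      (r.choose k : ℝ) * (-1) ^ k * ((n : ℝ) ^ (8 + k) / (B : ℝ) ^ k) := by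
    intro n
    have : pr B n = -((n : ℝ) / B) + 1 := by unfold pr; ring
    rw [this, add_pow, Finset.sum_mul]
    refine Finset.sum_congr rfl fun k _ => ?_
    rw [one_pow, mul_one, neg_pow, div_pow, pow_add]
    ring
  simp only [e]
  rw [Finset.sum_comm, Finset.sum_div]
  refine Finset.sum_congr rfl fun k _ => ?_
  rw [← Finset.mul_sum, ← Finset.sum_div]
  field_simp
  ring

/-! ### the ideal coefficients: generating function `e^{-9z} (1-z)^{-9}` -/

noncomputable def ee (i : ℕ) : ℝ := (-9) ^ i / (i.factorial : ℝ)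

noncomputable def bb (k : ℕ) : ℝ := ((k + 8).choose 8 : ℝ)

noncomputable def ff (n : ℕ) : ℝ := ∑ p ∈ Finset.HasAntidiagonal.antidiagonal n, ee p.1 * bb p.2

lemma ee_succ (i : ℕ) : ((i : ℝ) + 1) * ee (i + 1) = -9 * ee i := by
  unfold ee
  rw [Nat.factorial_succ]
  have : ((i.factorial : ℕ) : ℝ) ≠ 0 := by exact_mod_cast i.factorial_ne_zero
  have h2 : (i : ℝ) + 1 ≠ 0 := by positivity
  push_cast
  field_simp
  ring

lemma bb_succ (k : ℕ) : ((k : ℝ) + 1) * bb (k + 1) = ((k : ℝ) + 9) * bb k := by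
  unfold bb
  have h3 : (k + 1 + 8).choose 8 * (k + 1) = (k + 8).choose 8 * (k + 9) := by
    have h4 := Nat.choose_mul_succ_eq (k + 8) 8
    -- C(k+8,8) * (k+9) = C(k+9,8) * (k+9-8)
    have e1 : k + 8 + 1 - 8 = k + 1 := by omega
    rw [e1] at h4
    have e2 : k + 1 + 8 = k + 8 + 1 := by omega
    rw [e2]
    linarith
  have h5 : (((k + 1 + 8).choose 8 * (k + 1) : ℕ) : ℝ) = (((k + 8).choose 8 * (k + 9) : ℕ) : ℝ) := by
    rw [h3]
  push_cast at h5
  linarith

lemma ff_rec (n : ℕ) : ((n : ℝ) + 2) * ff (n + 2) = ((n : ℝ) + 1) * ff (n + 1) + 9 * ff n := by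
  -- sums weighted by the first or the second index
  have key1 : ∀ m : ℕ, ∑ p ∈ Finset.HasAntidiagonal.antidiagonal (m + 1), (p.1 : ℝ) * (ee p.1 * bb p.2) =
      -9 * ff m := by
    intro m
    rw [Finset.Nat.sum_antidiagonal_succ]
    simp only [Nat.cast_zero, zero_mul, zero_add]
    unfold ff
    rw [Finset.mul_sum]
    refine Finset.sum_congr rfl fun p _ => ?_
    have := ee_succ p.1
    push_cast
    rw [← mul_assoc, this]
    ring
  have key2 : ∀ m : ℕ, ∑ p ∈ Finset.HasAntidiagonal.antidiagonal (m + 1), (p.2 : ℝ) * (ee p.1 * bb p.2) =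
      ∑ p ∈ Finset.HasAntidiagonal.antidiagonal m, ((p.2 : ℝ) + 9) * (ee p.1 * bb p.2) := by
    intro m
    rw [Finset.Nat.sum_antidiagonal_succ']
    simp only [Nat.cast_zero, zero_mul, zero_add]
    refine Finset.sum_congr rfl fun p _ => ?_
    have := bb_succ p.2
    push_cast
    calc ((p.2 : ℝ) + 1) * (ee p.1 * bb (p.2 + 1)) = ee p.1 * (((p.2 : ℝ) + 1) * bb (p.2 + 1)) := by
          ring
      _ = _ := by rw [this]; ring
  have tot : ∀ m : ℕ, (m : ℝ) * ff m = ∑ p ∈ Finset.HasAntidiagonal.antidiagonal m, (p.1 : ℝ) * (ee p.1 * bb p.2) +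
      ∑ p ∈ Finset.HasAntidiagonal.antidiagonal m, (p.2 : ℝ) * (ee p.1 * bb p.2) := by
    intro m
    unfold ff
    rw [Finset.mul_sum, ← Finset.sum_add_distrib]
    refine Finset.sum_congr rfl fun p hp => ?_
    rw [Finset.HasAntidiagonal.mem_antidiagonal] at hp
    rw [← hp]
    push_cast
    ring
  have t2 := tot (n + 2)
  rw [key1 (n + 1), key2 (n + 1)] at t2
  have t1 := tot (n + 1)
  rw [key1 n] at t1
  have e : ∑ p ∈ Finset.HasAntidiagonal.antidiagonal (n + 1), ((p.2 : ℝ) + 9) * (ee p.1 * bb p.2) =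
      ∑ p ∈ Finset.HasAntidiagonal.antidiagonal (n + 1), (p.2 : ℝ) * (ee p.1 * bb p.2) + 9 * ff (n + 1) := by
    unfold ff
    rw [Finset.mul_sum, ← Finset.sum_add_distrib]
    refine Finset.sum_congr rfl fun p _ => ?_
    ring
  rw [e] at t2
  push_cast at t1 t2
  linarith

lemma ff_zero : ff 0 = 1 := by
  simp [ff, ee, bb]

lemma ff_one : ff 1 = 0 := by
  unfold ff
  rw [Finset.Nat.antidiagonal_succ]
  simp [ee, bb]

lemma ff_nonneg (n : ℕ) : 0 ≤ ff n := by
  induction n using Nat.strong_induction_on with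
  | _ n ih =>
    match n, ih with
    | 0, _ => rw [ff_zero]; norm_num
    | 1, _ => rw [ff_one]
    | n + 2, ih =>
      have h := ff_rec n
      have h1 := ih (n + 1) (by omega)
      have h2 := ih n (by omega)
      have h3 : 0 ≤ ((n : ℝ) + 2) * ff (n + 2) := by rw [h]; positivity
      exact nonneg_of_mul_nonneg_right h3 (by positivity)

lemma ff_sum (n : ℕ) : ((n : ℝ) + 1) * ff (n + 1) = 9 * ∑ i ∈ Finset.range n, ff i := by
  induction n with
  | zero => simp [ff_one]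
  | succ n ih =>
    rw [Finset.sum_range_succ, mul_add, ← ih]
    have := ff_rec n
    push_cast
    linarith

lemma bb_pos (k : ℕ) : 0 < bb k := by
  unfold bb
  exact_mod_cast Nat.choose_pos (by omega)

lemma bb_sum (n : ℕ) : (n : ℝ) * bb n = 9 * ∑ i ∈ Finset.range n, bb i := by
  induction n with
  | zero => simp
  | succ n ih =>
    rw [Finset.sum_range_succ, mul_add, ← ih]
    have := bb_succ n
    push_cast
    linarith

lemma ff_le_bb (n : ℕ) : ff n ≤ bb n := by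
  induction n using Nat.strong_induction_on with
  | _ n ih =>
    match n, ih with
    | 0, _ => rw [ff_zero]; simp [bb]
    | n + 1, ih =>
      have h1 := ff_sum n
      have h2 := bb_sum (n + 1)
      have h3 : ∑ i ∈ Finset.range n, ff i ≤ ∑ i ∈ Finset.range (n + 1), bb i := by
        calc ∑ i ∈ Finset.range n, ff i ≤ ∑ i ∈ Finset.range n, bb i :=
              Finset.sum_le_sum fun i hi => ih i (by rw [Finset.mem_range] at hi; omega)
          _ ≤ ∑ i ∈ Finset.range (n + 1), bb i := by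
              rw [Finset.sum_range_succ]
              linarith [bb_pos n]
      have h4 : ((n : ℝ) + 1) * ff (n + 1) ≤ ((n : ℝ) + 1) * bb (n + 1) := by
        push_cast at h2
        rw [h1, h2]
        linarith
      exact le_of_mul_le_mul_left h4 (by positivity)

lemma bb_le (n : ℕ) : bb n ≤ ((n : ℝ) + 8) ^ 8 / 40320 := by
  unfold bb
  rw [le_div_iff₀ (by norm_num)]
  have h := Nat.choose_le_pow_div (α := ℝ) 8 (n + 8)
  push_cast at h
  have h8 : ((Nat.factorial 8 : ℕ) : ℝ) = 40320 := by norm_num [Nat.factorial]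
  rw [h8, le_div_iff₀ (by norm_num)] at h
  exact h

lemma le_bb (n : ℕ) : (n : ℝ) ^ 8 / 40320 ≤ bb n := by
  unfold bb
  rw [div_le_iff₀ (by norm_num)]
  have h := Nat.pow_sub_le_descFactorial (n + 8) 8
  have e : n + 8 + 1 - 8 = n + 1 := by omega
  rw [e, Nat.descFactorial_eq_factorial_mul_choose] at h
  have h8 : Nat.factorial 8 = 40320 := by decide
  rw [h8] at h
  have h2 : (((n + 1) ^ 8 : ℕ) : ℝ) ≤ ((40320 * (n + 8).choose 8 : ℕ) : ℝ) := by exact_mod_cast h
  push_cast at h2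
  have h3 : (n : ℝ) ^ 8 ≤ ((n : ℝ) + 1) ^ 8 := by gcongr; linarith
  linarith

/-! ### perturbation of the recursion -/

noncomputable def cc (k : ℕ) : ℝ := ((k + 9).choose 9 : ℝ)

lemma cc_pos (k : ℕ) : 0 < cc k := by
  unfold cc
  exact_mod_cast Nat.choose_pos (by omega)

lemma cc_succ (k : ℕ) : ((k : ℝ) + 1) * cc (k + 1) = ((k : ℝ) + 10) * cc k := by
  unfold cc
  have h3 : (k + 1 + 9).choose 9 * (k + 1) = (k + 9).choose 9 * (k + 10) := by
    have h4 := Nat.choose_mul_succ_eq (k + 9) 9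
    have e1 : k + 9 + 1 - 9 = k + 1 := by omega
    rw [e1] at h4
    have e2 : k + 1 + 9 = k + 9 + 1 := by omega
    rw [e2]
    linarith
  have h5 : (((k + 1 + 9).choose 9 * (k + 1) : ℕ) : ℝ) = (((k + 9).choose 9 * (k + 10) : ℕ) : ℝ) := by
    rw [h3]
  push_cast at h5
  linarith

lemma cc_sum (n : ℕ) : (n : ℝ) * cc n = 10 * ∑ i ∈ Finset.range n, cc i := by
  induction n with
  | zero => simp
  | succ n ih =>
    rw [Finset.sum_range_succ, mul_add, ← ih]
    have := cc_succ n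
    push_cast
    linarith

lemma bb_le_cc (n : ℕ) : bb n ≤ cc n := by
  unfold bb cc
  have : (n + 9).choose 9 = (n + 8).choose 8 + (n + 8).choose 9 := Nat.choose_succ_succ (n + 8) 8
  rw [this]
  push_cast
  have : (0 : ℝ) ≤ ((n + 8).choose 9 : ℝ) := by positivity
  linarith

lemma bb_sum_le (n : ℕ) : ∑ i ∈ Finset.range n, bb i ≤ (n : ℝ) * cc n := by
  rcases Nat.eq_zero_or_pos n with h | h
  · subst h; simp
  have h1 := bb_sum n
  have h2 := bb_le_cc n
  have h3 : (n : ℝ) * bb n ≤ n * cc n := by gcongr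
  have h4 : 0 ≤ ∑ i ∈ Finset.range n, bb i := Finset.sum_nonneg fun i _ => (bb_pos i).le
  linarith

lemma sum_Icc_range (n : ℕ) (g : ℕ → ℕ → ℝ) :
    ∑ m ∈ Finset.Icc 1 n, g m (n - m) = ∑ i ∈ Finset.range n, g (n - i) i := by
  refine Finset.sum_nbij' (fun m => n - m) (fun i => n - i) ?_ ?_ ?_ ?_ ?_
  · intro m hm
    rw [Finset.mem_Icc] at hm
    rw [Finset.mem_range]
    omega
  · intro i hi
    rw [Finset.mem_range] at hi
    rw [Finset.mem_Icc]
    omega
  · intro m hm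
    rw [Finset.mem_Icc] at hm
    omega
  · intro i hi
    rw [Finset.mem_range] at hi
    omega
  · intro m hm
    rw [Finset.mem_Icc] at hm
    have : n - (n - m) = m := by omega
    rw [this]

/-- unperturbed coefficients -/
noncomputable def t0 (m : ℕ) : ℝ := if m = 1 then 0 else 9

lemma ff_sum' (n : ℕ) : (n : ℝ) * ff n = ∑ m ∈ Finset.Icc 1 n, t0 m * ff (n - m) := by
  rw [sum_Icc_range n (fun m i => t0 m * ff i)]
  rcases n with _ | n
  · simp
  · rw [Finset.sum_range_succ]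
    have h1 : n + 1 - n = 1 := by omega
    rw [h1]
    have h2 : t0 1 = 0 := by simp [t0]
    rw [h2, zero_mul, add_zero]
    have h3 := ff_sum n
    push_cast
    rw [h3, Finset.mul_sum]
    refine Finset.sum_congr rfl fun i hi => ?_
    rw [Finset.mem_range] at hi
    have h4 : t0 (n + 1 - i) = 9 := by
      unfold t0
      rw [if_neg (by omega)]
    rw [h4]

lemma perturb {B : ℕ} (hB : 2 ≤ B) {t Q : ℕ → ℝ} (hQ0 : Q 0 = 1)
    (hQ : ∀ n : ℕ, 1 ≤ n → n ≤ B → (n : ℝ) * Q n = ∑ m ∈ Finset.Icc 1 n, t m * Q (n - m))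
    (ht1 : |t 1| ≤ 1 / (B : ℝ) ^ 2) (ht : ∀ m : ℕ, 2 ≤ m → m ≤ B → |t m - 9| ≤ 1 / (B : ℝ) ^ 2) :
    ∀ n : ℕ, n ≤ B → |Q n - ff n| ≤ 20 / (B : ℝ) ^ 2 * cc n := by
  have hB0 : (2 : ℝ) ≤ B := by exact_mod_cast hB
  set ε : ℝ := 1 / (B : ℝ) ^ 2 with hε
  have hε0 : 0 < ε := by positivity
  have hε1 : ε ≤ 1 / 4 := by
    rw [hε, div_le_div_iff₀ (by positivity) (by norm_num)]
    nlinarith
  have e20 : 20 / (B : ℝ) ^ 2 = 20 * ε := by rw [hε]; ring
  rw [e20]
  have hdt : ∀ m : ℕ, 1 ≤ m → m ≤ B → |t m - t0 m| ≤ ε := by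
    intro m hm hmB
    rcases Nat.lt_or_ge 1 m with h | h
    · have : t0 m = 9 := by unfold t0; rw [if_neg (by omega)]
      rw [this]
      exact ht m h hmB
    · have h1 : m = 1 := by omega
      subst h1
      have : t0 1 = 0 := by simp [t0]
      rw [this, sub_zero]
      exact ht1
  have hta : ∀ m : ℕ, 1 ≤ m → m ≤ B → |t m| ≤ 19 / 2 := by
    intro m hm hmB
    have h1 := hdt m hm hmB
    have h2 : |t0 m| ≤ 9 := by
      unfold t0
      split_ifs <;> norm_num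
    have h3 : |t m| ≤ |t m - t0 m| + |t0 m| := by
      have := abs_add_le (t m - t0 m) (t0 m)
      rwa [sub_add_cancel] at this
    linarith
  intro n
  induction n using Nat.strong_induction_on with
  | _ n ih =>
    intro hn
    rcases Nat.eq_zero_or_pos n with h | h
    · subst h
      rw [hQ0, ff_zero, sub_self, abs_zero]
      exact mul_nonneg (by positivity) (cc_pos 0).le
    have hn0 : (1 : ℝ) ≤ n := by exact_mod_cast h
    have e : (n : ℝ) * (Q n - ff n) = ∑ i ∈ Finset.range n,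
        (t (n - i) * (Q i - ff i) + (t (n - i) - t0 (n - i)) * ff i) := by
      rw [mul_sub, hQ n h hn, ff_sum' n, sum_Icc_range n (fun m i => t m * Q i),
        sum_Icc_range n (fun m i => t0 m * ff i), ← Finset.sum_sub_distrib]
      refine Finset.sum_congr rfl fun i _ => ?_
      ring
    have h1 : (n : ℝ) * |Q n - ff n| ≤ ∑ i ∈ Finset.range n,
        (19 / 2 * (20 * ε * cc i) + ε * bb i) := by
      have : (n : ℝ) * |Q n - ff n| = |(n : ℝ) * (Q n - ff n)| := by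
        rw [abs_mul, abs_of_nonneg (by linarith : (0 : ℝ) ≤ n)]
      rw [this, e]
      refine (Finset.abs_sum_le_sum_abs _ _).trans (Finset.sum_le_sum fun i hi => ?_)
      rw [Finset.mem_range] at hi
      refine (abs_add_le _ _).trans ?_
      rw [abs_mul, abs_mul]
      have g1 := hta (n - i) (by omega) (by omega)
      have g2 := ih i hi (by omega)
      have g3 := hdt (n - i) (by omega) (by omega)
      have g4 : |ff i| ≤ bb i := by
        rw [abs_of_nonneg (ff_nonneg i)]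
        exact ff_le_bb i
      have g5 := abs_nonneg (Q i - ff i)
      have g6 := abs_nonneg (ff i)
      gcongr
    have h2 : ∑ i ∈ Finset.range n, (19 / 2 * (20 * ε * cc i) + ε * bb i) =
        19 / 2 * (20 * ε) * ∑ i ∈ Finset.range n, cc i + ε * ∑ i ∈ Finset.range n, bb i := by
      rw [Finset.sum_add_distrib, Finset.mul_sum, Finset.mul_sum]
      congr 1
      refine Finset.sum_congr rfl fun i _ => ?_
      ring
    rw [h2] at h1
    have h3 := cc_sum n
    have h4 := bb_sum_le n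
    have h5 : ε * ∑ i ∈ Finset.range n, bb i ≤ ε * ((n : ℝ) * cc n) := by gcongr
    have h6 : 19 / 2 * (20 * ε) * ∑ i ∈ Finset.range n, cc i = 19 * ε * ((n : ℝ) * cc n) := by
      rw [h3]; ring
    have h7 : (n : ℝ) * |Q n - ff n| ≤ n * (20 * ε * cc n) := by linarith
    exact le_of_mul_le_mul_left h7 (by linarith)

lemma cc_le {B n : ℕ} (hB : 1 ≤ B) (hn : n ≤ B) : cc n ≤ 10 ^ 9 * (B : ℝ) ^ 9 := by
  unfold cc
  have h := Nat.choose_le_pow_div (α := ℝ) 9 (n + 9)
  have h1 : ((n + 9 : ℕ) : ℝ) ≤ 10 * (B : ℝ) := by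
    have : n + 9 ≤ 10 * B := by omega
    exact_mod_cast this
  have h2 : (((n + 9 : ℕ) : ℝ)) ^ 9 ≤ (10 * (B : ℝ)) ^ 9 := by gcongr
  have h3 : (((n + 9 : ℕ) : ℝ)) ^ 9 / (Nat.factorial 9 : ℝ) ≤ ((n + 9 : ℕ) : ℝ) ^ 9 := by
    apply div_le_self (by positivity)
    exact_mod_cast Nat.one_le_iff_ne_zero.2 (Nat.factorial_ne_zero 9)
  calc ((n + 9).choose 9 : ℝ) ≤ (((n + 9 : ℕ) : ℝ)) ^ 9 / (Nat.factorial 9 : ℝ) := h
    _ ≤ (10 * (B : ℝ)) ^ 9 := h3.trans h2
    _ = _ := by ring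

lemma ff_le {B n : ℕ} (hB : 1 ≤ B) (hn : n ≤ B) : ff n ≤ 9 ^ 8 * (B : ℝ) ^ 8 := by
  have h1 := (ff_le_bb n).trans (bb_le n)
  have h2 : (n : ℝ) + 8 ≤ 9 * B := by
    have : n + 8 ≤ 9 * B := by omega
    exact_mod_cast this
  have h3 : ((n : ℝ) + 8) ^ 8 ≤ (9 * (B : ℝ)) ^ 8 := by gcongr
  have h4 : ((n : ℝ) + 8) ^ 8 / 40320 ≤ ((n : ℝ) + 8) ^ 8 := div_le_self (by positivity) (by norm_num)
  calc ff n ≤ (9 * (B : ℝ)) ^ 8 := h1.trans (h4.trans h3)
    _ = _ := by ring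

/-! ### asymptotics of the ideal coefficients -/

lemma tendsto_bb : Tendsto (fun n : ℕ => bb n / (n : ℝ) ^ 8) atTop (𝓝 (1 / 40320)) := by
  have h1 : Tendsto (fun n : ℕ => (1 + 8 * (1 / (n : ℝ))) ^ 8 / 40320) atTop
      (𝓝 ((1 + 8 * 0) ^ 8 / 40320)) := by
    have h2 : Tendsto (fun n : ℕ => (1 + 8 * (1 / (n : ℝ)))) atTop (𝓝 (1 + 8 * 0)) :=
      tendsto_const_nhds.add (tendsto_one_div_atTop_nhds_zero_nat.const_mul 8)
    exact (h2.pow 8).div_const _
  norm_num at h1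
  refine tendsto_of_tendsto_of_tendsto_of_le_of_le' (tendsto_const_nhds (x := (1 / 40320 : ℝ)))
    (h := fun n : ℕ => (1 + 8 * (n : ℝ)⁻¹) ^ 8 / 40320) h1 ?_ ?_
  · filter_upwards [eventually_ge_atTop 1] with n hn
    have hn0 : (0 : ℝ) < n := by exact_mod_cast hn
    rw [le_div_iff₀ (by positivity)]
    have := le_bb n
    linarith
  · filter_upwards [eventually_ge_atTop 1] with n hn
    have hn0 : (0 : ℝ) < n := by exact_mod_cast hn
    rw [div_le_iff₀ (by positivity)]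
    have := bb_le n
    have e : (1 + 8 * (n : ℝ)⁻¹) ^ 8 / 40320 * (n : ℝ) ^ 8 = ((n : ℝ) + 8) ^ 8 / 40320 := by
      rw [div_mul_eq_mul_div, ← mul_pow]
      congr 2
      field_simp
    rw [e]
    exact this

lemma bb_mono {m n : ℕ} (h : m ≤ n) : bb m ≤ bb n := by
  unfold bb
  exact_mod_cast Nat.choose_le_choose 8 (by omega)

lemma tendsto_bb_ratio (i : ℕ) : Tendsto (fun n : ℕ => bb (n - i) / bb n) atTop (𝓝 1) := by
  have h1 : Tendsto (fun n : ℕ => bb (n - i) / ((n - i : ℕ) : ℝ) ^ 8) atTop (𝓝 (1 / 40320)) :=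
    tendsto_bb.comp (tendsto_sub_atTop_nat i)
  have h2 : Tendsto (fun n : ℕ => ((n - i : ℕ) : ℝ) / n) atTop (𝓝 1) := by
    have h3 : Tendsto (fun n : ℕ => 1 - (i : ℝ) * (1 / (n : ℝ))) atTop (𝓝 (1 - i * 0)) :=
      tendsto_const_nhds.sub (tendsto_one_div_atTop_nhds_zero_nat.const_mul _)
    rw [mul_zero, sub_zero] at h3
    refine h3.congr' ?_
    filter_upwards [eventually_ge_atTop (i + 1)] with n hn
    have hn0 : (0 : ℝ) < n := by
      have : 0 < n := by omega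
      exact_mod_cast this
    rw [Nat.cast_sub (by omega)]
    field_simp
  have h4 := (h1.mul (h2.pow 8)).div tendsto_bb (by norm_num)
  have e : (1 / 40320 : ℝ) * 1 ^ 8 / (1 / 40320) = 1 := by norm_num
  rw [e] at h4
  refine h4.congr' ?_
  filter_upwards [eventually_ge_atTop (i + 1)] with n hn
  have hn0 : (0 : ℝ) < n := by
    have : 0 < n := by omega
    exact_mod_cast this
  have hni : (0 : ℝ) < ((n - i : ℕ) : ℝ) := by
    have : 0 < n - i := by omega
    exact_mod_cast this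
  have hb := (bb_pos n).ne'
  simp only [Pi.div_apply]
  field_simp

lemma summable_ee : Summable (fun i : ℕ => ‖ee i‖) := by
  have h := Real.summable_pow_div_factorial 9
  refine h.congr fun i => ?_
  unfold ee
  rw [Real.norm_eq_abs, abs_div, abs_pow]
  norm_num

lemma tsum_ee : ∑' i : ℕ, ee i = Real.exp (-9) := by
  rw [Real.exp_eq_exp_ℝ, NormedSpace.exp_eq_tsum_div]
  rfl

lemma tendsto_ff_bb : Tendsto (fun n : ℕ => ff n / bb n) atTop (𝓝 (Real.exp (-9))) := by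
  have h := tendsto_tsum_of_dominated_convergence (𝓕 := atTop)
    (f := fun (n : ℕ) (i : ℕ) => if i ≤ n then ee i * (bb (n - i) / bb n) else 0)
    (g := ee) (bound := fun i => ‖ee i‖) summable_ee ?_ ?_
  · rw [tsum_ee] at h
    refine h.congr fun n => ?_
    rw [tsum_eq_sum (s := Finset.range (n + 1))]
    · unfold ff
      rw [Finset.Nat.sum_antidiagonal_eq_sum_range_succ_mk, Finset.sum_div]
      refine Finset.sum_congr rfl fun i hi => ?_
      rw [Finset.mem_range] at hi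
      rw [if_pos (by omega)]
      ring
    · intro i hi
      rw [Finset.mem_range] at hi
      rw [if_neg (by omega)]
  · intro i
    have h1 := (tendsto_bb_ratio i).const_mul (ee i)
    rw [mul_one] at h1
    refine h1.congr' ?_
    filter_upwards [eventually_ge_atTop i] with n hn
    rw [if_pos hn]
  · refine Eventually.of_forall fun n i => ?_
    split_ifs with hi
    · rw [norm_mul]
      apply mul_le_of_le_one_right (norm_nonneg _)
      rw [Real.norm_eq_abs, abs_of_nonneg (div_nonneg (bb_pos _).le (bb_pos _).le),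
        div_le_one (bb_pos n)]
      exact bb_mono (by omega)
    · rw [norm_zero]
      exact norm_nonneg _

/-- the limit constant -/
noncomputable def kap : ℝ := Real.exp (-9) / 40320

lemma kap_pos : 0 < kap := by unfold kap; positivity

lemma tendsto_ff : Tendsto (fun n : ℕ => ff n / (n : ℝ) ^ 8) atTop (𝓝 kap) := by
  have h := tendsto_ff_bb.mul tendsto_bb
  have e : Real.exp (-9) * (1 / 40320) = kap := by unfold kap; ring
  rw [e] at h
  refine h.congr fun n => ?_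
  have := (bb_pos n).ne'
  field_simp

lemma ff_littleo : (fun n : ℕ => ff n - kap * (n : ℝ) ^ 8) =o[atTop] (fun n : ℕ => (n : ℝ) ^ 8) := by
  rw [Asymptotics.isLittleO_iff_tendsto']
  · have h := tendsto_ff.sub_const kap
    rw [sub_self] at h
    refine h.congr' ?_
    filter_upwards [eventually_ge_atTop 1] with n hn
    have hn0 : (0 : ℝ) < n := by exact_mod_cast hn
    field_simp
  · filter_upwards [eventually_ge_atTop 1] with n hn h
    have hn0 : (0 : ℝ) < n := by exact_mod_cast hn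
    exact absurd h (by positivity)

/-- total deviation -/
lemma tendsto_dev : Tendsto (fun B : ℕ => (∑ n ∈ Finset.range (B + 1),
    |ff n - kap * (n : ℝ) ^ 8|) / (B : ℝ) ^ 9) atTop (𝓝 0) := by
  have h1 : (fun n : ℕ => |ff n - kap * (n : ℝ) ^ 8|) =o[atTop] (fun n : ℕ => (n : ℝ) ^ 8) := by
    have := ff_littleo.norm_left
    exact this
  have hS : Tendsto (fun B : ℕ => (∑ n ∈ Finset.range (B + 1), (n : ℝ) ^ 8) / (B : ℝ) ^ 9) atTop
      (𝓝 (1 / ((8 : ℕ) + 1))) := tendsto_pow_sum 8 (by norm_num)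
  have hinf : Tendsto (fun n : ℕ => ∑ i ∈ Finset.range n, (i : ℝ) ^ 8) atTop atTop := by
    refine tendsto_atTop_mono (f := fun n : ℕ => (n : ℝ) - 1) ?_ ?_
    · intro n
      rcases n with _ | n
      · simp
      · rw [Finset.sum_range_succ]
        have h2 : 0 ≤ ∑ i ∈ Finset.range n, (i : ℝ) ^ 8 :=
          Finset.sum_nonneg fun i _ => by positivity
        have h3 : (n : ℝ) ≤ (n : ℝ) ^ 8 := by
          rcases Nat.eq_zero_or_pos n with h | h
          · subst h; simp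
          · have : (1 : ℝ) ≤ n := by exact_mod_cast h
            exact le_self_pow₀ this (by norm_num)
        push_cast
        linarith
    · exact tendsto_atTop_add_const_right _ _ tendsto_natCast_atTop_atTop
  have h2 := h1.sum_range (fun n => by positivity) hinf
  have h3 : Tendsto (fun n : ℕ => (∑ i ∈ Finset.range n, |ff i - kap * (i : ℝ) ^ 8|) /
      (∑ i ∈ Finset.range n, (i : ℝ) ^ 8)) atTop (𝓝 0) := h2.tendsto_div_nhds_zero
  have h4 := (h3.comp (tendsto_add_atTop_nat 1)).mul hS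
  rw [zero_mul] at h4
  refine h4.congr' ?_
  filter_upwards [eventually_ge_atTop 1] with B hB
  have hB0 : (0 : ℝ) < B := by exact_mod_cast hB
  have hpos : 0 < ∑ i ∈ Finset.range (B + 1), (i : ℝ) ^ 8 := by
    rw [Finset.sum_range_succ]
    have h2 : 0 ≤ ∑ i ∈ Finset.range B, (i : ℝ) ^ 8 :=
          Finset.sum_nonneg fun i _ => by positivity
    positivity
  simp only [Function.comp]
  field_simp

/-- weighted sums of the ideal coefficients -/
noncomputable def vv (r B : ℕ) : ℝ := ∑ n ∈ Finset.range (B + 1), pr B n ^ r * ff n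

lemma pr_mem {B n : ℕ} (hB : 1 ≤ B) (hn : n ≤ B) : 0 ≤ pr B n ∧ pr B n ≤ 1 := by
  have hB0 : (0 : ℝ) < B := by exact_mod_cast hB
  have hn' : (n : ℝ) ≤ B := by exact_mod_cast hn
  unfold pr
  constructor
  · rw [sub_nonneg, div_le_one hB0]
    exact hn'
  · have : 0 ≤ (n : ℝ) / B := by positivity
    linarith

lemma tendsto_vv (r : ℕ) : Tendsto (fun B : ℕ => vv r B / (B : ℝ) ^ 9) atTop (𝓝 (kap * LL r)) := by
  have h1 : Tendsto (fun B : ℕ => vv r B / (B : ℝ) ^ 9 -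
      kap * ((∑ n ∈ Finset.range (B + 1), pr B n ^ r * (n : ℝ) ^ 8) / (B : ℝ) ^ 9)) atTop (𝓝 0) := by
    apply squeeze_zero_norm' _ tendsto_dev
    filter_upwards [eventually_ge_atTop 1] with B hB
    have hB0 : (0 : ℝ) < B := by exact_mod_cast hB
    have e : vv r B / (B : ℝ) ^ 9 -
      kap * ((∑ n ∈ Finset.range (B + 1), pr B n ^ r * (n : ℝ) ^ 8) / (B : ℝ) ^ 9) =
      (∑ n ∈ Finset.range (B + 1), pr B n ^ r * (ff n - kap * (n : ℝ) ^ 8)) / (B : ℝ) ^ 9 := by
      unfold vv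
      rw [mul_div_assoc', ← sub_div, Finset.mul_sum, ← Finset.sum_sub_distrib]
      congr 1
      refine Finset.sum_congr rfl fun n _ => ?_
      ring
    rw [e, norm_div, Real.norm_eq_abs, Real.norm_eq_abs, abs_of_pos (by positivity : (0 : ℝ) < (B : ℝ) ^ 9)]
    gcongr
    refine (Finset.abs_sum_le_sum_abs _ _).trans (Finset.sum_le_sum fun n hn => ?_)
    rw [Finset.mem_range] at hn
    rw [abs_mul]
    apply mul_le_of_le_one_left (abs_nonneg _)
    obtain ⟨g1, g2⟩ := pr_mem hB (by omega : n ≤ B)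
    rw [abs_of_nonneg (by positivity)]
    exact pow_le_one₀ g1 g2
  have h2 := h1.add ((tendsto_beta r).const_mul kap)
  rw [zero_add] at h2
  refine h2.congr fun B => ?_
  ring

/-! ### Taylor bounds for the sine -/

noncomputable def Cn (n : ℕ) (v : ℝ) : ℝ :=
  ∑ i ∈ Finset.range n, (-1) ^ i * v ^ (2 * i) / ((2 * i).factorial : ℝ)

noncomputable def Sn (n : ℕ) (v : ℝ) : ℝ :=
  ∑ i ∈ Finset.range n, (-1) ^ i * v ^ (2 * i + 1) / ((2 * i + 1).factorial : ℝ)

lemma hasDerivAt_Sn (n : ℕ) (v : ℝ) : HasDerivAt (Sn n) (Cn n v) v := by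
  unfold Sn Cn
  apply HasDerivAt.fun_sum
  intro i _
  have h := ((hasDerivAt_pow (2 * i + 1) v).const_mul ((-1 : ℝ) ^ i)).div_const
    ((2 * i + 1).factorial : ℝ)
  refine h.congr_deriv ?_
  rw [Nat.factorial_succ]
  have h1 : ((2 * i).factorial : ℝ) ≠ 0 := by exact_mod_cast (2 * i).factorial_ne_zero
  have h2 : ((2 * i : ℕ) : ℝ) + 1 ≠ 0 := by positivity
  have h3 : 2 * i + 1 - 1 = 2 * i := by omega
  rw [h3]
  push_cast
  push_cast at h2
  field_simp

lemma hasDerivAt_Cn (n : ℕ) (v : ℝ) : HasDerivAt (Cn (n + 1)) (-Sn n v) v := by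
  have e : Cn (n + 1) = fun v => ∑ i ∈ Finset.range n,
      (-1) ^ (i + 1) * v ^ (2 * (i + 1)) / ((2 * (i + 1)).factorial : ℝ) + 1 := by
    funext v
    unfold Cn
    rw [Finset.sum_range_succ']
    simp
  rw [e]
  have h : HasDerivAt (fun v : ℝ => ∑ i ∈ Finset.range n,
      (-1) ^ (i + 1) * v ^ (2 * (i + 1)) / ((2 * (i + 1)).factorial : ℝ)) (-Sn n v) v := by
    unfold Sn
    rw [← Finset.sum_neg_distrib]
    apply HasDerivAt.fun_sum
    intro i _
    have h := ((hasDerivAt_pow (2 * (i + 1)) v).const_mul ((-1 : ℝ) ^ (i + 1))).div_const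
      ((2 * (i + 1)).factorial : ℝ)
    refine h.congr_deriv ?_
    have e1 : 2 * (i + 1) = (2 * i + 1) + 1 := by omega
    rw [e1, Nat.factorial_succ (2 * i + 1)]
    have h1 : ((2 * i + 1).factorial : ℝ) ≠ 0 := by exact_mod_cast (2 * i + 1).factorial_ne_zero
    have h2 : ((2 * i + 1 : ℕ) : ℝ) + 1 ≠ 0 := by positivity
    have h3 : 2 * i + 1 + 1 - 1 = 2 * i + 1 := by omega
    rw [h3]
    push_cast
    push_cast at h2
    field_simp
    ring
  exact h.add_const 1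

lemma nonneg_of_deriv {g g' : ℝ → ℝ} (h0 : g 0 = 0) (hd : ∀ x, HasDerivAt g (g' x) x)
    (hp : ∀ x, 0 ≤ x → 0 ≤ g' x) : ∀ x, 0 ≤ x → 0 ≤ g x := by
  intro x hx
  have hmono : MonotoneOn g (Set.Ici 0) := by
    apply monotoneOn_of_deriv_nonneg (convex_Ici 0)
    · exact fun y _ => (hd y).continuousAt.continuousWithinAt
    · exact fun y _ => (hd y).differentiableAt.differentiableWithinAt
    · intro y hy
      rw [interior_Ici] at hy
      rw [(hd y).deriv]
      exact hp y (le_of_lt hy)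
  have := hmono (Set.self_mem_Ici) hx hx
  rwa [h0] at this

lemma trig_bounds (n : ℕ) : (∀ v : ℝ, 0 ≤ v → 0 ≤ (-1) ^ (n + 1) * (Real.cos v - Cn (n + 1) v)) ∧
    (∀ v : ℝ, 0 ≤ v → 0 ≤ (-1) ^ (n + 1) * (Real.sin v - Sn (n + 1) v)) := by
  have step : ∀ m : ℕ, (∀ v : ℝ, 0 ≤ v → 0 ≤ (-1) ^ m * (Real.cos v - Cn m v)) →
      (∀ v : ℝ, 0 ≤ v → 0 ≤ (-1) ^ m * (Real.sin v - Sn m v)) := by
    intro m h
    apply nonneg_of_deriv (g' := fun v => (-1) ^ m * (Real.cos v - Cn m v))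
    · simp [Sn]
    · intro x
      exact ((Real.hasDerivAt_sin x).sub (hasDerivAt_Sn m x)).const_mul _
    · exact h
  induction n with
  | zero =>
    have h1 : ∀ v : ℝ, 0 ≤ v → 0 ≤ (-1) ^ (0 + 1) * (Real.cos v - Cn (0 + 1) v) := by
      intro v _
      have := Real.cos_le_one v
      simp [Cn]
      linarith
    exact ⟨h1, step _ h1⟩
  | succ n ih =>
    have h1 : ∀ v : ℝ, 0 ≤ v → 0 ≤ (-1) ^ (n + 1 + 1) * (Real.cos v - Cn (n + 1 + 1) v) := by
      apply nonneg_of_deriv (g' := fun v => (-1) ^ (n + 1) * (Real.sin v - Sn (n + 1) v))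
      · have : Cn (n + 1 + 1) 0 = 1 := by
          unfold Cn
          rw [Finset.sum_range_succ']
          simp
        rw [this]
        simp
      · intro x
        have h := ((Real.hasDerivAt_cos x).sub (hasDerivAt_Cn (n + 1) x)).const_mul
          ((-1 : ℝ) ^ (n + 1 + 1))
        refine h.congr_deriv ?_
        rw [pow_succ (-1 : ℝ) (n + 1)]
        ring
      · exact ih.2
    exact ⟨h1, step _ h1⟩

lemma sin_lower (v : ℝ) (hv : 0 ≤ v) : Sn 6 v ≤ Real.sin v := by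
  have := (trig_bounds 5).2 v hv
  norm_num at this
  exact this

/-! ### the double sums -/

/-- inner sum -/
noncomputable def SS (B j : ℕ) (Q : ℕ → ℝ) : ℝ := ∑ n ∈ Finset.range (B + 1),
  if n + j ≤ B then pr B n * pr B (n + j) * Q n else 0

noncomputable def ww (i B : ℕ) : ℝ := ∑ j ∈ Finset.Icc 1 B, ((j : ℝ) / B) ^ (2 * i) * SS B j ff

noncomputable def inn (i B n : ℕ) : ℝ := ∑ j ∈ Finset.Icc 1 B,
  if n + j ≤ B then ((j : ℝ) / B) ^ (2 * i) * pr B (n + j) else 0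

lemma ww_eq (i B : ℕ) : ww i B = ∑ n ∈ Finset.range (B + 1), pr B n * ff n * inn i B n := by
  unfold ww SS inn
  simp only [Finset.mul_sum]
  rw [Finset.sum_comm]
  refine Finset.sum_congr rfl fun n _ => Finset.sum_congr rfl fun j _ => ?_
  split_ifs
  · ring
  · simp

lemma inn_eq {i B n : ℕ} (hB : 1 ≤ B) (hn : n ≤ B) :
    inn i B n = (((B - n : ℕ) : ℝ) * ps (2 * i) (B - n) - ps (2 * i + 1) (B - n)) /
      (B : ℝ) ^ (2 * i + 1) := by
  have hB0 : (0 : ℝ) < B := by exact_mod_cast hB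
  unfold inn
  rw [← Finset.sum_filter]
  have e : (Finset.Icc 1 B).filter (fun j => n + j ≤ B) = Finset.Icc 1 (B - n) := by
    ext j
    simp only [Finset.mem_filter, Finset.mem_Icc]
    omega
  rw [e]
  unfold ps
  rw [Finset.mul_sum, ← Finset.sum_sub_distrib, Finset.sum_div]
  refine Finset.sum_congr rfl fun j hj => ?_
  rw [Finset.mem_Icc] at hj
  unfold pr
  rw [Nat.cast_sub hn, div_pow]
  push_cast
  field_simp
  ring

lemma inn_bound {i B n : ℕ} (hB : 1 ≤ B) (hn : n ≤ B) :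
    |inn i B n - B * pr B n ^ (2 * i + 2) / ((2 * i + 1) * (2 * i + 2))| ≤ 1 := by
  have hB0 : (0 : ℝ) < B := by exact_mod_cast hB
  rw [inn_eq hB hn]
  set M := B - n with hM
  have hMB : (M : ℝ) ≤ B := by
    have : M ≤ B := by omega
    exact_mod_cast this
  have hM0 : (0 : ℝ) ≤ M := by positivity
  have hpr : pr B n = (M : ℝ) / B := by
    unfold pr
    rw [hM, Nat.cast_sub hn]
    field_simp
  rw [hpr]
  obtain ⟨h1, h2⟩ := ps_bounds (2 * i) M
  obtain ⟨h3, h4⟩ := ps_bounds (2 * i + 1) M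
  push_cast at h1 h2 h3 h4
  have h1' := mul_le_mul_of_nonneg_left h1 hM0
  have h2' := mul_le_mul_of_nonneg_left h2 hM0
  have e : ((M : ℝ) * ps (2 * i) M - ps (2 * i + 1) M) / (B : ℝ) ^ (2 * i + 1) -
      B * ((M : ℝ) / B) ^ (2 * i + 2) / ((2 * i + 1) * (2 * i + 2)) =
      ((M : ℝ) * ps (2 * i) M - ps (2 * i + 1) M -
        (M : ℝ) ^ (2 * i + 2) / ((2 * i + 1) * (2 * i + 2))) / (B : ℝ) ^ (2 * i + 1) := by
    rw [div_pow, pow_succ (B : ℝ) (2 * i + 1)]
    field_simp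
  rw [e, abs_div, abs_of_pos (by positivity : (0 : ℝ) < (B : ℝ) ^ (2 * i + 1)),
    div_le_one (by positivity)]
  have hpow : (M : ℝ) ^ (2 * i + 1) ≤ (B : ℝ) ^ (2 * i + 1) := by gcongr
  refine le_trans ?_ hpow
  have e1 : (M : ℝ) * ((M : ℝ) ^ (2 * i + 1) / (2 * (i : ℝ) + 1)) =
      (M : ℝ) ^ (2 * i + 2) / (2 * (i : ℝ) + 1) := by rw [pow_succ (M : ℝ) (2 * i + 1)]; ring
  have e2 : (M : ℝ) * ((M : ℝ) ^ (2 * i + 1) / (2 * (i : ℝ) + 1) + (M : ℝ) ^ (2 * i)) =
      (M : ℝ) ^ (2 * i + 2) / (2 * (i : ℝ) + 1) + (M : ℝ) ^ (2 * i + 1) := by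
    rw [pow_succ (M : ℝ) (2 * i + 1), pow_succ (M : ℝ) (2 * i)]; ring
  rw [e1] at h1'
  rw [e2] at h2'
  have e3 : (M : ℝ) ^ (2 * i + 2) / ((2 * i + 1) * (2 * i + 2)) =
      (M : ℝ) ^ (2 * i + 2) / (2 * (i : ℝ) + 1) - (M : ℝ) ^ (2 * i + 2) / (2 * (i : ℝ) + 1 + 1) := by
    have g1 : 2 * (i : ℝ) + 1 ≠ 0 := by positivity
    have g2 : 2 * (i : ℝ) + 1 + 1 ≠ 0 := by positivity
    have g3 : 2 * (i : ℝ) + 2 ≠ 0 := by positivity
    field_simp
    ring
  rw [e3, abs_le]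
  constructor
  · linarith
  · linarith

lemma sum_ff_le {B : ℕ} (hB : 1 ≤ B) :
    ∑ n ∈ Finset.range (B + 1), ff n ≤ ((B : ℝ) + 1) * (9 ^ 8 * (B : ℝ) ^ 8) := by
  calc ∑ n ∈ Finset.range (B + 1), ff n ≤ ∑ n ∈ Finset.range (B + 1), 9 ^ 8 * (B : ℝ) ^ 8 :=
        Finset.sum_le_sum fun n hn => ff_le hB (by rw [Finset.mem_range] at hn; omega)
    _ = _ := by
        rw [Finset.sum_const, Finset.card_range, nsmul_eq_mul]
        push_cast
        ring

lemma tendsto_one_div_add : Tendsto (fun B : ℕ => ((B : ℝ) + 1) / (B : ℝ) ^ 2) atTop (𝓝 0) := by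
  have h1 : Tendsto (fun B : ℕ => (1 / (B : ℝ)) + (1 / (B : ℝ)) * (1 / (B : ℝ))) atTop
      (𝓝 (0 + 0 * 0)) :=
    tendsto_one_div_atTop_nhds_zero_nat.add
      (tendsto_one_div_atTop_nhds_zero_nat.mul tendsto_one_div_atTop_nhds_zero_nat)
  rw [mul_zero, add_zero] at h1
  refine h1.congr' ?_
  filter_upwards [eventually_ge_atTop 1] with B hB
  have hB0 : (0 : ℝ) < B := by exact_mod_cast hB
  field_simp

lemma tendsto_ww (i : ℕ) : Tendsto (fun B : ℕ => ww i B / (B : ℝ) ^ 10) atTop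
    (𝓝 (kap * LL (2 * i + 3) / ((2 * i + 1) * (2 * i + 2)))) := by
  have h1 : Tendsto (fun B : ℕ => ww i B / (B : ℝ) ^ 10 -
      vv (2 * i + 3) B / (B : ℝ) ^ 9 / ((2 * i + 1) * (2 * i + 2))) atTop (𝓝 0) := by
    have hb : Tendsto (fun B : ℕ => 9 ^ 8 * (((B : ℝ) + 1) / (B : ℝ) ^ 2)) atTop (𝓝 0) := by
      have := tendsto_one_div_add.const_mul (9 ^ 8 : ℝ)
      rwa [mul_zero] at this
    apply squeeze_zero_norm' _ hb
    filter_upwards [eventually_ge_atTop 1] with B hB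
    have hB0 : (0 : ℝ) < B := by exact_mod_cast hB
    have e : ww i B / (B : ℝ) ^ 10 - vv (2 * i + 3) B / (B : ℝ) ^ 9 / ((2 * i + 1) * (2 * i + 2)) =
        (∑ n ∈ Finset.range (B + 1), pr B n * ff n *
          (inn i B n - B * pr B n ^ (2 * i + 2) / ((2 * i + 1) * (2 * i + 2)))) / (B : ℝ) ^ 10 := by
      rw [ww_eq]
      unfold vv
      have e1 : (∑ n ∈ Finset.range (B + 1), pr B n ^ (2 * i + 3) * ff n) / (B : ℝ) ^ 9 /
          ((2 * i + 1) * (2 * i + 2)) = (∑ n ∈ Finset.range (B + 1), pr B n * ff n *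
            (B * pr B n ^ (2 * i + 2) / ((2 * i + 1) * (2 * i + 2)))) / (B : ℝ) ^ 10 := by
        rw [Finset.sum_div, Finset.sum_div, Finset.sum_div]
        refine Finset.sum_congr rfl fun n _ => ?_
        rw [pow_succ (pr B n) (2 * i + 2)]
        field_simp
      rw [e1, ← sub_div, ← Finset.sum_sub_distrib]
      congr 1
      refine Finset.sum_congr rfl fun n _ => ?_
      ring
    rw [e, norm_div, Real.norm_eq_abs, Real.norm_eq_abs,
      abs_of_pos (by positivity : (0 : ℝ) < (B : ℝ) ^ 10)]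
    rw [div_le_iff₀ (by positivity)]
    have h3 : |∑ n ∈ Finset.range (B + 1), pr B n * ff n *
          (inn i B n - B * pr B n ^ (2 * i + 2) / ((2 * i + 1) * (2 * i + 2)))| ≤
        ∑ n ∈ Finset.range (B + 1), ff n := by
      refine (Finset.abs_sum_le_sum_abs _ _).trans (Finset.sum_le_sum fun n hn => ?_)
      rw [Finset.mem_range] at hn
      obtain ⟨g1, g2⟩ := pr_mem hB (by omega : n ≤ B)
      have g3 := inn_bound (i := i) hB (by omega : n ≤ B)
      have g4 := ff_nonneg n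
      rw [abs_mul, abs_mul, abs_of_nonneg g1, abs_of_nonneg g4]
      calc pr B n * ff n * |inn i B n - B * pr B n ^ (2 * i + 2) / ((2 * i + 1) * (2 * i + 2))|
          ≤ 1 * ff n * 1 := by gcongr
        _ = ff n := by ring
    refine h3.trans ((sum_ff_le hB).trans (le_of_eq ?_))
    field_simp
  have h2 := h1.add ((tendsto_vv (2 * i + 3)).div_const ((2 * (i : ℝ) + 1) * (2 * i + 2)))
  rw [zero_add] at h2
  refine h2.congr fun B => ?_
  ring

/-! ### numerical part -/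

lemma LL2 : LL 2 = 1 / 495 := by
  norm_num [LL, Finset.sum_range_succ, Nat.choose]

lemma LL3 : LL 3 = 1 / 1980 := by
  norm_num [LL, Finset.sum_range_succ, Nat.choose]

lemma LL5 : LL 5 = 1 / 18018 := by
  norm_num [LL, Finset.sum_range_succ, Nat.choose]

lemma LL7 : LL 7 = 1 / 102960 := by
  norm_num [LL, Finset.sum_range_succ, Nat.choose]

lemma LL9 : LL 9 = 1 / 437580 := by
  norm_num [LL, Finset.sum_range_succ, Nat.choose]

lemma LL11 : LL 11 = 1 / 1511640 := by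
  norm_num [LL, Finset.sum_range_succ, Nat.choose]

lemma LL13 : LL 13 = 1 / 4476780 := by
  norm_num [LL, Finset.sum_range_succ, Nat.choose]

/-- the coefficients of the lower bound of `sin (θ u) / u` -/
noncomputable def aa (θ : ℝ) (i : ℕ) : ℝ := (-1) ^ i * θ ^ (2 * i + 1) / ((2 * i + 1).factorial : ℝ)

lemma numeric (c : ℝ) (hc : c = 529 / 200) :
    (Real.pi * (c - 1) + 1 / 1000) * LL 2 < 6 * ∑ i ∈ Finset.range 6,
      aa (Real.pi * c * (999 / 1000)) i * (LL (2 * i + 3) / ((2 * i + 1) * (2 * i + 2))) := by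
  subst hc
  set θ : ℝ := Real.pi * (529 / 200) * (999 / 1000) with hθ
  have p1 := Real.pi_gt_d6
  have p2 := Real.pi_lt_d6
  have h1 : (8.3012 : ℝ) < θ := by rw [hθ]; norm_num at p1 ⊢; linarith
  have h2 : θ < (8.30121 : ℝ) := by rw [hθ]; norm_num at p2 ⊢; linarith
  have h0 : 0 < θ := by linarith
  have q3 : θ ^ 3 ≤ 8.30121 ^ 3 := by gcongr
  have q5 : 8.3012 ^ 5 ≤ θ ^ 5 := by gcongr
  have q7 : θ ^ 7 ≤ 8.30121 ^ 7 := by gcongr
  have q9 : 8.3012 ^ 9 ≤ θ ^ 9 := by gcongr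
  have q11 : θ ^ 11 ≤ 8.30121 ^ 11 := by gcongr
  have e : 6 * ∑ i ∈ Finset.range 6, aa θ i * (LL (2 * i + 3) / ((2 * i + 1) * (2 * i + 2))) =
      6 * (θ / 3960 - θ ^ 3 / (6 * 12 * 18018) + θ ^ 5 / (120 * 30 * 102960) -
        θ ^ 7 / (5040 * 56 * 437580) + θ ^ 9 / (362880 * 90 * 1511640) -
        θ ^ 11 / (39916800 * 132 * 4476780)) := by
    simp only [Finset.sum_range_succ, Finset.sum_range_zero]
    norm_num [aa, LL3, LL5, LL7, LL9, LL11, LL13, Nat.factorial]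
    ring
  rw [e, LL2]
  have e2 : (Real.pi * (529 / 200 - 1) + 1 / 1000) * (1 / 495) < 5.1689240 * (1 / 495) := by
    have : Real.pi * (529 / 200 - 1) + 1 / 1000 < 5.1689240 := by
      norm_num at p2 ⊢; linarith
    linarith
  refine e2.trans ?_
  norm_num at q3 q5 q7 q9 q11 h1 ⊢
  linarith

/-! ### error terms -/

noncomputable def EE (B : ℕ) : ℝ := ((B : ℝ) + 1) * (20 * 10 ^ 9 * (B : ℝ) ^ 7)
noncomputable def FF (B : ℕ) : ℝ := ((B : ℝ) + 1) * (9 ^ 8 * (B : ℝ) ^ 8)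

lemma EE_nonneg (B : ℕ) : 0 ≤ EE B := by unfold EE; positivity
lemma FF_nonneg (B : ℕ) : 0 ≤ FF B := by unfold FF; positivity

lemma SS_ff_nonneg {B j : ℕ} (hB : 1 ≤ B) : 0 ≤ SS B j ff := by
  unfold SS
  refine Finset.sum_nonneg fun n _ => ?_
  split_ifs with h
  · obtain ⟨g1, -⟩ := pr_mem hB (by omega : n ≤ B)
    obtain ⟨g2, -⟩ := pr_mem hB h
    exact mul_nonneg (mul_nonneg g1 g2) (ff_nonneg n)
  · exact le_rfl

lemma SS_ff_le {B j : ℕ} (hB : 1 ≤ B) : SS B j ff ≤ FF B := by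
  refine le_trans ?_ (sum_ff_le hB)
  unfold SS
  refine Finset.sum_le_sum fun n _ => ?_
  split_ifs with h
  · obtain ⟨g1, g1'⟩ := pr_mem hB (by omega : n ≤ B)
    obtain ⟨g2, g2'⟩ := pr_mem hB h
    calc pr B n * pr B (n + j) * ff n ≤ 1 * ff n := by
          apply mul_le_mul_of_nonneg_right _ (ff_nonneg n)
          calc pr B n * pr B (n + j) ≤ 1 * 1 := by gcongr
            _ = 1 := one_mul 1
      _ = ff n := one_mul _
  · exact ff_nonneg n

lemma dev_le {B : ℕ} (hB : 2 ≤ B) {Q : ℕ → ℝ}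
    (hd : ∀ n : ℕ, n ≤ B → |Q n - ff n| ≤ 20 / (B : ℝ) ^ 2 * cc n) :
    ∀ n : ℕ, n ≤ B → |Q n - ff n| ≤ 20 * 10 ^ 9 * (B : ℝ) ^ 7 := by
  intro n hn
  have hB0 : (0 : ℝ) < B := by
    have : 0 < B := by omega
    exact_mod_cast this
  refine (hd n hn).trans ?_
  have h1 := cc_le (by omega : 1 ≤ B) hn
  calc 20 / (B : ℝ) ^ 2 * cc n ≤ 20 / (B : ℝ) ^ 2 * (10 ^ 9 * (B : ℝ) ^ 9) := by gcongr
    _ = _ := by field_simp

lemma SS_diff {B j : ℕ} (hB : 2 ≤ B) {Q : ℕ → ℝ}
    (hd : ∀ n : ℕ, n ≤ B → |Q n - ff n| ≤ 20 * 10 ^ 9 * (B : ℝ) ^ 7) :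
    |SS B j Q - SS B j ff| ≤ EE B := by
  unfold SS EE
  rw [← Finset.sum_sub_distrib]
  refine (Finset.abs_sum_le_sum_abs _ _).trans ?_
  calc _ ≤ ∑ n ∈ Finset.range (B + 1), 20 * 10 ^ 9 * (B : ℝ) ^ 7 := by
        refine Finset.sum_le_sum fun n _ => ?_
        split_ifs with h
        · obtain ⟨g1, g1'⟩ := pr_mem (by omega : 1 ≤ B) (by omega : n ≤ B)
          obtain ⟨g2, g2'⟩ := pr_mem (by omega : 1 ≤ B) h
          have e : pr B n * pr B (n + j) * Q n - pr B n * pr B (n + j) * ff n =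
              pr B n * pr B (n + j) * (Q n - ff n) := by ring
          rw [e, abs_mul, abs_of_nonneg (mul_nonneg g1 g2)]
          have h3 := hd n (by omega)
          have h4 := abs_nonneg (Q n - ff n)
          calc pr B n * pr B (n + j) * |Q n - ff n| ≤ 1 * 1 * |Q n - ff n| := by gcongr
            _ = |Q n - ff n| := by ring
            _ ≤ _ := h3
        · rw [sub_self, abs_zero]
          positivity
    _ = _ := by
        rw [Finset.sum_const, Finset.card_range, nsmul_eq_mul]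
        push_cast
        ring

lemma NN_le {B : ℕ} (hB : 2 ≤ B) {Q : ℕ → ℝ}
    (hd : ∀ n : ℕ, n ≤ B → |Q n - ff n| ≤ 20 * 10 ^ 9 * (B : ℝ) ^ 7) :
    ∑ n ∈ Finset.range (B + 1), pr B n ^ 2 * Q n ≤ vv 2 B + EE B := by
  have h1 : ∑ n ∈ Finset.range (B + 1), pr B n ^ 2 * Q n - vv 2 B ≤ EE B := by
    unfold vv EE
    rw [← Finset.sum_sub_distrib]
    calc _ ≤ ∑ n ∈ Finset.range (B + 1), 20 * 10 ^ 9 * (B : ℝ) ^ 7 := by
          refine Finset.sum_le_sum fun n hn => ?_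
          rw [Finset.mem_range] at hn
          obtain ⟨g1, g1'⟩ := pr_mem (by omega : 1 ≤ B) (by omega : n ≤ B)
          have h3 := hd n (by omega)
          have h4 := abs_nonneg (Q n - ff n)
          have h5 := le_abs_self (Q n - ff n)
          calc pr B n ^ 2 * Q n - pr B n ^ 2 * ff n = pr B n ^ 2 * (Q n - ff n) := by ring
            _ ≤ pr B n ^ 2 * |Q n - ff n| := by gcongr
            _ ≤ 1 ^ 2 * |Q n - ff n| := by gcongr
            _ = |Q n - ff n| := by ring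
            _ ≤ _ := h3
      _ = _ := by
          rw [Finset.sum_const, Finset.card_range, nsmul_eq_mul]
          push_cast
          ring
  linarith

lemma harm_le (B : ℕ) : ∑ j ∈ Finset.Icc 1 B, 1 / (j : ℝ) ≤ 1 + Real.log B := by
  have h := harmonic_le_one_add_log B
  rw [harmonic_eq_sum_Icc] at h
  push_cast at h
  simpa [one_div] using h

noncomputable def HH (γ θ : ℝ) (B : ℕ) : ℝ :=
  (6 / B * ∑ i ∈ Finset.range 6, aa θ i * ww i B - 60 / B * (1 + Real.log B) * FF B -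
    66 * (1 + Real.log B) * EE B - γ * (vv 2 B + EE B)) / (B : ℝ) ^ 9

lemma tendsto_log_err :
    Tendsto (fun B : ℕ => (1 + Real.log B) * (((B : ℝ) + 1) / (B : ℝ) ^ 2)) atTop (𝓝 0) := by
  have h1 : Tendsto (fun B : ℕ => Real.log (B : ℝ) / (B : ℝ)) atTop (𝓝 0) :=
    (Real.isLittleO_log_id_atTop.tendsto_div_nhds_zero).comp tendsto_natCast_atTop_atTop
  have h2 : Tendsto (fun B : ℕ => (1 / (B : ℝ) + Real.log (B : ℝ) / (B : ℝ)) *
      (1 + 1 / (B : ℝ))) atTop (𝓝 ((0 + 0) * (1 + 0))) :=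
    (tendsto_one_div_atTop_nhds_zero_nat.add h1).mul
      (tendsto_const_nhds.add tendsto_one_div_atTop_nhds_zero_nat)
  have e : ((0 : ℝ) + 0) * (1 + 0) = 0 := by norm_num
  rw [e] at h2
  refine h2.congr' ?_
  filter_upwards [eventually_ge_atTop 1] with B hB
  have hB0 : (0 : ℝ) < B := by exact_mod_cast hB
  field_simp

lemma tendsto_HH (γ θ : ℝ) : Tendsto (HH γ θ) atTop (𝓝 (kap * (6 * ∑ i ∈ Finset.range 6,
      aa θ i * (LL (2 * i + 3) / ((2 * i + 1) * (2 * i + 2))) - γ * LL 2))) := by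
  have h1 : Tendsto (fun B : ℕ => 6 * ∑ i ∈ Finset.range 6, aa θ i * (ww i B / (B : ℝ) ^ 10)) atTop
      (𝓝 (6 * ∑ i ∈ Finset.range 6,
        aa θ i * (kap * LL (2 * i + 3) / ((2 * i + 1) * (2 * i + 2))))) := by
    apply Tendsto.const_mul
    apply tendsto_finsetSum
    intro i _
    exact (tendsto_ww i).const_mul _
  have h2 := (((h1.sub (tendsto_log_err.const_mul (60 * 9 ^ 8 + 66 * (20 * 10 ^ 9)))).sub
    ((tendsto_vv 2).const_mul γ)).sub (tendsto_one_div_add.const_mul (γ * (20 * 10 ^ 9))))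
  have e : 6 * ∑ i ∈ Finset.range 6,
        aa θ i * (kap * LL (2 * i + 3) / ((2 * i + 1) * (2 * i + 2))) -
        (60 * 9 ^ 8 + 66 * (20 * 10 ^ 9)) * 0 - γ * (kap * LL 2) - γ * (20 * 10 ^ 9) * 0 =
      kap * (6 * ∑ i ∈ Finset.range 6,
      aa θ i * (LL (2 * i + 3) / ((2 * i + 1) * (2 * i + 2))) - γ * LL 2) := by
    have e5 : kap * (6 * ∑ i ∈ Finset.range 6,
      aa θ i * (LL (2 * i + 3) / ((2 * i + 1) * (2 * i + 2)))) = 6 * ∑ i ∈ Finset.range 6,
        aa θ i * (kap * LL (2 * i + 3) / ((2 * i + 1) * (2 * i + 2))) := by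
      rw [mul_left_comm, Finset.mul_sum]
      refine congrArg _ (Finset.sum_congr rfl fun i _ => ?_)
      ring
    rw [mul_zero, mul_zero, sub_zero, sub_zero, mul_sub, e5]
    ring
  rw [e] at h2
  refine h2.congr' ?_
  filter_upwards [eventually_ge_atTop 1] with B hB
  have hB0 : (0 : ℝ) < B := by exact_mod_cast hB
  unfold HH EE FF
  have e1 : ∑ i ∈ Finset.range 6, aa θ i * (ww i B / (B : ℝ) ^ 10) =
      (∑ i ∈ Finset.range 6, aa θ i * ww i B) / (B : ℝ) ^ 10 := by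
    rw [Finset.sum_div]
    refine Finset.sum_congr rfl fun i _ => ?_
    ring
  rw [e1]
  field_simp
  ring

lemma XX_ge {c η : ℝ} (hc : 0 < c) (hc1 : c ≤ 529 / 200) (hη : 0 < η) (hη1 : η < 1) {B : ℕ}
    (hB : 2 ≤ B) {Q Z : ℕ → ℝ}
    (hd : ∀ n : ℕ, n ≤ B → |Q n - ff n| ≤ 20 * 10 ^ 9 * (B : ℝ) ^ 7)
    (hZ1 : |Z 1| ≤ 1 / (B : ℝ) ^ 2)
    (hZ : ∀ j : ℕ, 2 ≤ j → j ≤ B →
      |Z j - 6 / j * Real.sin (Real.pi * c * η * j / B)| ≤ 60 / (j * B)) :
    6 / B * ∑ i ∈ Finset.range 6, aa (Real.pi * c * η) i * ww i B -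
      60 / B * (1 + Real.log B) * FF B - 66 * (1 + Real.log B) * EE B ≤
      ∑ j ∈ Finset.Icc 1 B, Z j * SS B j Q := by
  have hB0 : (0 : ℝ) < B := by
    have : 0 < B := by omega
    exact_mod_cast this
  have hB1 : (1 : ℝ) ≤ B := by
    have : 1 ≤ B := by omega
    exact_mod_cast this
  set θ : ℝ := Real.pi * c * η with hθ
  have hθ0 : 0 < θ := by positivity
  have hθ1 : θ ≤ 9 := by
    have p2 := Real.pi_lt_d6
    calc θ ≤ 3.141593 * (529 / 200) * 1 := by rw [hθ]; gcongr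
      _ ≤ 9 := by norm_num
  clear_value θ
  -- bounds for `Z`
  have hZlow : ∀ j ∈ Finset.Icc 1 B, 6 / j * Real.sin (θ * j / B) - 60 / (j * B) ≤ Z j := by
    intro j hj
    rw [Finset.mem_Icc] at hj
    rcases Nat.lt_or_ge 1 j with h | h
    · have := (abs_le.1 (hZ j h hj.2)).1
      linarith
    · have : j = 1 := by omega
      subst this
      have h1 := (abs_le.1 hZ1).1
      have h2 : Real.sin (θ * (1 : ℕ) / B) ≤ 9 / B := by
        refine (Real.sin_le (by positivity)).trans ?_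
        rw [Nat.cast_one, mul_one]
        gcongr
      have h3 : 1 / (B : ℝ) ^ 2 ≤ 1 / B := by
        apply one_div_le_one_div_of_le hB0
        nlinarith
      have h4 : 6 / ((1 : ℕ) : ℝ) * Real.sin (θ * (1 : ℕ) / B) ≤ 54 / B := by
        calc 6 / ((1 : ℕ) : ℝ) * Real.sin (θ * (1 : ℕ) / B) ≤ 6 / ((1 : ℕ) : ℝ) * (9 / B) := by
              gcongr
          _ = 54 / B := by push_cast; ring
      have h5 : 60 / (((1 : ℕ) : ℝ) * B) = 54 / B + 6 * (1 / B) := by push_cast; field_simp; norm_num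
      rw [h5]
      have h6 : 0 < 1 / (B : ℝ) := by positivity
      linarith
  have hZabs : ∀ j ∈ Finset.Icc 1 B, |Z j| ≤ 66 * (1 / (j : ℝ)) := by
    intro j hj
    rw [Finset.mem_Icc] at hj
    have hj0 : (0 : ℝ) < j := by
      have : 0 < j := by omega
      exact_mod_cast this
    rcases Nat.lt_or_ge 1 j with h | h
    · have h1 := hZ j h hj.2
      have h2 : |6 / (j : ℝ) * Real.sin (θ * j / B)| ≤ 6 / j := by
        rw [abs_mul, abs_of_pos (by positivity : (0 : ℝ) < 6 / j)]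
        exact mul_le_of_le_one_right (by positivity) (Real.abs_sin_le_one _)
      have h3 : 60 / ((j : ℝ) * B) ≤ 60 / j := by
        apply div_le_div_of_nonneg_left (by norm_num) hj0
        nlinarith
      have h4 : |Z j| ≤ |Z j - 6 / j * Real.sin (θ * j / B)| + |6 / (j : ℝ) * Real.sin (θ * j / B)| := by
        have := abs_add_le (Z j - 6 / j * Real.sin (θ * j / B)) (6 / (j : ℝ) * Real.sin (θ * j / B))
        rwa [sub_add_cancel] at this
      have h5 : 66 * (1 / (j : ℝ)) = 60 / j + 6 / j := by ring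
      rw [h5]
      linarith
    · have : j = 1 := by omega
      subst this
      refine hZ1.trans ?_
      push_cast
      rw [div_le_iff₀ (by positivity)]
      nlinarith
  -- comparison term by term
  have hterm : ∀ j ∈ Finset.Icc 1 B, 6 / B * (∑ i ∈ Finset.range 6, aa θ i *
      (((j : ℝ) / B) ^ (2 * i) * SS B j ff)) - 60 / B * FF B * (1 / (j : ℝ)) -
      66 * EE B * (1 / (j : ℝ)) ≤ Z j * SS B j Q := by
    intro j hj
    have hj' := hj
    rw [Finset.mem_Icc] at hj'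
    have hj0 : (0 : ℝ) < j := by
      have : 0 < j := by omega
      exact_mod_cast this
    have g1 := hZlow j hj
    have g2 := hZabs j hj
    have g3 := SS_ff_nonneg (B := B) (j := j) (by omega)
    have g4 := SS_ff_le (B := B) (j := j) (by omega)
    have g5 := SS_diff (j := j) hB hd
    have g6 := sin_lower (θ * j / B) (by positivity)
    -- rewrite the polynomial
    have e1 : 6 / B * (∑ i ∈ Finset.range 6, aa θ i * (((j : ℝ) / B) ^ (2 * i) * SS B j ff)) =
        6 / j * Sn 6 (θ * j / B) * SS B j ff := by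
      unfold Sn aa
      rw [Finset.mul_sum, Finset.mul_sum, Finset.sum_mul]
      refine Finset.sum_congr rfl fun i _ => ?_
      have hf : ((2 * i + 1).factorial : ℝ) ≠ 0 := by exact_mod_cast (2 * i + 1).factorial_ne_zero
      rw [div_pow, div_pow, mul_pow, pow_succ (B : ℝ) (2 * i), pow_succ (j : ℝ) (2 * i)]
      field_simp
    rw [e1]
    have g7 : 6 / j * Sn 6 (θ * j / B) * SS B j ff ≤
        6 / j * Real.sin (θ * j / B) * SS B j ff := by gcongr
    have g8 : (6 / j * Real.sin (θ * j / B) - 60 / (j * B)) * SS B j ff ≤ Z j * SS B j ff :=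
      mul_le_mul_of_nonneg_right g1 g3
    have g9 : 60 / (j * B) * SS B j ff ≤ 60 / B * FF B * (1 / (j : ℝ)) := by
      calc 60 / (j * B) * SS B j ff ≤ 60 / (j * B) * FF B := by gcongr
        _ = _ := by field_simp
    have g10 : Z j * SS B j ff - Z j * SS B j Q ≤ 66 * EE B * (1 / (j : ℝ)) := by
      calc Z j * SS B j ff - Z j * SS B j Q = Z j * (SS B j ff - SS B j Q) := by ring
        _ ≤ |Z j * (SS B j ff - SS B j Q)| := le_abs_self _
        _ = |Z j| * |SS B j Q - SS B j ff| := by rw [abs_mul, abs_sub_comm (SS B j ff)]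
        _ ≤ 66 * (1 / (j : ℝ)) * EE B := by gcongr
        _ = _ := by ring
    have e2 : (6 / j * Real.sin (θ * j / B) - 60 / (j * B)) * SS B j ff =
        6 / j * Real.sin (θ * j / B) * SS B j ff - 60 / (j * B) * SS B j ff := by ring
    rw [e2] at g8
    linarith
  have hsum := Finset.sum_le_sum hterm
  refine le_trans ?_ hsum
  rw [Finset.sum_sub_distrib, Finset.sum_sub_distrib, ← Finset.mul_sum, ← Finset.mul_sum,
    ← Finset.mul_sum]
  have e3 : ∑ j ∈ Finset.Icc 1 B, ∑ i ∈ Finset.range 6, aa θ i *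
      (((j : ℝ) / B) ^ (2 * i) * SS B j ff) = ∑ i ∈ Finset.range 6, aa θ i * ww i B := by
    rw [Finset.sum_comm]
    refine Finset.sum_congr rfl fun i _ => ?_
    unfold ww
    rw [Finset.mul_sum]
  rw [e3]
  have hh := harm_le B
  have k1 : 60 / B * FF B * ∑ j ∈ Finset.Icc 1 B, 1 / (j : ℝ) ≤ 60 / B * FF B * (1 + Real.log B) := by
    have := FF_nonneg B
    gcongr
  have k2 : 66 * EE B * ∑ j ∈ Finset.Icc 1 B, 1 / (j : ℝ) ≤ 66 * EE B * (1 + Real.log B) := by
    have := EE_nonneg B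
    gcongr
  linarith

end Ideal

theorem ideal_large (c : ℝ) (hc : c = 529 / 200) :
    ∃ (B : ℕ) (η ε0 : ℝ), 2 ≤ B ∧ 1 / 2 < η ∧ η < 1 ∧ 0 < ε0 ∧ ∀ t Q Z : ℕ → ℝ, Q 0 = 1 →
    (∀ n : ℕ, 1 ≤ n → n ≤ B → (n : ℝ) * Q n = ∑ m ∈ Finset.Icc 1 n, t m * Q (n - m)) →
    |t 1| ≤ 1 / (B : ℝ) ^ 2 → (∀ m : ℕ, 2 ≤ m → m ≤ B → |t m - 9| ≤ 1 / (B : ℝ) ^ 2) →
    |Z 1| ≤ 1 / (B : ℝ) ^ 2 →
    (∀ j : ℕ, 2 ≤ j → j ≤ B → |Z j - 6 / j * Real.sin (Real.pi * c * η * j / B)| ≤ 60 / (j * B)) →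
    Real.pi * c * (∑ n ∈ Finset.range (B + 1), pr B n ^ 2 * Q n) -
      (∑ j ∈ Finset.Icc 1 B, Z j * ∑ n ∈ Finset.range (B + 1), if n + j ≤ B then
        pr B n * pr B (n + j) * Q n else 0) ≤
      (Real.pi - ε0) * ∑ n ∈ Finset.range (B + 1), pr B n ^ 2 * Q n := by
  set γ : ℝ := Real.pi * (c - 1) + 1 / 1000 with hγ
  have hγ0 : 0 < γ := by
    rw [hγ, hc]
    have := Real.pi_pos
    have h1 : (0 : ℝ) < 529 / 200 - 1 := by norm_num
    positivity
  have hnum := Ideal.numeric c hc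
  have hlim := Ideal.tendsto_HH γ (Real.pi * c * (999 / 1000))
  have hpos : 0 < Ideal.kap * (6 * ∑ i ∈ Finset.range 6,
      Ideal.aa (Real.pi * c * (999 / 1000)) i *
        (Ideal.LL (2 * i + 3) / ((2 * i + 1) * (2 * i + 2))) - γ * Ideal.LL 2) :=
    mul_pos Ideal.kap_pos (sub_pos.2 hnum)
  obtain ⟨B, hB1, hB2⟩ := ((hlim.eventually (lt_mem_nhds hpos)).and (eventually_ge_atTop 2)).exists
  refine ⟨B, 999 / 1000, 1 / 1000, hB2, by norm_num, by norm_num, by norm_num, ?_⟩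
  intro t Q Z hQ0 hQ ht1 ht hZ1 hZ
  have hB0 : (0 : ℝ) < B := by
    have : 0 < B := by omega
    exact_mod_cast this
  have hd := Ideal.dev_le hB2 (Ideal.perturb hB2 hQ0 hQ ht1 ht)
  have hN := Ideal.NN_le hB2 hd
  have hX := Ideal.XX_ge (c := c) (η := 999 / 1000) (by rw [hc]; norm_num) hc.le (by norm_num)
    (by norm_num) hB2 hd hZ1 hZ
  unfold Ideal.HH at hB1
  rw [lt_div_iff₀ (by positivity), zero_mul] at hB1
  have hXS : (∑ j ∈ Finset.Icc 1 B, Z j * ∑ n ∈ Finset.range (B + 1), if n + j ≤ B then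
        pr B n * pr B (n + j) * Q n else 0) = ∑ j ∈ Finset.Icc 1 B, Z j * Ideal.SS B j Q := rfl
  rw [hXS]
  set NQ := ∑ n ∈ Finset.range (B + 1), pr B n ^ 2 * Q n with hNQ
  have h1 : γ * NQ ≤ γ * (Ideal.vv 2 B + Ideal.EE B) := mul_le_mul_of_nonneg_left hN hγ0.le
  have h2 : γ * NQ ≤ ∑ j ∈ Finset.Icc 1 B, Z j * Ideal.SS B j Q := by linarith
  have e : Real.pi * c * NQ - (Real.pi - 1 / 1000) * NQ = γ * NQ := by rw [hγ]; ring
  linarith

end LG
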