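import Pool.Agent.H382L.Defs
import Pool.Agent.H382P.Mom

/-! L1: mean square of a Dirichlet polynomial against the Gaussian weight -/

open Complex Filter Topology Set MeasureTheory

namespace LG

open SG (phi hh nn dd dl)
open SP

namespace MSAux

open SG.MVaux (ek_int ek_val ek_norm cpow_nat log_gap_sq ev_small)

/-- Gaussian mean value: the diagonal up to the off-diagonal terms -/
theorem exact {ι : Type*} [DecidableEq ι] (D t0 : ℝ) (hD : 0 < D) (F : Finset ι) (B : ι → ℂ)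
    (lam : ι → ℝ) (R : ℝ) (hR : ∀ f ∈ F, ∀ g ∈ F, f ≠ g →
      ‖B f‖ * ‖B g‖ * Real.exp (-(D ^ 2 * (lam g - lam f) ^ 2 / 2)) ≤ R) (hR0 : 0 ≤ R) :
    Integrable (fun t : ℝ => wt t0 D t * ‖∑ f ∈ F, B f * cexp (-(I * (lam f : ℂ) * t))‖ ^ 2) ∧
    |(∫ t : ℝ, wt t0 D t * ‖∑ f ∈ F, B f * cexp (-(I * (lam f : ℂ) * t))‖ ^ 2) -
      D * Real.sqrt (2 * Real.pi) * ∑ f ∈ F, ‖B f‖ ^ 2| ≤
      D * Real.sqrt (2 * Real.pi) * ((F.card : ℝ) ^ 2 * R) := by
  have hpt : ∀ t : ℝ, ((wt t0 D t * ‖∑ f ∈ F, B f * cexp (-(I * (lam f : ℂ) * t))‖ ^ 2 : ℝ) : ℂ) =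
      ∑ f ∈ F, ∑ g ∈ F, (B f * (starRingEnd ℂ) (B g)) *
        ((Real.exp (-(t - t0) ^ 2 / (2 * D ^ 2)) : ℂ) *
          cexp (I * ((lam g - lam f : ℝ) : ℂ) * t)) := by
    intro t
    have h1 : ((‖∑ f ∈ F, B f * cexp (-(I * (lam f : ℂ) * t))‖ ^ 2 : ℝ) : ℂ) =
        (∑ f ∈ F, B f * cexp (-(I * (lam f : ℂ) * t))) *
          (starRingEnd ℂ) (∑ f ∈ F, B f * cexp (-(I * (lam f : ℂ) * t))) := by
      rw [Complex.mul_conj, Complex.normSq_eq_norm_sq]
    rw [Complex.ofReal_mul, h1, map_sum, Finset.sum_mul_sum, Finset.mul_sum]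
    refine Finset.sum_congr rfl fun f _ => ?_
    rw [Finset.mul_sum]
    refine Finset.sum_congr rfl fun g _ => ?_
    have h2 : (starRingEnd ℂ) (B g * cexp (-(I * (lam g : ℂ) * t))) =
        (starRingEnd ℂ) (B g) * cexp (I * (lam g : ℂ) * t) := by
      rw [map_mul, ← Complex.exp_conj]
      congr 2
      simp
    rw [h2]
    have h3 : cexp (I * ((lam g - lam f : ℝ) : ℂ) * t) =
        cexp (-(I * (lam f : ℂ) * t)) * cexp (I * (lam g : ℂ) * t) := by
      rw [← Complex.exp_add]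
      congr 1
      push_cast
      ring
    rw [h3]
    unfold wt
    ring
  have hint : Integrable (fun t : ℝ =>
      ((wt t0 D t * ‖∑ f ∈ F, B f * cexp (-(I * (lam f : ℂ) * t))‖ ^ 2 : ℝ) : ℂ)) := by
    simp_rw [hpt]
    exact integrable_finsetSum _ fun f _ => integrable_finsetSum _ fun g _ =>
      (ek_int D t0 _ hD).const_mul _
  have hintR : Integrable (fun t : ℝ =>
      wt t0 D t * ‖∑ f ∈ F, B f * cexp (-(I * (lam f : ℂ) * t))‖ ^ 2) := by
    have := hint.re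
    simpa only [RCLike.re_to_complex, Complex.ofReal_re] using this
  refine ⟨hintR, ?_⟩
  have h4 : ((∫ t : ℝ, wt t0 D t * ‖∑ f ∈ F, B f * cexp (-(I * (lam f : ℂ) * t))‖ ^ 2 : ℝ) : ℂ) =
      ∑ f ∈ F, ∑ g ∈ F, (B f * (starRingEnd ℂ) (B g)) *
        (((D * Real.sqrt (2 * Real.pi) : ℝ) : ℂ) *
        (cexp (I * ((lam g - lam f : ℝ) : ℂ) * t0) *
          ((Real.exp (-(D ^ 2 * (lam g - lam f) ^ 2 / 2)) : ℝ) : ℂ))) := by
    rw [← integral_complex_ofReal]
    simp_rw [hpt]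
    rw [integral_finsetSum _ fun f _ => integrable_finsetSum _ fun g _ =>
      (ek_int D t0 _ hD).const_mul _]
    refine Finset.sum_congr rfl fun f _ => ?_
    rw [integral_finsetSum _ fun g _ => (ek_int D t0 _ hD).const_mul _]
    refine Finset.sum_congr rfl fun g _ => ?_
    rw [integral_const_mul, ek_val D t0 _ hD]
  have hDs : 0 ≤ D * Real.sqrt (2 * Real.pi) := by positivity
  have h5 : ((D * Real.sqrt (2 * Real.pi) * ∑ f ∈ F, ‖B f‖ ^ 2 : ℝ) : ℂ) =
      ∑ f ∈ F, ∑ g ∈ F, if f = g then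
        (B f * (starRingEnd ℂ) (B g)) * ((D * Real.sqrt (2 * Real.pi) : ℝ) : ℂ) else 0 := by
    rw [Complex.ofReal_mul, Complex.ofReal_sum, Finset.mul_sum]
    refine Finset.sum_congr rfl fun f hf => ?_
    rw [Finset.sum_ite_eq, if_pos hf, Complex.mul_conj, Complex.normSq_eq_norm_sq]
    ring
  rw [← Real.norm_eq_abs, ← Complex.norm_real, Complex.ofReal_sub, h4, h5,
    ← Finset.sum_sub_distrib]
  have h6 : ∀ f ∈ F, ∀ g ∈ F, ‖(B f * (starRingEnd ℂ) (B g)) *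
        (((D * Real.sqrt (2 * Real.pi) : ℝ) : ℂ) *
        (cexp (I * ((lam g - lam f : ℝ) : ℂ) * t0) *
          ((Real.exp (-(D ^ 2 * (lam g - lam f) ^ 2 / 2)) : ℝ) : ℂ))) -
        (if f = g then (B f * (starRingEnd ℂ) (B g)) *
          ((D * Real.sqrt (2 * Real.pi) : ℝ) : ℂ) else 0)‖ ≤ D * Real.sqrt (2 * Real.pi) * R := by
    intro f hf g hg
    by_cases hfg : f = g
    · subst hfg
      rw [if_pos rfl]
      have : (B f * (starRingEnd ℂ) (B f)) *
        (((D * Real.sqrt (2 * Real.pi) : ℝ) : ℂ) *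
        (cexp (I * ((lam f - lam f : ℝ) : ℂ) * t0) *
          ((Real.exp (-(D ^ 2 * (lam f - lam f) ^ 2 / 2)) : ℝ) : ℂ))) -
        (B f * (starRingEnd ℂ) (B f)) * ((D * Real.sqrt (2 * Real.pi) : ℝ) : ℂ) = 0 := by
        simp
      rw [this, norm_zero]
      positivity
    · rw [if_neg hfg, sub_zero, norm_mul, norm_mul, norm_mul, norm_mul, RCLike.norm_conj,
        Complex.norm_real, Complex.norm_real, Real.norm_of_nonneg hDs,
        Real.norm_of_nonneg (Real.exp_pos _).le]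
      have e1 : ‖cexp (I * ((lam g - lam f : ℝ) : ℂ) * t0)‖ = 1 := by
        rw [Complex.norm_exp]
        have : (I * ((lam g - lam f : ℝ) : ℂ) * t0).re = 0 := by
          rw [mul_assoc, ← Complex.ofReal_mul, Complex.I_mul_re, Complex.ofReal_im, neg_zero]
        rw [this, Real.exp_zero]
      rw [e1, one_mul]
      calc ‖B f‖ * ‖B g‖ * (D * Real.sqrt (2 * Real.pi) *
            Real.exp (-(D ^ 2 * (lam g - lam f) ^ 2 / 2)))
          = D * Real.sqrt (2 * Real.pi) * (‖B f‖ * ‖B g‖ *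
            Real.exp (-(D ^ 2 * (lam g - lam f) ^ 2 / 2))) := by ring
        _ ≤ _ := mul_le_mul_of_nonneg_left (hR f hf g hg hfg) hDs
  calc _ ≤ ∑ f ∈ F, ∑ g ∈ F, D * Real.sqrt (2 * Real.pi) * R := by
        refine norm_sum_le_of_le _ fun f hf => ?_
        rw [← Finset.sum_sub_distrib]
        exact norm_sum_le_of_le _ fun g hg => h6 f hf g hg
    _ = _ := by
        rw [Finset.sum_const, Finset.sum_const]
        simp only [nsmul_eq_mul]
        ring

theorem DP_eq (N : ℕ) (d : ℕ → ℂ) (t : ℝ) : DP N d (⟨1 / 2, t⟩ : ℂ) =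
    ∑ n ∈ Finset.Icc 1 N, (d n * (n : ℂ) ^ (-(1 / 2 : ℂ))) *
      cexp (-(I * ((Real.log n : ℝ) : ℂ) * t)) := by
  unfold DP
  refine Finset.sum_congr rfl fun n hn => ?_
  have hn1 := (Finset.mem_Icc.mp hn).1
  have e : (-(⟨1 / 2, t⟩ : ℂ)) = -(1 / 2 : ℂ) + -(I * t) := by
    apply Complex.ext <;> simp
  rw [e, cpow_nat n hn1, cpow_nat n hn1, mul_assoc, ← Complex.exp_add]
  congr 2
  ring

theorem half_norm (n : ℕ) (hn : 1 ≤ n) : ‖(n : ℂ) ^ (-(1 / 2 : ℂ))‖ ^ 2 = 1 / (n : ℝ) := by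
  have hn0 : (0 : ℝ) < n := by exact_mod_cast hn
  have e : (-(1 / 2 : ℂ)) = ((-(1 / 2) : ℝ) : ℂ) := by push_cast; ring
  rw [e, Complex.norm_natCast_cpow_of_pos (by omega), Complex.ofReal_re, ← Real.rpow_natCast,
    ← Real.rpow_mul hn0.le]
  norm_num
  rw [Real.rpow_neg_one]

theorem half_norm_le (n : ℕ) (hn : 1 ≤ n) : ‖(n : ℂ) ^ (-(1 / 2 : ℂ))‖ ≤ 1 := by
  have h := half_norm n hn
  have h1 : (1 : ℝ) / n ≤ 1 := by
    rw [div_le_one (by exact_mod_cast hn)]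
    exact_mod_cast hn
  nlinarith [norm_nonneg ((n : ℂ) ^ (-(1 / 2 : ℂ)))]

end MSAux

open MSAux in
open SG.MVaux (ek_int ek_val ek_norm cpow_nat log_gap_sq ev_small) in
theorem mean_sq (κ : ℝ) (hκ : 0 < κ) (hκ1 : κ < 1 / 2) : ∃ T0 : ℝ, 10 ≤ T0 ∧ ∀ T : ℝ, T0 ≤ T →
    ∀ t0 : ℝ, 11 / 10 * T ≤ t0 → t0 ≤ 19 / 10 * T → ∀ d : ℕ → ℂ, (∀ n, ‖d n‖ ≤ T) →
    |(∫ t in (T + 2 * Real.log T)..(2 * T - 2 * Real.log T),
      wt t0 (dd κ T) t * ‖DP (nn κ T) d (⟨1 / 2, t⟩ : ℂ)‖ ^ 2) -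
      Real.sqrt (2 * Real.pi) * dd κ T * ND (nn κ T) d| ≤ 1 := by
  obtain ⟨T1, h10, hT1⟩ := ev_small κ (1 / 3200) 8 hκ (by norm_num)
  obtain ⟨T2, hT2⟩ : ∃ T2 : ℝ, ∀ T : ℝ, T2 ≤ T → 2 * Real.log T ≤ T / 20 := by
    have h := (Real.isLittleO_log_id_atTop.bound (show (0 : ℝ) < 1 / 40 by norm_num))
    rw [eventually_atTop] at h
    obtain ⟨a, ha⟩ := h
    refine ⟨max a 1, fun T hT => ?_⟩
    have h1 := ha T ((le_max_left _ _).trans hT)
    have hT1 : 1 ≤ T := (le_max_right _ _).trans hT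
    simp only [id, Real.norm_eq_abs] at h1
    rw [abs_of_nonneg (Real.log_nonneg hT1), abs_of_nonneg (by linarith)] at h1
    linarith
  refine ⟨max T1 T2, h10.trans (le_max_left _ _), fun T hT t0 ht0 ht0' d hd => ?_⟩
  have hT10 : 10 ≤ T := h10.trans ((le_max_left _ _).trans hT)
  have hTpos : 0 < T := by linarith
  have hlog := hT2 T ((le_max_right _ _).trans hT)
  have hlog0 : 0 ≤ Real.log T := Real.log_nonneg (by linarith)
  have hD : 0 < dd κ T := SG.Deep.dd_pos κ T hTpos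
  obtain ⟨hN1, hN2, hN3⟩ := SG.nn_bounds κ T (by linarith) (by linarith)
  have hN : (0 : ℝ) < nn κ T := by exact_mod_cast hN1
  have hDT : dd κ T ≤ T := by
    calc dd κ T ≤ T ^ (1 : ℝ) := Real.rpow_le_rpow_of_exponent_le (by linarith) (by linarith)
      _ = T := Real.rpow_one T
  have hNT : (nn κ T : ℝ) ≤ T := by
    calc (nn κ T : ℝ) ≤ T ^ (1 - κ) := hN3
      _ ≤ T ^ (1 : ℝ) := Real.rpow_le_rpow_of_exponent_le (by linarith) (by linarith)
      _ = T := Real.rpow_one T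
  have hs3 : Real.sqrt (2 * Real.pi) ≤ 3 := by
    rw [Real.sqrt_le_left (by norm_num)]
    have := Real.pi_lt_d2
    norm_num at this ⊢
    linarith
  set N := nn κ T with hNdef
  set D := dd κ T with hDdef
  set B : ℕ → ℂ := fun n => d n * (n : ℂ) ^ (-(1 / 2 : ℂ)) with hB
  have hBn : ∀ n ∈ Finset.Icc 1 N, ‖B n‖ ≤ T := by
    intro n hn
    have h1 := half_norm_le n (Finset.mem_Icc.mp hn).1
    rw [hB]
    simp only
    rw [norm_mul]
    calc _ ≤ T * 1 := mul_le_mul (hd n) h1 (norm_nonneg _) hTpos.le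
      _ = T := mul_one T
  set E1 : ℝ := Real.exp (-(1 / 2) * T ^ κ) with hE1
  have hTk : T ^ κ ≤ D ^ 2 / (N : ℝ) ^ 2 := SG.dd_nn κ T (by linarith) (by linarith)
  have hoff : ∀ m ∈ Finset.Icc 1 N, ∀ n ∈ Finset.Icc 1 N, m ≠ n →
      ‖B m‖ * ‖B n‖ * Real.exp (-(D ^ 2 * (Real.log n - Real.log m) ^ 2 / 2)) ≤ T * T * E1 := by
    intro m hm n hn hmn
    obtain ⟨hm1, hmN⟩ := Finset.mem_Icc.mp hm
    obtain ⟨hn1, hnN⟩ := Finset.mem_Icc.mp hn
    have e2 : Real.exp (-(D ^ 2 * (Real.log n - Real.log m) ^ 2 / 2)) ≤ E1 := by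
      apply Real.exp_le_exp.mpr
      have h := log_gap_sq hm1 hmN hn1 hnN hmn
      have h' : D ^ 2 * (1 / (N : ℝ) ^ 2) ≤ D ^ 2 * (Real.log n - Real.log m) ^ 2 :=
        mul_le_mul_of_nonneg_left h (by positivity)
      have e3 : D ^ 2 / (N : ℝ) ^ 2 = D ^ 2 * (1 / (N : ℝ) ^ 2) := by field_simp
      rw [e3] at hTk
      linarith
    exact mul_le_mul (mul_le_mul (hBn m hm) (hBn n hn) (norm_nonneg _) hTpos.le) e2
      (Real.exp_pos _).le (by positivity)
  obtain ⟨hint, hmain⟩ := exact D t0 hD (Finset.Icc 1 N) B (fun n => Real.log n) (T * T * E1)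
    hoff (by positivity)
  rw [Nat.card_Icc, Nat.add_sub_cancel] at hmain
  have hND : ∑ n ∈ Finset.Icc 1 N, ‖B n‖ ^ 2 = ND N d := by
    unfold ND
    refine Finset.sum_congr rfl fun n hn => ?_
    rw [hB]
    simp only
    rw [norm_mul, mul_pow, half_norm n (Finset.mem_Icc.mp hn).1]
    ring
  rw [hND] at hmain
  have hDP : ∀ t : ℝ, DP N d (⟨1 / 2, t⟩ : ℂ) =
      ∑ n ∈ Finset.Icc 1 N, B n * cexp (-(I * ((Real.log n : ℝ) : ℂ) * t)) :=
    fun t => DP_eq N d t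
  simp_rw [← hDP] at hint hmain
  -- pointwise bound of the polynomial
  have hDPb : ∀ t : ℝ, ‖DP N d (⟨1 / 2, t⟩ : ℂ)‖ ^ 2 ≤ T ^ 4 := by
    intro t
    have h1 : ‖DP N d (⟨1 / 2, t⟩ : ℂ)‖ ≤ T ^ 2 := by
      rw [hDP]
      calc _ ≤ ∑ n ∈ Finset.Icc 1 N, T := by
            refine norm_sum_le_of_le _ fun n hn => ?_
            rw [norm_mul]
            have e1 : ‖cexp (-(I * ((Real.log n : ℝ) : ℂ) * t))‖ = 1 := by
              rw [Complex.norm_exp]
              have : (-(I * ((Real.log n : ℝ) : ℂ) * t)).re = 0 := by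
                rw [mul_assoc, ← Complex.ofReal_mul, Complex.neg_re, Complex.I_mul_re,
                  Complex.ofReal_im, neg_zero, neg_zero]
              rw [this, Real.exp_zero]
            rw [e1, mul_one]
            exact hBn n hn
        _ = N * T := by rw [Finset.sum_const, Nat.card_Icc, Nat.add_sub_cancel, nsmul_eq_mul]
        _ ≤ T * T := mul_le_mul_of_nonneg_right hNT hTpos.le
        _ = T ^ 2 := by ring
    calc _ ≤ (T ^ 2) ^ 2 := pow_le_pow_left₀ (norm_nonneg _) h1 2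
      _ = T ^ 4 := by ring
  -- the tails
  set J : Set ℝ := Set.Ioc (T + 2 * Real.log T) (2 * T - 2 * Real.log T) with hJ
  have hJint : ∫ t in (T + 2 * Real.log T)..(2 * T - 2 * Real.log T),
      wt t0 D t * ‖DP N d (⟨1 / 2, t⟩ : ℂ)‖ ^ 2 =
      ∫ t in J, wt t0 D t * ‖DP N d (⟨1 / 2, t⟩ : ℂ)‖ ^ 2 := by
    rw [intervalIntegral.integral_of_le (by linarith)]
  have hcompl := integral_add_compl (measurableSet_Ioc : MeasurableSet J) hint
  set E2 : ℝ := Real.exp (-(1 / 1600) * T ^ κ) with hE2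
  have hD2 : (Real.sqrt 2 * D) ^ 2 = 2 * D ^ 2 := by
    rw [mul_pow, Real.sq_sqrt (by norm_num)]
  have hsD : 0 < Real.sqrt 2 * D := by positivity
  have hg := SG.Deep.gauss_integrable (Real.sqrt 2 * D) t0 hsD
  have hTD : T ^ κ = T ^ 2 / D ^ 2 := by
    rw [hDdef, dd, eq_div_iff (by positivity), ← Real.rpow_natCast, ← Real.rpow_natCast,
      ← Real.rpow_mul hTpos.le, ← Real.rpow_add hTpos]
    congr 1
    push_cast
    ring
  have htail : ∀ t ∈ Jᶜ, wt t0 D t * ‖DP N d (⟨1 / 2, t⟩ : ℂ)‖ ^ 2 ≤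
      T ^ 4 * E2 * Real.exp (-(t - t0) ^ 2 / (2 * (Real.sqrt 2 * D) ^ 2)) := by
    intro t ht
    have hdist : (T / 20) ^ 2 ≤ (t - t0) ^ 2 := by
      rw [hJ, Set.mem_compl_iff, Set.mem_Ioc, not_and_or, not_lt, not_le] at ht
      rcases ht with ht | ht
      · have : T / 20 ≤ t0 - t := by linarith
        nlinarith
      · have : T / 20 ≤ t - t0 := by linarith
        nlinarith
    have hw : wt t0 D t ≤ E2 * Real.exp (-(t - t0) ^ 2 / (2 * (Real.sqrt 2 * D) ^ 2)) := by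
      unfold wt
      rw [hE2, ← Real.exp_add]
      apply Real.exp_le_exp.mpr
      rw [hD2, hTD]
      have e1 : -(t - t0) ^ 2 / (2 * D ^ 2) =
          -(t - t0) ^ 2 / (4 * D ^ 2) + -(t - t0) ^ 2 / (2 * (2 * D ^ 2)) := by
        field_simp
        ring
      rw [e1]
      have e2 : -(t - t0) ^ 2 / (4 * D ^ 2) ≤ -(1 / 1600) * (T ^ 2 / D ^ 2) := by
        have : -(1 / 1600) * (T ^ 2 / D ^ 2) = (-(T / 20) ^ 2) / (4 * D ^ 2) := by
          field_simp
          ring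
        rw [this]
        apply div_le_div_of_nonneg_right _ (by positivity)
        linarith
      linarith
    calc wt t0 D t * ‖DP N d (⟨1 / 2, t⟩ : ℂ)‖ ^ 2
        ≤ (E2 * Real.exp (-(t - t0) ^ 2 / (2 * (Real.sqrt 2 * D) ^ 2))) * T ^ 4 :=
          mul_le_mul hw (hDPb t) (by positivity) (by positivity)
      _ = _ := by ring
  have hwt0 : ∀ t : ℝ, 0 ≤ wt t0 D t := fun t => (Real.exp_pos _).le
  have htail2 : ∫ t in Jᶜ, wt t0 D t * ‖DP N d (⟨1 / 2, t⟩ : ℂ)‖ ^ 2 ≤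
      T ^ 4 * E2 * (Real.sqrt 2 * D * Real.sqrt (2 * Real.pi)) := by
    calc _ ≤ ∫ t in Jᶜ, T ^ 4 * E2 * Real.exp (-(t - t0) ^ 2 / (2 * (Real.sqrt 2 * D) ^ 2)) :=
          setIntegral_mono_on hint.integrableOn (hg.const_mul _).integrableOn
            measurableSet_Ioc.compl htail
      _ ≤ ∫ t : ℝ, T ^ 4 * E2 * Real.exp (-(t - t0) ^ 2 / (2 * (Real.sqrt 2 * D) ^ 2)) :=
          setIntegral_le_integral (hg.const_mul _)
            (Eventually.of_forall fun t => by positivity)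
      _ = T ^ 4 * E2 * (Real.sqrt 2 * D * Real.sqrt (2 * Real.pi)) := by
          rw [integral_const_mul]
          congr 1
          have h := ek_val (Real.sqrt 2 * D) t0 0 hsD
          simp only [Complex.ofReal_zero, mul_zero, zero_mul, Complex.exp_zero, mul_one] at h
          have h' : ((∫ t : ℝ, Real.exp (-(t - t0) ^ 2 / (2 * (Real.sqrt 2 * D) ^ 2)) : ℝ) : ℂ) =
              ((Real.sqrt 2 * D * Real.sqrt (2 * Real.pi) : ℝ) : ℂ) := by
            rw [← integral_complex_ofReal, h]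
            simp
          exact_mod_cast h'
  have htail0 : 0 ≤ ∫ t in Jᶜ, wt t0 D t * ‖DP N d (⟨1 / 2, t⟩ : ℂ)‖ ^ 2 :=
    integral_nonneg fun t => mul_nonneg (hwt0 t) (by positivity)
  -- numerical bounds
  have hs2 : Real.sqrt 2 ≤ 3 / 2 := by
    rw [Real.sqrt_le_left (by norm_num)]
    norm_num
  have hE12 : E1 ≤ E2 := by
    apply Real.exp_le_exp.mpr
    have : 0 < T ^ κ := by positivity
    linarith
  set E : ℝ := Real.exp (-(1 / 3200) * T ^ κ) with hE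
  have hE2E : E2 = E * E := by
    rw [hE2, hE, ← Real.exp_add]
    congr 1
    ring
  have hEs : 8 * T ^ 4 * E ≤ 1 := hT1 T ((le_max_left _ _).trans hT)
  have hE0 : 0 < E := Real.exp_pos _
  have hfin : 8 * T ^ 5 * E2 ≤ 1 := by
    have h1 : T ^ 4 * E ≤ 1 / 8 := by linarith
    have h2 : T * E ≤ T ^ 4 * E := by
      apply mul_le_mul_of_nonneg_right _ hE0.le
      calc T = T ^ 1 := (pow_one T).symm
        _ ≤ T ^ 4 := pow_le_pow_right₀ (by linarith) (by norm_num)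
    rw [hE2E]
    calc 8 * T ^ 5 * (E * E) = (8 * T ^ 4 * E) * (T * E) := by ring
      _ ≤ 1 * (T * E) := mul_le_mul_of_nonneg_right hEs (by positivity)
      _ ≤ 1 := by linarith
  have hb1 : D * Real.sqrt (2 * Real.pi) * ((N : ℝ) ^ 2 * (T * T * E1)) ≤ 3 * T ^ 5 * E2 := by
    calc D * Real.sqrt (2 * Real.pi) * ((N : ℝ) ^ 2 * (T * T * E1))
        ≤ (T * 3) * (T ^ 2 * (T * T * E2)) := by
          apply mul_le_mul
          · exact mul_le_mul hDT hs3 (Real.sqrt_nonneg _) hTpos.le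
          · apply mul_le_mul (pow_le_pow_left₀ hN.le hNT 2) _ (by positivity) (by positivity)
            exact mul_le_mul_of_nonneg_left hE12 (by positivity)
          · positivity
          · positivity
      _ = 3 * T ^ 5 * E2 := by ring
  have hb2 : T ^ 4 * E2 * (Real.sqrt 2 * D * Real.sqrt (2 * Real.pi)) ≤ 5 * T ^ 5 * E2 := by
    have h1 : Real.sqrt 2 * D * Real.sqrt (2 * Real.pi) ≤ (3 / 2) * T * 3 := by
      apply mul_le_mul _ hs3 (Real.sqrt_nonneg _) (by positivity)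
      exact mul_le_mul hs2 hDT hD.le (by norm_num)
    have h2 : 0 ≤ T ^ 5 * E2 := by positivity
    calc _ ≤ T ^ 4 * E2 * ((3 / 2) * T * 3) := mul_le_mul_of_nonneg_left h1 (by positivity)
      _ = 9 / 2 * (T ^ 5 * E2) := by ring
      _ ≤ 5 * (T ^ 5 * E2) := by linarith
      _ = _ := by ring
  rw [hJint]
  have hmain' := abs_le.mp hmain
  have hcomm : Real.sqrt (2 * Real.pi) * D * ND N d = D * Real.sqrt (2 * Real.pi) * ND N d := by
    ring
  rw [abs_le, hcomm]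
  constructor <;> linarith [hmain'.1, hmain'.2]

end LG
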