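import Pool.Agent.H382P.MomQ
import Pool.Agent.H382L.Defs

open Complex Filter Topology Set MeasureTheory

namespace LG

open SG (phi hh nn dd dl)
open SP

lemma bt_half (T : ℝ) (W : ℝ → ℂ) (x : ℝ) :
    bt T (fun u => (1 / 2 : ℂ) * W u) x = (1 / 2 : ℂ) * bt T W x := by
  unfold bt
  have h : ∀ u : ℝ, (1 / 2 : ℂ) * W u * (Real.exp (-(u - Real.log x) ^ 2 / 2) : ℂ) =
      (1 / 2 : ℂ) * (W u * (Real.exp (-(u - Real.log x) ^ 2 / 2) : ℂ)) := fun u => by ring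
  simp_rw [h]
  rw [intervalIntegral.integral_const_mul]
  ring

lemma QW_half (T t l : ℝ) (W : ℝ → ℂ) :
    QW T t l (fun u => (1 / 2 : ℂ) * W u) = (1 / 2 : ℂ) * QW T t l W := by
  unfold QW
  simp_rw [bt_half]
  rw [Finset.mul_sum, Finset.mul_sum, Finset.mul_sum]
  apply Finset.sum_congr rfl
  intro p _
  ring

theorem mom_QW (κ : ℝ) (hκ : 0 < κ) (hκ1 : κ < 1 / 2) :
    ∃ C T0 : ℝ, 0 < C ∧ 10 ≤ T0 ∧ ∀ T : ℝ, T0 ≤ T → ∀ (t0 : ℝ) (k : ℕ) (W : ℝ → ℂ), 1 ≤ k →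
    Continuous W → (∀ u, ‖W u‖ ≤ 2) →
    Integrable (fun t : ℝ => wt t0 (dd κ T) t * ‖QW T t (ell κ T k) W‖ ^ (2 * k)) ∧
      ∫ t : ℝ, wt t0 (dd κ T) t * ‖QW T t (ell κ T k) W‖ ^ (2 * k) ≤ dd κ T * (C / k) ^ k := by
  obtain ⟨C, T0, hC, h10, hT0⟩ := MomQAux.core κ hκ hκ1
  refine ⟨4 * C, T0, by positivity, h10, fun T hT t0 k W hk _ hW => ?_⟩
  have hk0 : (0 : ℝ) < k := by exact_mod_cast hk
  have hW' : ∀ u ∈ Set.Icc 0 (Real.log T), ‖(1 / 2 : ℂ) * W u‖ ≤ 1 := by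
    intro u _
    rw [norm_mul]
    have h1 : ‖(1 / 2 : ℂ)‖ = 1 / 2 := by norm_num
    rw [h1]
    have := hW u
    linarith
  obtain ⟨h1, h2⟩ := hT0 T hT t0 k hk _ hW'
  have h3 : ∀ t : ℝ, wt t0 (dd κ T) t * ‖QW T t (ell κ T k) W‖ ^ (2 * k) =
      4 ^ k * (wt t0 (dd κ T) t * ‖QW T t (ell κ T k) (fun u => (1 / 2 : ℂ) * W u)‖ ^ (2 * k)) := by
    intro t
    rw [QW_half, norm_mul]
    have h4 : ‖(1 / 2 : ℂ)‖ = 1 / 2 := by norm_num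
    rw [h4, mul_pow]
    have h5 : (4 : ℝ) ^ k * (1 / 2) ^ (2 * k) = 1 := by
      rw [pow_mul, ← mul_pow]
      norm_num
    calc wt t0 (dd κ T) t * ‖QW T t (ell κ T k) W‖ ^ (2 * k)
        = ((4 : ℝ) ^ k * (1 / 2) ^ (2 * k)) *
          (wt t0 (dd κ T) t * ‖QW T t (ell κ T k) W‖ ^ (2 * k)) := by rw [h5, one_mul]
      _ = _ := by ring
  simp_rw [h3]
  refine ⟨h1.const_mul _, ?_⟩
  rw [integral_const_mul]
  have h6 : dd κ T * (4 * C / k) ^ k = 4 ^ k * (dd κ T * (C / k) ^ k) := by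
    rw [show 4 * C / (k : ℝ) = 4 * (C / k) by ring, mul_pow]
    ring
  rw [h6]
  exact mul_le_mul_of_nonneg_left h2 (by positivity)

end LG
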