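import Pool.Agent.H382L.Pos3Aux
import Pool.Agent.H382L.Choose3
import Pool.Agent.H382L.Ideal3

open Complex Filter Topology Set MeasureTheory

namespace LG

open SG (phi hh nn dd dl)
open SP

theorem large_pos (c : ℝ) (hc : c = 529 / 200) : ∃ (P : Par) (ε0 C T0 : ℝ), 0 < ε0 ∧ 0 < C ∧
    10 ≤ T0 ∧ ∀ T : ℝ, T0 ≤ T →
      Real.pi * c * ND (nn P.κ T) (dc3 P T) - XD c P.a T (nn P.κ T) (dc3 P T) ≤
        (Real.pi - ε0) * ND (nn P.κ T) (dc3 P T) ∧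
      1 ≤ ND (nn P.κ T) (dc3 P T) ∧ ND (nn P.κ T) (dc3 P T) ≤ C :=
  large_pos_of c (by rw [hc]; norm_num) (by rw [hc]; norm_num) (ideal_large c hc)
    (fun B η hB hη hη1 => choose3 c (by rw [hc]; norm_num) (by rw [hc]; norm_num) B η hB hη hη1)

end LG
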