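import Pool.Agent.H382L.Defs
import Pool.Agent.H382P.Theta

open Complex Filter Topology Set MeasureTheory

namespace LG

open SG (phi hh nn dd dl)
open SP SP.Theta

namespace ThLow

/-- `Θ` is the sum over the zeros of the Poisson integrals, up to `O(1/log T)` -/
lemma th_sum (hRH : RHs) (c a : ℝ) (hc : 0 < c) (ha : 0 < a) :
    ∃ C T0 : ℝ, 0 < C ∧ 10 ≤ T0 ∧ ∀ T : ℝ, T0 ≤ T → ∀ t : ℝ, T + 3 ≤ t → t ≤ 2 * T - 3 →
    ∀ A : Finset ℂ, (∀ s, s ∈ A ↔ s ∈ ZZ T ∧ |s.im - t| ≤ 1) →
      |Th c a T t - ∑ s ∈ A, (mu s : ℝ) *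
        ∫ w in ((t - s.im) - dl c T / 2)..((t - s.im) + dl c T / 2),
        (a / Real.log T) / ((a / Real.log T) ^ 2 + w ^ 2)| ≤ C / Real.log T := by
  obtain ⟨C, T0, hC, hT0, hloc⟩ := loc_exp hRH
  refine ⟨C * a * (2 * Real.pi * c), max T0 (Real.exp (16 * a + 16 * Real.pi * c)),
    by positivity, hT0.trans (le_max_left _ _), ?_⟩
  intro T hT t ht1 ht2 A hA
  have hTT0 : T0 ≤ T := (le_max_left _ _).trans hT
  have hT10 : 10 ≤ T := hT0.trans hTT0
  have hLbig : 16 * a + 16 * Real.pi * c ≤ Real.log T :=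
    (Real.le_log_iff_exp_le (by linarith)).2 ((le_max_right _ _).trans hT)
  have hpc : 0 < Real.pi * c := by positivity
  have hL : 0 < Real.log T := by nlinarith
  unfold Th
  set L := Real.log T with hLdef
  set x := a / L with hx
  have hx0 : 0 < x := by positivity
  have hx16 : x ≤ 1 / 16 := by
    rw [hx, div_le_iff₀ hL]
    linarith
  set δ := dl c T with hδ
  have hδe : δ = 2 * Real.pi * c / L := rfl
  have hδ0 : 0 < δ := by rw [hδe]; positivity
  have hδ16 : δ / 2 ≤ 1 / 16 := by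
    rw [hδe, div_div, div_le_iff₀ (by positivity)]
    linarith
  set F := completedRiemannZeta with hF
  have hne : ∀ v : ℝ, |v - t| ≤ 1 / 16 → F (⟨1 / 2 + x, v⟩ : ℂ) ≠ 0 := fun v hv =>
    (hloc T hTT0 t (by linarith) (by linarith) x v hx0 hx16 hv).1
  have han : ∀ v : ℝ, |v - t| ≤ 1 / 16 → AnalyticAt ℂ F (⟨1 / 2 + x, v⟩ : ℂ) := by
    intro v hv
    have hv0 : 0 < v := by linarith [(abs_le.1 hv).1]
    refine xi_analytic (fun h => ?_) (fun h => ?_)
    · have := congrArg Complex.im h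
      simp at this; linarith
    · have := congrArg Complex.im h
      simp at this; linarith
  have hseg : ∀ u ∈ Set.Icc (t - δ / 2) (t + δ / 2), |u - t| ≤ 1 / 16 := by
    intro u hu
    rw [abs_le]; constructor <;> linarith [hu.1, hu.2]
  have hle : t - δ / 2 ≤ t + δ / 2 := by linarith
  set G : ℝ → ℂ := fun v => logDeriv F (⟨1 / 2 + x, v⟩ : ℂ) with hG
  have hcurve : Continuous (fun v : ℝ => (⟨1 / 2 + x, v⟩ : ℂ)) := by
    have : (fun v : ℝ => (⟨1 / 2 + x, v⟩ : ℂ)) =
        fun v : ℝ => ((1 / 2 + x : ℝ) : ℂ) + I * (v : ℂ) := by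
      funext v
      apply Complex.ext <;> simp
    rw [this]
    fun_prop
  have hGc : ContinuousOn G (Set.uIcc (t - δ / 2) (t + δ / 2)) := by
    rw [Set.uIcc_of_le hle]
    intro v hv
    have h1 := han v (hseg v hv)
    have h2 : ContinuousAt (logDeriv F) (⟨1 / 2 + x, v⟩ : ℂ) := by
      unfold logDeriv
      exact h1.deriv.continuousAt.div h1.continuousAt (hne v (hseg v hv))
    exact (ContinuousAt.comp (f := fun v : ℝ => (⟨1 / 2 + x, v⟩ : ℂ)) (g := logDeriv F) h2
      hcurve.continuousAt).continuousWithinAt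
  set S : ℝ → ℝ := fun v => ∑ s ∈ A, (mu s : ℝ) * x / (x ^ 2 + (v - s.im) ^ 2) with hS
  have hfin : {s : ℂ | s ∈ ZZ T ∧ |s.im - t| ≤ 1}.Finite := by
    refine A.finite_toSet.subset fun s hs => ?_
    exact Finset.mem_coe.2 ((hA s).2 hs)
  have hAeq : hfin.toFinset = A := by
    ext s
    rw [Set.Finite.mem_toFinset, hA]
    exact Iff.rfl
  have hpt : ∀ v ∈ Set.uIoc (t - δ / 2) (t + δ / 2), ‖(G v).re - S v‖ ≤ C * x * L := by
    intro v hv
    rw [Set.uIoc_of_le hle] at hv
    have h1 := (hloc T hTT0 t (by linarith) (by linarith) x v hx0 hx16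
      (hseg v ⟨hv.1.le, hv.2⟩)).2.2
    rw [finsum_mem_eq_finite_toFinset_sum _ hfin, hAeq] at h1
    exact h1
  have hSc : Continuous S := by
    refine continuous_finsetSum _ fun s _ => ?_
    apply Continuous.div continuous_const (by fun_prop)
    intro v
    positivity
  have hSi : (∫ v in (t - δ / 2)..(t + δ / 2), S v) =
      ∑ s ∈ A, (mu s : ℝ) * ∫ w in ((t - s.im) - δ / 2)..((t - s.im) + δ / 2),
        x / (x ^ 2 + w ^ 2) := by
    rw [hS, intervalIntegral.integral_finsetSum]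
    · apply Finset.sum_congr rfl
      intro s _
      have e3 : (fun v : ℝ => (mu s : ℝ) * x / (x ^ 2 + (v - s.im) ^ 2)) =
          fun v => (mu s : ℝ) * (x / (x ^ 2 + (v - s.im) ^ 2)) := by
        funext v; ring
      rw [e3, intervalIntegral.integral_const_mul,
        intervalIntegral.integral_comp_sub_right (fun w : ℝ => x / (x ^ 2 + w ^ 2)) s.im]
      congr 2 <;> ring
    · intro s _
      apply Continuous.intervalIntegrable
      apply Continuous.div continuous_const (by fun_prop)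
      intro v
      positivity
  rw [← hSi]
  change |(∫ v in (t - δ / 2)..(t + δ / 2), (G v).re) - _| ≤ _
  rw [← intervalIntegral.integral_sub]
  · have h2 := intervalIntegral.norm_integral_le_of_norm_le_const hpt
    rw [Real.norm_eq_abs] at h2
    refine h2.trans (le_of_eq ?_)
    have : |t + δ / 2 - (t - δ / 2)| = δ := by
      rw [abs_of_nonneg (by linarith)]; ring
    rw [this, hδe, hx]
    field_simp
  · exact (Complex.continuous_re.comp_continuousOn hGc).intervalIntegrable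
  · exact hSc.intervalIntegrable _ _

/-- covering by the intervals -/
lemma cover_le {ι : Type*} {x d y : ℝ} (hx : 0 < x) (hd : 0 ≤ d) (hy : 0 ≤ y) (N : Finset ι)
    (g : ι → ℝ) (hcov : ∀ w : ℝ, |w| ≤ y → ∃ i ∈ N, |g i - w| ≤ d / 2) :
    (∫ w in (-y)..y, x / (x ^ 2 + w ^ 2)) ≤
      ∑ i ∈ N, ∫ w in (g i - d / 2)..(g i + d / 2), x / (x ^ 2 + w ^ 2) := by
  classical
  set f : ℝ → ℝ := fun w => x / (x ^ 2 + w ^ 2) with hf
  have hfi : Integrable f := poisson_integrable hx
  have hf0 : ∀ w, 0 ≤ f w := poisson_nonneg hx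
  have e1 : ∀ p q : ℝ, p ≤ q → (∫ w in p..q, f w) = ∫ w, (Icc p q).indicator f w := by
    intro p q hpq
    rw [intervalIntegral.integral_of_le hpq, integral_indicator measurableSet_Icc,
      integral_Icc_eq_integral_Ioc]
  rw [e1 _ _ (by linarith : -y ≤ y), Finset.sum_congr rfl
    (fun i _ => e1 (g i - d / 2) (g i + d / 2) (by linarith)), ← integral_finsetSum]
  · apply integral_mono (hfi.indicator measurableSet_Icc)
      (integrable_finsetSum _ fun i _ => hfi.indicator measurableSet_Icc)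
    intro w
    show (Icc (-y) y).indicator f w ≤ ∑ i ∈ N, (Icc (g i - d / 2) (g i + d / 2)).indicator f w
    have hnn : ∀ i ∈ N, 0 ≤ (Icc (g i - d / 2) (g i + d / 2)).indicator f w := fun i _ =>
      Set.indicator_nonneg (fun z _ => hf0 z) w
    by_cases hw : w ∈ Icc (-y) y
    · obtain ⟨i, hi, hiw⟩ := hcov w (abs_le.2 hw)
      refine le_trans ?_ (Finset.single_le_sum hnn hi)
      rw [Set.indicator_of_mem hw, Set.indicator_of_mem]
      rw [abs_le] at hiw
      constructor <;> linarith [hiw.1, hiw.2]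
    · rw [Set.indicator_of_notMem hw]
      exact Finset.sum_nonneg hnn
  · intro i _
    exact hfi.indicator measurableSet_Icc

lemma poisson_low {x y : ℝ} (hx : 0 < x) (hy : 0 < y) :
    Real.pi - 2 * (x / y) ≤ ∫ w in (-y)..y, x / (x ^ 2 + w ^ 2) := by
  have h : (fun w : ℝ => x / (x ^ 2 + w ^ 2)) = fun w => x⁻¹ * (1 + (w / x) ^ 2)⁻¹ := by
    funext w; exact poisson_eq hx w
  rw [h, intervalIntegral.integral_const_mul,
    intervalIntegral.integral_comp_div (fun u : ℝ => (1 + u ^ 2)⁻¹) hx.ne',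
    integral_inv_one_add_sq, smul_eq_mul, ← mul_assoc, inv_mul_cancel₀ hx.ne', one_mul,
    neg_div, Real.arctan_neg, sub_neg_eq_add]
  have h1 : Real.arctan (y / x) = Real.pi / 2 - Real.arctan (x / y) := by
    have := Real.arctan_inv_of_pos (x := x / y) (by positivity)
    rwa [inv_div] at this
  have h2 : Real.arctan (x / y) ≤ x / y := by
    have h3 : 0 ≤ Real.arctan (x / y) := Real.arctan_nonneg.2 (by positivity)
    have h4 := Real.le_tan h3 (Real.arctan_lt_pi_div_two _)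
    rwa [Real.tan_arctan] at h4
  rw [h1]
  linarith

end ThLow

open ThLow

theorem theta_low (hRH : RHs) (c a : ℝ) (hc : 0 < c) (hc1 : c ≤ 3) (ha : 0 < a) :
    ∃ C : ℝ, 0 < C ∧ ∀ R : ℝ, 1 ≤ R → ∃ T0 : ℝ, 10 ≤ T0 ∧ ∀ T : ℝ, T0 ≤ T → ∀ t : ℝ,
    T + 3 ≤ t → t ≤ 2 * T - 3 →
    -C / Real.log T ≤ Th c a T t ∧
    ((∀ x : ℝ, |x - t| ≤ R / Real.log T → ∃ s ∈ ZZ T, |s.im - x| ≤ Real.pi * c / Real.log T) →
      Real.pi - 2 * a / R - C / Real.log T ≤ Th c a T t) := by
  classical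
  obtain ⟨C, T1, hC, hT1, H⟩ := th_sum hRH c a hc ha
  have hpi := Real.pi_pos
  refine ⟨C, hC, ?_⟩
  intro R hR
  refine ⟨max T1 (Real.exp (R + Real.pi * c)), hT1.trans (le_max_left _ _), ?_⟩
  intro T hT t ht1 ht2
  have hTT1 : T1 ≤ T := (le_max_left _ _).trans hT
  have hT10 : 10 ≤ T := hT1.trans hTT1
  have hLbig : R + Real.pi * c ≤ Real.log T :=
    (Real.le_log_iff_exp_le (by linarith)).2 ((le_max_right _ _).trans hT)
  have hfinZ := SP.ZZ_finite T (by linarith)
  have hpc : 0 < Real.pi * c := by positivity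
  set A : Finset ℂ := hfinZ.toFinset.filter (fun s => |s.im - t| ≤ 1) with hAdef
  have hA : ∀ s, s ∈ A ↔ s ∈ ZZ T ∧ |s.im - t| ≤ 1 := by
    intro s
    rw [hAdef, Finset.mem_filter, Set.Finite.mem_toFinset]
  have hΘ := H T hTT1 t ht1 ht2 A hA
  set L := Real.log T with hLdef
  have hL : 0 < L := by linarith
  set x := a / L with hx
  have hx0 : 0 < x := by positivity
  set δ := dl c T with hδ
  have hδe : δ = 2 * Real.pi * c / L := rfl
  have hδ0 : 0 < δ := by rw [hδe]; positivity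
  have hδ2 : δ / 2 = Real.pi * c / L := by rw [hδe]; ring
  set α : ℂ → ℝ := fun s => ∫ w in ((t - s.im) - δ / 2)..((t - s.im) + δ / 2),
    x / (x ^ 2 + w ^ 2) with hα
  have hα0 : ∀ s, 0 ≤ α s := fun s =>
    intervalIntegral.integral_nonneg (by linarith) fun w _ => poisson_nonneg hx0 w
  change |Th c a T t - ∑ s ∈ A, (mu s : ℝ) * α s| ≤ C / L at hΘ
  have hsum0 : 0 ≤ ∑ s ∈ A, (mu s : ℝ) * α s :=
    Finset.sum_nonneg fun s _ => mul_nonneg (Nat.cast_nonneg _) (hα0 s)
  have hlow := (abs_le.1 hΘ).1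
  refine ⟨by rw [neg_div]; linarith, ?_⟩
  intro hcov
  have hmu : ∀ s ∈ A, α s ≤ (mu s : ℝ) * α s := by
    intro s hs
    have hsZ := ((hA s).1 hs).1
    have h1 : 1 ≤ mu s :=
      H370.Loc.mult_pos' H370.good_zeta (by linarith [hsZ.2.2.1]) hsZ.2.2.2.2
    have h2 : (1 : ℝ) ≤ (mu s : ℝ) := by exact_mod_cast h1
    nlinarith [hα0 s]
  have hR0 : 0 < R / L := by positivity
  have h1 := cover_le hx0 hδ0.le hR0.le A (fun s : ℂ => t - s.im) (by
    intro w hw
    obtain ⟨s, hs, hsx⟩ := hcov (t - w) (by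
      have : t - w - t = -w := by ring
      rw [this, abs_neg]
      exact hw)
    refine ⟨s, (hA s).2 ⟨hs, ?_⟩, ?_⟩
    · have h3 : |s.im - t| ≤ |s.im - (t - w)| + |w| := by
        have : s.im - t = (s.im - (t - w)) + (-w) := by ring
        rw [this]
        refine (abs_add_le _ _).trans ?_
        rw [abs_neg]
      have h4 : (R + Real.pi * c) / L ≤ 1 := (div_le_one hL).2 hLbig
      rw [add_div] at h4
      linarith
    · rw [hδ2]
      have : t - s.im - w = -(s.im - (t - w)) := by ring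
      rw [this, abs_neg]
      exact hsx)
  have h2 := poisson_low hx0 hR0
  have h3 : ∑ s ∈ A, α s ≤ ∑ s ∈ A, (mu s : ℝ) * α s := Finset.sum_le_sum hmu
  have h4 : x / (R / L) = a / R := by
    rw [hx]
    have : R ≠ 0 := by positivity
    field_simp
  rw [h4] at h2
  have h5 : 2 * a / R = 2 * (a / R) := by ring
  rw [h5]
  change _ ≤ ∑ s ∈ A, α s at h1
  linarith

end LG
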