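import Pool.Agent.H382L.Large0
import Pool.Agent.H382L.MeanSq
import Pool.Agent.H382L.EvalTh
import Pool.Agent.H382L.ThLow
import Pool.Agent.H382L.NoZero
import Pool.Agent.H382L.MomQW
import Pool.Agent.H382L.D3
import Pool.Agent.H382L.D3Mom
import Pool.Agent.H382L.Pos3

open Complex Filter Topology Set MeasureTheory

namespace LG

open SG (phi hh nn dd dl ord NZ zmult)
open SP

/-- **many large gaps near every `t0`** -/
theorem large_many (hRH : RHs) (c : ℝ) (hc : c = 529 / 200) :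
    ∃ ε κ K T0 : ℝ, 0 < ε ∧ 0 < κ ∧ κ < 1 / 2 ∧ 1 ≤ K ∧ 10 ≤ T0 ∧ ∀ T : ℝ, T0 ≤ T → ∀ t0 : ℝ,
    11 / 10 * T ≤ t0 → t0 ≤ 19 / 10 * T →
    ε * dd κ T * Real.log T ≤
      ({n : ℕ | 1 ≤ n ∧ (|ord n - t0| ≤ K * dd κ T ∨ |ord (n + 1) - t0| ≤ K * dd κ T) ∧
        2 * Real.pi * c / Real.log T < ord (n + 1) - ord n}.ncard : ℝ) :=
  large_many_of hRH c hc (large_pos c hc)
    (fun c a κ h1 h2 h3 h4 h5 h6 => eval_theta hRH c a κ h1 h2 h3 h4 h5 h6)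
    (fun κ h1 h2 => mean_sq κ h1 h2)
    (fun c a h1 h2 h3 => theta_low hRH c a h1 h2 h3)
    (fun l hl => W3_cont l hl)
    (fun κ h1 h2 => no_zero hRH κ h1 h2)
    (fun κ h1 h2 => mom_QW κ h1 h2)
    (fun P => dc3_bound P)
    (fun P => D3_mom hRH P)

end LG
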