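import Pool.Agent.H382L.Defs
import Pool.Agent.H382P.Theta
import Pool.Agent.H382R2.Final0

open Complex Filter Topology Set MeasureTheory

namespace LG

open SG (phi hh nn dd dl ord NZ zmult)
open SP

namespace LargeAux

theorem wt_cont (t0 D : ℝ) : Continuous (wt t0 D) := by
  unfold wt
  fun_prop

theorem wt_nonneg (t0 D t : ℝ) : 0 ≤ wt t0 D t := (Real.exp_pos _).le

theorem wt_le_one (t0 D t : ℝ) : wt t0 D t ≤ 1 := by
  unfold wt
  rw [Real.exp_le_one_iff]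
  apply div_nonpos_of_nonpos_of_nonneg
  · nlinarith [sq_nonneg (t - t0)]
  · positivity

theorem wt_eq (t0 D t : ℝ) : wt t0 D t = Real.exp (-(1 / (2 * D ^ 2)) * (t - t0) ^ 2) := by
  unfold wt
  congr 1
  ring

theorem wt_integrable (t0 D : ℝ) (hD : 0 < D) : Integrable (wt t0 D) := by
  have h := (integrable_exp_neg_mul_sq (b := 1 / (2 * D ^ 2)) (by positivity)).comp_sub_right t0
  refine h.congr (Filter.Eventually.of_forall fun t => ?_)
  simp only [wt_eq]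

theorem wt_total (t0 D : ℝ) (hD : 0 < D) : ∫ t, wt t0 D t = Real.sqrt (2 * Real.pi) * D := by
  have h := integral_gaussian (1 / (2 * D ^ 2))
  have h2 : ∫ t, wt t0 D t = ∫ t : ℝ, Real.exp (-(1 / (2 * D ^ 2)) * (t - t0) ^ 2) :=
    integral_congr_ae (Filter.Eventually.of_forall fun t => wt_eq t0 D t)
  have h3 := integral_sub_right_eq_self (μ := volume)
    (fun t : ℝ => Real.exp (-(1 / (2 * D ^ 2)) * t ^ 2)) t0
  rw [h2, h3, h]
  have e : Real.pi / (1 / (2 * D ^ 2)) = (2 * Real.pi) * D ^ 2 := by field_simp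
  rw [e, Real.sqrt_mul (by positivity), Real.sqrt_sq hD.le]

theorem wt_int (t0 D V1 V2 : ℝ) (hD : 0 < D) (h : V1 ≤ V2) :
    ∫ t in V1..V2, wt t0 D t ≤ Real.sqrt (2 * Real.pi) * D := by
  rw [intervalIntegral.integral_of_le h, ← wt_total t0 D hD]
  exact setIntegral_le_integral (wt_integrable t0 D hD)
    (Filter.Eventually.of_forall fun t => wt_nonneg t0 D t)

theorem sqrt_two_pi_le : Real.sqrt (2 * Real.pi) ≤ 3 := by
  rw [Real.sqrt_le_left (by norm_num)]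
  have := Real.pi_lt_four
  linarith

theorem two_le_sqrt_two_pi : 2 ≤ Real.sqrt (2 * Real.pi) := by
  apply Real.le_sqrt_of_sq_le
  have := Real.pi_gt_three
  linarith

/-- tail of the Gaussian -/
theorem wt_tail (t0 D t M : ℝ) (hD : 0 < D) (hM : 0 ≤ M) (h : M * D ≤ |t - t0|) :
    wt t0 D t ≤ Real.exp (-M ^ 2 / 4) * wt t0 (2 * D) t := by
  unfold wt
  rw [← Real.exp_add, Real.exp_le_exp]
  have h1 : (M * D) ^ 2 ≤ (t - t0) ^ 2 := by
    rw [← sq_abs (t - t0)]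
    exact pow_le_pow_left₀ (by positivity) h 2
  rw [mul_pow] at h1
  have h2 : M ^ 2 ≤ (t - t0) ^ 2 / D ^ 2 := by
    rw [le_div_iff₀ (by positivity)]; exact h1
  have e1 : -(t - t0) ^ 2 / (2 * D ^ 2) = -((t - t0) ^ 2 / D ^ 2) / 2 := by field_simp
  have e2 : -(t - t0) ^ 2 / (2 * (2 * D) ^ 2) = -((t - t0) ^ 2 / D ^ 2) / 8 := by field_simp; ring
  rw [e1, e2]
  linarith [sq_nonneg M]

theorem mk_cont (x : ℝ) : Continuous (fun t : ℝ => (⟨x, t⟩ : ℂ)) := by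
  have : (fun t : ℝ => (⟨x, t⟩ : ℂ)) = fun t : ℝ => (x : ℂ) + t * I := by
    funext t
    exact Complex.mk_eq_add_mul_I x t
  rw [this]
  fun_prop

theorem DP_cont (N : ℕ) (d : ℕ → ℂ) : Continuous (fun t : ℝ => DP N d (⟨1 / 2, t⟩ : ℂ)) := by
  unfold DP
  apply continuous_finsetSum
  intro n hn
  have hn0 : (n : ℂ) ≠ 0 := by
    have := (Finset.mem_Icc.mp hn).1
    exact_mod_cast (by omega : n ≠ 0)
  apply Continuous.mul continuous_const
  apply Continuous.const_cpow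
  · exact (mk_cont (1 / 2)).neg
  · exact Or.inl hn0

/-- integral of the indicator of an interval -/
theorem ind_int (a b V1 V2 : ℝ) (hab : a ≤ b) (hV : V1 ≤ V2) :
    IntervalIntegrable ((Set.Icc a b).indicator (fun _ => (1 : ℝ))) volume V1 V2 ∧
    ∫ t in V1..V2, (Set.Icc a b).indicator (fun _ => (1 : ℝ)) t ≤ b - a := by
  have hi : Integrable ((Set.Icc a b).indicator (fun _ => (1 : ℝ))) := by
    rw [integrable_indicator_iff measurableSet_Icc]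
    exact integrableOn_const (by simp) (by simp)
  refine ⟨hi.intervalIntegrable, ?_⟩
  rw [intervalIntegral.integral_of_le hV]
  refine (setIntegral_le_integral hi (Filter.Eventually.of_forall fun t => ?_)).trans ?_
  · exact Set.indicator_nonneg (fun _ _ => zero_le_one) t
  · rw [integral_indicator measurableSet_Icc]
    simp [hab]

theorem exists_M (x : ℝ) (hx : 0 < x) : ∃ M : ℝ, 0 ≤ M ∧ Real.exp (-M ^ 2 / 4) ≤ x := by
  refine ⟨4 * max 1 (Real.log (1 / x)), by positivity, ?_⟩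
  have h1 : 1 ≤ max 1 (Real.log (1 / x)) := le_max_left _ _
  have h2 : Real.log (1 / x) ≤ max 1 (Real.log (1 / x)) := le_max_right _ _
  set m := max 1 (Real.log (1 / x))
  have h3 : -(4 * m) ^ 2 / 4 ≤ -Real.log (1 / x) := by nlinarith
  calc Real.exp (-(4 * m) ^ 2 / 4) ≤ Real.exp (-Real.log (1 / x)) := Real.exp_le_exp.mpr h3
    _ = x := by
      rw [one_div, Real.log_inv, neg_neg, Real.exp_log hx]

/-- finiteness of the index set -/
theorem idx_finite (A B : ℝ) :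
    {n : ℕ | 1 ≤ n ∧ (|ord n - A| ≤ B ∨ |ord (n + 1) - A| ≤ B)}.Finite := by
  refine (Set.finite_Iic (NZ (A + B))).subset ?_
  rintro n ⟨hn, h⟩
  have hmono := SG.ord_mono hn (by omega : n ≤ n + 1)
  apply (SG.ord_le_iff hn _).mp
  rcases h with h | h
  · rw [abs_le] at h
    linarith
  · rw [abs_le] at h
    linarith

/-- `ord n` is the ordinate of a zero -/
theorem exists_zero_ord {n : ℕ} (hn : 1 ≤ n) :
    ∃ s : ℂ, riemannZeta s = 0 ∧ 0 < s.re ∧ s.re < 1 ∧ s.im = ord n := by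
  classical
  have h1 := SG.le_NZ_ord hn
  have hne : (SG.ZS_finite (ord n)).toFinset.Nonempty := by
    by_contra h
    rw [Finset.not_nonempty_iff_eq_empty] at h
    rw [SG.NZ_eq, h, Finset.sum_empty] at h1
    omega
  obtain ⟨s, hs, hmax⟩ := (SG.ZS_finite (ord n)).toFinset.exists_max_image (fun s => s.im) hne
  rw [Set.Finite.mem_toFinset] at hs
  obtain ⟨a1, a2, a3, a4, a5⟩ := hs
  refine ⟨s, a1, a2, a3, le_antisymm a5 ?_⟩
  rw [SG.ord_le_iff hn]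
  refine h1.trans ?_
  rw [SG.NZ_eq, SG.NZ_eq]
  apply Finset.sum_le_sum_of_subset
  intro z hz
  have hz' := hz
  rw [Set.Finite.mem_toFinset] at hz ⊢
  exact ⟨hz.1, hz.2.1, hz.2.2.1, hz.2.2.2.1, hmax z hz'⟩

/-- a point far from all zeros near `t` gives a large gap near `t` -/
theorem large_near {T c R r t x : ℝ} (hL1 : 1 ≤ Real.log T) (hc : 0 < c)
    (hRc : R + Real.pi * c ≤ Real.log T) (hR : 0 ≤ R)
    (hr : 0 ≤ r) (hord : ord 1 ≤ T) (ht1 : T + 2 * Real.log T ≤ t)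
    (ht2 : t ≤ 2 * T - 2 * Real.log T) (hx : |x - t| ≤ R / Real.log T)
    (hfar : ∀ s ∈ ZZ T, Real.pi * c / Real.log T < |s.im - x|)
    (hnear : ∃ s ∈ ZZ T, |s.im - t| < r / Real.log T) :
    ∃ n : ℕ, 1 ≤ n ∧ (|ord n - t| ≤ (R + r) / Real.log T ∨
      |ord (n + 1) - t| ≤ (R + r) / Real.log T) ∧
      2 * Real.pi * c / Real.log T < ord (n + 1) - ord n := by
  have hpi := Real.pi_pos
  set L := Real.log T with hL
  have hL0 : 0 < L := by linarith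
  have h1 : (R + Real.pi * c) / L ≤ 1 := (div_le_one hL0).2 hRc
  rw [add_div] at h1
  have hR' : 0 ≤ R / L := by positivity
  have hr' : 0 ≤ r / L := by positivity
  have hc' : 0 < Real.pi * c / L := by positivity
  have hx' := abs_le.1 hx
  have hT0 : 0 < T := (SG.ord_pos le_rfl).trans_le hord
  set n := NZ x with hn
  have hn1 : 1 ≤ n := (SG.ord_le_iff le_rfl x).1 (by linarith)
  have hox : ord n ≤ x := (SG.ord_le_iff hn1 x).2 le_rfl
  have hxo : x < ord (n + 1) := by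
    by_contra h
    push Not at h
    have := (SG.ord_le_iff (by omega : 1 ≤ n + 1) x).1 h
    omega
  have g1 : Real.pi * c / L < x - ord n := by
    rcases le_or_gt (ord n) T with h | h
    · linarith
    · obtain ⟨s, a1, a2, a3, a4⟩ := exists_zero_ord hn1
      have h2 := hfar s ⟨a2, a3, by rw [a4]; exact h, by rw [a4]; linarith, a1⟩
      rw [a4, abs_of_nonpos (by linarith)] at h2
      linarith
  have g2 : Real.pi * c / L < ord (n + 1) - x := by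
    rcases le_or_gt (ord (n + 1)) (2 * T) with h | h
    · obtain ⟨s, a1, a2, a3, a4⟩ := exists_zero_ord (by omega : 1 ≤ n + 1)
      have h2 := hfar s ⟨a2, a3, by rw [a4]; linarith, by rw [a4]; exact h, a1⟩
      rw [a4, abs_of_nonneg (by linarith)] at h2
      exact h2
    · linarith
  refine ⟨n, hn1, ?_, ?_⟩
  · obtain ⟨s, ⟨a1, a2, a3, a4, a5⟩, hs⟩ := hnear
    have hspos : 0 < s.im := by linarith
    have hmul := SG.zmult_pos hspos a5
    have hs' := abs_lt.1 hs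
    rw [add_div]
    rcases le_or_gt s.im x with h | h
    · left
      have h3 : s.im ≤ ord n := by
        by_contra h4
        push Not at h4
        have h5 := SG.jump_one a5 a1 a2 hspos (ord n) h4
        have h6 := SG.le_NZ_ord hn1
        have h7 := SG.NZ_mono h
        omega
      rw [abs_le]
      constructor <;> linarith
    · right
      have h3 : ord (n + 1) ≤ s.im := by
        rw [SG.ord_le_iff (by omega)]
        have h5 := SG.jump_one a5 a1 a2 hspos x h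
        omega
      rw [abs_le]
      constructor <;> linarith
  · have e : 2 * Real.pi * c / L = Real.pi * c / L + Real.pi * c / L := by ring
    rw [e]
    linarith

/-- continuity of `Th` -/
theorem Th_cont (hRH : RHs) (c a : ℝ) (hc : 0 < c) (ha : 0 < a) :
    ∃ T0 : ℝ, 10 ≤ T0 ∧ ∀ T : ℝ, T0 ≤ T →
      ContinuousOn (fun t => Th c a T t) (Set.Icc (T + 3) (2 * T - 3)) := by
  obtain ⟨C, T0, hC, hT0, hloc⟩ := loc_exp hRH
  refine ⟨max T0 (Real.exp (16 * a + 16 * Real.pi * c)), hT0.trans (le_max_left _ _), ?_⟩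
  intro T hT
  have hTT0 : T0 ≤ T := (le_max_left _ _).trans hT
  have hT10 : 10 ≤ T := hT0.trans hTT0
  have hLbig : 16 * a + 16 * Real.pi * c ≤ Real.log T :=
    (Real.le_log_iff_exp_le (by linarith)).2 ((le_max_right _ _).trans hT)
  have hpc : 0 < Real.pi * c := by positivity
  have hL : 0 < Real.log T := by nlinarith
  unfold Th
  set L := Real.log T with hLdef
  set x := a / L with hx
  have hx0 : 0 < x := by positivity
  have hx16 : x ≤ 1 / 16 := by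
    rw [hx, div_le_iff₀ hL]
    linarith
  set δ := dl c T with hδ
  have hδe : δ = 2 * Real.pi * c / L := rfl
  have hδ0 : 0 < δ := by rw [hδe]; positivity
  have hδ16 : δ / 2 ≤ 1 / 16 := by
    rw [hδe, div_div, div_le_iff₀ (by positivity)]
    linarith
  set g : ℝ → ℝ := fun v => (logDeriv completedRiemannZeta (⟨1 / 2 + x, v⟩ : ℂ)).re with hg
  have hgc : ContinuousOn g (Set.Icc (T + 2) (2 * T - 2)) := by
    intro v hv
    have hne := (hloc T hTT0 v hv.1 hv.2 x v hx0 hx16 (by simp)).1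
    have hv0 : 0 < v := by linarith [hv.1]
    have han : AnalyticAt ℂ completedRiemannZeta (⟨1 / 2 + x, v⟩ : ℂ) := by
      refine Theta.xi_analytic (fun h => ?_) (fun h => ?_)
      · have := congrArg Complex.im h
        simp at this; linarith
      · have := congrArg Complex.im h
        simp at this; linarith
    have h2 : ContinuousAt (logDeriv completedRiemannZeta) (⟨1 / 2 + x, v⟩ : ℂ) := by
      unfold logDeriv
      exact han.deriv.continuousAt.div han.continuousAt hne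
    have h3 := ContinuousAt.comp (f := fun v : ℝ => (⟨1 / 2 + x, v⟩ : ℂ))
      (g := logDeriv completedRiemannZeta) h2 (mk_cont _).continuousAt
    exact (Complex.continuous_re.continuousAt.comp h3).continuousWithinAt
  have hle : T + 2 ≤ 2 * T - 2 := by linarith
  have hgi : IntervalIntegrable g volume (T + 2) (2 * T - 2) := by
    apply ContinuousOn.intervalIntegrable
    rwa [Set.uIcc_of_le hle]
  have hF := intervalIntegral.continuousOn_primitive_interval' hgi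
    (Set.left_mem_uIcc (a := T + 2) (b := 2 * T - 2))
  rw [Set.uIcc_of_le hle] at hF
  have hsub : ∀ p ∈ Set.Icc (T + 2) (2 * T - 2), IntervalIntegrable g volume (T + 2) p := by
    intro p hp
    apply ContinuousOn.intervalIntegrable
    rw [Set.uIcc_of_le hp.1]
    exact hgc.mono (Set.Icc_subset_Icc_right hp.2)
  have e : ∀ t ∈ Set.Icc (T + 3) (2 * T - 3), (∫ v in (t - δ / 2)..(t + δ / 2), g v) =
      (∫ v in (T + 2)..(t + δ / 2), g v) - ∫ v in (T + 2)..(t - δ / 2), g v := by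
    intro t ht
    rw [intervalIntegral.integral_interval_sub_left]
    · exact hsub _ ⟨by linarith [ht.1], by linarith [ht.2]⟩
    · exact hsub _ ⟨by linarith [ht.1], by linarith [ht.2]⟩
  refine ContinuousOn.congr ?_ e
  apply ContinuousOn.sub
  · refine hF.comp (f := fun t : ℝ => t + δ / 2) (by fun_prop) ?_
    intro t ht
    exact ⟨by linarith [ht.1], by linarith [ht.2]⟩
  · refine hF.comp (f := fun t : ℝ => t - δ / 2) (by fun_prop) ?_
    intro t ht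
    exact ⟨by linarith [ht.1], by linarith [ht.2]⟩

/-- the pointwise inequality -/
theorem pointwise {D e b th q : ℝ} (he : 0 < e) (hb0 : 0 ≤ b)
    (h : 0 ≤ th - (Real.pi - q) ∨ (-Real.pi ≤ th - (Real.pi - q) ∧ 1 ≤ b)) :
    -(Real.pi * (e * D ^ 4 + 1 / (4 * e) * b)) ≤ D ^ 2 * (th - (Real.pi - q)) := by
  have hpi := Real.pi_pos
  have h1 : D ^ 2 ≤ e * D ^ 4 + 1 / (4 * e) := by
    have : 0 ≤ e * (D ^ 2 - 1 / (2 * e)) ^ 2 := by positivity
    have e1 : e * (D ^ 2 - 1 / (2 * e)) ^ 2 = e * D ^ 4 - D ^ 2 + 1 / (4 * e) := by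
      field_simp
      ring
    linarith
  have h2 : 0 ≤ e * D ^ 4 := by positivity
  have h3 : 0 ≤ 1 / (4 * e) * b := by positivity
  rcases h with h | ⟨h, hb⟩
  · have h4 : 0 ≤ D ^ 2 * (th - (Real.pi - q)) := by positivity
    nlinarith
  · have h4 : D ^ 2 * (-Real.pi) ≤ D ^ 2 * (th - (Real.pi - q)) :=
      mul_le_mul_of_nonneg_left h (by positivity)
    have h5 : 1 / (4 * e) ≤ 1 / (4 * e) * b := le_mul_of_one_le_right (by positivity) hb
    have h6 : Real.pi * D ^ 2 ≤ Real.pi * (e * D ^ 4 + 1 / (4 * e) * b) :=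
      mul_le_mul_of_nonneg_left (by linarith) hpi.le
    linarith

/-- final arithmetic -/
theorem final_arith {ε0 ϵ Δ L R r M CD CQ Nc X3 X4 X5 X6 J : ℝ} {k : ℕ} (hε0 : 0 < ε0)
    (hϵ0 : 0 < ϵ) (hϵ1 : ϵ * CD = ε0 / 32) (hΔ0 : 0 < Δ) (hL0 : 0 < L) (hRr : 0 < R + r)
    (hNc : 0 ≤ Nc) (hMe : Real.exp (-M ^ 2 / 4) ≤ ε0 * ϵ / 48)
    (hkQ : (16 : ℝ) ^ k * (CQ / k) ^ k ≤ ε0 * ϵ / 8)
    (I3 : X3 ≤ CD * Δ) (I4 : X4 ≤ Nc * (4 * ((R + r) / L))) (I5 : X5 ≤ 6 * Δ)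
    (I6 : X6 ≤ Δ * (CQ / k) ^ k) (hlow : ε0 / 2 * Δ ≤ J)
    (hint : J ≤ Real.pi * ϵ * X3 + Real.pi / (4 * ϵ) * X4 +
      Real.pi / (4 * ϵ) * Real.exp (-M ^ 2 / 4) * X5 + Real.pi / (4 * ϵ) * 16 ^ k * X6) :
    ε0 * ϵ / (32 * (R + r)) * Δ * L ≤ Nc := by
  have hpi := Real.pi_pos
  have hpi4 := Real.pi_lt_four
  have hpe : Real.pi / (4 * ϵ) ≤ 1 / ϵ := by
    rw [div_le_div_iff₀ (by positivity) hϵ0]
    nlinarith
  have hpe0 : 0 < Real.pi / (4 * ϵ) := by positivity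
  have J3 : Real.pi * ϵ * X3 ≤ ε0 / 8 * Δ := by
    calc Real.pi * ϵ * X3 ≤ Real.pi * ϵ * (CD * Δ) :=
          mul_le_mul_of_nonneg_left I3 (by positivity)
      _ = Real.pi * (ε0 / 32) * Δ := by rw [← hϵ1]; ring
      _ ≤ 4 * (ε0 / 32) * Δ := by gcongr
      _ = ε0 / 8 * Δ := by ring
  have J4 : Real.pi / (4 * ϵ) * X4 ≤ 1 / ϵ * (Nc * (4 * ((R + r) / L))) := by
    calc Real.pi / (4 * ϵ) * X4 ≤ Real.pi / (4 * ϵ) * (Nc * (4 * ((R + r) / L))) :=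
          mul_le_mul_of_nonneg_left I4 hpe0.le
      _ ≤ 1 / ϵ * (Nc * (4 * ((R + r) / L))) := by gcongr
  have J5 : Real.pi / (4 * ϵ) * Real.exp (-M ^ 2 / 4) * X5 ≤ ε0 / 8 * Δ := by
    calc Real.pi / (4 * ϵ) * Real.exp (-M ^ 2 / 4) * X5 ≤
          Real.pi / (4 * ϵ) * Real.exp (-M ^ 2 / 4) * (6 * Δ) :=
          mul_le_mul_of_nonneg_left I5 (by positivity)
      _ ≤ 1 / ϵ * (ε0 * ϵ / 48) * (6 * Δ) := by gcongr
      _ = ε0 / 8 * Δ := by field_simp; ring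
  have J6 : Real.pi / (4 * ϵ) * 16 ^ k * X6 ≤ ε0 / 8 * Δ := by
    calc Real.pi / (4 * ϵ) * 16 ^ k * X6 ≤
          Real.pi / (4 * ϵ) * 16 ^ k * (Δ * (CQ / k) ^ k) :=
          mul_le_mul_of_nonneg_left I6 (by positivity)
      _ = Real.pi / (4 * ϵ) * (16 ^ k * (CQ / k) ^ k) * Δ := by ring
      _ ≤ Real.pi / (4 * ϵ) * (ε0 * ϵ / 8) * Δ := by gcongr
      _ ≤ 1 / ϵ * (ε0 * ϵ / 8) * Δ := by gcongr
      _ = ε0 / 8 * Δ := by field_simp
  have K : ε0 / 8 * Δ ≤ 1 / ϵ * (Nc * (4 * ((R + r) / L))) := by linarith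
  have e9 : 1 / ϵ * (Nc * (4 * ((R + r) / L))) = Nc * (4 * (R + r)) / (ϵ * L) := by
    field_simp
  rw [e9, le_div_iff₀ (by positivity)] at K
  have e10 : ε0 * ϵ / (32 * (R + r)) * Δ * L = (ε0 / 8 * Δ * (ϵ * L)) / (4 * (R + r)) := by
    field_simp
    ring
  rw [e10, div_le_iff₀ (by positivity)]
  exact K

/-- arithmetic of the defect -/
theorem defect_arith {ε0 q Δ s2 NDv XX c CE CN L IA IB : ℝ} (hε0 : 0 < ε0) (hq0 : 0 < q)
    (hq3 : q ≤ 1) (hq4 : q ≤ ε0 / 2) (hΔ0 : 0 < Δ) (hΔ4 : 4 ≤ ε0 / 4 * Δ) (hL0 : 0 < L)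
    (hCE : 0 < CE) (hs22 : 2 ≤ s2) (hP1 : Real.pi * c * NDv - XX ≤ (Real.pi - ε0) * NDv)
    (hP2 : 1 ≤ NDv) (hP3 : NDv ≤ CN) (hLCE : 4 * (CE * (1 + CN)) / ε0 ≤ L)
    (h1 : IA - s2 * Δ * (Real.pi * c * NDv - XX) ≤ CE * Δ / L * (1 + NDv))
    (h2 : -1 ≤ IB - s2 * Δ * NDv) : ε0 / 2 * Δ ≤ (Real.pi - q) * IB - IA := by
  have hpi4 := Real.pi_lt_four
  have hpi3 := Real.pi_gt_three
  have h3 : s2 * Δ * (Real.pi * c * NDv - XX) ≤ s2 * Δ * ((Real.pi - ε0) * NDv) :=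
    mul_le_mul_of_nonneg_left hP1 (by positivity)
  have h4 : CE * Δ / L * (1 + NDv) ≤ ε0 / 4 * Δ := by
    have h5 : CE * (1 + CN) ≤ ε0 / 4 * L := by
      rw [div_le_iff₀ hε0] at hLCE
      linarith
    calc CE * Δ / L * (1 + NDv) ≤ CE * Δ / L * (1 + CN) := by gcongr
      _ = CE * (1 + CN) * Δ / L := by ring
      _ ≤ ε0 / 4 * L * Δ / L := by gcongr
      _ = ε0 / 4 * Δ := by field_simp
  have h5 : (Real.pi - q) * (s2 * Δ * NDv - 1) ≤ (Real.pi - q) * IB :=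
    mul_le_mul_of_nonneg_left (by linarith) (by linarith)
  have h6 : 2 * Δ * (ε0 / 2) ≤ s2 * Δ * NDv * (ε0 - q) := by
    have h7 : 2 * Δ ≤ s2 * Δ * NDv := by
      calc 2 * Δ = 2 * Δ * 1 := by ring
        _ ≤ s2 * Δ * NDv := by gcongr
    have h8 : 0 ≤ s2 * Δ * NDv := by linarith
    calc 2 * Δ * (ε0 / 2) ≤ s2 * Δ * NDv * (ε0 / 2) :=
          mul_le_mul_of_nonneg_right h7 (by positivity)
      _ ≤ s2 * Δ * NDv * (ε0 - q) := mul_le_mul_of_nonneg_left (by linarith) h8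
  nlinarith

/-- the indicator of the `ρ` neighbourhood of an ordinate -/
noncomputable def ind (ρ : ℝ) (n : ℕ) (t : ℝ) : ℝ :=
  (Set.Icc (ord n - ρ) (ord n + ρ)).indicator (fun _ => (1 : ℝ)) t

theorem ind_nonneg (ρ : ℝ) (n : ℕ) (t : ℝ) : 0 ≤ ind ρ n t :=
  Set.indicator_nonneg (fun _ _ => zero_le_one) t

theorem ind_one {ρ : ℝ} {n : ℕ} {t : ℝ} (h : |ord n - t| ≤ ρ) : ind ρ n t = 1 := by
  apply Set.indicator_of_mem
  rw [abs_le] at h
  constructor <;> linarith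

noncomputable def Sn (N : Finset ℕ) (ρ t : ℝ) : ℝ := ∑ n ∈ N, (ind ρ n t + ind ρ (n + 1) t)

theorem Sn_nonneg (N : Finset ℕ) (ρ t : ℝ) : 0 ≤ Sn N ρ t :=
  Finset.sum_nonneg (fun n _ => add_nonneg (ind_nonneg _ _ _) (ind_nonneg _ _ _))

theorem Sn_int (N : Finset ℕ) {ρ V1 V2 : ℝ} (hρ : 0 < ρ) (hV : V1 ≤ V2) :
    IntervalIntegrable (Sn N ρ) volume V1 V2 ∧ ∫ t in V1..V2, Sn N ρ t ≤ N.card * (4 * ρ) := by
  have hSi : ∀ n, IntervalIntegrable (ind ρ n) volume V1 V2 := fun n =>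
    (ind_int (ord n - ρ) (ord n + ρ) V1 V2 (by linarith) hV).1
  have hSi2 : ∀ n, ∫ t in V1..V2, ind ρ n t ≤ 2 * ρ := fun n =>
    ((ind_int (ord n - ρ) (ord n + ρ) V1 V2 (by linarith) hV).2).trans (by linarith)
  refine ⟨?_, ?_⟩
  · have h1 := IntervalIntegrable.sum N (fun n _ => (hSi n).add (hSi (n + 1)))
    have h2 : (∑ n ∈ N, (ind ρ n + ind ρ (n + 1))) = Sn N ρ := by
      funext t
      rw [Finset.sum_apply]
      rfl
    rw [← h2]
    exact h1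
  · unfold Sn
    rw [intervalIntegral.integral_finsetSum (fun n _ => (hSi n).add (hSi (n + 1)))]
    calc _ ≤ ∑ n ∈ N, (4 * ρ) := by
          apply Finset.sum_le_sum
          intro n _
          rw [intervalIntegral.integral_add (hSi n) (hSi (n + 1))]
          linarith [hSi2 n, hSi2 (n + 1)]
      _ = N.card * (4 * ρ) := by rw [Finset.sum_const, nsmul_eq_mul]

/-- bound of the weight at a bad point -/
theorem bad_bound {T c R r t t0 Δ M Q : ℝ} {k : ℕ} (N : Finset ℕ)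
    (hN : ∀ n, n ∈ N ↔ (1 ≤ n ∧ (|ord n - t0| ≤ (M + 1) * Δ ∨ |ord (n + 1) - t0| ≤ (M + 1) * Δ) ∧
      2 * Real.pi * c / Real.log T < ord (n + 1) - ord n))
    (hL1 : 1 ≤ Real.log T) (hc : 0 < c)
    (hRc : R + Real.pi * c ≤ Real.log T) (hR : 0 ≤ R)
    (hr : 0 ≤ r) (hord : ord 1 ≤ T) (ht1 : T + 2 * Real.log T ≤ t)
    (ht2 : t ≤ 2 * T - 2 * Real.log T) (hΔ : 0 < Δ) (hM : 0 ≤ M) (hQ0 : 0 ≤ Q)
    (hρ : (R + r) / Real.log T ≤ Δ)
    (hbad : ¬ ∀ x : ℝ, |x - t| ≤ R / Real.log T →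
      ∃ s ∈ ZZ T, |s.im - x| ≤ Real.pi * c / Real.log T)
    (hQ : (∀ s ∈ ZZ T, r / Real.log T ≤ |s.im - t|) → 1 / 4 ≤ Q) :
    wt t0 Δ t ≤ Sn N ((R + r) / Real.log T) t + Real.exp (-M ^ 2 / 4) * wt t0 (2 * Δ) t +
      16 ^ k * (wt t0 Δ t * Q ^ (2 * k)) := by
  have hE0 : 0 ≤ Real.exp (-M ^ 2 / 4) * wt t0 (2 * Δ) t :=
    mul_nonneg (Real.exp_pos _).le (wt_nonneg _ _ _)
  have hw0 := wt_nonneg t0 Δ t
  have hw1 := wt_le_one t0 Δ t
  have hQQ : 0 ≤ 16 ^ k * (wt t0 Δ t * Q ^ (2 * k)) := by positivity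
  have hS0 := Sn_nonneg N ((R + r) / Real.log T) t
  push Not at hbad
  obtain ⟨x, hx1, hx2⟩ := hbad
  by_cases hnear : ∃ s ∈ ZZ T, |s.im - t| < r / Real.log T
  · obtain ⟨n, hn, h5, h6⟩ := large_near hL1 hc hRc hR hr hord ht1 ht2 hx1 hx2 hnear
    by_cases hn0 : |ord n - t0| ≤ (M + 1) * Δ ∨ |ord (n + 1) - t0| ≤ (M + 1) * Δ
    · have hnN : n ∈ N := (hN n).2 ⟨hn, hn0, h6⟩
      have h7 : (1 : ℝ) ≤ Sn N ((R + r) / Real.log T) t := by
        have h8 : (1 : ℝ) ≤ ind ((R + r) / Real.log T) n t +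
            ind ((R + r) / Real.log T) (n + 1) t := by
          rcases h5 with h5 | h5
          · have h9 := ind_one h5
            linarith [ind_nonneg ((R + r) / Real.log T) (n + 1) t]
          · have h9 := ind_one h5
            linarith [ind_nonneg ((R + r) / Real.log T) n t]
        exact h8.trans (Finset.single_le_sum (f := fun n => ind ((R + r) / Real.log T) n t +
            ind ((R + r) / Real.log T) (n + 1) t)
          (fun n _ => add_nonneg (ind_nonneg _ _ _) (ind_nonneg _ _ _)) hnN)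
      linarith
    · push Not at hn0
      have h7 : M * Δ ≤ |t - t0| := by
        rcases h5 with h5 | h5
        · have h8 : |ord n - t0| ≤ |ord n - t| + |t - t0| := by
            have := abs_add_le (ord n - t) (t - t0)
            simpa using this
          have h9 : |ord n - t| ≤ Δ := h5.trans hρ
          nlinarith [hn0.1]
        · have h8 : |ord (n + 1) - t0| ≤ |ord (n + 1) - t| + |t - t0| := by
            have := abs_add_le (ord (n + 1) - t) (t - t0)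
            simpa using this
          have h9 : |ord (n + 1) - t| ≤ Δ := h5.trans hρ
          nlinarith [hn0.2]
      have := wt_tail t0 Δ t M hΔ hM h7
      linarith
  · push Not at hnear
    have h7 := hQ hnear
    have h9 : (1 : ℝ) ≤ 16 ^ k * Q ^ (2 * k) := by
      have e6 : (16 : ℝ) ^ k * Q ^ (2 * k) = (4 * Q) ^ (2 * k) := by
        rw [mul_pow, pow_mul (4 : ℝ)]
        norm_num
      rw [e6]
      exact one_le_pow₀ (by linarith)
    have h10 : wt t0 Δ t ≤ 16 ^ k * (wt t0 Δ t * Q ^ (2 * k)) := by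
      calc wt t0 Δ t = wt t0 Δ t * 1 := by ring
        _ ≤ wt t0 Δ t * (16 ^ k * Q ^ (2 * k)) := mul_le_mul_of_nonneg_left h9 hw0
        _ = _ := by ring
    linarith

/-- combination of the pointwise bounds -/
theorem pt_comb {w D e b th q S E Q : ℝ} {k : ℕ} (hw : 0 ≤ w) (he : 0 < e) (hb0 : 0 ≤ b)
    (h : 0 ≤ th - (Real.pi - q) ∨ (-Real.pi ≤ th - (Real.pi - q) ∧ 1 ≤ b))
    (h3 : w * b ≤ S + E + 16 ^ k * (w * Q ^ (2 * k))) :
    w * D ^ 2 * ((Real.pi - q) - th) ≤ Real.pi * e * (w * D ^ 4) + Real.pi / (4 * e) * S +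
      Real.pi / (4 * e) * E + Real.pi / (4 * e) * 16 ^ k * (w * Q ^ (2 * k)) := by
  have hpi := Real.pi_pos
  have h1 := pointwise (D := D) he hb0 h
  have h2 := mul_le_mul_of_nonneg_left h1 hw
  have h4 : Real.pi / (4 * e) * (w * b) ≤
      Real.pi / (4 * e) * (S + E + 16 ^ k * (w * Q ^ (2 * k))) :=
    mul_le_mul_of_nonneg_left h3 (by positivity)
  have e7 : w * -(Real.pi * (e * D ^ 4 + 1 / (4 * e) * b)) =
      -(Real.pi * e * (w * D ^ 4) + Real.pi / (4 * e) * (w * b)) := by ring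
  rw [e7] at h2
  have e8 : w * (D ^ 2 * (th - (Real.pi - q))) = -(w * D ^ 2 * ((Real.pi - q) - th)) := by ring
  rw [e8] at h2
  linarith

/-- the core of the argument, for abstract functions -/
theorem core {T c R r t0 Δ M ε0 ϵ CD CQ q : ℝ} {k : ℕ} {Dn Θ Q : ℝ → ℝ}
    (hL2 : 2 ≤ Real.log T) (hLT : 4 * Real.log T ≤ T) (hc : 0 < c)
    (hRc : R + Real.pi * c ≤ Real.log T) (hR : 0 < R) (hr : 0 < r) (hord : ord 1 ≤ T)
    (hΔ : 1 ≤ Δ) (hM : 0 ≤ M) (hRr : R + r ≤ Real.log T) (hDc : Continuous Dn)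
    (hΘc : ContinuousOn Θ (Set.Icc (T + 2 * Real.log T) (2 * T - 2 * Real.log T)))
    (hQ0 : ∀ t, 0 ≤ Q t)
    (hQi : Integrable (fun t => wt t0 Δ t * Q t ^ (2 * k)))
    (hQb : ∫ t, wt t0 Δ t * Q t ^ (2 * k) ≤ Δ * (CQ / k) ^ k)
    (hlow : ε0 / 2 * Δ ≤ (Real.pi - q) * (∫ t in (T + 2 * Real.log T)..(2 * T - 2 * Real.log T),
      wt t0 Δ t * Dn t ^ 2) - ∫ t in (T + 2 * Real.log T)..(2 * T - 2 * Real.log T),
      wt t0 Δ t * Dn t ^ 2 * Θ t)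
    (hθ : ∀ t ∈ Set.Icc (T + 2 * Real.log T) (2 * T - 2 * Real.log T),
      -Real.pi ≤ Θ t - (Real.pi - q) ∧
      ((∀ x : ℝ, |x - t| ≤ R / Real.log T →
        ∃ s ∈ ZZ T, |s.im - x| ≤ Real.pi * c / Real.log T) → 0 ≤ Θ t - (Real.pi - q)))
    (hQt : ∀ t ∈ Set.Icc (T + 2 * Real.log T) (2 * T - 2 * Real.log T),
      (∀ s ∈ ZZ T, r / Real.log T ≤ |s.im - t|) → 1 / 4 ≤ Q t)
    (I3 : ∫ t in (T + 2 * Real.log T)..(2 * T - 2 * Real.log T), wt t0 Δ t * Dn t ^ 4 ≤ CD * Δ)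
    (hε0 : 0 < ε0) (hϵ0 : 0 < ϵ) (hϵ1 : ϵ * CD = ε0 / 32)
    (hMe : Real.exp (-M ^ 2 / 4) ≤ ε0 * ϵ / 48)
    (hkQ : (16 : ℝ) ^ k * (CQ / k) ^ k ≤ ε0 * ϵ / 8) :
    ε0 * ϵ / (32 * (R + r)) * Δ * Real.log T ≤
      ({n : ℕ | 1 ≤ n ∧ (|ord n - t0| ≤ (M + 1) * Δ ∨ |ord (n + 1) - t0| ≤ (M + 1) * Δ) ∧
        2 * Real.pi * c / Real.log T < ord (n + 1) - ord n}.ncard : ℝ) := by
  classical
  have hL0 : 0 < Real.log T := by linarith
  have hΔ0 : 0 < Δ := by linarith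
  have hfin : {n : ℕ | 1 ≤ n ∧ (|ord n - t0| ≤ (M + 1) * Δ ∨ |ord (n + 1) - t0| ≤ (M + 1) * Δ) ∧
      2 * Real.pi * c / Real.log T < ord (n + 1) - ord n}.Finite :=
    (idx_finite t0 ((M + 1) * Δ)).subset (fun n hn => ⟨hn.1, hn.2.1⟩)
  rw [Set.ncard_eq_toFinset_card _ hfin]
  have hN : ∀ n, n ∈ hfin.toFinset ↔ (1 ≤ n ∧ (|ord n - t0| ≤ (M + 1) * Δ ∨
      |ord (n + 1) - t0| ≤ (M + 1) * Δ) ∧
      2 * Real.pi * c / Real.log T < ord (n + 1) - ord n) := by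
    intro n
    rw [Set.Finite.mem_toFinset]
    exact Iff.rfl
  generalize hfin.toFinset = N at hN ⊢
  have hV : T + 2 * Real.log T ≤ 2 * T - 2 * Real.log T := by linarith
  have hρ0 : 0 < (R + r) / Real.log T := by positivity
  have hρ1 : (R + r) / Real.log T ≤ Δ := ((div_le_one hL0).2 hRr).trans hΔ
  obtain ⟨iS, I4⟩ := Sn_int N hρ0 hV
  have hpt : ∀ t ∈ Set.Icc (T + 2 * Real.log T) (2 * T - 2 * Real.log T),
      wt t0 Δ t * Dn t ^ 2 * ((Real.pi - q) - Θ t) ≤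
      Real.pi * ϵ * (wt t0 Δ t * Dn t ^ 4) + Real.pi / (4 * ϵ) * Sn N ((R + r) / Real.log T) t +
      Real.pi / (4 * ϵ) * (Real.exp (-M ^ 2 / 4) * wt t0 (2 * Δ) t) +
      Real.pi / (4 * ϵ) * 16 ^ k * (wt t0 Δ t * Q t ^ (2 * k)) := by
    intro t ht
    obtain ⟨hθ1, hθ2⟩ := hθ t ht
    have hw0 := wt_nonneg t0 Δ t
    have hE0 : 0 ≤ Real.exp (-M ^ 2 / 4) * wt t0 (2 * Δ) t :=
      mul_nonneg (Real.exp_pos _).le (wt_nonneg _ _ _)
    have hS0 := Sn_nonneg N ((R + r) / Real.log T) t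
    have hQQ : 0 ≤ 16 ^ k * (wt t0 Δ t * Q t ^ (2 * k)) := by
      have := hQ0 t
      positivity
    by_cases hg : (∀ x : ℝ, |x - t| ≤ R / Real.log T →
        ∃ s ∈ ZZ T, |s.im - x| ≤ Real.pi * c / Real.log T)
    · refine pt_comb hw0 hϵ0 le_rfl (Or.inl (hθ2 hg)) ?_
      rw [mul_zero]
      linarith
    · refine pt_comb hw0 hϵ0 zero_le_one (Or.inr ⟨hθ1, le_rfl⟩) ?_
      rw [mul_one]
      exact bad_bound N hN (by linarith) hc hRc hR.le hr.le hord ht.1 ht.2 hΔ0 hM (hQ0 t) hρ1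
        hg (hQt t ht)
  have huIcc : Set.uIcc (T + 2 * Real.log T) (2 * T - 2 * Real.log T) =
      Set.Icc (T + 2 * Real.log T) (2 * T - 2 * Real.log T) := Set.uIcc_of_le hV
  generalize T + 2 * Real.log T = V1 at *
  generalize 2 * T - 2 * Real.log T = V2 at *
  have hwc : Continuous (wt t0 Δ) := wt_cont _ _
  have i1 : IntervalIntegrable (fun t => wt t0 Δ t * Dn t ^ 2) volume V1 V2 :=
    (hwc.mul (hDc.pow 2)).intervalIntegrable _ _
  have i2 : IntervalIntegrable (fun t => wt t0 Δ t * Dn t ^ 2 * Θ t) volume V1 V2 := by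
    apply ContinuousOn.intervalIntegrable
    rw [huIcc]
    exact (hwc.mul (hDc.pow 2)).continuousOn.mul hΘc
  have i0 : IntervalIntegrable (fun t => wt t0 Δ t * Dn t ^ 2 * ((Real.pi - q) - Θ t))
      volume V1 V2 := by
    apply ContinuousOn.intervalIntegrable
    rw [huIcc]
    exact (hwc.mul (hDc.pow 2)).continuousOn.mul (continuousOn_const.sub hΘc)
  have i3 : IntervalIntegrable (fun t => wt t0 Δ t * Dn t ^ 4) volume V1 V2 :=
    (hwc.mul (hDc.pow 4)).intervalIntegrable _ _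
  have i5 : IntervalIntegrable (fun t => wt t0 (2 * Δ) t) volume V1 V2 :=
    (wt_cont _ _).intervalIntegrable _ _
  have i6 : IntervalIntegrable (fun t => wt t0 Δ t * Q t ^ (2 * k)) volume V1 V2 :=
    hQi.intervalIntegrable
  have e4 : (fun t => wt t0 Δ t * Dn t ^ 2 * ((Real.pi - q) - Θ t)) =
      fun t => (Real.pi - q) * (wt t0 Δ t * Dn t ^ 2) - wt t0 Δ t * Dn t ^ 2 * Θ t := by
    funext t; ring
  have hlow2 : ε0 / 2 * Δ ≤ ∫ t in V1..V2, wt t0 Δ t * Dn t ^ 2 * ((Real.pi - q) - Θ t) := by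
    rw [e4, intervalIntegral.integral_sub (i1.const_mul _) i2,
      intervalIntegral.integral_const_mul]
    exact hlow
  have I6 : ∫ t in V1..V2, wt t0 Δ t * Q t ^ (2 * k) ≤ Δ * (CQ / k) ^ k := by
    refine le_trans ?_ hQb
    rw [intervalIntegral.integral_of_le hV]
    refine setIntegral_le_integral hQi (Filter.Eventually.of_forall fun t => ?_)
    have h1 := wt_nonneg t0 Δ t
    have h2 := hQ0 t
    show 0 ≤ wt t0 Δ t * Q t ^ (2 * k)
    positivity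
  have I5 : ∫ t in V1..V2, wt t0 (2 * Δ) t ≤ 6 * Δ := by
    have h1 := wt_int t0 (2 * Δ) V1 V2 (by positivity) hV
    have h2 : Real.sqrt (2 * Real.pi) * (2 * Δ) ≤ 3 * (2 * Δ) :=
      mul_le_mul_of_nonneg_right sqrt_two_pi_le (by positivity)
    linarith
  have i5' : IntervalIntegrable (fun t => Real.exp (-M ^ 2 / 4) * wt t0 (2 * Δ) t)
      volume V1 V2 := i5.const_mul _
  have hint := intervalIntegral.integral_mono_on hV i0
    ((((i3.const_mul (Real.pi * ϵ)).add (iS.const_mul (Real.pi / (4 * ϵ)))).add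
      (i5'.const_mul (Real.pi / (4 * ϵ)))).add
      (i6.const_mul (Real.pi / (4 * ϵ) * 16 ^ k))) hpt
  rw [intervalIntegral.integral_add
    (((i3.const_mul (Real.pi * ϵ)).add (iS.const_mul (Real.pi / (4 * ϵ)))).add
      (i5'.const_mul (Real.pi / (4 * ϵ))))
      (i6.const_mul (Real.pi / (4 * ϵ) * 16 ^ k)),
    intervalIntegral.integral_add
    ((i3.const_mul (Real.pi * ϵ)).add (iS.const_mul (Real.pi / (4 * ϵ))))
      (i5'.const_mul (Real.pi / (4 * ϵ))),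
    intervalIntegral.integral_add (i3.const_mul (Real.pi * ϵ))
      (iS.const_mul (Real.pi / (4 * ϵ))),
    intervalIntegral.integral_const_mul, intervalIntegral.integral_const_mul,
    intervalIntegral.integral_const_mul, intervalIntegral.integral_const_mul,
    intervalIntegral.integral_const_mul, ← mul_assoc (Real.pi / (4 * ϵ))
      (Real.exp (-M ^ 2 / 4))] at hint
  exact final_arith hε0 hϵ0 hϵ1 hΔ0 hL0 (by linarith) (Nat.cast_nonneg _) hMe hkQ I3 I4 I5 I6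
    hlow2 hint

end LargeAux

open LargeAux in
/-- **many large gaps near every `t0`**, from its ingredients -/
theorem large_many_of (hRH : RHs) (c : ℝ) (hc : c = 529 / 200)
    (H_pos : ∃ (P : Par) (ε0 C T0 : ℝ), 0 < ε0 ∧ 0 < C ∧
      10 ≤ T0 ∧ ∀ T : ℝ, T0 ≤ T →
        Real.pi * c * ND (nn P.κ T) (dc3 P T) - XD c P.a T (nn P.κ T) (dc3 P T) ≤
          (Real.pi - ε0) * ND (nn P.κ T) (dc3 P T) ∧
        1 ≤ ND (nn P.κ T) (dc3 P T) ∧ ND (nn P.κ T) (dc3 P T) ≤ C)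
    (H_eval : ∀ (c a κ : ℝ) (_ : 0 < c) (_ : c ≤ 3) (_ : 0 < a) (_ : a ≤ 1)
      (_ : 0 < κ) (_ : κ < 1 / 2),
      ∃ C T0 : ℝ, 0 < C ∧ 10 ≤ T0 ∧ ∀ T : ℝ, T0 ≤ T → ∀ t0 : ℝ, 11 / 10 * T ≤ t0 →
      t0 ≤ 19 / 10 * T → ∀ d : ℕ → ℂ, (∀ n, ‖d n‖ ≤ T) →
      |(∫ t in (T + 2 * Real.log T)..(2 * T - 2 * Real.log T),
        wt t0 (dd κ T) t * ‖DP (nn κ T) d (⟨1 / 2, t⟩ : ℂ)‖ ^ 2 * Th c a T t) -
        Real.sqrt (2 * Real.pi) * dd κ T *
          (Real.pi * c * ND (nn κ T) d - XD c a T (nn κ T) d)| ≤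
        C * dd κ T / Real.log T * (1 + ND (nn κ T) d))
    (H_ms : ∀ (κ : ℝ) (_ : 0 < κ) (_ : κ < 1 / 2), ∃ T0 : ℝ, 10 ≤ T0 ∧ ∀ T : ℝ, T0 ≤ T →
      ∀ t0 : ℝ, 11 / 10 * T ≤ t0 → t0 ≤ 19 / 10 * T → ∀ d : ℕ → ℂ, (∀ n, ‖d n‖ ≤ T) →
      |(∫ t in (T + 2 * Real.log T)..(2 * T - 2 * Real.log T),
        wt t0 (dd κ T) t * ‖DP (nn κ T) d (⟨1 / 2, t⟩ : ℂ)‖ ^ 2) -
        Real.sqrt (2 * Real.pi) * dd κ T * ND (nn κ T) d| ≤ 1)
    (H_low : ∀ (c a : ℝ) (_ : 0 < c) (_ : c ≤ 3) (_ : 0 < a),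
      ∃ C : ℝ, 0 < C ∧ ∀ R : ℝ, 1 ≤ R → ∃ T0 : ℝ, 10 ≤ T0 ∧ ∀ T : ℝ, T0 ≤ T → ∀ t : ℝ,
      T + 3 ≤ t → t ≤ 2 * T - 3 →
      -C / Real.log T ≤ Th c a T t ∧
      ((∀ x : ℝ, |x - t| ≤ R / Real.log T → ∃ s ∈ ZZ T, |s.im - x| ≤ Real.pi * c / Real.log T) →
        Real.pi - 2 * a / R - C / Real.log T ≤ Th c a T t))
    (H_W3 : ∀ (l : ℝ) (_ : 0 < l), Continuous (W3 l) ∧ ∀ u, ‖W3 l u‖ ≤ 2)
    (H_nz : ∀ (κ : ℝ) (_ : 0 < κ) (_ : κ < 1 / 2),
      ∃ (k0 : ℕ) (c0 T0 : ℝ), 1 ≤ k0 ∧ 0 < c0 ∧ 10 ≤ T0 ∧ ∀ T : ℝ, T0 ≤ T → ∀ t : ℝ,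
      T + Real.log T ≤ t → t ≤ 2 * T - Real.log T → ∀ k : ℕ, k0 ≤ k → (k : ℝ) ≤ c0 * Real.log T →
      (∀ s ∈ ZZ T, 4 * Real.pi * k / ((1 - κ) * Real.log T) ≤ |s.im - t|) →
      1 / 4 ≤ ‖Q3 κ T k t‖)
    (H_mom : ∀ (κ : ℝ) (_ : 0 < κ) (_ : κ < 1 / 2),
      ∃ C T0 : ℝ, 0 < C ∧ 10 ≤ T0 ∧ ∀ T : ℝ, T0 ≤ T → ∀ (t0 : ℝ) (k : ℕ) (W : ℝ → ℂ), 1 ≤ k →
      Continuous W → (∀ u, ‖W u‖ ≤ 2) →
      Integrable (fun t : ℝ => wt t0 (dd κ T) t * ‖QW T t (ell κ T k) W‖ ^ (2 * k)) ∧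
        ∫ t : ℝ, wt t0 (dd κ T) t * ‖QW T t (ell κ T k) W‖ ^ (2 * k) ≤ dd κ T * (C / k) ^ k)
    (H_dc3 : ∀ P : Par, ∃ T0 : ℝ, 10 ≤ T0 ∧ ∀ T : ℝ, T0 ≤ T → ∀ n, ‖dc3 P T n‖ ≤ T)
    (H_D3 : ∀ P : Par, ∃ C T0 : ℝ, 0 < C ∧ 10 ≤ T0 ∧ ∀ T : ℝ, T0 ≤ T → ∀ t0 : ℝ,
      ∫ t in (T + 2 * Real.log T)..(2 * T - 2 * Real.log T),
        wt t0 (dd P.κ T) t * ‖DP (nn P.κ T) (dc3 P T) (⟨1 / 2, t⟩ : ℂ)‖ ^ 4 ≤ C * dd P.κ T) :
    ∃ ε κ K T0 : ℝ, 0 < ε ∧ 0 < κ ∧ κ < 1 / 2 ∧ 1 ≤ K ∧ 10 ≤ T0 ∧ ∀ T : ℝ, T0 ≤ T → ∀ t0 : ℝ,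
    11 / 10 * T ≤ t0 → t0 ≤ 19 / 10 * T →
    ε * dd κ T * Real.log T ≤
      ({n : ℕ | 1 ≤ n ∧ (|ord n - t0| ≤ K * dd κ T ∨ |ord (n + 1) - t0| ≤ K * dd κ T) ∧
        2 * Real.pi * c / Real.log T < ord (n + 1) - ord n}.ncard : ℝ) := by
  classical
  have hpi := Real.pi_pos
  have hc0 : 0 < c := by rw [hc]; norm_num
  have hc3 : c ≤ 3 := by rw [hc]; norm_num
  obtain ⟨P, ε0, CN, TP, hε0, hCN, hTP, hP⟩ := H_pos
  clear hc
  have hPa := P.ha
  have hκ0 := P.hκ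
  have hκ1 := P.hκ1
  obtain ⟨CE, TE, hCE, hTE, hE⟩ := H_eval c P.a P.κ hc0 hc3 hPa P.ha1
    hκ0 hκ1
  obtain ⟨Tm, hTm, hm⟩ := H_ms P.κ hκ0 hκ1
  obtain ⟨C1, hC1, hθ⟩ := H_low c P.a hc0 hc3 hPa
  obtain ⟨k0, c0, TN, hk0, hc0', hTN, hNZ⟩ := H_nz P.κ hκ0 hκ1
  obtain ⟨CQ, TQ, hCQ, hTQ, hQ⟩ := H_mom P.κ hκ0 hκ1
  obtain ⟨Tb, hTb, hb⟩ := H_dc3 P
  obtain ⟨CD, TD, hCD, hTD, hD⟩ := H_D3 P
  obtain ⟨TC, hTC, hThc⟩ := Th_cont hRH c P.a hc0 hPa
  obtain ⟨R, hR1, hq1, hq2⟩ : ∃ R : ℝ, 1 ≤ R ∧ 2 * P.a / R ≤ 1 / 2 ∧ 2 * P.a / R ≤ ε0 / 4 := by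
    refine ⟨max 1 (max (4 * P.a) (8 * P.a / ε0)), le_max_left _ _, ?_, ?_⟩
    · rw [div_le_iff₀ (lt_of_lt_of_le one_pos (le_max_left _ _))]
      have := (le_max_left (4 * P.a) (8 * P.a / ε0)).trans (le_max_right 1 _)
      linarith
    · rw [div_le_iff₀ (lt_of_lt_of_le one_pos (le_max_left _ _))]
      have := (le_max_right (4 * P.a) (8 * P.a / ε0)).trans (le_max_right 1 _)
      rw [div_le_iff₀ hε0] at this
      linarith
  have hR0 : 0 < R := by linarith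
  obtain ⟨TR, hTR, hθR⟩ := hθ R hR1
  obtain ⟨ϵ, hϵ0, hϵ1⟩ : ∃ ϵ : ℝ, 0 < ϵ ∧ ϵ * CD = ε0 / 32 :=
    ⟨ε0 / (32 * CD), by positivity, by field_simp⟩
  obtain ⟨k, hkk0, hkQ⟩ : ∃ k : ℕ, k0 ≤ k ∧ (16 : ℝ) ^ k * (CQ / k) ^ k ≤ ε0 * ϵ / 8 := by
    obtain ⟨k1, hk1⟩ : ∃ k1 : ℕ, (1 / 2 : ℝ) ^ k1 < ε0 * ϵ / 8 :=
      exists_pow_lt_of_lt_one (by positivity) (by norm_num)
    obtain ⟨k2, hk2⟩ := exists_nat_ge (32 * CQ)
    have hkk0 : k0 ≤ max (max k0 k1) k2 := (le_max_left _ _).trans (le_max_left _ _)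
    have hkk1 : k1 ≤ max (max k0 k1) k2 := (le_max_right _ _).trans (le_max_left _ _)
    have hkk2 : k2 ≤ max (max k0 k1) k2 := le_max_right _ _
    generalize max (max k0 k1) k2 = k at hkk0 hkk1 hkk2
    have hkpos : (0 : ℝ) < k := by exact_mod_cast hk0.trans hkk0
    have hkCQ : 32 * CQ ≤ k := hk2.trans (by exact_mod_cast hkk2)
    have hkhalf : (1 / 2 : ℝ) ^ k ≤ ε0 * ϵ / 8 :=
      (pow_le_pow_of_le_one (by norm_num) (by norm_num) hkk1).trans hk1.le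
    refine ⟨k, hkk0, ?_⟩
    rw [← mul_pow]
    refine le_trans (pow_le_pow_left₀ (by positivity) ?_ k) hkhalf
    rw [← mul_div_assoc, div_le_iff₀ hkpos]
    linarith
  have hk11 : 1 ≤ k := hk0.trans hkk0
  have hkpos : (0 : ℝ) < k := by exact_mod_cast hk11
  have hκ' : 0 < 1 - P.κ := by linarith
  obtain ⟨r, hr, hr0⟩ : ∃ r : ℝ, r = 4 * Real.pi * k / (1 - P.κ) ∧ 0 < r :=
    ⟨_, rfl, by positivity⟩
  obtain ⟨M, hM0, hMe⟩ := exists_M (ε0 * ϵ / 48) (by positivity)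
  -- largeness of `T`
  obtain ⟨T1, hT1⟩ := (Real.tendsto_log_atTop.eventually_ge_atTop
    (max (max (max 2 (2 * C1)) (max (4 * C1 / ε0) (4 * (CE * (1 + CN)) / ε0)))
    (max (max (R + Real.pi * c) (R + r)) (k / c0)))).exists_forall_of_atTop
  obtain ⟨T2, hT2⟩ := (Real.isLittleO_log_id_atTop.bound
    (by norm_num : (0 : ℝ) < 1 / 4)).exists_forall_of_atTop
  obtain ⟨T3, hT3⟩ := ((tendsto_rpow_atTop (by linarith : 0 < 1 - P.κ / 2)).eventually_ge_atTop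
    (16 / ε0)).exists_forall_of_atTop
  refine ⟨ε0 * ϵ / (32 * (R + r)), P.κ, M + 1,
    max (max (max (max TP TE) (max Tm TR)) (max (max TN TQ) (max Tb TD)))
      (max (max TC (ord 1)) (max T1 (max T2 T3))),
    by positivity, P.hκ, P.hκ1, by linarith, ?_, ?_⟩
  · exact hTP.trans ((le_max_left _ _).trans ((le_max_left _ _).trans ((le_max_left _ _).trans
      (le_max_left _ _))))
  intro T hT t0 ht0 ht1
  simp only [max_le_iff] at hT
  obtain ⟨⟨⟨⟨eP, eE⟩, em, eR⟩, ⟨eN, eQ⟩, eb, eD⟩, ⟨eC, eo⟩, e1, e2, e3⟩ := hT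
  have hT10 : 10 ≤ T := hTP.trans eP
  have hTone : 1 ≤ T := by linarith
  have hTpos : 0 < T := by linarith
  have hLB := hT1 T e1
  simp only [max_le_iff] at hLB
  obtain ⟨⟨⟨hL2, hLC1⟩, hLC2, hLCE⟩, ⟨hLR, hLr⟩, hLk⟩ := hLB
  have hLT : 4 * Real.log T ≤ T := by
    have := hT2 T e2
    simp only [id, Real.norm_eq_abs] at this
    rw [abs_of_pos hTpos] at this
    have h := le_abs_self (Real.log T)
    linarith
  have hΔ1 : 1 ≤ dd P.κ T := by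
    unfold dd
    exact Real.one_le_rpow hTone (by linarith [P.hκ1])
  have hΔ16 : 16 / ε0 ≤ dd P.κ T := hT3 T e3
  obtain ⟨hP1, hP2, hP3⟩ := hP T eP
  have hE1 := (abs_le.1 (hE T eE t0 ht0 ht1 (dc3 P T) (hb T eb))).2
  have hm1 := (abs_le.1 (hm T em t0 ht0 ht1 (dc3 P T) (hb T eb))).1
  have hW := H_W3 (ell P.κ T k) (by
    unfold ell
    have : 0 < Real.log T := by linarith
    positivity)
  obtain ⟨hQi, hQb⟩ := hQ T eQ t0 k (W3 (ell P.κ T k)) hk11 hW.1 hW.2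
  have I3 := hD T eD t0
  have hΘc := hThc T eC
  have hθT := hθR T eR
  have hNZT : ∀ t : ℝ, T + Real.log T ≤ t → t ≤ 2 * T - Real.log T →
      (∀ s ∈ ZZ T, r / Real.log T ≤ |s.im - t|) → 1 / 4 ≤ ‖Q3 P.κ T k t‖ := by
    intro t h1 h2 h3
    refine hNZ T eN t h1 h2 k hkk0 ?_ ?_
    · rw [div_le_iff₀ hc0'] at hLk
      linarith
    · intro s hs
      have h8 := h3 s hs
      rw [hr, div_div] at h8
      exact h8
  have hL0 : 0 < Real.log T := by linarith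
  have hΔ0 : 0 < dd P.κ T := by linarith
  have hC1L1 : C1 / Real.log T ≤ 1 / 2 := by
    rw [div_le_iff₀ hL0]; linarith
  have hC1L2 : C1 / Real.log T ≤ ε0 / 4 := by
    rw [div_le_iff₀ hε0] at hLC2
    rw [div_le_iff₀ hL0]; linarith
  have hC1L0 : 0 < C1 / Real.log T := by positivity
  have haR0 : 0 < 2 * P.a / R := by positivity
  have hΔ4 : 4 ≤ ε0 / 4 * dd P.κ T := by
    rw [div_le_iff₀ hε0] at hΔ16
    linarith
  have hlow := defect_arith (q := 2 * P.a / R + C1 / Real.log T) hε0 (by linarith) (by linarith)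
    (by linarith) hΔ0 hΔ4 hL0 hCE two_le_sqrt_two_pi hP1 hP2 hP3 hLCE hE1 hm1
  refine core (q := 2 * P.a / R + C1 / Real.log T) (Θ := fun t => Th c P.a T t)
    (Q := fun t => ‖Q3 P.κ T k t‖)
    (Dn := fun t : ℝ => ‖DP (nn P.κ T) (dc3 P T) (⟨1 / 2, t⟩ : ℂ)‖) hL2 hLT hc0 hLR hR0 hr0 eo hΔ1
    hM0 hLr (DP_cont _ _).norm
    (hΘc.mono (Set.Icc_subset_Icc (by linarith) (by linarith))) (fun t => norm_nonneg _)
    hQi hQb hlow ?_ ?_ I3 hε0 hϵ0 hϵ1 hMe hkQ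
  · intro t ht
    obtain ⟨h1, h2⟩ := hθT t (by linarith [ht.1]) (by linarith [ht.2])
    refine ⟨?_, fun hg => ?_⟩
    · rw [neg_div] at h1
      show -Real.pi ≤ Th c P.a T t - (Real.pi - (2 * P.a / R + C1 / Real.log T))
      linarith
    · have h3 := h2 hg
      show 0 ≤ Th c P.a T t - (Real.pi - (2 * P.a / R + C1 / Real.log T))
      linarith
  · intro t ht h3
    exact hNZT t (by linarith [ht.1]) (by linarith [ht.2]) h3

end LG
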