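import Pool.Agent.H382L.Large
import Pool.Agent.H382P.PosProp

open Complex Filter Topology Set MeasureTheory

namespace LG

open SG (phi hh nn dd dl ord NZ zmult)
open SP

namespace LargeProp

/-- disjoint subsets of a finite set -/
lemma sum_windows {S : Set ℕ} (hS : S.Finite) (M : ℕ) (W : ℕ → Set ℕ) (hW : ∀ i < M, W i ⊆ S)
    (hd : ∀ i < M, ∀ j < M, i ≠ j → Disjoint (W i) (W j)) :
    ∑ i ∈ Finset.range M, ((W i).ncard : ℝ) ≤ (S.ncard : ℝ) := by
  classical
  have hfin : ∀ i < M, (W i).Finite := fun i hi => hS.subset (hW i hi)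
  set F : ℕ → Finset ℕ := fun i => hS.toFinset.filter (fun n => n ∈ W i) with hF
  have h1 : ∀ i < M, (W i).ncard = (F i).card := by
    intro i hi
    rw [← Set.ncard_coe_finset]
    congr 1
    ext n
    simp only [hF, Finset.coe_filter, Set.Finite.mem_toFinset, Set.mem_ofPred_eq]
    exact ⟨fun h => ⟨hW i hi h, h⟩, fun h => h.2⟩
  have h2 : ((Finset.range M).biUnion F).card = ∑ i ∈ Finset.range M, (F i).card := by
    apply Finset.card_biUnion
    intro i hi j hj hij
    rw [Finset.mem_coe, Finset.mem_range] at hi hj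
    show Disjoint (F i) (F j)
    rw [Finset.disjoint_left]
    intro n hn hn'
    simp only [hF, Finset.mem_filter] at hn hn'
    exact Set.disjoint_left.mp (hd i hi j hj hij) hn.2 hn'.2
  have h3 : ((Finset.range M).biUnion F).card ≤ S.ncard := by
    rw [Set.ncard_eq_toFinset_card S hS]
    apply Finset.card_le_card
    intro n hn
    rw [Finset.mem_biUnion] at hn
    obtain ⟨i, -, hn⟩ := hn
    exact (Finset.mem_filter.mp hn).1
  have h4 : ∑ i ∈ Finset.range M, ((W i).ncard : ℝ) = ∑ i ∈ Finset.range M, ((F i).card : ℝ) := by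
    apply Finset.sum_congr rfl
    intro i hi
    rw [Finset.mem_range] at hi
    rw [h1 i hi]
  calc ∑ i ∈ Finset.range M, ((W i).ncard : ℝ) = ∑ i ∈ Finset.range M, ((F i).card : ℝ) := h4
    _ = (((Finset.range M).biUnion F).card : ℝ) := by rw [h2]; push_cast; rfl
    _ ≤ (S.ncard : ℝ) := by exact_mod_cast h3

/-- points of an arithmetic progression of step `3 R` are close to at most one of them -/
lemma window_disj {R x a : ℝ} (hR : 0 < R) {i j : ℕ} (hij : i ≠ j)
    (h1 : |x - (a + 3 * R * i)| ≤ R) (h2 : |x - (a + 3 * R * j)| ≤ R) : False := by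
  rw [abs_le] at h1 h2
  rcases Nat.lt_or_gt_of_ne hij with h | h
  · have h3 : (i : ℝ) + 1 ≤ j := by exact_mod_cast h
    have h4 : 3 * R * ((i : ℝ) + 1) ≤ 3 * R * j := mul_le_mul_of_nonneg_left h3 (by positivity)
    nlinarith
  · have h3 : (j : ℝ) + 1 ≤ i := by exact_mod_cast h
    have h4 : 3 * R * ((j : ℝ) + 1) ≤ 3 * R * i := mul_le_mul_of_nonneg_left h3 (by positivity)
    nlinarith

end LargeProp

open LargeProp SP.PosProp

theorem large_prop (hRH : RHs) :
    ∃ ε T0 : ℝ, 0 < ε ∧ 10 ≤ T0 ∧ ∀ T : ℝ, T0 ≤ T →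
    ε * (T * Real.log T) ≤
      ({n : ℕ | 1 ≤ n ∧ T ≤ ord n ∧ ord (n + 1) ≤ 2 * T ∧
        529 / 200 * (2 * Real.pi / Real.log T) < ord (n + 1) - ord n}.ncard : ℝ) := by
  obtain ⟨ε, κ, K, T0, hε, hκ, hκ2, hK, hT0, hloc⟩ := large_many hRH (529 / 200) rfl
  have hlim : Tendsto (fun T : ℝ => T ^ (κ / 2)) atTop atTop := tendsto_rpow_atTop (by linarith)
  obtain ⟨T1, hT1⟩ := (tendsto_atTop.mp hlim (200 * K)).exists_forall_of_atTop
  refine ⟨ε / (20 * K), max (max (2 * T0) (2 * T1)) 1000, by positivity, ?_, fun T hT => ?_⟩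
  · exact le_trans (by norm_num) (le_max_right _ _)
  have hTT0 : 2 * T0 ≤ T := ((le_max_left _ _).trans (le_max_left _ _)).trans hT
  have hTT1 : 2 * T1 ≤ T := ((le_max_right _ _).trans (le_max_left _ _)).trans hT
  have hT1000 : 1000 ≤ T := (le_max_right _ _).trans hT
  have hTpos : 0 < T := by linarith
  have hlog1 : 1 ≤ Real.log T := by
    rw [Real.le_log_iff_exp_le hTpos]
    have := Real.exp_one_lt_d9
    linarith
  -- `K dd ≤ T / 200` at all relevant heights
  have hKdd : ∀ X : ℝ, T / 2 ≤ X → X ≤ 2 * T → 0 < dd κ X ∧ K * dd κ X ≤ T / 100 := by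
    intro X hX hX2
    have hXpos : 0 < X := by linarith
    have h0 : 0 < dd κ X := by unfold dd; positivity
    have h1 := hT1 X (by linarith)
    have h2 : X ^ (κ / 2) * dd κ X = X := by
      unfold dd
      rw [← Real.rpow_add hXpos]
      have : κ / 2 + (1 - κ / 2) = 1 := by ring
      rw [this, Real.rpow_one]
    refine ⟨h0, ?_⟩
    have h3 : 200 * K * dd κ X ≤ X := by
      calc (200 * K) * dd κ X ≤ X ^ (κ / 2) * dd κ X := mul_le_mul_of_nonneg_right h1 h0.le
        _ = X := h2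
    linarith
  -- a zero near every point
  have hzero : ∀ X : ℝ, T / 2 ≤ X → X ≤ 2 * T → ∀ t0 : ℝ, 11 / 10 * X ≤ t0 → t0 ≤ 19 / 10 * X →
      ∃ m : ℕ, 1 ≤ m ∧ |ord m - t0| ≤ T / 100 := by
    intro X hX hX2 t0 h1 h2
    obtain ⟨h3, h4⟩ := hKdd X hX hX2
    have h5 := hloc X (by linarith) t0 h1 h2
    have hlogX : 0 < Real.log X := Real.log_pos (by linarith)
    have h6 : 0 < ε * dd κ X * Real.log X := by positivity
    have h7 : 0 < ({n : ℕ | 1 ≤ n ∧ (|ord n - t0| ≤ K * dd κ X ∨ |ord (n + 1) - t0| ≤ K * dd κ X) ∧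
        2 * Real.pi * (529 / 200) / Real.log X < ord (n + 1) - ord n}.ncard : ℝ) := by linarith
    have h8 : ({n : ℕ | 1 ≤ n ∧ (|ord n - t0| ≤ K * dd κ X ∨ |ord (n + 1) - t0| ≤ K * dd κ X) ∧
        2 * Real.pi * (529 / 200) / Real.log X < ord (n + 1) - ord n}.ncard) ≠ 0 := by
      intro h
      rw [h] at h7
      simp at h7
    obtain ⟨n, hn1, hn2, _⟩ := Set.nonempty_of_ncard_ne_zero h8
    rcases hn2 with h | h
    · exact ⟨n, hn1, h.trans h4⟩
    · exact ⟨n + 1, by omega, h.trans h4⟩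
  obtain ⟨m1, hm1, hm1'⟩ := hzero (9 / 10 * T) (by linarith) (by linarith) (105 / 100 * T)
    (by linarith) (by linarith)
  obtain ⟨m2, hm2, hm2'⟩ := hzero (103 / 100 * T) (by linarith) (by linarith) (195 / 100 * T)
    (by linarith) (by linarith)
  rw [abs_le] at hm1' hm2'
  obtain ⟨hΔ0, hKΔ⟩ := hKdd T (by linarith) (by linarith)
  set Δ : ℝ := dd κ T with hΔ
  have hKΔ0 : 0 < K * Δ := by positivity
  set M : ℕ := ⌊(8 / 10 * T) / (3 * (K * Δ))⌋₊ with hM
  have hM1 : (M : ℝ) ≤ (8 / 10 * T) / (3 * (K * Δ)) := Nat.floor_le (by positivity)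
  have hM2 : (8 / 10 * T) / (3 * (K * Δ)) < M + 1 := Nat.lt_floor_add_one _
  have hM3 : T / (10 * (K * Δ)) ≤ M := by
    have h1 : (8 / 10 * T) / (3 * (K * Δ)) = 8 / 30 * (T / (K * Δ)) := by field_simp; norm_num
    have h2 : T / (10 * (K * Δ)) = 1 / 10 * (T / (K * Δ)) := by field_simp
    have h3 : 100 ≤ T / (K * Δ) := by
      rw [le_div_iff₀ hKΔ0]
      linarith
    rw [h1] at hM2
    rw [h2]
    linarith
  set S : Set ℕ := {n : ℕ | 1 ≤ n ∧ T ≤ ord n ∧ ord (n + 1) ≤ 2 * T ∧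
        529 / 200 * (2 * Real.pi / Real.log T) < ord (n + 1) - ord n} with hS
  have hSfin : S.Finite := by
    apply fin_ord (2 * T)
    intro n hn
    refine ⟨hn.1, (SG.ord_mono hn.1 (Nat.le_succ n)).trans hn.2.2.1⟩
  set t : ℕ → ℝ := fun i => 11 / 10 * T + 3 * (K * Δ) * i with ht
  set W1 : ℕ → Set ℕ := fun i => {n : ℕ | 1 ≤ n ∧ |ord n - t i| ≤ K * Δ ∧
        2 * Real.pi * (529 / 200) / Real.log T < ord (n + 1) - ord n} with hW1
  set W2 : ℕ → Set ℕ := fun i => {n : ℕ | 1 ≤ n ∧ |ord (n + 1) - t i| ≤ K * Δ ∧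
        2 * Real.pi * (529 / 200) / Real.log T < ord (n + 1) - ord n} with hW2
  have hti : ∀ i < M, 11 / 10 * T ≤ t i ∧ t i ≤ 19 / 10 * T := by
    intro i hi
    have hiM : (i : ℝ) ≤ M := by exact_mod_cast hi.le
    have h1 : 3 * (K * Δ) * i ≤ 8 / 10 * T := by
      have h2 : (i : ℝ) ≤ (8 / 10 * T) / (3 * (K * Δ)) := hiM.trans hM1
      rw [le_div_iff₀ (by positivity)] at h2
      linarith
    have h3 : 0 ≤ 3 * (K * Δ) * (i : ℝ) := by positivity
    constructor
    · simp only [ht]; linarith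
    · simp only [ht]; linarith
  have hmem : ∀ n : ℕ, 1 ≤ n → (∃ i < M, |ord n - t i| ≤ K * Δ ∨ |ord (n + 1) - t i| ≤ K * Δ) →
      2 * Real.pi * (529 / 200) / Real.log T < ord (n + 1) - ord n → n ∈ S := by
    rintro n hn1 ⟨i, hi, hor⟩ h3
    obtain ⟨h4, h5⟩ := hti i hi
    have hmono : ord n ≤ ord (n + 1) := SG.ord_mono hn1 (Nat.le_succ n)
    have hlow : 108 / 100 * T ≤ ord (n + 1) := by
      rcases hor with h | h
      · rw [abs_le] at h
        linarith
      · rw [abs_le] at h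
        linarith
    have hup : ord n ≤ 192 / 100 * T := by
      rcases hor with h | h
      · rw [abs_le] at h
        linarith
      · rw [abs_le] at h
        linarith
    refine ⟨hn1, ?_, ?_, ?_⟩
    · -- `m1 ≤ n`
      have h6 : m1 ≤ n := by
        by_contra hcon
        have h7 : ord (n + 1) ≤ ord m1 := SG.ord_mono (by omega) (by omega)
        linarith
      have h7 : ord m1 ≤ ord n := SG.ord_mono hm1 h6
      linarith
    · have h6 : n + 1 ≤ m2 := by
        by_contra hcon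
        have h7 : ord m2 ≤ ord n := SG.ord_mono hm2 (by omega)
        linarith
      have h7 : ord (n + 1) ≤ ord m2 := SG.ord_mono (by omega) h6
      linarith
    · have e : 529 / 200 * (2 * Real.pi / Real.log T) = 2 * Real.pi * (529 / 200) / Real.log T := by
        ring
      rw [e]
      exact h3
  have hsub1 : ∀ i < M, W1 i ⊆ S := fun i hi n hn => hmem n hn.1 ⟨i, hi, Or.inl hn.2.1⟩ hn.2.2
  have hsub2 : ∀ i < M, W2 i ⊆ S := fun i hi n hn => hmem n hn.1 ⟨i, hi, Or.inr hn.2.1⟩ hn.2.2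
  have hd1 : ∀ i < M, ∀ j < M, i ≠ j → Disjoint (W1 i) (W1 j) := by
    intro i _ j _ hij
    rw [Set.disjoint_left]
    intro n hn hn'
    exact window_disj hKΔ0 hij hn.2.1 hn'.2.1
  have hd2 : ∀ i < M, ∀ j < M, i ≠ j → Disjoint (W2 i) (W2 j) := by
    intro i _ j _ hij
    rw [Set.disjoint_left]
    intro n hn hn'
    exact window_disj hKΔ0 hij hn.2.1 hn'.2.1
  have hs1 := sum_windows hSfin M W1 hsub1 hd1
  have hs2 := sum_windows hSfin M W2 hsub2 hd2
  have hcount : ∀ i < M, ε * Δ * Real.log T ≤ ((W1 i).ncard : ℝ) + ((W2 i).ncard : ℝ) := by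
    intro i hi
    refine (hloc T (by linarith) (t i) (hti i hi).1 (hti i hi).2).trans ?_
    have h1 : {n : ℕ | 1 ≤ n ∧ (|ord n - t i| ≤ K * dd κ T ∨ |ord (n + 1) - t i| ≤ K * dd κ T) ∧
        2 * Real.pi * (529 / 200) / Real.log T < ord (n + 1) - ord n} ⊆ W1 i ∪ W2 i := by
      rintro n ⟨a1, a2 | a2, a3⟩
      · exact Or.inl ⟨a1, a2, a3⟩
      · exact Or.inr ⟨a1, a2, a3⟩
    have h2 := Set.ncard_le_ncard h1
      ((hSfin.subset (hsub1 i hi)).union (hSfin.subset (hsub2 i hi)))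
    have h3 := Set.ncard_union_le (W1 i) (W2 i)
    exact_mod_cast h2.trans h3
  have hfinal : (M : ℝ) * (ε * Δ * Real.log T) ≤ 2 * (S.ncard : ℝ) := by
    have h1 : ∑ i ∈ Finset.range M, (ε * Δ * Real.log T) ≤
        ∑ i ∈ Finset.range M, (((W1 i).ncard : ℝ) + ((W2 i).ncard : ℝ)) := by
      apply Finset.sum_le_sum
      intro i hi
      exact hcount i (Finset.mem_range.1 hi)
    rw [Finset.sum_const, Finset.card_range, nsmul_eq_mul, Finset.sum_add_distrib] at h1
    linarith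
  have h5 : 0 ≤ ε * Δ * Real.log T := by positivity
  have h6 : ε / (10 * K) * (T * Real.log T) ≤ 2 * (S.ncard : ℝ) := by
    calc ε / (10 * K) * (T * Real.log T) = T / (10 * (K * Δ)) * (ε * Δ * Real.log T) := by
          field_simp
      _ ≤ M * (ε * Δ * Real.log T) := mul_le_mul_of_nonneg_right hM3 h5
      _ ≤ _ := hfinal
  have h7 : ε / (20 * K) * (T * Real.log T) = 1 / 2 * (ε / (10 * K) * (T * Real.log T)) := by
    field_simp
    norm_num
  rw [h7]
  linarith

/-- in terms of the first `N` gaps -/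
theorem large_prop_aux (hRH : RHs) (P : ℕ → Prop)
    (hP : ∃ T2 : ℝ, ∀ T : ℝ, T2 ≤ T → ∀ n : ℕ, 1 ≤ n → T ≤ ord n → ord (n + 1) ≤ 2 * T →
      529 / 200 * (2 * Real.pi / Real.log T) < ord (n + 1) - ord n → P n) :
    ∃ ε : ℝ, 0 < ε ∧ ∀ᶠ N : ℕ in atTop, ε * N ≤ (({n : ℕ | 1 ≤ n ∧ n ≤ N ∧ P n}.ncard : ℕ) : ℝ) := by
  obtain ⟨ε, T0, hε, hT0, hb⟩ := large_prop hRH
  obtain ⟨T2, hT2⟩ := hP
  obtain ⟨C, T1, hC, hT1, hup⟩ := NZ_up
  refine ⟨ε / C, by positivity, ?_⟩
  set X0 : ℝ := max (max T0 T1) T2 with hX0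
  have hX03 : 3 ≤ X0 := hT1.trans ((le_max_right _ _).trans (le_max_left _ _))
  have hlim : Tendsto (fun N : ℕ => (N : ℝ) / C) atTop atTop :=
    tendsto_natCast_atTop_atTop.atTop_div_const hC
  filter_upwards [hlim.eventually_gt_atTop (X0 * Real.log X0)] with N hN
  have hX0l : 1 ≤ Real.log X0 := by
    rw [Real.le_log_iff_exp_le (by linarith)]
    have := Real.exp_one_lt_d9
    linarith
  set y : ℝ := (N : ℝ) / C with hy
  have hyX : X0 ≤ y := by nlinarith
  have hlogy : 1 ≤ Real.log y := hX0l.trans (Real.log_le_log (by linarith) hyX)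
  have hcont : ContinuousOn (fun T : ℝ => T * Real.log T) (Set.Icc X0 y) := by
    apply ContinuousOn.mul continuousOn_id
    apply Real.continuousOn_log.mono
    intro x hx
    simp only [Set.mem_compl_iff, Set.mem_singleton_iff]
    have := hx.1
    linarith
  have hiv := intermediate_value_Icc hyX hcont
  have hmem : y ∈ Set.Icc (X0 * Real.log X0) (y * Real.log y) := ⟨hN.le, by nlinarith⟩
  obtain ⟨T, hTm, hTe⟩ := hiv hmem
  simp only at hTe
  have hXT : X0 ≤ T := hTm.1
  have hTT0 : T0 ≤ T := ((le_max_left _ _).trans (le_max_left _ _)).trans hXT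
  have hTT1 : T1 ≤ T := ((le_max_right _ _).trans (le_max_left _ _)).trans hXT
  have hTT2 : T2 ≤ T := (le_max_right _ _).trans hXT
  have h1 := hb T hTT0
  have h2 := hup T hTT1
  rw [hTe] at h1 h2
  have h3 : C * y = N := by rw [hy]; field_simp
  rw [h3] at h2
  have h2' : NZ (2 * T) ≤ N := by exact_mod_cast h2
  have h4 : ε / C * N = ε * y := by rw [hy]; field_simp
  rw [h4]
  refine h1.trans ?_
  have h5 : ({n : ℕ | 1 ≤ n ∧ T ≤ ord n ∧ ord (n + 1) ≤ 2 * T ∧
          529 / 200 * (2 * Real.pi / Real.log T) < ord (n + 1) - ord n}.ncard) ≤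
        ({n : ℕ | 1 ≤ n ∧ n ≤ N ∧ P n}.ncard) := by
    apply Set.ncard_le_ncard
    · rintro n ⟨a1, a2, a3, a4⟩
      have a5 := (SG.ord_le_iff (by omega : 1 ≤ n + 1) (2 * T)).mp a3
      exact ⟨a1, by omega, hT2 T hTT2 n a1 a2 a3 a4⟩
    · refine (Set.finite_Iic N).subset ?_
      intro n hn
      exact hn.2.1
  exact_mod_cast h5

theorem large_prop_delta (hRH : RHs) :
    ∃ ε : ℝ, 0 < ε ∧ ∀ᶠ N : ℕ in atTop, ε * N ≤
      (({n : ℕ | 1 ≤ n ∧ n ≤ N ∧ 66 / 25 <
        (ord (n + 1) - ord n) / (2 * Real.pi) * Real.log (ord n / (2 * Real.pi))}.ncard : ℕ) : ℝ) := by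
  apply large_prop_aux hRH
  have hpi := Real.pi_gt_three
  have hpi4 := Real.pi_lt_four
  obtain ⟨T2, hT2⟩ := (tendsto_atTop.mp Real.tendsto_log_atTop
    (529 * Real.log (2 * Real.pi) + 1)).exists_forall_of_atTop
  refine ⟨max T2 10, fun T hT n hn1 h3 h4 h6 => ?_⟩
  have hT10 : 10 ≤ T := (le_max_right _ _).trans hT
  have hTT2 := hT2 T ((le_max_left _ _).trans hT)
  have hl2p : 0 < Real.log (2 * Real.pi) := Real.log_pos (by linarith)
  have hlogT : 0 < Real.log T := Real.log_pos (by linarith)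
  have h8 : Real.log T - Real.log (2 * Real.pi) ≤ Real.log (ord n / (2 * Real.pi)) := by
    rw [← Real.log_div (by linarith) (by positivity)]
    apply Real.log_le_log (by positivity)
    exact div_le_div_of_nonneg_right h3 (by positivity)
  have h9 : 0 < Real.log T - Real.log (2 * Real.pi) := by linarith
  have h10 : 529 / 200 / Real.log T < (ord (n + 1) - ord n) / (2 * Real.pi) := by
    rw [lt_div_iff₀ (by positivity)]
    have e : 529 / 200 / Real.log T * (2 * Real.pi) = 529 / 200 * (2 * Real.pi / Real.log T) := by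
      ring
    rw [e]; exact h6
  have h11 : 66 / 25 < 529 / 200 / Real.log T * (Real.log T - Real.log (2 * Real.pi)) := by
    have e : 529 / 200 / Real.log T * (Real.log T - Real.log (2 * Real.pi)) =
        529 / 200 - 529 / 200 * Real.log (2 * Real.pi) / Real.log T := by
      field_simp
    rw [e]
    have h12 : 529 / 200 * Real.log (2 * Real.pi) / Real.log T < 1 / 200 := by
      rw [div_lt_iff₀ hlogT]
      linarith
    linarith
  calc (66 : ℝ) / 25 < 529 / 200 / Real.log T * (Real.log T - Real.log (2 * Real.pi)) := h11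
    _ ≤ (ord (n + 1) - ord n) / (2 * Real.pi) * Real.log (ord n / (2 * Real.pi)) := by
        apply mul_le_mul h10.le h8 h9.le
        exact le_trans (by positivity) h10.le

theorem large_prop_delta' (hRH : RHs) :
    ∃ ε : ℝ, 0 < ε ∧ ∀ᶠ N : ℕ in atTop, ε * N ≤
      (({n : ℕ | 1 ≤ n ∧ n ≤ N ∧ 66 / 25 <
        (ord (n + 1) * Real.log (ord (n + 1)) - ord n * Real.log (ord n)) / (2 * Real.pi)}.ncard :
          ℕ) : ℝ) := by
  apply large_prop_aux hRH
  refine ⟨10, fun T hT10 n hn1 h3 h4 h6 => ?_⟩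
  have hpi := Real.pi_gt_three
  have hlogT : 0 < Real.log T := Real.log_pos (by linarith)
  have hp : 0 < ord n := SG.ord_pos hn1
  have hp' : 0 < ord (n + 1) := SG.ord_pos (by omega)
  have h7 : ord n ≤ ord (n + 1) := SG.ord_mono hn1 (by omega)
  have h8 : Real.log T ≤ Real.log (ord n) := Real.log_le_log (by linarith) h3
  have h9 : Real.log (ord n) ≤ Real.log (ord (n + 1)) := Real.log_le_log hp h7
  have h10 : (ord (n + 1) - ord n) * Real.log T ≤
      ord (n + 1) * Real.log (ord (n + 1)) - ord n * Real.log (ord n) := by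
    have a1 : (ord (n + 1) - ord n) * Real.log T ≤ (ord (n + 1) - ord n) * Real.log (ord n) :=
      mul_le_mul_of_nonneg_left h8 (by linarith)
    have a2 : ord (n + 1) * Real.log (ord n) ≤ ord (n + 1) * Real.log (ord (n + 1)) :=
      mul_le_mul_of_nonneg_left h9 hp'.le
    linarith
  have h11 : 529 / 200 * (2 * Real.pi) < (ord (n + 1) - ord n) * Real.log T := by
    have h12 := mul_lt_mul_of_pos_right h6 hlogT
    have e : 529 / 200 * (2 * Real.pi / Real.log T) * Real.log T = 529 / 200 * (2 * Real.pi) := by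
      field_simp
    rw [e] at h12
    exact h12
  rw [lt_div_iff₀ (by positivity)]
  nlinarith

end LG
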