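import Pool.Agent.H382L.Defs
import Pool.Agent.H382P.TT

open Complex Filter Topology Set MeasureTheory

namespace LG

open SG (phi hh nn dd dl)
open SP SP.TTAux

namespace Lim3Aux

lemma b_zero (P : Par) (m : ℕ) (u : ℝ) (hu : 1 ≤ u ∨ u ≤ 0) : P.b m u = 0 := by
  by_contra h
  obtain ⟨h2, hB, hl, hu'⟩ := P.hb0 m _ h
  have hBpos : (0 : ℝ) < P.B := by have := P.hB; positivity
  have hκ := P.hκ
  have hκ1 : 0 < 1 - P.κ := by have := P.hκ1; linarith
  have hm := P.hm
  have h5 : (m : ℝ) * (1 - P.κ) / P.B ≤ 1 - P.κ := by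
    rw [div_le_iff₀ hBpos, mul_comm]
    apply mul_le_mul_of_nonneg_left _ hκ1.le
    exact_mod_cast hB
  have h6 : 0 ≤ ((m : ℝ) - 1) * (1 - P.κ) / P.B := by
    have : (2 : ℝ) ≤ m := by exact_mod_cast h2
    apply div_nonneg (mul_nonneg (by linarith) hκ1.le) hBpos.le
  rcases hu with hu | hu <;> linarith

/-- general limit for sums over a bin -/
lemma lim_gen (P : Par) (m : ℕ) (H : ℝ → ℂ) (hH : ContDiff ℝ 1 H)
    (hH0 : ∀ u, P.b m u = 0 → H u = 0) (F : ℝ → ℕ → ℂ) (K : ℝ) (hK : 0 ≤ K)
    (hF : ∀ (T : ℝ) (p : ℕ) (C : ℝ), 10 ≤ T → 0 ≤ C → 0 < p → Eb P T p = m → |chi P T p| ≤ 2 →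
      |chi P T p - Real.log p / Real.log T * P.b m (Real.log p / Real.log T)| ≤ C / Real.log T →
      ‖F T p - ((1 / Real.log T : ℝ) : ℂ) *
        ((Real.log p / p : ℝ) * H (Real.log p / Real.log T))‖ ≤ K * (C / Real.log T) * (1 / p)) :
    Tendsto (fun T : ℝ => ∑ p ∈ (PS P T).filter (fun p => Eb P T p = m), F T p) atTop
      (𝓝 (∫ u in (0 : ℝ)..1, H u)) := by
  obtain ⟨C1, T1, hC1, hT1, hchi⟩ := chi_approx P
  have hlip : ∃ K : NNReal, LipschitzWith K H := by
    apply ContDiff.lipschitzWith_of_hasCompactSupport (n := 1) _ hH (by norm_num)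
    apply HasCompactSupport.intro (isCompact_Icc (a := (0 : ℝ)) (b := 1))
    intro u hu
    apply hH0
    apply b_zero
    rw [mem_Icc, not_and_or, not_le, not_le] at hu
    rcases hu with h | h
    · right; exact h.le
    · left; exact h.le
  obtain ⟨K', hK'⟩ := hlip
  obtain ⟨C2, hC2, hmert⟩ := mert H K' hK' (fun u hu => hH0 u (b_zero P m u (Or.inl hu)))
  rw [tendsto_iff_norm_sub_tendsto_zero]
  have hbound : ∀ᶠ T : ℝ in atTop, ‖∑ p ∈ (PS P T).filter (fun p => Eb P T p = m), F T p -
      ∫ u in (0 : ℝ)..1, H u‖ ≤ (K * C1 ^ 2 + C2) * (Real.log T)⁻¹ := by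
    filter_upwards [eventually_ge_atTop T1, eventually_ge_atTop (10 : ℝ)] with T hTT hT10
    obtain ⟨hc, hs⟩ := hchi T hTT
    have hL := log_pos' hT10
    have hmem : ∀ p ∈ PS P T, 0 < p := by
      intro p hp
      rw [PS, Finset.mem_filter, Finset.mem_Icc] at hp
      omega
    have hBsum : ‖∑ p ∈ (PS P T).filter (fun p => Eb P T p = m), F T p -
        ∑ p ∈ (PS P T).filter (fun p => Eb P T p = m),
          (((1 / Real.log T : ℝ) : ℂ) *
            ((Real.log p / p : ℝ) * H (Real.log p / Real.log T)))‖ ≤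
        K * C1 ^ 2 * (Real.log T)⁻¹ := by
      rw [← Finset.sum_sub_distrib]
      refine (norm_sum_le _ _).trans ?_
      calc _ ≤ ∑ p ∈ (PS P T).filter (fun p => Eb P T p = m),
            (K * (C1 / Real.log T)) * (1 / p : ℝ) := by
            apply Finset.sum_le_sum
            intro p hp
            rw [Finset.mem_filter] at hp
            have h1 := (hc p hp.1).2.1
            rw [hp.2] at h1
            exact hF T p C1 hT10 hC1.le (hmem p hp.1) hp.2 (hc p hp.1).2.2 h1
        _ ≤ ∑ p ∈ PS P T, (K * (C1 / Real.log T)) * (1 / p : ℝ) := by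
            apply Finset.sum_le_sum_of_subset_of_nonneg (Finset.filter_subset _ _)
            intro p hp _
            positivity
        _ = (K * (C1 / Real.log T)) * ∑ p ∈ PS P T, (1 / p : ℝ) := by rw [Finset.mul_sum]
        _ ≤ (K * (C1 / Real.log T)) * C1 := by gcongr
        _ = _ := by field_simp
    have hsum : ∑ p ∈ (PS P T).filter (fun p => Eb P T p = m),
          (((1 / Real.log T : ℝ) : ℂ) *
            ((Real.log p / p : ℝ) * H (Real.log p / Real.log T))) =
        (((1 / Real.log T : ℝ) : ℂ) *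
          ∑ p ∈ (Finset.Icc 1 ⌊T⌋₊).filter Nat.Prime,
            ((Real.log p / p : ℝ) : ℂ) * H (Real.log p / Real.log T)) := by
      rw [Finset.mul_sum]
      apply Finset.sum_subset
      · exact (Finset.filter_subset _ _).trans (PS_sub P T hT10)
      · intro p hp hp'
        rw [Finset.mem_filter] at hp
        have : P.b m (Real.log p / Real.log T) = 0 := by
          by_contra h
          exact hp' (Finset.mem_filter.mpr (mem_of_b P T hT10 p m hp.2 h))
        simp [hH0 _ this]
    have hC : ‖(((1 / Real.log T : ℝ) : ℂ) *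
          ∑ p ∈ (Finset.Icc 1 ⌊T⌋₊).filter Nat.Prime,
            ((Real.log p / p : ℝ) : ℂ) * H (Real.log p / Real.log T)) -
            ∫ u in (0 : ℝ)..1, H u‖ ≤ C2 * (Real.log T)⁻¹ := hmert T hT10
    rw [hsum] at hBsum
    calc _ ≤ _ + _ := norm_sub_le_norm_sub_add_norm_sub _ _ _
      _ ≤ _ + _ := add_le_add hBsum hC
      _ = _ := by ring
  have hlim : Tendsto (fun T : ℝ => (K * C1 ^ 2 + C2) * (Real.log T)⁻¹) atTop (𝓝 0) := by
    have h2 := (Real.tendsto_log_atTop.inv_tendsto_atTop).const_mul (K * C1 ^ 2 + C2)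
    simpa using h2
  exact squeeze_zero' (Eventually.of_forall fun _ => norm_nonneg _) hbound hlim

lemma yy3_norm (P : Par) (T : ℝ) (p : ℕ) (h : |chi P T p| ≤ 2) :
    ‖yy3 P T p‖ ≤ 36 / p := by
  unfold yy3
  rw [Complex.norm_real, Real.norm_eq_abs, abs_div, abs_mul, abs_pow, Nat.abs_cast]
  have h1 : |(9 : ℝ)| * |chi P T p| ^ 2 ≤ 36 := by
    rw [abs_of_pos (by norm_num : (0 : ℝ) < 9)]
    nlinarith [abs_nonneg (chi P T p)]
  gcongr

/-- the contribution of the divisors `E p ≠ m` is negligible -/
lemma tt3_main (P : Par) (m : ℕ) (hm : 1 ≤ m) :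
    Tendsto (fun T : ℝ => tt (PS P T) (Eb P T) (yy3 P T) m -
      ∑ p ∈ (PS P T).filter (fun p => Eb P T p = m), (m : ℂ) * yy3 P T p) atTop (𝓝 0) := by
  obtain ⟨C1, T1, hC1, hT1, hchi⟩ := chi_approx P
  have hBpos : (0 : ℝ) < P.B := by have := P.hB; positivity
  have hκ1 : 0 < 1 - P.κ := by have := P.hκ1; linarith
  have he : 0 < (1 - P.κ) / P.B := by positivity
  have hN0 : Tendsto (fun T : ℝ => T ^ ((1 - P.κ) / P.B)) atTop atTop := tendsto_rpow_atTop he
  rw [tendsto_zero_iff_norm_tendsto_zero]
  have hbound : ∀ᶠ T : ℝ in atTop, ‖tt (PS P T) (Eb P T) (yy3 P T) m -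
        ∑ p ∈ (PS P T).filter (fun p => Eb P T p = m), (m : ℂ) * yy3 P T p‖ ≤
      1296 * m * C1 * (T ^ ((1 - P.κ) / P.B))⁻¹ := by
    filter_upwards [eventually_ge_atTop T1, eventually_ge_atTop (10 : ℝ),
      hN0.eventually_ge_atTop 36] with T hTT hT10 hT8
    obtain ⟨hc, hs⟩ := hchi T hTT
    have hL := log_pos' hT10
    set N0 := T ^ ((1 - P.κ) / P.B) with hN0def
    have hN0pos : 0 < N0 := by linarith
    have hmem : ∀ p ∈ PS P T, 0 < p ∧ 36 ≤ (p : ℝ) ∧ N0 ≤ p := by
      intro p hp
      have := lower P T hT10 p hp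
      refine ⟨?_, by linarith, this⟩
      have h : (0 : ℝ) < p := by linarith
      exact_mod_cast h
    rw [Finset.sum_filter]
    unfold tt
    rw [← Finset.sum_sub_distrib]
    refine (norm_sum_le _ _).trans ?_
    calc _ ≤ ∑ p ∈ PS P T, 1296 * m * N0⁻¹ * (1 / p : ℝ) := by
          apply Finset.sum_le_sum
          intro p hp
          obtain ⟨hp0, hp8, hpN⟩ := hmem p hp
          have hpr : (0 : ℝ) < p := by exact_mod_cast hp0
          have hE2 : 2 ≤ Eb P T p := by
            rw [PS, Finset.mem_filter] at hp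
            exact hp.2.2
          by_cases hEm : Eb P T p = m
          · rw [if_pos (by rw [hEm]), if_pos hEm, hEm, Nat.div_self (by omega)]
            simp only [Nat.sub_self, pow_zero, one_mul, pow_one, sub_self, norm_zero]
            positivity
          · rw [if_neg hEm, sub_zero]
            by_cases hd : Eb P T p ∣ m
            · rw [if_pos hd, norm_mul, norm_mul, norm_pow, norm_neg, norm_one, one_pow, one_mul,
                Complex.norm_natCast, norm_pow]
              have hEle : (Eb P T p : ℝ) ≤ m := by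
                exact_mod_cast Nat.le_of_dvd (by omega) hd
              have hr : 2 ≤ m / Eb P T p := by
                obtain ⟨r, hr⟩ := hd
                have : m / Eb P T p = r := by
                  rw [hr, Nat.mul_div_cancel_left _ (by omega)]
                rw [this]
                rcases r with _ | _ | r
                · omega
                · omega
                · omega
              have hg := yy3_norm P T p (hc p hp).2.2
              have hg1 : (36 / p : ℝ) ≤ 1 := by
                rw [div_le_one hpr]; exact hp8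
              have hg2 : ‖yy3 P T p‖ ^ (m / Eb P T p) ≤ (36 / p : ℝ) ^ 2 := by
                calc _ ≤ (36 / p : ℝ) ^ (m / Eb P T p) :=
                      pow_le_pow_left₀ (norm_nonneg _) hg _
                  _ ≤ _ := pow_le_pow_of_le_one (by positivity) hg1 hr
              calc (Eb P T p : ℝ) * ‖yy3 P T p‖ ^ (m / Eb P T p) ≤ m * (36 / p : ℝ) ^ 2 :=
                    mul_le_mul hEle hg2 (by positivity) (by positivity)
                _ = 1296 * m * (p : ℝ)⁻¹ * (1 / p : ℝ) := by
                    field_simp; ring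
                _ ≤ 1296 * m * N0⁻¹ * (1 / p : ℝ) := by
                    gcongr
            · rw [if_neg hd, norm_zero]
              positivity
      _ = 1296 * m * N0⁻¹ * ∑ p ∈ PS P T, (1 / p : ℝ) := by rw [Finset.mul_sum]
      _ ≤ 1296 * m * N0⁻¹ * C1 := by gcongr
      _ = _ := by ring
  have hlim : Tendsto (fun T : ℝ => 1296 * m * C1 * (T ^ ((1 - P.κ) / P.B))⁻¹) atTop (𝓝 0) := by
    have h1 := (hN0.inv_tendsto_atTop).const_mul (1296 * m * C1)
    simpa using h1
  exact squeeze_zero' (Eventually.of_forall fun _ => norm_nonneg _) hbound hlim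

end Lim3Aux

open Lim3Aux

theorem tt3_lim (P : Par) (m : ℕ) (hm : 1 ≤ m) (hm1 : m ≤ P.B) :
    Tendsto (fun T : ℝ => tt (PS P T) (Eb P T) (yy3 P T) m) atTop
      (𝓝 ((9 * m * ∫ u in (0 : ℝ)..1, u * P.b m u ^ 2 : ℝ) : ℂ)) := by
  have h1 := tt3_main P m hm
  have hcd : ContDiff ℝ 1 (fun u : ℝ => ((9 * m * (u * P.b m u ^ 2) : ℝ) : ℂ)) := by
    have hb : ContDiff ℝ 1 (P.b m) := (P.hb m).of_le (by norm_num)
    exact ofRealCLM.contDiff.comp (contDiff_const.mul (contDiff_id.mul (hb.pow 2)))
  have h2 := lim_gen P m (fun u : ℝ => ((9 * m * (u * P.b m u ^ 2) : ℝ) : ℂ)) hcd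
    (fun u hu => by simp [hu]) (fun T p => (m : ℂ) * yy3 P T p) (27 * m) (by positivity) (by
      intro T p C hT hC hp hE hx hxx
      have hL := log_pos' hT
      have hu0 : 0 ≤ Real.log p / Real.log T :=
        div_nonneg (Real.log_natCast_nonneg p) hL.le
      set u := Real.log p / Real.log T with hu
      have hb := P.hb1 m u
      have hpr : (0 : ℝ) < p := by exact_mod_cast hp
      have e : (m : ℂ) * yy3 P T p - ((1 / Real.log T : ℝ) : ℂ) *
          ((Real.log p / p : ℝ) * ((9 * m * (u * P.b m u ^ 2) : ℝ) : ℂ)) =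
          ((9 * m / p * ((chi P T p - u * P.b m u) * (chi P T p + u * P.b m u)) : ℝ) : ℂ) := by
        unfold yy3
        have : (1 / Real.log T) * ((Real.log p / p) * (9 * m * (u * P.b m u ^ 2))) =
            9 * m / p * (u * P.b m u) ^ 2 := by
          rw [hu]
          ring
        rw [← Complex.ofReal_mul, ← Complex.ofReal_mul, this]
        push_cast
        ring
      rw [e, Complex.norm_real, Real.norm_eq_abs, abs_mul, abs_mul,
        abs_of_nonneg (by positivity : (0 : ℝ) ≤ 9 * m / p)]
      have h3 : |chi P T p + u * P.b m u| ≤ 3 := by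
        refine (abs_add_le _ _).trans ?_
        have : |u * P.b m u| ≤ 1 := by
          rw [abs_of_nonneg (mul_nonneg hu0 hb.1)]
          exact hb.2
        linarith
      calc 9 * (m : ℝ) / p * (|chi P T p - u * P.b m u| * |chi P T p + u * P.b m u|) ≤
            9 * (m : ℝ) / p * ((C / Real.log T) * 3) := by
            apply mul_le_mul_of_nonneg_left _ (by positivity)
            exact mul_le_mul hxx h3 (abs_nonneg _) (by positivity)
        _ = 27 * m * (C / Real.log T) * (1 / p) := by ring)
  have h3 : (∫ u in (0 : ℝ)..1, ((9 * m * (u * P.b m u ^ 2) : ℝ) : ℂ)) =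
      ((9 * m * ∫ u in (0 : ℝ)..1, u * P.b m u ^ 2 : ℝ) : ℂ) := by
    rw [intervalIntegral.integral_ofReal, intervalIntegral.integral_const_mul]
  rw [h3] at h2
  have h4 := h1.add h2
  rw [zero_add] at h4
  refine h4.congr fun T => ?_
  ring

theorem zz3_lim (c : ℝ) (P : Par) (m : ℕ) (hm : 1 ≤ m) (hm1 : m ≤ P.B) :
    Tendsto (fun T : ℝ => ∑ p ∈ (PS P T).filter (fun p => Eb P T p = m), zz3 c P T p) atTop
      (𝓝 (∫ u in (0 : ℝ)..1, 6 * Real.sin (Real.pi * c * u) * Real.exp (-P.a * u) * P.b m u)) := by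
  have hcd : ContDiff ℝ 1 (fun u : ℝ =>
      ((6 * Real.sin (Real.pi * c * u) * Real.exp (-P.a * u) * P.b m u : ℝ) : ℂ)) := by
    have hb : ContDiff ℝ 1 (P.b m) := (P.hb m).of_le (by norm_num)
    have h1 : ContDiff ℝ 1 (fun u : ℝ => Real.sin (Real.pi * c * u)) :=
      Real.contDiff_sin.comp (contDiff_const.mul contDiff_id)
    have h2 : ContDiff ℝ 1 (fun u : ℝ => Real.exp (-P.a * u)) :=
      Real.contDiff_exp.comp (contDiff_const.mul contDiff_id)
    exact ofRealCLM.contDiff.comp (((contDiff_const.mul h1).mul h2).mul hb)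
  have h2 := lim_gen P m _ hcd (fun u hu => by simp [hu]) (fun T p => ((zz3 c P T p : ℝ) : ℂ)) 6
    (by norm_num) (by
      intro T p C hT hC hp hE hx hxx
      have hL := log_pos' hT
      have hu0 : 0 ≤ Real.log p / Real.log T :=
        div_nonneg (Real.log_natCast_nonneg p) hL.le
      have e : ((zz3 c P T p : ℝ) : ℂ) - ((1 / Real.log T : ℝ) : ℂ) *
          ((Real.log p / p : ℝ) * ((6 * Real.sin (Real.pi * c * (Real.log p / Real.log T)) *
            Real.exp (-P.a * (Real.log p / Real.log T)) *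
            P.b m (Real.log p / Real.log T) : ℝ) : ℂ)) =
          ((6 * Real.sin (Real.pi * c * (Real.log p / Real.log T)) *
            Real.exp (-P.a * (Real.log p / Real.log T)) * (chi P T p - Real.log p / Real.log T *
            P.b m (Real.log p / Real.log T)) * (1 / p) : ℝ) : ℂ) := by
        unfold zz3
        rw [← Complex.ofReal_mul, ← Complex.ofReal_mul, ← Complex.ofReal_sub]
        congr 1
        rw [show Real.pi * c * Real.log p / Real.log T = Real.pi * c * (Real.log p / Real.log T) by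
          ring, show -P.a * Real.log p / Real.log T = -P.a * (Real.log p / Real.log T) by ring]
        ring
      rw [e, Complex.norm_real, Real.norm_eq_abs, abs_mul, abs_mul, abs_mul, abs_mul,
        abs_of_nonneg (by positivity : (0 : ℝ) ≤ 1 / p), abs_of_pos (by norm_num : (0 : ℝ) < 6)]
      have h3 : |Real.sin (Real.pi * c * (Real.log p / Real.log T))| ≤ 1 :=
        Real.abs_sin_le_one _
      have h4 : |Real.exp (-P.a * (Real.log p / Real.log T))| ≤ 1 := by
        rw [abs_of_pos (Real.exp_pos _), Real.exp_le_one_iff]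
        have := P.ha
        nlinarith
      calc 6 * |Real.sin (Real.pi * c * (Real.log p / Real.log T))| *
            |Real.exp (-P.a * (Real.log p / Real.log T))| *
            |chi P T p - Real.log p / Real.log T * P.b m (Real.log p / Real.log T)| * (1 / p) ≤
            6 * 1 * 1 * (C / Real.log T) * (1 / p) := by
            gcongr
        _ = 6 * (C / Real.log T) * (1 / p) := by ring)
  rw [intervalIntegral.integral_ofReal] at h2
  have h5 := (Complex.continuous_re.tendsto _).comp h2
  rw [Complex.ofReal_re] at h5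
  refine h5.congr fun T => ?_
  simp only [Function.comp]
  rw [← Complex.ofReal_sum, Complex.ofReal_re]

end LG
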