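import Pool.Agent.H382L.XD3
import Pool.Agent.H382L.Lim3
import Pool.Agent.H382P.Newton

open Complex Filter Topology Set MeasureTheory

namespace LG

open SG (phi hh nn dd dl)
open SP SP.TTAux

namespace Pos3Aux

lemma yy3_eq (P : Par) (T : ℝ) (p : ℕ) : yy3 P T p = ((9 * chi P T p ^ 2 / p : ℝ) : ℂ) := rfl

lemma yy3_nonneg (P : Par) (T : ℝ) (p : ℕ) : (0 : ℝ) ≤ 9 * chi P T p ^ 2 / p := by positivity

/-- `qq` of `yy3` is a nonnegative real -/
lemma qq_real (P : Par) (T : ℝ) (S : Finset ℕ) (E : ℕ → ℕ) (n : ℕ) :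
    qq S E (yy3 P T) n = ((∑ A ∈ S.powerset.filter (fun A => ∑ p ∈ A, E p = n),
      ∏ p ∈ A, (9 * chi P T p ^ 2 / p) : ℝ) : ℂ) := by
  unfold qq yy3
  push_cast
  rfl

lemma qq_re_nonneg (P : Par) (T : ℝ) (S : Finset ℕ) (E : ℕ → ℕ) (n : ℕ) :
    0 ≤ (qq S E (yy3 P T) n).re := by
  rw [qq_real, Complex.ofReal_re]
  exact Finset.sum_nonneg fun A _ => Finset.prod_nonneg fun p _ => yy3_nonneg P T p

lemma qq_re_mono (P : Par) (T : ℝ) (S S' : Finset ℕ) (h : S ⊆ S') (E : ℕ → ℕ) (n : ℕ) :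
    (qq S E (yy3 P T) n).re ≤ (qq S' E (yy3 P T) n).re := by
  rw [qq_real, qq_real, Complex.ofReal_re, Complex.ofReal_re]
  apply Finset.sum_le_sum_of_subset_of_nonneg
  · exact Finset.filter_subset_filter _ (Finset.powerset_mono.mpr h)
  · intro A _ _
    exact Finset.prod_nonneg fun p _ => yy3_nonneg P T p

/-- removing one prime changes `qq` by little -/
lemma qq_erase (P : Par) (T : ℝ) (S : Finset ℕ) (E : ℕ → ℕ) (p : ℕ) (hp : p ∈ S) (n : ℕ)
    (M : ℝ) (hM : ∀ k ≤ n, (qq S E (yy3 P T) k).re ≤ M) (h : |chi P T p| ≤ 2) :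
    |(qq (S.erase p) E (yy3 P T) n).re - (qq S E (yy3 P T) n).re| ≤ 36 / p * M := by
  have hM0 : 0 ≤ M := (qq_re_nonneg P T S E n).trans (hM n le_rfl)
  have h1 : qq S E (yy3 P T) n = qq (S.erase p) E (yy3 P T) n +
      if E p ≤ n then yy3 P T p * qq (S.erase p) E (yy3 P T) (n - E p) else 0 := by
    rw [← NewtonAux.qq_insert E (yy3 P T) (Finset.notMem_erase p S) n, Finset.insert_erase hp]
  rw [h1]
  split_ifs with hE
  · rw [Complex.add_re, sub_add_cancel_left, abs_neg, yy3_eq, Complex.re_ofReal_mul, abs_mul]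
    have h2 := Lim3Aux.yy3_norm P T p h
    rw [yy3_eq, Complex.norm_real, Real.norm_eq_abs] at h2
    apply mul_le_mul h2 _ (abs_nonneg _) (by positivity)
    rw [abs_of_nonneg (qq_re_nonneg _ _ _ _ _)]
    exact (qq_re_mono P T _ _ (Finset.erase_subset p S) E _).trans (hM _ (Nat.sub_le _ _))
  · rw [add_zero, sub_self, abs_zero]
    positivity

lemma zz3_abs (c : ℝ) (P : Par) (T : ℝ) (hT : 10 ≤ T) (p : ℕ) (h : |chi P T p| ≤ 2) :
    |zz3 c P T p| ≤ 12 * (1 / p) := by
  have hL := log_pos' hT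
  unfold zz3
  rw [div_eq_mul_inv, abs_mul, abs_mul, abs_mul, abs_mul,
    abs_of_nonneg (by positivity : (0 : ℝ) ≤ (p : ℝ)⁻¹), abs_of_pos (by norm_num : (0 : ℝ) < 6)]
  have h3 : |Real.sin (Real.pi * c * Real.log p / Real.log T)| ≤ 1 :=
    Real.abs_sin_le_one _
  have h4 : |Real.exp (-P.a * Real.log p / Real.log T)| ≤ 1 := by
    rw [abs_of_pos (Real.exp_pos _), Real.exp_le_one_iff]
    have := P.ha
    have h5 : 0 ≤ P.a * Real.log p / Real.log T :=
      div_nonneg (mul_nonneg this.le (Real.log_natCast_nonneg p)) hL.le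
    have h6 : -P.a * Real.log p / Real.log T = -(P.a * Real.log p / Real.log T) := by ring
    linarith
  calc 6 * |Real.sin (Real.pi * c * Real.log p / Real.log T)| *
        |Real.exp (-P.a * Real.log p / Real.log T)| * |chi P T p| * (p : ℝ)⁻¹ ≤
        6 * 1 * 1 * 2 * (p : ℝ)⁻¹ := by gcongr
    _ = 12 * (1 / p) := by ring

lemma pr_le (B n : ℕ) (hB : 0 < B) (hn : n ≤ B) : 0 ≤ pr B n ∧ pr B n ≤ 1 := by
  unfold pr
  have hB' : (0 : ℝ) < B := by exact_mod_cast hB
  have h1 : (n : ℝ) / B ≤ 1 := by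
    rw [div_le_one hB']
    exact_mod_cast hn
  have h2 : 0 ≤ (n : ℝ) / B := by positivity
  constructor <;> linarith

/-- limits of the coefficients `qq` -/
lemma qq_lim (P : Par) : ∃ q : ℕ → ℝ, q 0 = 1 ∧ (∀ n, n ≤ P.B →
    Tendsto (fun T : ℝ => (qq (PS P T) (Eb P T) (yy3 P T) n).re) atTop (𝓝 (q n))) ∧
    ∀ n : ℕ, 1 ≤ n → n ≤ P.B → (n : ℝ) * q n = ∑ m ∈ Finset.Icc 1 n,
      (9 * m * ∫ u in (0 : ℝ)..1, u * P.b m u ^ 2) * q (n - m) := by
  have hE : ∀ T : ℝ, ∀ p ∈ PS P T, 1 ≤ Eb P T p := by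
    intro T p hp
    rw [PS, Finset.mem_filter] at hp
    omega
  have hnew := fun T : ℝ => newton (PS P T) (Eb P T) (hE T) (yy3 P T)
  have hlim : ∀ n : ℕ, n ≤ P.B → ∃ l : ℂ,
      Tendsto (fun T : ℝ => qq (PS P T) (Eb P T) (yy3 P T) n) atTop (𝓝 l) := by
    intro n
    induction n using Nat.strong_induction_on with
    | _ n ih =>
      intro hn
      rcases Nat.eq_zero_or_pos n with h0 | h0
      · subst h0
        refine ⟨1, ?_⟩
        have : (fun T : ℝ => qq (PS P T) (Eb P T) (yy3 P T) 0) = fun _ => 1 := by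
          funext T
          exact (hnew T).1
        rw [this]
        exact tendsto_const_nhds
      · have h1 : ∀ m : ℕ, ∃ l : ℂ, m ∈ Finset.Icc 1 n →
            Tendsto (fun T : ℝ => tt (PS P T) (Eb P T) (yy3 P T) m *
              qq (PS P T) (Eb P T) (yy3 P T) (n - m)) atTop (𝓝 l) := by
          intro m
          by_cases hm : m ∈ Finset.Icc 1 n
          · rw [Finset.mem_Icc] at hm
            obtain ⟨l, hl⟩ := ih (n - m) (by omega) (by omega)
            exact ⟨_, fun _ => (tt3_lim P m hm.1 (by omega)).mul hl⟩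
          · exact ⟨0, fun h => absurd h hm⟩
        choose l hl using h1
        refine ⟨(n : ℂ)⁻¹ * ∑ m ∈ Finset.Icc 1 n, l m, ?_⟩
        have h2 : (fun T : ℝ => qq (PS P T) (Eb P T) (yy3 P T) n) = fun T : ℝ =>
            (n : ℂ)⁻¹ * ∑ m ∈ Finset.Icc 1 n, tt (PS P T) (Eb P T) (yy3 P T) m *
              qq (PS P T) (Eb P T) (yy3 P T) (n - m) := by
          funext T
          rw [← (hnew T).2 n h0, ← mul_assoc, inv_mul_cancel₀, one_mul]
          exact_mod_cast h0.ne'
        rw [h2]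
        exact (tendsto_finsetSum _ hl).const_mul _
  choose! q hq using hlim
  have hq0 : q 0 = 1 := by
    have h1 := hq 0 (by omega)
    have : (fun T : ℝ => qq (PS P T) (Eb P T) (yy3 P T) 0) = fun _ => 1 := by
      funext T
      exact (hnew T).1
    rw [this] at h1
    exact (tendsto_nhds_unique h1 tendsto_const_nhds)
  have hqr : ∀ n : ℕ, 1 ≤ n → n ≤ P.B →
      (n : ℂ) * q n = ∑ m ∈ Finset.Icc 1 n,
        ((9 * m * ∫ u in (0 : ℝ)..1, u * P.b m u ^ 2 : ℝ) : ℂ) * q (n - m) := by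
    intro n hn hnB
    have h1 : Tendsto (fun T : ℝ => (n : ℂ) * qq (PS P T) (Eb P T) (yy3 P T) n) atTop
        (𝓝 ((n : ℂ) * q n)) := (hq n hnB).const_mul _
    have h2 : Tendsto (fun T : ℝ => ∑ m ∈ Finset.Icc 1 n, tt (PS P T) (Eb P T) (yy3 P T) m *
              qq (PS P T) (Eb P T) (yy3 P T) (n - m)) atTop
        (𝓝 (∑ m ∈ Finset.Icc 1 n,
          ((9 * m * ∫ u in (0 : ℝ)..1, u * P.b m u ^ 2 : ℝ) : ℂ) * q (n - m))) := by
      apply tendsto_finsetSum
      intro m hm
      rw [Finset.mem_Icc] at hm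
      exact (tt3_lim P m hm.1 (by omega)).mul (hq (n - m) (by omega))
    have h3 : (fun T : ℝ => (n : ℂ) * qq (PS P T) (Eb P T) (yy3 P T) n) =
        (fun T : ℝ => ∑ m ∈ Finset.Icc 1 n, tt (PS P T) (Eb P T) (yy3 P T) m *
              qq (PS P T) (Eb P T) (yy3 P T) (n - m)) := by
      funext T
      exact (hnew T).2 n hn
    rw [h3] at h1
    exact tendsto_nhds_unique h1 h2
  refine ⟨fun n => (q n).re, by simp only [hq0, Complex.one_re], fun n hn =>
    (Complex.continuous_re.tendsto _).comp (hq n hn), ?_⟩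
  intro n hn hnB
  have h1 := congrArg Complex.re (hqr n hn hnB)
  rw [Complex.re_sum] at h1
  have h2 : ((n : ℂ) * q n).re = (n : ℝ) * (q n).re := by
    rw [← Complex.ofReal_natCast, Complex.re_ofReal_mul]
  rw [h2] at h1
  rw [h1]
  apply Finset.sum_congr rfl
  intro m _
  rw [Complex.re_ofReal_mul]

/-- limits of `ND` and `XD` -/
lemma lims (c : ℝ) (P : Par) (q : ℕ → ℝ) (hq : ∀ n, n ≤ P.B →
    Tendsto (fun T : ℝ => (qq (PS P T) (Eb P T) (yy3 P T) n).re) atTop (𝓝 (q n))) :
    Tendsto (fun T : ℝ => ND (nn P.κ T) (dc3 P T)) atTop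
      (𝓝 (∑ n ∈ Finset.range (P.B + 1), pr P.B n ^ 2 * q n)) ∧
    Tendsto (fun T : ℝ => XD c P.a T (nn P.κ T) (dc3 P T)) atTop
      (𝓝 (∑ j ∈ Finset.Icc 1 P.B, (∫ u in (0 : ℝ)..1, 6 * Real.sin (Real.pi * c * u) *
        Real.exp (-P.a * u) * P.b j u) * ∑ n ∈ Finset.range (P.B + 1), if n + j ≤ P.B then
        pr P.B n * pr P.B (n + j) * q n else 0)) := by
  classical
  have hB := P.hB
  constructor
  · have h1 : Tendsto (fun T : ℝ => ∑ n ∈ Finset.range (P.B + 1), pr P.B n ^ 2 *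
        (qq (PS P T) (Eb P T) (yy3 P T) n).re) atTop
        (𝓝 (∑ n ∈ Finset.range (P.B + 1), pr P.B n ^ 2 * q n)) := by
      apply tendsto_finsetSum
      intro n hn
      rw [Finset.mem_range] at hn
      exact (hq n (by omega)).const_mul _
    refine h1.congr' ?_
    filter_upwards [eventually_ge_atTop (10 : ℝ)] with T hT
    exact (ND3_eq P T hT).symm
  · obtain ⟨C1, T1, hC1, hT1, hchi⟩ := chi_approx P
    have hBpos : (0 : ℝ) < P.B := by positivity
    have hκ1 : 0 < 1 - P.κ := by have := P.hκ1; linarith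
    have he : 0 < (1 - P.κ) / P.B := by positivity
    have hN0 : Tendsto (fun T : ℝ => T ^ ((1 - P.κ) / P.B)) atTop atTop := tendsto_rpow_atTop he
    set X : ℝ → ℝ := fun T => ∑ j ∈ Finset.Icc 1 P.B,
      (∑ p ∈ (PS P T).filter (fun p => Eb P T p = j), zz3 c P T p) *
      ∑ n ∈ Finset.range (P.B + 1), (if n + j ≤ P.B then
        pr P.B n * pr P.B (n + j) * (qq (PS P T) (Eb P T) (yy3 P T) n).re else 0) with hX
    have h1 : Tendsto X atTop
      (𝓝 (∑ j ∈ Finset.Icc 1 P.B, (∫ u in (0 : ℝ)..1, 6 * Real.sin (Real.pi * c * u) *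
        Real.exp (-P.a * u) * P.b j u) * ∑ n ∈ Finset.range (P.B + 1), if n + j ≤ P.B then
        pr P.B n * pr P.B (n + j) * q n else 0)) := by
      apply tendsto_finsetSum
      intro j hj
      rw [Finset.mem_Icc] at hj
      apply (zz3_lim c P j hj.1 hj.2).mul
      apply tendsto_finsetSum
      intro n hn
      rw [Finset.mem_range] at hn
      split_ifs
      · exact (hq n (by omega)).const_mul _
      · exact tendsto_const_nhds
    -- bound for the qq
    obtain ⟨M, hM⟩ : ∃ M : ℝ, ∀ n ∈ Finset.range (P.B + 1), q n + 1 ≤ M := by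
      refine ⟨∑ n ∈ Finset.range (P.B + 1), |q n + 1|, fun n hn => ?_⟩
      exact (le_abs_self _).trans (Finset.single_le_sum (f := fun n => |q n + 1|)
        (fun i _ => abs_nonneg _) hn)
    have hqM : ∀ᶠ T : ℝ in atTop, ∀ n ∈ Finset.range (P.B + 1),
        (qq (PS P T) (Eb P T) (yy3 P T) n).re ≤ M := by
      rw [Filter.eventually_all_finset]
      intro n hn
      have h2 := hM n hn
      rw [Finset.mem_range] at hn
      filter_upwards [(hq n (by omega)).eventually (gt_mem_nhds (show q n < q n + 1 by linarith))]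
        with T hT
      linarith
    have h2 : Tendsto (fun T : ℝ => XD c P.a T (nn P.κ T) (dc3 P T) - X T) atTop (𝓝 0) := by
      rw [tendsto_zero_iff_norm_tendsto_zero]
      have hbound : ∀ᶠ T : ℝ in atTop, ‖XD c P.a T (nn P.κ T) (dc3 P T) - X T‖ ≤
          (12 * C1 * ((P.B + 1) * (36 * M))) * (T ^ ((1 - P.κ) / P.B))⁻¹ := by
        filter_upwards [eventually_ge_atTop T1, eventually_ge_atTop (10 : ℝ),
          hN0.eventually_ge_atTop 1, hqM] with T hTT hT10 hT8 hMT
        obtain ⟨hc, hs⟩ := hchi T hTT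
        have hL := log_pos' hT10
        have hM0 : 0 ≤ M := (qq_re_nonneg P T _ _ 0).trans (hMT 0 (by simp))
        set N0 := T ^ ((1 - P.κ) / P.B) with hN0def
        have hN0pos : 0 < N0 := by linarith
        have hXT : X T = ∑ p ∈ PS P T, zz3 c P T p *
            ∑ n ∈ Finset.range (P.B + 1), (if n + Eb P T p ≤ P.B then
            pr P.B n * pr P.B (n + Eb P T p) * (qq (PS P T) (Eb P T) (yy3 P T) n).re else 0) := by
          rw [hX]
          rw [← Finset.sum_fiberwise_of_maps_to (s := PS P T) (t := Finset.Icc 1 P.B)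
            (g := fun p => Eb P T p) (fun p hp => by
              rw [Finset.mem_Icc]
              refine ⟨?_, (hc p hp).1⟩
              rw [PS, Finset.mem_filter] at hp
              omega)]
          apply Finset.sum_congr rfl
          intro j hj
          rw [Finset.sum_mul]
          apply Finset.sum_congr rfl
          intro p hp
          rw [Finset.mem_filter] at hp
          rw [hp.2]
        rw [XD3_eq c P T hT10, hXT, ← Finset.sum_sub_distrib]
        refine (norm_sum_le _ _).trans ?_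
        calc _ ≤ ∑ p ∈ PS P T, (12 * ((P.B + 1) * (36 * M * N0⁻¹))) * (1 / p : ℝ) := by
              apply Finset.sum_le_sum
              intro p hp
              have hpN := lower P T hT10 p hp
              have hp0 : (0 : ℝ) < p := by linarith
              rw [← mul_sub, ← Finset.sum_sub_distrib, Real.norm_eq_abs, abs_mul]
              have h3 : |∑ n ∈ Finset.range (P.B + 1),
                  ((if n + Eb P T p ≤ P.B then pr P.B n * pr P.B (n + Eb P T p) *
                    (qq ((PS P T).erase p) (Eb P T) (yy3 P T) n).re else 0) -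
                  (if n + Eb P T p ≤ P.B then pr P.B n * pr P.B (n + Eb P T p) *
                    (qq (PS P T) (Eb P T) (yy3 P T) n).re else 0))| ≤
                  (P.B + 1) * (36 * M * N0⁻¹) := by
                refine (Finset.abs_sum_le_sum_abs _ _).trans ?_
                calc _ ≤ ∑ n ∈ Finset.range (P.B + 1), (36 * M * N0⁻¹) := by
                      apply Finset.sum_le_sum
                      intro n hn
                      rw [Finset.mem_range] at hn
                      split_ifs with hnE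
                      · rw [← mul_sub, abs_mul, abs_mul]
                        obtain ⟨a1, a2⟩ := pr_le P.B n (by omega) (by omega)
                        obtain ⟨b1, b2⟩ := pr_le P.B (n + Eb P T p) (by omega) hnE
                        rw [abs_of_nonneg a1, abs_of_nonneg b1]
                        have h4 := qq_erase P T (PS P T) (Eb P T) p hp n M
                          (fun k hk => hMT k (by rw [Finset.mem_range]; omega)) (hc p hp).2.2
                        calc pr P.B n * pr P.B (n + Eb P T p) * _ ≤ 1 * 1 * (36 / p * M) := by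
                              gcongr
                          _ = 36 * M * (p : ℝ)⁻¹ := by ring
                          _ ≤ 36 * M * N0⁻¹ := by gcongr
                      · rw [sub_self, abs_zero]
                        positivity
                  _ = _ := by
                      rw [Finset.sum_const, Finset.card_range, nsmul_eq_mul]
                      push_cast
                      ring
              calc _ ≤ (12 * (1 / p)) * ((P.B + 1) * (36 * M * N0⁻¹)) :=
                    mul_le_mul (zz3_abs c P T hT10 p (hc p hp).2.2) h3 (abs_nonneg _)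
                      (by positivity)
                _ = _ := by ring
          _ = (12 * ((P.B + 1) * (36 * M * N0⁻¹))) * ∑ p ∈ PS P T, (1 / p : ℝ) := by
              rw [Finset.mul_sum]
          _ ≤ (12 * ((P.B + 1) * (36 * M * N0⁻¹))) * C1 := by gcongr
          _ = _ := by ring
      have hlim : Tendsto (fun T : ℝ => (12 * C1 * ((P.B + 1) * (36 * M))) *
          (T ^ ((1 - P.κ) / P.B))⁻¹) atTop (𝓝 0) := by
        have h1 := (hN0.inv_tendsto_atTop).const_mul (12 * C1 * ((P.B + 1) * (36 * M)))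
        simpa using h1
      exact squeeze_zero' (Eventually.of_forall fun _ => norm_nonneg _) hbound hlim
    have h3 := h1.add h2
    rw [add_zero] at h3
    refine h3.congr fun T => ?_
    ring

end Pos3Aux

open Pos3Aux

theorem large_pos_of (c : ℝ) (hc : 0 < c) (hc3 : c ≤ 3)
    (hid : ∃ (B : ℕ) (η ε0 : ℝ), 2 ≤ B ∧ 1 / 2 < η ∧ η < 1 ∧ 0 < ε0 ∧ ∀ t Q Z : ℕ → ℝ, Q 0 = 1 →
    (∀ n : ℕ, 1 ≤ n → n ≤ B → (n : ℝ) * Q n = ∑ m ∈ Finset.Icc 1 n, t m * Q (n - m)) →
    |t 1| ≤ 1 / (B : ℝ) ^ 2 → (∀ m : ℕ, 2 ≤ m → m ≤ B → |t m - 9| ≤ 1 / (B : ℝ) ^ 2) →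
    |Z 1| ≤ 1 / (B : ℝ) ^ 2 →
    (∀ j : ℕ, 2 ≤ j → j ≤ B → |Z j - 6 / j * Real.sin (Real.pi * c * η * j / B)| ≤ 60 / (j * B)) →
    Real.pi * c * (∑ n ∈ Finset.range (B + 1), pr B n ^ 2 * Q n) -
      (∑ j ∈ Finset.Icc 1 B, Z j * ∑ n ∈ Finset.range (B + 1), if n + j ≤ B then
        pr B n * pr B (n + j) * Q n else 0) ≤
      (Real.pi - ε0) * ∑ n ∈ Finset.range (B + 1), pr B n ^ 2 * Q n)
    (hch : ∀ (B : ℕ) (η : ℝ) (_ : 2 ≤ B) (_ : 1 / 2 < η) (_ : η < 1),
    ∃ P : Par, P.B = B ∧ P.κ = 1 - η ∧ (∀ m : ℕ, 2 ≤ m → m ≤ B →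
      |(9 * m * ∫ u in (0 : ℝ)..1, u * P.b m u ^ 2) - 9| ≤ 1 / (2 * (B : ℝ) ^ 2)) ∧
      ∀ j : ℕ, 2 ≤ j → j ≤ B →
      |(∫ u in (0 : ℝ)..1, 6 * Real.sin (Real.pi * c * u) * Real.exp (-P.a * u) * P.b j u) -
        6 / j * Real.sin (Real.pi * c * η * j / B)| ≤ 59 / (j * B)) :
    ∃ (P : Par) (ε0 C T0 : ℝ), 0 < ε0 ∧ 0 < C ∧
    10 ≤ T0 ∧ ∀ T : ℝ, T0 ≤ T →
      Real.pi * c * ND (nn P.κ T) (dc3 P T) - XD c P.a T (nn P.κ T) (dc3 P T) ≤
        (Real.pi - ε0) * ND (nn P.κ T) (dc3 P T) ∧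
      1 ≤ ND (nn P.κ T) (dc3 P T) ∧ ND (nn P.κ T) (dc3 P T) ≤ C := by
  obtain ⟨B, η, ε0, hB, hη, hη1, hε0, hpos⟩ := hid
  obtain ⟨P, hPB, hPκ, hG, hZ⟩ := hch B η hB hη hη1
  subst hPB
  obtain ⟨q, hq0, hq, hqr⟩ := qq_lim P
  obtain ⟨hND, hXD⟩ := lims c P q hq
  have hb1 : ∀ u : ℝ, P.b 1 u = 0 := by
    intro u
    by_contra h
    have := (P.hb0 1 u h).1
    omega
  have hBpos : (0 : ℝ) < P.B := by positivity
  have hfin := hpos (fun m => 9 * m * ∫ u in (0 : ℝ)..1, u * P.b m u ^ 2) q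
    (fun j => ∫ u in (0 : ℝ)..1, 6 * Real.sin (Real.pi * c * u) * Real.exp (-P.a * u) * P.b j u)
    hq0 hqr (by
      simp only [hb1]
      norm_num
      ) (fun m hm hmB => (hG m hm hmB).trans (by
        rw [div_le_div_iff_of_pos_left (by norm_num) (by positivity) (by positivity)]
        nlinarith [sq_nonneg (P.B : ℝ)]))
      (by
        simp only [hb1]
        norm_num
        ) (fun j hj hjB => (hZ j hj hjB).trans (by
          have : (0 : ℝ) < j := by positivity
          gcongr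
          norm_num))
  set N1 := ∑ n ∈ Finset.range (P.B + 1), pr P.B n ^ 2 * q n with hN1
  set X1 := ∑ j ∈ Finset.Icc 1 P.B, (∫ u in (0 : ℝ)..1, 6 * Real.sin (Real.pi * c * u) *
        Real.exp (-P.a * u) * P.b j u) * ∑ n ∈ Finset.range (P.B + 1), if n + j ≤ P.B then
        pr P.B n * pr P.B (n + j) * q n else 0 with hX1
  have hge : ∀ T : ℝ, 10 ≤ T → 1 ≤ ND (nn P.κ T) (dc3 P T) := by
    intro T hT
    rw [ND3_eq P T hT]
    have hE : ∀ p ∈ PS P T, 1 ≤ Eb P T p := by
      intro p hp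
      rw [PS, Finset.mem_filter] at hp
      omega
    have h0 : pr P.B 0 ^ 2 * (qq (PS P T) (Eb P T) (yy3 P T) 0).re = 1 := by
      rw [(newton (PS P T) (Eb P T) hE (yy3 P T)).1]
      simp [pr]
    rw [← h0]
    exact Finset.single_le_sum (f := fun n => pr P.B n ^ 2 *
      (qq (PS P T) (Eb P T) (yy3 P T) n).re)
      (fun n _ => mul_nonneg (sq_nonneg _) (qq_re_nonneg _ _ _ _ _)) (by simp)
  have hN1ge : 1 ≤ N1 := by
    apply ge_of_tendsto hND
    filter_upwards [eventually_ge_atTop (10 : ℝ)] with T hT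
    exact hge T hT
  have hlim : Tendsto (fun T : ℝ => Real.pi * c * ND (nn P.κ T) (dc3 P T) -
      XD c P.a T (nn P.κ T) (dc3 P T) - (Real.pi - ε0 / 2) * ND (nn P.κ T) (dc3 P T)) atTop
      (𝓝 (Real.pi * c * N1 - X1 - (Real.pi - ε0 / 2) * N1)) :=
    ((hND.const_mul _).sub hXD).sub (hND.const_mul _)
  have hneg : Real.pi * c * N1 - X1 - (Real.pi - ε0 / 2) * N1 < 0 := by
    have : Real.pi * c * N1 - X1 ≤ (Real.pi - ε0) * N1 := hfin
    nlinarith
  have e1 := hlim.eventually (gt_mem_nhds hneg)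
  have e2 := hND.eventually (gt_mem_nhds (show N1 < N1 + 1 by linarith))
  obtain ⟨T1, hT1⟩ := (e1.and e2).exists_forall_of_atTop
  refine ⟨P, ε0 / 2, N1 + 1, max T1 10, by positivity, by linarith, le_max_right _ _, ?_⟩
  intro T hT
  have h1 := hT1 T ((le_max_left _ _).trans hT)
  refine ⟨by linarith [h1.1], hge T ((le_max_right _ _).trans hT), h1.2.le⟩

end LG
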