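import Pool.Agent.H382L.D3
import Pool.Agent.H382P.TT

open Complex Filter Topology Set MeasureTheory

namespace LG

open SG (phi hh nn dd dl)
open SP SP.DpAux D3Aux

namespace XD3Aux

/-- a sum over divisors of a squarefree number against `Λ` only sees the primes -/
lemma sum_vm (A : Finset ℕ) (hA : ∀ p ∈ A, p.Prime) (f : ℕ → ℂ)
    (hf : ∀ m, ArithmeticFunction.vonMangoldt m = 0 → f m = 0) :
    ∑ m ∈ (∏ p ∈ A, p).divisors, f m = ∑ p ∈ A, f p := by
  classical
  rw [sum_div A hA f]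
  have h1 : ∑ B ∈ A.powerset, f (∏ p ∈ B, p) = ∑ B ∈ A.powersetCard 1, f (∏ p ∈ B, p) := by
    symm
    apply Finset.sum_subset
    · intro B hB
      rw [Finset.mem_powersetCard] at hB
      rw [Finset.mem_powerset]
      exact hB.1
    · intro B hB hB1
      rw [Finset.mem_powerset] at hB
      apply hf
      rw [ArithmeticFunction.vonMangoldt_eq_zero_iff]
      intro hpp
      apply hB1
      rw [Finset.mem_powersetCard]
      refine ⟨hB, ?_⟩
      have hBp : ∀ p ∈ B, p.Prime := fun p hp => hA p (hB hp)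
      have hq : (∏ p ∈ B, p).Prime :=
        Nat.squarefree_and_prime_pow_iff_prime.mp ⟨sqf_prod B hBp, hpp⟩
      have := Nat.primeFactors_prod hBp
      rw [hq.primeFactors] at this
      rw [← this]
      simp
  rw [h1, Finset.powersetCard_one, Finset.sum_map]
  simp

lemma one_term (c a T : ℝ) (hL : 0 < Real.log T) (P : Par) (hT : 10 ≤ T) (A : Finset ℕ)
    (hA : A ⊆ PS P T) (hE : ∑ p ∈ A, Eb P T p ≤ P.B) :
    (starRingEnd ℂ) (dc3 P T (∏ p ∈ A, p)) * ((∏ p ∈ A, p : ℕ) : ℂ) ^ (-(1 : ℂ) - (a / Real.log T : ℝ)) *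
    ∑ m ∈ (∏ p ∈ A, p).divisors, dc3 P T ((∏ p ∈ A, p) / m) *
      (((∏ p ∈ A, p) / m : ℕ) : ℂ) ^ ((a / Real.log T : ℝ) : ℂ) *
      ((ArithmeticFunction.vonMangoldt m * (2 * Real.sin (Real.pi * c * Real.log m / Real.log T)) /
        Real.log m : ℝ) : ℂ) =
    ∑ p ∈ A, ((6 * Real.sin (Real.pi * c * Real.log p / Real.log T) *
        Real.exp (-a * Real.log p / Real.log T) * chi P T p / p : ℝ) : ℂ) *
      ((pr P.B (∑ q ∈ A, Eb P T q) * pr P.B (∑ q ∈ A.erase p, Eb P T q) : ℝ) : ℂ) *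
      ∏ q ∈ A.erase p, yy3 P T q := by
  classical
  have hpr : ∀ p ∈ A, p.Prime := fun p hp => prime_of_PS (hA hp)
  rw [sum_vm A hpr (fun m => dc3 P T ((∏ p ∈ A, p) / m) *
      (((∏ p ∈ A, p) / m : ℕ) : ℂ) ^ ((a / Real.log T : ℝ) : ℂ) *
      ((ArithmeticFunction.vonMangoldt m * (2 * Real.sin (Real.pi * c * Real.log m / Real.log T)) /
        Real.log m : ℝ) : ℂ)) (fun m hm => by rw [hm]; simp), Finset.mul_sum]
  apply Finset.sum_congr rfl
  intro p hp
  have hpp := hpr p hp
  have hp0 : (p : ℂ) ≠ 0 := by exact_mod_cast hpp.ne_zero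
  have hp0r : (p : ℝ) ≠ 0 := by exact_mod_cast hpp.ne_zero
  have hlog : Real.log p ≠ 0 := (Real.log_pos (by exact_mod_cast hpp.one_lt)).ne'
  have hdiv : (∏ q ∈ A, q) / p = ∏ q ∈ A.erase p, q := by
    apply Nat.div_eq_of_eq_mul_left hpp.pos
    rw [Finset.prod_erase_mul _ _ hp]
  have hAe : A.erase p ⊆ PS P T := (Finset.erase_subset _ _).trans hA
  have hEe : ∑ q ∈ A.erase p, Eb P T q ≤ P.B :=
    (Finset.sum_le_sum_of_subset (Finset.erase_subset _ _)).trans hE
  rw [hdiv, dc3_prod P T A hA hE, dc3_prod P T _ hAe hEe, map_mul, map_prod,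
    Complex.conj_ofReal, prod_cpow, prod_cpow, ArithmeticFunction.vonMangoldt_apply_prime hpp]
  simp only [Complex.conj_ofReal]
  rw [← Finset.mul_prod_erase A (fun q => ((3 * chi P T q : ℝ) : ℂ)) hp,
    ← Finset.mul_prod_erase A (fun q => (q : ℂ) ^ (-(1 : ℂ) - ((a / Real.log T : ℝ) : ℂ))) hp]
  have e1 : (p : ℂ) ^ (-(1 : ℂ) - ((a / Real.log T : ℝ) : ℂ)) =
      ((1 / p * Real.exp (-a * Real.log p / Real.log T) : ℝ) : ℂ) := by
    rw [sub_eq_add_neg, Complex.cpow_add _ _ hp0, Complex.cpow_neg_one,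
      TTAux.cpow_a a T p hpp.pos, show -a * (Real.log p / Real.log T) =
        -a * Real.log p / Real.log T by ring, Complex.ofReal_mul]
    congr 1
    push_cast
    rw [one_div]
  have e2 : (∏ q ∈ A.erase p, (q : ℂ) ^ (-(1 : ℂ) - ((a / Real.log T : ℝ) : ℂ))) *
      (∏ q ∈ A.erase p, ((3 * chi P T q : ℝ) : ℂ)) *
      ((∏ q ∈ A.erase p, ((3 * chi P T q : ℝ) : ℂ)) *
      (∏ q ∈ A.erase p, (q : ℂ) ^ ((a / Real.log T : ℝ) : ℂ))) =
      ∏ q ∈ A.erase p, yy3 P T q := by
    rw [← Finset.prod_mul_distrib, ← Finset.prod_mul_distrib, ← Finset.prod_mul_distrib]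
    apply Finset.prod_congr rfl
    intro q hq
    have hq0 : (q : ℂ) ≠ 0 := by
      exact_mod_cast (hpr q (Finset.mem_of_mem_erase hq)).ne_zero
    have e3 : (q : ℂ) ^ (-(1 : ℂ) - ((a / Real.log T : ℝ) : ℂ)) *
        (q : ℂ) ^ ((a / Real.log T : ℝ) : ℂ) = 1 / q := by
      rw [← Complex.cpow_add _ _ hq0]
      rw [show (-(1 : ℂ) - ((a / Real.log T : ℝ) : ℂ)) + ((a / Real.log T : ℝ) : ℂ) = -1 by ring,
        Complex.cpow_neg_one, one_div]
    calc _ = ((3 * chi P T q : ℝ) : ℂ) ^ 2 * ((q : ℂ) ^ (-(1 : ℂ) - ((a / Real.log T : ℝ) : ℂ)) *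
        (q : ℂ) ^ ((a / Real.log T : ℝ) : ℂ)) := by ring
      _ = _ := by
        rw [e3]
        unfold yy3
        push_cast
        ring
  rw [e1, ← e2]
  have e4 : Real.log p * (2 * Real.sin (Real.pi * c * Real.log p / Real.log T)) / Real.log p =
      2 * Real.sin (Real.pi * c * Real.log p / Real.log T) := by
    field_simp
  rw [e4]
  push_cast
  ring

end XD3Aux

open XD3Aux

theorem XD3_eq (c : ℝ) (P : Par) (T : ℝ) (hT : 10 ≤ T) :
    XD c P.a T (nn P.κ T) (dc3 P T) = ∑ p ∈ PS P T, zz3 c P T p *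
      ∑ n ∈ Finset.range (P.B + 1), if n + Eb P T p ≤ P.B then
        pr P.B n * pr P.B (n + Eb P T p) * (qq ((PS P T).erase p) (Eb P T) (yy3 P T) n).re
      else 0 := by
  classical
  have hL := log_pos' hT
  unfold XD
  rw [sum_supp P T hT (fun k => (starRingEnd ℂ) (dc3 P T k) *
    (k : ℂ) ^ (-(1 : ℂ) - (P.a / Real.log T : ℝ)) *
    ∑ m ∈ k.divisors, dc3 P T (k / m) * ((k / m : ℕ) : ℂ) ^ ((P.a / Real.log T : ℝ) : ℂ) *
      ((ArithmeticFunction.vonMangoldt m * (2 * Real.sin (Real.pi * c * Real.log m / Real.log T)) /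
        Real.log m : ℝ) : ℂ))
    (fun n hn => by rw [dc3_zero P T n hn, map_zero, zero_mul, zero_mul])]
  -- rewrite the left side
  have h1 : ∀ n ∈ Finset.range (P.B + 1), ∀ A ∈ (PS P T).powerset.filter
        (fun A => ∑ p ∈ A, Eb P T p = n),
      (starRingEnd ℂ) (dc3 P T (∏ p ∈ A, p)) *
        ((∏ p ∈ A, p : ℕ) : ℂ) ^ (-(1 : ℂ) - (P.a / Real.log T : ℝ)) *
      ∑ m ∈ (∏ p ∈ A, p).divisors, dc3 P T ((∏ p ∈ A, p) / m) *
        (((∏ p ∈ A, p) / m : ℕ) : ℂ) ^ ((P.a / Real.log T : ℝ) : ℂ) *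
        ((ArithmeticFunction.vonMangoldt m * (2 * Real.sin (Real.pi * c * Real.log m / Real.log T)) /
          Real.log m : ℝ) : ℂ) =
      ∑ p ∈ PS P T, if p ∈ A then ((zz3 c P T p : ℝ) : ℂ) *
        ((pr P.B n * pr P.B (∑ q ∈ A.erase p, Eb P T q) : ℝ) : ℂ) *
        ∏ q ∈ A.erase p, yy3 P T q else 0 := by
    intro n hn A hA
    simp only [Finset.mem_filter, Finset.mem_powerset, Finset.mem_range] at hA hn
    rw [one_term c P.a T hL P hT A hA.1 (by omega), ← Finset.sum_filter, hA.2]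
    have : (PS P T).filter (fun p => p ∈ A) = A := by
      ext p
      simp only [Finset.mem_filter]
      exact ⟨fun h => h.2, fun h => ⟨hA.1 h, h⟩⟩
    rw [this]
    rfl
  rw [Finset.sum_congr rfl (fun n hn => Finset.sum_congr rfl (h1 n hn))]
  -- swap
  have h2 : ∑ n ∈ Finset.range (P.B + 1), ∑ A ∈ (PS P T).powerset.filter
        (fun A => ∑ p ∈ A, Eb P T p = n), ∑ p ∈ PS P T, (if p ∈ A then ((zz3 c P T p : ℝ) : ℂ) *
        ((pr P.B n * pr P.B (∑ q ∈ A.erase p, Eb P T q) : ℝ) : ℂ) *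
        ∏ q ∈ A.erase p, yy3 P T q else 0) =
      ∑ p ∈ PS P T, ((zz3 c P T p : ℝ) : ℂ) * ∑ n ∈ Finset.range (P.B + 1),
        if n + Eb P T p ≤ P.B then ((pr P.B n * pr P.B (n + Eb P T p) : ℝ) : ℂ) *
          qq ((PS P T).erase p) (Eb P T) (yy3 P T) n else 0 := by
    rw [Finset.sum_congr rfl (fun n _ => Finset.sum_comm), Finset.sum_comm]
    apply Finset.sum_congr rfl
    intro p hp
    -- both sides as sums over A' ⊆ PS.erase p
    rw [Finset.mul_sum]
    have hL1 : ∀ n ∈ Finset.range (P.B + 1), ∑ A ∈ (PS P T).powerset.filter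
        (fun A => ∑ p ∈ A, Eb P T p = n), (if p ∈ A then ((zz3 c P T p : ℝ) : ℂ) *
        ((pr P.B n * pr P.B (∑ q ∈ A.erase p, Eb P T q) : ℝ) : ℂ) *
        ∏ q ∈ A.erase p, yy3 P T q else 0) =
        ∑ A ∈ ((PS P T).erase p).powerset.filter (fun A => ∑ q ∈ A, Eb P T q + Eb P T p = n),
        ((zz3 c P T p : ℝ) : ℂ) *
        ((pr P.B n * pr P.B (∑ q ∈ A, Eb P T q) : ℝ) : ℂ) *
        ∏ q ∈ A, yy3 P T q := by
      intro n _
      rw [← Finset.sum_filter]
      refine Finset.sum_bij' (fun A _ => A.erase p) (fun A _ => insert p A) ?_ ?_ ?_ ?_ ?_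
      · intro A hA
        simp only [Finset.mem_filter, Finset.mem_powerset] at hA ⊢
        refine ⟨Finset.erase_subset_erase _ hA.1.1, ?_⟩
        rw [Finset.sum_erase_add _ _ hA.2]
        exact hA.1.2
      · intro A hA
        simp only [Finset.mem_filter, Finset.mem_powerset] at hA ⊢
        have hpA : p ∉ A := fun h => (Finset.mem_erase.mp (hA.1 h)).1 rfl
        refine ⟨⟨?_, ?_⟩, Finset.mem_insert_self _ _⟩
        · intro q hq
          rcases Finset.mem_insert.mp hq with h | h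
          · exact h ▸ hp
          · exact Finset.mem_of_mem_erase (hA.1 h)
        · rw [Finset.sum_insert hpA, add_comm]
          exact hA.2
      · intro A hA
        simp only [Finset.mem_filter, Finset.mem_powerset] at hA
        exact Finset.insert_erase hA.2
      · intro A hA
        simp only [Finset.mem_filter, Finset.mem_powerset] at hA
        exact Finset.erase_insert fun h => (Finset.mem_erase.mp (hA.1 h)).1 rfl
      · intro A hA
        rfl
    rw [Finset.sum_congr rfl hL1]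
    have hR1 : ∀ n ∈ Finset.range (P.B + 1), ((zz3 c P T p : ℝ) : ℂ) *
        (if n + Eb P T p ≤ P.B then ((pr P.B n * pr P.B (n + Eb P T p) : ℝ) : ℂ) *
          qq ((PS P T).erase p) (Eb P T) (yy3 P T) n else 0) =
        ∑ A ∈ ((PS P T).erase p).powerset.filter (fun A => ∑ q ∈ A, Eb P T q = n),
        if n + Eb P T p ≤ P.B then ((zz3 c P T p : ℝ) : ℂ) *
        ((pr P.B (∑ q ∈ A, Eb P T q + Eb P T p) * pr P.B (∑ q ∈ A, Eb P T q) : ℝ) : ℂ) *
        ∏ q ∈ A, yy3 P T q else 0 := by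
      intro n _
      split_ifs with h
      · unfold qq
        rw [Finset.mul_sum, Finset.mul_sum]
        apply Finset.sum_congr rfl
        intro A hA
        simp only [Finset.mem_filter] at hA
        rw [hA.2]
        push_cast
        ring
      · simp
    rw [Finset.sum_congr rfl hR1]
    -- both are sums over the A with energy + E_p ≤ B
    set F : Finset ℕ → ℂ := fun A => ((zz3 c P T p : ℝ) : ℂ) *
        ((pr P.B (∑ q ∈ A, Eb P T q + Eb P T p) * pr P.B (∑ q ∈ A, Eb P T q) : ℝ) : ℂ) *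
        ∏ q ∈ A, yy3 P T q with hF
    have hA1 : ∑ n ∈ Finset.range (P.B + 1), ∑ A ∈ ((PS P T).erase p).powerset.filter
        (fun A => ∑ q ∈ A, Eb P T q + Eb P T p = n),
        ((zz3 c P T p : ℝ) : ℂ) *
        ((pr P.B n * pr P.B (∑ q ∈ A, Eb P T q) : ℝ) : ℂ) *
        ∏ q ∈ A, yy3 P T q =
        ∑ A ∈ ((PS P T).erase p).powerset.filter
          (fun A => ∑ q ∈ A, Eb P T q + Eb P T p ≤ P.B), F A := by
      rw [← Finset.sum_fiberwise_of_maps_to
        (s := ((PS P T).erase p).powerset.filter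
          (fun A => ∑ q ∈ A, Eb P T q + Eb P T p ≤ P.B))
        (t := Finset.range (P.B + 1)) (g := fun A => ∑ q ∈ A, Eb P T q + Eb P T p)
        (fun A hA => by
          rw [Finset.mem_filter] at hA
          rw [Finset.mem_range]
          omega)]
      apply Finset.sum_congr rfl
      intro n hn
      rw [Finset.mem_range] at hn
      apply Finset.sum_congr
      · ext A
        simp only [Finset.mem_filter]
        constructor
        · rintro ⟨h1, h2⟩
          exact ⟨⟨h1, by omega⟩, h2⟩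
        · rintro ⟨⟨h1, _⟩, h2⟩
          exact ⟨h1, h2⟩
      · intro A hA
        simp only [Finset.mem_filter] at hA
        rw [hF, ← hA.2]
    have hA2 : ∑ n ∈ Finset.range (P.B + 1), ∑ A ∈ ((PS P T).erase p).powerset.filter
        (fun A => ∑ q ∈ A, Eb P T q = n), (if n + Eb P T p ≤ P.B then F A else 0) =
        ∑ A ∈ ((PS P T).erase p).powerset.filter
          (fun A => ∑ q ∈ A, Eb P T q + Eb P T p ≤ P.B), F A := by
      rw [← Finset.sum_fiberwise_of_maps_to
        (s := ((PS P T).erase p).powerset.filter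
          (fun A => ∑ q ∈ A, Eb P T q + Eb P T p ≤ P.B))
        (t := Finset.range (P.B + 1)) (g := fun A => ∑ q ∈ A, Eb P T q)
        (fun A hA => by
          rw [Finset.mem_filter] at hA
          rw [Finset.mem_range]
          omega)]
      apply Finset.sum_congr rfl
      intro n hn
      by_cases h : n + Eb P T p ≤ P.B
      · simp only [if_pos h]
        apply Finset.sum_congr _ fun _ _ => rfl
        ext A
        simp only [Finset.mem_filter]
        constructor
        · rintro ⟨h1, h2⟩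
          exact ⟨⟨h1, by omega⟩, h2⟩
        · rintro ⟨⟨h1, _⟩, h2⟩
          exact ⟨h1, h2⟩
      · simp only [if_neg h, Finset.sum_const_zero]
        symm
        apply Finset.sum_eq_zero
        intro A hA
        simp only [Finset.mem_filter] at hA
        omega
    rw [hA1, ← hA2]
  rw [h2, Complex.re_sum]
  apply Finset.sum_congr rfl
  intro p _
  rw [Complex.re_ofReal_mul, Complex.re_sum]
  congr 1
  apply Finset.sum_congr rfl
  intro n _
  split_ifs
  · rw [Complex.re_ofReal_mul]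
  · simp

end LG
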